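import Pool.Agent.Helper93.AR.X3

set_option autoImplicit false

/-! # Project AR, piece X4: the Euler product -/

namespace Pool.Agent.Helper93.AR

open Finset
open Pool.Agent.Helper21.EN (rad pc rest Tri)

/-- The factor at `p` of the constant. -/
noncomputable def Lp (p : ℕ) : ℝ :=
  (1 - 1 / (p : ℝ)) * (1 - 2 / (p : ℝ)) +
    3 * (1 - 1 / (p : ℝ)) ^ 2 / ((p : ℝ) - (p : ℝ) ^ (2 / 3 : ℝ))

open scoped Classical in
/-- The full sum over `e` prime to `q`. -/
noncomputable def Sq (q : ℕ) : ℝ := ∑' e : ℕ, if e.Coprime q then KK e else 0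

private theorem x4a_KK_zero : KK 0 = 0 := by simp [KK]

private theorem x4a_KK_one : KK 1 = 1 := by simp [KK, kap2_one]

private theorem x4a_high (p k : ℕ) (hp : p.Prime) (hk : 2 ≤ k) : KK (p ^ k) = 0 := by
  have h1 : ArithmeticFunction.moebius (p ^ k) = 0 := by
    rw [ArithmeticFunction.moebius_apply_prime_pow hp (by omega), if_neg (by omega)]
  simp [KK, h1]

private theorem x4a_sum (p : ℕ) (hp : p.Prime) : ∑' k : ℕ, KK (p ^ k) = uu p := by
  rw [tsum_eq_sum (s := Finset.range 2)]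
  · rw [Finset.sum_range_succ, Finset.sum_range_one, pow_zero, pow_one, x4a_KK_one]
    unfold KK uu
    rw [ArithmeticFunction.moebius_apply_prime hp]
    push_cast
    ring
  · intro k hk
    rw [Finset.mem_range, not_lt] at hk
    exact x4a_high p k hp hk

/-- PIECE AR-X4a (`hasProd_uu`, `Sq_eq`; 120 lines).
PROOF.  `EulerProduct.eulerProduct_hasProd` for `KK` (`KK_mul`, `KK_summable`): `∑' k, KK (p^k) =
1 - kap2 p = uu p` (`μ(p) = -1`, `μ(p^k) = 0`, `k ≥ 2`). -/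
theorem hasProd_uu : HasProd (fun p : Nat.Primes => uu p) (∑' e : ℕ, KK e) := by
  have h := EulerProduct.eulerProduct_hasProd (f := KK) x4a_KK_one
    (fun {m n} h => KK_mul m n h) KK_summable x4a_KK_zero
  have h2 : (fun p : Nat.Primes => uu p) = fun p : Nat.Primes => ∑' k : ℕ, KK ((p : ℕ) ^ k) :=
    funext fun p => (x4a_sum p p.2).symm
  rw [h2]
  exact h

/-- PROOF.  `EulerProduct.eulerProduct_hasProd` for `e ↦ if e.Coprime q then KK e else 0`
(multiplicative: `m n` is prime to `q` iff both are; summable by comparison): the factor at `p` is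
`uu p` if `p ∤ q` and `1` otherwise, i.e. `uu p * (if p ∣ q then (uu p)⁻¹ else 1)`, and the second
factors have the finite product `∏_(p ∣ q) (uu p)⁻¹` (`hasProd_prod_of_ne_finset_one`, injectivity of
`Nat.Primes → ℕ`); `HasProd.mul`, uniqueness. -/
theorem Sq_eq (q : ℕ) (hq : 0 < q) :
    Sq q = (∑' e : ℕ, KK e) * ∏ p ∈ q.primeFactors, (uu p)⁻¹ := by
  classical
  let f : ℕ → ℝ := fun e => if e.Coprime q then KK e else 0
  have hf0 : f 0 = 0 := by
    simp only [f]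
    split_ifs
    · exact x4a_KK_zero
    · rfl
  have hf1 : f 1 = 1 := by
    simp only [f]
    rw [if_pos (Nat.coprime_one_left q), x4a_KK_one]
  have hfm : ∀ {m n : ℕ}, m.Coprime n → f (m * n) = f m * f n := by
    intro m n h
    simp only [f]
    by_cases hm : m.Coprime q
    · by_cases hn : n.Coprime q
      · rw [if_pos (Nat.coprime_mul_iff_left.2 ⟨hm, hn⟩), if_pos hm, if_pos hn, KK_mul m n h]
      · rw [if_neg (fun h' => hn (Nat.coprime_mul_iff_left.1 h').2), if_neg hn, mul_zero]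
    · rw [if_neg (fun h' => hm (Nat.coprime_mul_iff_left.1 h').1), if_neg hm, zero_mul]
  have hfa : ∀ e, ‖f e‖ ≤ |KK e| := by
    intro e
    rw [Real.norm_eq_abs]
    simp only [f]
    split_ifs
    · exact le_rfl
    · rw [abs_zero]; exact abs_nonneg _
  have hfs : Summable (fun e => ‖f e‖) :=
    Summable.of_nonneg_of_le (fun e => norm_nonneg _) hfa KK_summable
  have h := EulerProduct.eulerProduct_hasProd (f := f) hf1 hfm hfs hf0
  have hS : Sq q = ∑' e, f e := by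
    unfold Sq
    refine tsum_congr (fun e => ?_)
    simp only [f]
  have hk : ∀ p : ℕ, p.Prime → ∑' k : ℕ, f (p ^ k) = uu p * (if p ∣ q then (uu p)⁻¹ else 1) := by
    intro p hp
    have hu : uu p ≠ 0 := by
      have := (uu_bounds p hp).1
      intro h
      rw [h] at this
      norm_num at this
    by_cases hd : p ∣ q
    · rw [if_pos hd, mul_inv_cancel₀ hu, tsum_eq_single 0, pow_zero, hf1]
      intro k hk
      simp only [f]
      rw [if_neg]
      intro hc
      have h1 : p ∣ p ^ k := dvd_pow_self p hk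
      exact hp.one_lt.ne' (Nat.eq_one_of_dvd_coprimes hc h1 hd)
    · rw [if_neg hd, mul_one, ← x4a_sum p hp]
      refine tsum_congr (fun k => ?_)
      simp only [f]
      rw [if_pos (((Nat.Prime.coprime_iff_not_dvd hp).2 hd).pow_left k)]
  have h2 : HasProd (fun p : Nat.Primes => (if (p : ℕ) ∣ q then (uu p)⁻¹ else 1))
      (∏ p ∈ q.primeFactors, (uu p)⁻¹) := by
    have h3 := hasProd_prod_of_ne_finset_one (L := SummationFilter.unconditional Nat.Primes)
      (f := fun p : Nat.Primes => (if (p : ℕ) ∣ q then (uu p)⁻¹ else 1))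
      (s := q.primeFactors.subtype Nat.Prime) (by
        intro p hp
        refine if_neg (fun hd => hp ?_)
        exact Finset.mem_subtype.2 (Nat.mem_primeFactors.2 ⟨p.2, hd, hq.ne'⟩))
    have h4 : (∏ b ∈ q.primeFactors.subtype Nat.Prime,
        (if (b : ℕ) ∣ q then (uu b)⁻¹ else 1)) = ∏ p ∈ q.primeFactors, (uu p)⁻¹ := by
      rw [Finset.prod_subtype_of_mem (s := q.primeFactors) (p := Nat.Prime)
        (f := fun p : ℕ => (if p ∣ q then (uu p)⁻¹ else 1))
        (fun x hx => (Nat.mem_primeFactors.1 hx).1)]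
      refine Finset.prod_congr rfl (fun p hp => ?_)
      rw [if_pos (Nat.mem_primeFactors.1 hp).2.1]
    rw [← h4]
    exact h3
  have h5 := hasProd_uu.mul h2
  have h6 : (fun p : Nat.Primes => ∑' k : ℕ, f ((p : ℕ) ^ k)) =
      fun p : Nat.Primes => uu p * (if (p : ℕ) ∣ q then (uu p)⁻¹ else 1) :=
    funext fun p => hk p p.2
  rw [h6] at h
  rw [hS]
  exact h.unique h5

/-- PIECE AR-X4b (`cD_tendsto`; 120 lines).
PROOF.  For `q` in the sum `cD D` (`0 < q`, `rest {1} q = q`): `sig q E = kap1 q ∑_(e ≤ E, (e,q)=1) KK e`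
(`rho_eq`), so the summand is `Gq q * S(q, D^6)` with `S(q,E)` this partial sum, and
`|S(q,E) - Sq q| ≤ ∑_(e > E) |KK e| =: τ(E) → 0` (`KK_summable`).  So
`|cD D - ∑_(q ≤ D) Gq q Sq q| ≤ τ(D^6) ∑' Gq → 0`, and `∑_(q ≤ D) Gq q Sq q → ∑' Gq q Sq q` as
`|Sq q| ≤ ∑' |KK|` (`Gq q = 0` for the other `q`; `Summable.hasSum.tendsto_sum_nat` with
`range (D+1)`). -/
theorem cD_tendsto : Filter.Tendsto cD Filter.atTop (nhds (∑' q : ℕ, Gq q * Sq q)) := by
  classical
  have hKK0 : KK 0 = 0 := by simp [KK]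
  have hKs : Summable (fun e => |KK e|) := KK_summable
  have hGnn : ∀ q, 0 ≤ Gq q := by
    intro q
    unfold Gq
    split_ifs
    · exact mul_nonneg (dens_le_one _ _).1 (Real.rpow_nonneg (by positivity) _)
    · exact le_rfl
  have hGs : Summable Gq := Gq_summable
  let F : ℕ → ℕ → ℝ := fun q e => if e.Coprime q then KK e else 0
  have hFa : ∀ q e, |F q e| ≤ |KK e| := by
    intro q e
    simp only [F]
    split_ifs
    · exact le_rfl
    · rw [abs_zero]; exact abs_nonneg _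
  have hFs : ∀ q, Summable (F q) := fun q =>
    Summable.of_norm_bounded hKs (fun e => by rw [Real.norm_eq_abs]; exact hFa q e)
  have hSq : ∀ q, Sq q = ∑' e, F q e := by
    intro q
    unfold Sq
    refine tsum_congr (fun e => ?_)
    simp only [F]
  have hτ : Filter.Tendsto (fun i => ∑' k, |KK (k + i)|) Filter.atTop (nhds 0) :=
    tendsto_sum_nat_add (fun e => |KK e|)
  have hpart : ∀ q E, |∑ e ∈ Finset.range E, F q e - Sq q| ≤ ∑' k, |KK (k + E)| := by
    intro q E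
    have h1 := (hFs q).sum_add_tsum_nat_add E
    rw [hSq, ← h1]
    have h2 : ∑ e ∈ Finset.range E, F q e -
        (∑ e ∈ Finset.range E, F q e + ∑' i, F q (i + E)) = -(∑' i, F q (i + E)) := by ring
    rw [h2, abs_neg]
    have h3 := tsum_of_norm_bounded (f := fun i => F q (i + E))
      ((summable_nat_add_iff E).2 hKs).hasSum (fun i => by
        rw [Real.norm_eq_abs]; exact hFa q (i + E))
    rwa [Real.norm_eq_abs] at h3
  have hSb : ∀ q, |Sq q| ≤ ∑' e, |KK e| := by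
    intro q
    rw [hSq]
    have h3 := tsum_of_norm_bounded (f := F q) hKs.hasSum (fun i => by
        rw [Real.norm_eq_abs]; exact hFa q i)
    rwa [Real.norm_eq_abs] at h3
  have hsum : Summable (fun q => Gq q * Sq q) := by
    refine Summable.of_norm_bounded (hGs.mul_right (∑' e, |KK e|)) (fun q => ?_)
    rw [Real.norm_eq_abs, abs_mul, abs_of_nonneg (hGnn q)]
    exact mul_le_mul_of_nonneg_left (hSb q) (hGnn q)
  have hcD : ∀ D, cD D = ∑ q ∈ Finset.range (D + 1), Gq q *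
      ∑ e ∈ Finset.range (D ^ 6 + 1), F q e := by
    intro D
    unfold cD
    rw [← Finset.sum_subset (s₁ := (Icc 1 D).filter (fun q => rest {1} q = q))
      (s₂ := Finset.range (D + 1)) (f := fun q => Gq q *
        ∑ e ∈ Finset.range (D ^ 6 + 1), F q e)]
    · refine Finset.sum_congr rfl (fun q hq => ?_)
      rw [Finset.mem_filter, Finset.mem_Icc] at hq
      obtain ⟨⟨hq1, hqD⟩, hq2⟩ := hq
      have hq0 : 0 < q := hq1
      have hG : Gq q = kap1 q * ((q : ℝ) / (rad q : ℝ)) ^ (2 / 3 : ℝ) := by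
        unfold Gq
        rw [if_pos ⟨hq0, hq2⟩]
      have hsig : sig q (D ^ 6) = kap1 q * ∑ e ∈ Finset.range (D ^ 6 + 1), F q e := by
        unfold sig
        rw [← Finset.sum_subset (s₁ := (Icc 1 (D ^ 6)).filter (fun e => e.Coprime q))
          (s₂ := Finset.range (D ^ 6 + 1)) (f := F q), Finset.mul_sum]
        · refine Finset.sum_congr rfl (fun e he => ?_)
          rw [Finset.mem_filter, Finset.mem_Icc] at he
          obtain ⟨⟨he1, _⟩, he2⟩ := he
          rw [rho_eq q e hq0 he1 he2]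
          simp only [F, if_pos he2, KK]
          ring
        · intro e he
          rw [Finset.mem_filter, Finset.mem_Icc] at he
          rw [Finset.mem_range]
          omega
        · intro e he hne
          rw [Finset.mem_range] at he
          rw [Finset.mem_filter, Finset.mem_Icc] at hne
          simp only [F]
          split_ifs with hc
          · rcases Nat.eq_zero_or_pos e with h | h
            · rw [h, hKK0]
            · exact absurd ⟨⟨h, by omega⟩, hc⟩ hne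
          · rfl
      rw [hG, hsig]
      ring
    · intro q hq
      rw [Finset.mem_filter, Finset.mem_Icc] at hq
      rw [Finset.mem_range]
      omega
    · intro q hq hne
      rw [Finset.mem_range] at hq
      rw [Finset.mem_filter, Finset.mem_Icc] at hne
      have hG : Gq q = 0 := by
        unfold Gq
        rw [if_neg]
        rintro ⟨h1, h2⟩
        exact hne ⟨⟨h1, by omega⟩, h2⟩
      rw [hG, zero_mul]
  have hG1 : Filter.Tendsto (fun D => ∑ q ∈ Finset.range (D + 1), Gq q * Sq q) Filter.atTop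
      (nhds (∑' q : ℕ, Gq q * Sq q)) :=
    hsum.hasSum.tendsto_sum_nat.comp (Filter.tendsto_add_atTop_nat 1)
  have hpow : Filter.Tendsto (fun D : ℕ => D ^ 6 + 1) Filter.atTop Filter.atTop :=
    (Filter.tendsto_add_atTop_nat 1).comp
      (Filter.tendsto_pow_atTop (by norm_num : (6 : ℕ) ≠ 0))
  have hG2 : Filter.Tendsto (fun D => cD D - ∑ q ∈ Finset.range (D + 1), Gq q * Sq q)
      Filter.atTop (nhds 0) := by
    have hb : Filter.Tendsto (fun D : ℕ => (∑' q, Gq q) * ∑' k, |KK (k + (D ^ 6 + 1))|)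
        Filter.atTop (nhds 0) := by
      have := (hτ.comp hpow).const_mul (∑' q, Gq q)
      rwa [mul_zero] at this
    refine squeeze_zero_norm (fun D => ?_) hb
    rw [Real.norm_eq_abs, hcD, ← Finset.sum_sub_distrib]
    refine (Finset.abs_sum_le_sum_abs _ _).trans ?_
    have h1 : ∀ q ∈ Finset.range (D + 1), |Gq q * ∑ e ∈ Finset.range (D ^ 6 + 1), F q e -
        Gq q * Sq q| ≤ Gq q * ∑' k, |KK (k + (D ^ 6 + 1))| := by
      intro q _
      rw [← mul_sub, abs_mul, abs_of_nonneg (hGnn q)]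
      exact mul_le_mul_of_nonneg_left (hpart q _) (hGnn q)
    refine (Finset.sum_le_sum h1).trans ?_
    rw [← Finset.sum_mul]
    refine mul_le_mul_of_nonneg_right ?_ (tsum_nonneg (fun _ => abs_nonneg _))
    exact hGs.sum_le_tsum _ (fun q _ => hGnn q)
  have h3 := hG2.add hG1
  rw [zero_add] at h3
  refine h3.congr (fun D => ?_)
  ring

private theorem x4c_Gq_zero : Gq 0 = 0 := by
  unfold Gq
  rw [if_neg (fun h => absurd h.1 (lt_irrefl 0))]

private theorem x4c_Gu_zero : Gu 0 = 0 := by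
  unfold Gu
  rw [x4c_Gq_zero, zero_mul]

private theorem x4c_Gq_one : Gq 1 = 1 := by
  have h := Gq_prime_pow 2 0 Nat.prime_two
  rwa [pow_zero, if_pos rfl] at h

private theorem x4c_Gu_one : Gu 1 = 1 := by
  unfold Gu
  rw [x4c_Gq_one, Nat.primeFactors_one, Finset.prod_empty, mul_one]

private theorem x4c_Gu_mul (m n : ℕ) (h : m.Coprime n) : Gu (m * n) = Gu m * Gu n := by
  unfold Gu
  rw [Gq_mul m n h, h.primeFactors_mul, Finset.prod_union h.disjoint_primeFactors]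
  ring

private theorem x4c_x (p : ℕ) (hp : p.Prime) : 0 < (p : ℝ) ^ (-(1 / 3 : ℝ)) ∧
    (p : ℝ) ^ (-(1 / 3 : ℝ)) < 1 ∧ ((p : ℝ) ^ (-(1 / 3 : ℝ))) ^ 3 = 1 / (p : ℝ) ∧
    (p : ℝ) ^ (-(2 / 3 : ℝ)) = ((p : ℝ) ^ (-(1 / 3 : ℝ))) ^ 2 ∧
    (p : ℝ) ^ (2 / 3 : ℝ) = p * (p : ℝ) ^ (-(1 / 3 : ℝ)) := by
  have h1 : (1 : ℝ) < p := by exact_mod_cast hp.one_lt
  have h0 : (0 : ℝ) < p := by linarith
  refine ⟨Real.rpow_pos_of_pos h0 _, Real.rpow_lt_one_of_one_lt_of_neg h1 (by norm_num), ?_, ?_, ?_⟩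
  · rw [← Real.rpow_natCast, ← Real.rpow_mul h0.le]
    have : -(1 / 3 : ℝ) * ((3 : ℕ) : ℝ) = -1 := by norm_num
    rw [this, Real.rpow_neg_one, one_div]
  · rw [← Real.rpow_natCast, ← Real.rpow_mul h0.le]
    congr 1
    norm_num
  · nth_rw 2 [← Real.rpow_one (p : ℝ)]
    rw [← Real.rpow_add h0]
    congr 1
    norm_num

private theorem x4c_sum (p : ℕ) (hp : p.Prime) : ∑' k : ℕ, Gu (p ^ k) =
    1 + (uu p)⁻¹ * (3 * (1 - 1 / (p : ℝ)) ^ 2 * (p : ℝ) ^ (-(2 / 3 : ℝ)) *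
      ((p : ℝ) ^ (-(1 / 3 : ℝ))) ^ 2 / (1 - (p : ℝ) ^ (-(1 / 3 : ℝ)))) := by
  obtain ⟨hx0, hx1, -, -, -⟩ := x4c_x p hp
  set x := (p : ℝ) ^ (-(1 / 3 : ℝ)) with hx
  set c := 3 * (1 - 1 / (p : ℝ)) ^ 2 * (p : ℝ) ^ (-(2 / 3 : ℝ)) with hc
  have h2 : ∀ k : ℕ, Gu (p ^ (k + 2)) = (uu p)⁻¹ * (c * x ^ 2) * x ^ k := by
    intro k
    unfold Gu
    rw [Gq_prime_pow p (k + 2) hp, if_neg (by omega), if_neg (by omega),
      Nat.primeFactors_prime_pow (by omega) hp, Finset.prod_singleton, ← hx, ← hc]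
    ring
  have h3 : HasSum (fun k : ℕ => Gu (p ^ (k + 2))) ((uu p)⁻¹ * (c * x ^ 2) * (1 - x)⁻¹) := by
    have h := (hasSum_geometric_of_lt_one hx0.le hx1).mul_left ((uu p)⁻¹ * (c * x ^ 2))
    have h' : (fun k : ℕ => Gu (p ^ (k + 2))) =
        fun k : ℕ => (uu p)⁻¹ * (c * x ^ 2) * x ^ k := funext h2
    rw [h']
    exact h
  have h4 : Gu (p ^ 0) = 1 := by rw [pow_zero, x4c_Gu_one]
  have h5 : Gu (p ^ 1) = 0 := by
    unfold Gu
    rw [Gq_prime_pow p 1 hp, if_neg one_ne_zero, if_pos rfl, zero_mul]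
  have h6 : HasSum (fun k : ℕ => Gu (p ^ k)) ((uu p)⁻¹ * (c * x ^ 2) * (1 - x)⁻¹ +
      ∑ i ∈ Finset.range 2, Gu (p ^ i)) :=
    (hasSum_nat_add_iff (f := fun k : ℕ => Gu (p ^ k)) 2).1 h3
  rw [h6.tsum_eq, Finset.sum_range_succ, Finset.sum_range_one, h4, h5]
  rw [div_eq_mul_inv]
  ring

private theorem x4c_alg (p : ℕ) (hp : p.Prime) : Lp p =
    uu p * (1 + (uu p)⁻¹ * (3 * (1 - 1 / (p : ℝ)) ^ 2 * (p : ℝ) ^ (-(2 / 3 : ℝ)) *
      ((p : ℝ) ^ (-(1 / 3 : ℝ))) ^ 2 / (1 - (p : ℝ) ^ (-(1 / 3 : ℝ))))) := by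
  obtain ⟨hx0, hx1, hx3, hx2, hxp⟩ := x4c_x p hp
  have hu : uu p ≠ 0 := by
    have := (uu_bounds p hp).1
    intro h
    rw [h] at this
    norm_num at this
  have h0 : (0 : ℝ) < p := by exact_mod_cast hp.pos
  unfold Lp
  rw [hxp, hx2, mul_add, mul_one, mul_inv_cancel_left₀ hu]
  have hu2 : uu p = 1 - (4 * (p : ℝ) - 3) / (p : ℝ) ^ 3 := by
    unfold uu
    rw [kap2_prime p hp]
  rw [hu2]
  set x := (p : ℝ) ^ (-(1 / 3 : ℝ)) with hx
  have h1x : 1 - x ≠ 0 := by
    have : 0 < 1 - x := by linarith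
    exact this.ne'
  have h4 : x ^ 2 * x ^ 2 = x / p := by
    calc x ^ 2 * x ^ 2 = x ^ 3 * x := by ring
      _ = x / p := by rw [hx3]; ring
  have h5 : 3 * (1 - 1 / (p : ℝ)) ^ 2 * x ^ 2 * x ^ 2 / (1 - x) =
      3 * (1 - 1 / (p : ℝ)) ^ 2 * (x / p) / (1 - x) := by
    rw [mul_assoc _ (x ^ 2) (x ^ 2), h4]
  rw [h5]
  have h6 : (p : ℝ) - p * x = p * (1 - x) := by ring
  rw [h6]
  field_simp
  ring

/-- PIECE AR-X4c (`const_eq`; 120 lines).
PROOF.  By `Sq_eq` the sum is `(∑' KK) ∑' Gu` (for `q = 0` both sides vanish).  Euler product for `Gu`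
(multiplicative, `Gu_summable`, nonnegative): `∑' k, Gu (p^k) = 1 + (uu p)⁻¹ ∑_(k ≥ 2) Gq (p^k)`.
`HasProd.mul` with `hasProd_uu`: the factor at `p` is `uu p + ∑_(k ≥ 2) Gq (p^k) = 1 - (4p-3)/p^3 +
3 (1-1/p)^2 p^(-4/3)/(1 - p^(-1/3))`, and this is `Lp p`: `1 - (4p-3)/p^3 = (1-1/p)(1-2/p) +
3 (1-1/p)^2/p`, and with `x = p^(-1/3)` (`p^(-4/3) = x/p`): `3 (1-1/p)^2/p (1 + x/(1-x)) =
3 (1-1/p)^2/(p (1-x))`, `p (1 - x) = p - p^(2/3)`. -/
theorem const_eq : HasProd (fun p : Nat.Primes => Lp p) (∑' q : ℕ, Gq q * Sq q) := by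
  have h1 : (∑' q : ℕ, Gq q * Sq q) = (∑' e : ℕ, KK e) * ∑' q : ℕ, Gu q := by
    rw [← tsum_mul_left]
    refine tsum_congr fun q => ?_
    rcases Nat.eq_zero_or_pos q with hq | hq
    · rw [hq, x4c_Gu_zero, x4c_Gq_zero, zero_mul, mul_zero]
    · rw [Sq_eq q hq, Gu]
      ring
  rw [h1]
  have h2 : HasProd (fun p : Nat.Primes => ∑' k : ℕ, Gu ((p : ℕ) ^ k)) (∑' q : ℕ, Gu q) :=
    EulerProduct.eulerProduct_hasProd x4c_Gu_one (fun {m n} h => x4c_Gu_mul m n h)
      Gu_summable.norm x4c_Gu_zero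
  have h3 := hasProd_uu.mul h2
  have h4 : (fun p : Nat.Primes => Lp p) =
      fun p : Nat.Primes => uu p * ∑' k : ℕ, Gu ((p : ℕ) ^ k) := by
    funext p
    rw [x4c_sum p p.2, x4c_alg p p.2]
  rw [h4]
  exact h3

end Pool.Agent.Helper93.AR
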