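import Pool.Agent.Helper93.AR.Defs

set_option autoImplicit false

/-! # Project AR, piece X5: the area of `xy(x+y) ≤ 1` -/

namespace Pool.Agent.Helper93.AR

open Finset MeasureTheory

private lemma x5_meas : MeasurableSet
    {p : ℝ × ℝ | 0 < p.1 ∧ 0 < p.2 ∧ p.1 * p.2 * (p.1 + p.2) ≤ 1} := by
  refine MeasurableSet.inter ?_ (MeasurableSet.inter ?_ ?_)
  · exact measurableSet_lt measurable_const measurable_fst
  · exact measurableSet_lt measurable_const measurable_snd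
  · exact measurableSet_le (f := fun p : ℝ × ℝ => p.1 * p.2 * (p.1 + p.2)) (by fun_prop)
      measurable_const

/-- the integrand after the substitution -/
private noncomputable def x5F (x r : ℝ) : ENNReal :=
  if x ^ 3 * (r * (1 + r)) ≤ 1 then ENNReal.ofReal x else 0

private lemma x5F_meas : Measurable (Function.uncurry x5F) := by
  unfold x5F Function.uncurry
  exact Measurable.ite (measurableSet_le (by fun_prop) measurable_const) (by fun_prop)
    measurable_const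

private lemma x5_section {x : ℝ} (hx : 0 < x) :
    volume (Prod.mk x ⁻¹' {p : ℝ × ℝ | 0 < p.1 ∧ 0 < p.2 ∧ p.1 * p.2 * (p.1 + p.2) ≤ 1})
      = ∫⁻ r in Set.Ioi (0 : ℝ), x5F x r := by
  have hU : MeasurableSet {r : ℝ | 0 < r ∧ x ^ 3 * (r * (1 + r)) ≤ 1} := by
    refine MeasurableSet.inter ?_ ?_
    · exact measurableSet_lt measurable_const measurable_id
    · exact measurableSet_le (f := fun r : ℝ => x ^ 3 * (r * (1 + r))) (by fun_prop)
        measurable_const
  have h1 : Prod.mk x ⁻¹' {p : ℝ × ℝ | 0 < p.1 ∧ 0 < p.2 ∧ p.1 * p.2 * (p.1 + p.2) ≤ 1}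
      = (fun y => x⁻¹ * y) ⁻¹' {r : ℝ | 0 < r ∧ x ^ 3 * (r * (1 + r)) ≤ 1} := by
    ext y
    simp only [Set.mem_preimage, Set.mem_setOf_eq]
    have e1 : x ^ 3 * (x⁻¹ * y * (1 + x⁻¹ * y)) = x * y * (x + y) := by
      field_simp
    rw [e1, mul_pos_iff_of_pos_left (inv_pos.mpr hx)]
    tauto
  rw [h1, Real.volume_preimage_mul_left (inv_ne_zero hx.ne'), inv_inv, abs_of_pos hx,
    ← lintegral_indicator measurableSet_Ioi, ← lintegral_indicator_const hU]
  refine lintegral_congr fun r => ?_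
  by_cases hr : 0 < r
  · by_cases h2 : x ^ 3 * (r * (1 + r)) ≤ 1
    · rw [Set.indicator_of_mem (show r ∈ {r : ℝ | 0 < r ∧ x ^ 3 * (r * (1 + r)) ≤ 1} from ⟨hr, h2⟩),
        Set.indicator_of_mem (show r ∈ Set.Ioi (0 : ℝ) from hr)]
      unfold x5F
      rw [if_pos h2]
    · rw [Set.indicator_of_notMem (fun h => h2 h.2),
        Set.indicator_of_mem (show r ∈ Set.Ioi (0 : ℝ) from hr)]
      unfold x5F
      rw [if_neg h2]
  · rw [Set.indicator_of_notMem (fun h => hr h.1),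
      Set.indicator_of_notMem (show r ∉ Set.Ioi (0 : ℝ) from hr)]

private lemma x5_inner {r : ℝ} (hr : 0 < r) :
    ∫⁻ x in Set.Ioi (0 : ℝ), x5F x r
      = ENNReal.ofReal ((r * (1 + r)) ^ (-(2 / 3) : ℝ) / 2) := by
  have hc : 0 < r * (1 + r) := by positivity
  set c : ℝ := r * (1 + r) with hcdef
  set T : ℝ := c ^ (-(1 / 3) : ℝ) with hT
  have hT0 : 0 < T := Real.rpow_pos_of_pos hc _
  have hT3 : T ^ 3 * c = 1 := by
    rw [hT, ← Real.rpow_natCast, ← Real.rpow_mul hc.le]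
    norm_num
    rw [Real.rpow_neg_one, inv_mul_cancel₀ hc.ne']
  have hT2 : T ^ 2 = c ^ (-(2 / 3) : ℝ) := by
    rw [hT, ← Real.rpow_natCast, ← Real.rpow_mul hc.le]
    norm_num
  have hiff : ∀ x : ℝ, 0 < x → (x ^ 3 * c ≤ 1 ↔ x ≤ T) := by
    intro x hx
    rw [← hT3, mul_le_mul_iff_left₀ hc]
    exact pow_le_pow_iff_left₀ hx.le hT0.le (by norm_num)
  have h1 : ∫⁻ x in Set.Ioi (0 : ℝ), x5F x r = ∫⁻ x in Set.Ioc (0 : ℝ) T, ENNReal.ofReal x := by
    rw [← lintegral_indicator measurableSet_Ioi, ← lintegral_indicator measurableSet_Ioc]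
    refine lintegral_congr fun x => ?_
    by_cases hx : 0 < x
    · rw [Set.indicator_of_mem (show x ∈ Set.Ioi (0 : ℝ) from hx)]
      unfold x5F
      by_cases h2 : x ≤ T
      · rw [Set.indicator_of_mem (show x ∈ Set.Ioc (0 : ℝ) T from ⟨hx, h2⟩),
          if_pos ((hiff x hx).mpr h2)]
      · rw [Set.indicator_of_notMem (fun h => h2 h.2), if_neg (fun h => h2 ((hiff x hx).mp h))]
    · rw [Set.indicator_of_notMem (show x ∉ Set.Ioi (0 : ℝ) from hx),
        Set.indicator_of_notMem (fun h => hx h.1)]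
  rw [h1, ← ofReal_integral_eq_lintegral_ofReal, ← intervalIntegral.integral_of_le hT0.le,
    integral_id, hT2]
  · congr 1
    norm_num
  · exact (continuous_id.integrableOn_Icc (a := 0) (b := T)).mono_set Set.Ioc_subset_Icc_self
  · filter_upwards [ae_restrict_mem measurableSet_Ioc] with x hx
    exact hx.1.le

private lemma x5_volume :
    volume {p : ℝ × ℝ | 0 < p.1 ∧ 0 < p.2 ∧ p.1 * p.2 * (p.1 + p.2) ≤ 1}
      = ∫⁻ r in Set.Ioi (0 : ℝ), ENNReal.ofReal ((r * (1 + r)) ^ (-(2 / 3) : ℝ) / 2) := by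
  rw [Measure.volume_eq_prod, Measure.prod_apply x5_meas]
  have h1 : ∫⁻ x : ℝ, volume (Prod.mk x ⁻¹'
      {p : ℝ × ℝ | 0 < p.1 ∧ 0 < p.2 ∧ p.1 * p.2 * (p.1 + p.2) ≤ 1})
      = ∫⁻ x in Set.Ioi (0 : ℝ), ∫⁻ r in Set.Ioi (0 : ℝ), x5F x r := by
    rw [← lintegral_indicator measurableSet_Ioi]
    refine lintegral_congr fun x => ?_
    by_cases hx : 0 < x
    · rw [Set.indicator_of_mem (show x ∈ Set.Ioi (0 : ℝ) from hx), x5_section hx]
    · rw [Set.indicator_of_notMem (show x ∉ Set.Ioi (0 : ℝ) from hx)]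
      have h2 : Prod.mk x ⁻¹' {p : ℝ × ℝ | 0 < p.1 ∧ 0 < p.2 ∧ p.1 * p.2 * (p.1 + p.2) ≤ 1}
          = ∅ := by
        ext y
        simp only [Set.mem_preimage, Set.mem_setOf_eq, Set.mem_empty_iff_false, iff_false]
        exact fun h => hx h.1
      rw [h2, measure_empty]
  rw [h1, lintegral_lintegral_swap x5F_meas.aemeasurable]
  exact setLIntegral_congr_fun measurableSet_Ioi (fun r hr => x5_inner hr)

private lemma x5_image : (fun r : ℝ => r / (1 + r)) '' Set.Ioi 0 = Set.Ioo 0 1 := by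
  ext u
  constructor
  · rintro ⟨r, hr, rfl⟩
    have hr' : (0 : ℝ) < r := hr
    constructor
    · positivity
    · simp only
      rw [div_lt_one (by positivity)]
      linarith
  · rintro ⟨h0, h1⟩
    have h2 : 0 < 1 - u := by linarith
    refine ⟨u / (1 - u), div_pos h0 h2, ?_⟩
    simp only
    have h3 : 1 + u / (1 - u) = 1 / (1 - u) := by
      field_simp
      ring
    rw [h3]
    field_simp

private lemma x5_beta :
    ∫⁻ r in Set.Ioi (0 : ℝ), ENNReal.ofReal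
      (1 / ProbabilityTheory.beta (1 / 3) (1 / 3) * (r * (1 + r)) ^ (-(2 / 3) : ℝ)) = 1 := by
  have h0 := ProbabilityTheory.lintegral_betaPDF_eq_one (α := 1 / 3) (β := 1 / 3) (by norm_num)
    (by norm_num)
  rw [ProbabilityTheory.lintegral_betaPDF, ← x5_image,
    lintegral_image_eq_lintegral_abs_deriv_mul measurableSet_Ioi
      (f' := fun r => 1 / (1 + r) ^ 2)] at h0
  · rw [← h0]
    refine setLIntegral_congr_fun measurableSet_Ioi (fun r hr => ?_)
    have hr' : (0 : ℝ) < r := hr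
    have h1 : 0 < 1 + r := by positivity
    rw [← ENNReal.ofReal_mul (abs_nonneg _), abs_of_pos (by positivity)]
    congr 1
    have e1 : 1 - r / (1 + r) = (1 + r)⁻¹ := by
      field_simp
      ring
    have e2 : (1 / 3 - 1 : ℝ) = -(2 / 3) := by norm_num
    rw [e1, e2, Real.div_rpow hr'.le h1.le, Real.inv_rpow h1.le, Real.mul_rpow hr'.le h1.le]
    have e3 : (1 + r) ^ (-(2 / 3) : ℝ) * (1 + r) ^ (-(2 / 3) : ℝ) * (1 + r) ^ (-(2 / 3) : ℝ)
        = ((1 + r) ^ 2)⁻¹ := by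
      rw [← Real.rpow_add h1, ← Real.rpow_add h1, ← Real.rpow_natCast, ← Real.rpow_neg h1.le]
      norm_num
    have h2 : 0 < (1 + r) ^ (-(2 / 3) : ℝ) := Real.rpow_pos_of_pos h1 _
    have e4 : (1 : ℝ) / (1 + r) ^ 2 = (1 + r) ^ (-(2 / 3) : ℝ) * (1 + r) ^ (-(2 / 3) : ℝ) *
        (1 + r) ^ (-(2 / 3) : ℝ) := by
      rw [e3, one_div]
    rw [e4]
    field_simp
  · intro r hr
    have hr' : (0 : ℝ) < r := hr
    have h1 : (1 + r) ≠ 0 := by positivity
    have h2 : HasDerivAt (fun r : ℝ => 1 + r) 1 r := (hasDerivAt_id r).const_add 1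
    have h3 := (hasDerivAt_id r).div h2 h1
    have h4 : (1 * (1 + r) - id r * 1) / (1 + r) ^ 2 = 1 / (1 + r) ^ 2 := by
      simp only [id]
      congr 1
      ring
    rw [h4] at h3
    exact h3.hasDerivWithinAt
  · intro x hx y hy hxy
    have hx' : (0 : ℝ) < x := hx
    have hy' : (0 : ℝ) < y := hy
    simp only at hxy
    rw [div_eq_div_iff (by positivity) (by positivity)] at hxy
    linarith

/-- PIECE AR-X5 (the whole file, 200 lines).  The area is `B(1/3,1/3)/2`.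
PROOF.  With `∫⁻` (everything is nonnegative): `A0 = ∫_(x>0) ∫_(y>0) 1[xy(x+y) ≤ 1] dy dx`
(`Measure.prod_apply`).  Substitute `y = x r` in the inner integral (`x > 0` fixed):
`= ∫_(x>0) ∫_(r>0) 1[x^3 r (1+r) ≤ 1] x dr dx`, exchange the integrals (Tonelli): the integral over `x`
is `∫_0^T x dx = T^2/2`, `T = (r(1+r))^(-1/3)`.  So `A0 = (1/2) ∫_0^∞ (r (1+r))^(-2/3) dr`, and
`u = r/(1+r)`, `r = u/(1-u)`, `dr = du/(1-u)^2`, `r (1+r) = u/(1-u)^2` give
`A0 = (1/2) ∫_0^1 u^(-2/3) (1-u)^(-2/3) du = Γ(1/3)^2/(2 Γ(2/3))` (`Complex.betaIntegral`,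
`Complex.Gamma_mul_Gamma_eq_betaIntegral`; change of variables:
`MeasureTheory.integral_image_eq_integral_abs_deriv_smul`). -/
theorem A0_eq : A0 = Real.Gamma (1 / 3) ^ 2 / (2 * Real.Gamma (2 / 3)) := by
  have hB : 0 < ProbabilityTheory.beta (1 / 3) (1 / 3) :=
    ProbabilityTheory.beta_pos (by norm_num) (by norm_num)
  have h1 : ∫⁻ r in Set.Ioi (0 : ℝ), ENNReal.ofReal ((r * (1 + r)) ^ (-(2 / 3) : ℝ) / 2)
      = ENNReal.ofReal (ProbabilityTheory.beta (1 / 3) (1 / 3) / 2) := by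
    have h2 : ∫⁻ r in Set.Ioi (0 : ℝ), ENNReal.ofReal ((r * (1 + r)) ^ (-(2 / 3) : ℝ) / 2)
        = ∫⁻ r in Set.Ioi (0 : ℝ), ENNReal.ofReal (ProbabilityTheory.beta (1 / 3) (1 / 3) / 2) *
          ENNReal.ofReal
            (1 / ProbabilityTheory.beta (1 / 3) (1 / 3) * (r * (1 + r)) ^ (-(2 / 3) : ℝ)) := by
      refine lintegral_congr fun r => ?_
      rw [← ENNReal.ofReal_mul (by positivity)]
      congr 1
      field_simp
    rw [h2, lintegral_const_mul' _ _ ENNReal.ofReal_ne_top, x5_beta, mul_one]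
  unfold A0
  rw [x5_volume, h1, ENNReal.toReal_ofReal (by positivity)]
  unfold ProbabilityTheory.beta
  rw [show (1 / 3 + 1 / 3 : ℝ) = 2 / 3 by norm_num]
  have h3 : Real.Gamma (2 / 3) ≠ 0 := (Real.Gamma_pos_of_pos (by norm_num)).ne'
  field_simp

end Pool.Agent.Helper93.AR
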