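import Pool.Agent.Helper93.AR.H3
import Pool.Agent.Helper93.AR.X4
import Pool.Agent.Helper93.AR.X5
import Pool.Agent.Helper44.RA.LB

set_option autoImplicit false

/-! # Project AR, H4: the constant of the asymptotic formula -/

namespace Pool.Agent.Helper93.AR

open Finset

theorem gg_set (Z : ℕ) (H : ℝ) : (↑(GG Z H) : Set (ℕ × ℕ)) =
    {t : ℕ × ℕ | 0 < t.1 ∧ 0 < t.2 ∧ t.1.Coprime t.2 ∧
      (∏ p ∈ (t.1 * t.2 * (t.1 + t.2)).primeFactors, p) ≤ Z ∧ ((t.1 + t.2 : ℕ) : ℝ) ≤ H} := by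
  ext t
  rw [mem_coe, gg_mem]
  rfl

/-- The constant: limit of `cD`, sum over powerful numbers, Euler product. -/
theorem asym_const : ∃ P : ℝ, 0 < P ∧ HasProd (fun p : Nat.Primes => Lp p) P ∧
    ∀ lam : ℝ, 1 / 3 < lam → ∃ δ C : ℝ, 0 < δ ∧ 1 ≤ C ∧ ∀ Z : ℕ, 1 ≤ Z →
    |((GG Z ((Z : ℝ) ^ lam)).card : ℝ) -
      Real.Gamma (1 / 3) ^ 2 / (2 * Real.Gamma (2 / 3)) * P * (Z : ℝ) ^ (2 / 3 : ℝ)| ≤
      C * (Z : ℝ) ^ (2 / 3 - δ) := by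
  obtain ⟨c, C0, hC0, hc⟩ := cD_lim
  have hlim : Filter.Tendsto cD Filter.atTop (nhds c) := by
    rw [tendsto_iff_norm_sub_tendsto_zero]
    have h1 : Filter.Tendsto (fun D : ℕ => C0 / (D : ℝ) ^ (1 / 12 : ℝ)) Filter.atTop (nhds 0) :=
      Filter.Tendsto.div_atTop tendsto_const_nhds
        ((tendsto_rpow_atTop (by norm_num : (0 : ℝ) < 1 / 12)).comp tendsto_natCast_atTop_atTop)
    refine squeeze_zero' (Filter.Eventually.of_forall fun D => norm_nonneg _) ?_ h1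
    filter_upwards [Filter.eventually_ge_atTop 1] with D hD
    rw [Real.norm_eq_abs]
    exact hc D hD
  have hcP : c = ∑' q : ℕ, Gq q * Sq q := tendsto_nhds_unique hlim cD_tendsto
  have has := asym_of c (regime1_of c C0 hC0 hc)
  have hA := A0_pos
  -- positivity
  have hpos : 0 < c := by
    obtain ⟨δ, C, hδ, hC, h⟩ := has 1 (by norm_num)
    have hlb : ∀ Z : ℕ, 2 ≤ Z → (Z : ℝ) ^ (2 / 3 : ℝ) / 32 ≤ ((GG Z ((Z : ℝ) ^ (1 : ℝ))).card : ℝ) := by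
      intro Z hZ
      have hZ0 : (0 : ℝ) < (Z : ℝ) := by exact_mod_cast (by omega : 0 < Z)
      have hset : {t : ℕ × ℕ | Pool.RA.Good Z t ∧ Real.log ((t.1 + t.2 : ℕ) : ℝ) ≤ Real.log Z} =
          (↑(GG Z ((Z : ℝ) ^ (1 : ℝ))) : Set (ℕ × ℕ)) := by
        rw [gg_set]
        ext t
        simp only [Pool.RA.Good, Set.mem_setOf_eq, Real.rpow_one]
        constructor
        · rintro ⟨⟨h1, h2, h3, h4⟩, h5⟩
          have hp : (0 : ℝ) < ((t.1 + t.2 : ℕ) : ℝ) := by exact_mod_cast (by omega : 0 < t.1 + t.2)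
          exact ⟨h1, h2, h3, h4, (Real.log_le_log_iff hp hZ0).1 h5⟩
        · rintro ⟨h1, h2, h3, h4, h5⟩
          have hp : (0 : ℝ) < ((t.1 + t.2 : ℕ) : ℝ) := by exact_mod_cast (by omega : 0 < t.1 + t.2)
          exact ⟨⟨h1, h2, h3, h4⟩, (Real.log_le_log_iff hp hZ0).2 h5⟩
      have h := Pool.RA.lower_bound Z (Real.log Z) hZ le_rfl (by rw [hset]; exact Finset.finite_toSet _)
      rw [hset, Set.ncard_coe_finset] at h
      exact h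
    have h2 : ∀ᶠ Z : ℕ in Filter.atTop, C * (Z : ℝ) ^ (-δ) ≤ 1 / 64 := by
      have h3 : Filter.Tendsto (fun Z : ℕ => C * (Z : ℝ) ^ (-δ)) Filter.atTop (nhds (C * 0)) :=
        ((tendsto_rpow_neg_atTop hδ).comp tendsto_natCast_atTop_atTop).const_mul C
      rw [mul_zero] at h3
      exact (h3.eventually (gt_mem_nhds (by norm_num : (0 : ℝ) < 1 / 64))).mono fun Z hZ => hZ.le
    obtain ⟨Z, hZa, hZb⟩ := (h2.and (Filter.eventually_ge_atTop 2)).exists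
    have hZ0 : (0 : ℝ) < (Z : ℝ) := by exact_mod_cast (by omega : 0 < Z)
    have h4 := h Z (by omega)
    have h5 := hlb Z hZb
    have h6 : C * (Z : ℝ) ^ (2 / 3 - δ) ≤ (Z : ℝ) ^ (2 / 3 : ℝ) / 64 := by
      have h7 : (Z : ℝ) ^ (2 / 3 - δ) = (Z : ℝ) ^ (2 / 3 : ℝ) * (Z : ℝ) ^ (-δ) := by
        rw [← Real.rpow_add hZ0, sub_eq_add_neg]
      rw [h7]
      have h8 : (0 : ℝ) < (Z : ℝ) ^ (2 / 3 : ℝ) := Real.rpow_pos_of_pos hZ0 _
      calc C * ((Z : ℝ) ^ (2 / 3 : ℝ) * (Z : ℝ) ^ (-δ))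
          = (Z : ℝ) ^ (2 / 3 : ℝ) * (C * (Z : ℝ) ^ (-δ)) := by ring
        _ ≤ (Z : ℝ) ^ (2 / 3 : ℝ) * (1 / 64) := mul_le_mul_of_nonneg_left hZa h8.le
        _ = (Z : ℝ) ^ (2 / 3 : ℝ) / 64 := by ring
    have h9 := (abs_le.1 h4).2
    have h8 : (0 : ℝ) < (Z : ℝ) ^ (2 / 3 : ℝ) := Real.rpow_pos_of_pos hZ0 _
    have h10 : 0 < A0 * c * (Z : ℝ) ^ (2 / 3 : ℝ) := by linarith
    have h11 : 0 < A0 * c := (pos_iff_pos_of_mul_pos h10).2 h8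
    exact (pos_iff_pos_of_mul_pos h11).1 hA
  refine ⟨c, hpos, hcP ▸ const_eq, fun lam hlam => ?_⟩
  obtain ⟨δ, C, hδ, hC, h⟩ := has lam hlam
  refine ⟨δ, C, hδ, hC, fun Z hZ => ?_⟩
  rw [← A0_eq]
  exact h Z hZ

end Pool.Agent.Helper93.AR
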