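import Pool.Agent.Helper93.AR.Defs
import Pool.Agent.Helper21.EN.DIR

set_option autoImplicit false

/-! # Project AR, piece A1 -/

namespace Pool.Agent.Helper93.AR

open Finset
open Pool.Agent.Helper21.EN (rad pc rest Tri dir_roots dir_cls dir_cls_mem dir_fiber dir_log)

/-- PIECE AR-A1 (60 lines).  The statement `DIRStmt` of `Helper21/EN/Stmts.lean` with `8` replaced by
an arbitrary bound `J` for the exponent.
PROOF.  Copy the proof of `Pool.Agent.Helper21.EN.dir_thm` (`Helper21/EN/DIR.lean`): it uses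
`dir_roots hε 8`; use `dir_roots hε J` instead, nothing else changes (`dir_cls_mem`, `dir_fiber`,
`dir_log` are stated for all exponents). -/
theorem dirj (J : ℕ) (ε : ℝ) (hε : 0 < ε) : ∃ C : ℝ, 1 ≤ C ∧
    ∀ (j m c : ℕ) (P Q : ℝ) (S : Finset (ℕ × ℕ)), 1 ≤ j → j ≤ J → 0 < m → Nat.Coprime c m →
      1 ≤ P → 1 ≤ Q →
      (∀ s ∈ S, 0 < s.1 ∧ 0 < s.2 ∧ (s.1 : ℝ) ≤ P ∧ (s.2 : ℝ) ≤ Q ∧ Nat.Coprime s.1 s.2 ∧
        Nat.Coprime s.1 m ∧ Nat.Coprime s.2 m ∧ s.1 ^ j ≡ c * s.2 ^ j [MOD m]) →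
      (S.card : ℝ) ≤ C * ((m : ℝ) * P * Q) ^ ε * (1 + P * Q / m) := by
  classical
  obtain ⟨C, hC1, hC⟩ := dir_roots hε J
  have hL : 0 < Real.log 2 := Real.log_pos (by norm_num)
  set D : ℝ := 1 + 1 / (ε * Real.log 2) with hD
  have hD1 : 1 ≤ D := by
    have : 0 ≤ 1 / (ε * Real.log 2) := by positivity
    linarith
  refine ⟨C * D * 4, by nlinarith [mul_le_mul hC1 hD1 (by norm_num) (by linarith)], ?_⟩
  intro j m c P Q S hj1 hj8 hm hcm hP hQ hS
  have hm' : (0 : ℝ) < m := by exact_mod_cast hm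
  set R := (Finset.range m).filter (fun x => x ^ j ≡ c [MOD m]) with hR
  set T := R ×ˢ Finset.range (Nat.log 2 ⌊Q⌋₊ + 1) with hT
  have hmap : ∀ s ∈ S, (dir_cls m s, Nat.log 2 s.2) ∈ T := by
    intro s hs
    obtain ⟨h1, h2, h3, h4, h5, h6, h7, h8⟩ := hS s hs
    rw [hT, Finset.mem_product]
    refine ⟨dir_cls_mem hm h7 h8, ?_⟩
    rw [Finset.mem_range]
    have : Nat.log 2 s.2 ≤ Nat.log 2 ⌊Q⌋₊ := Nat.log_mono_right (Nat.le_floor h4)
    simp only
    omega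
  have hcard := Finset.card_eq_sum_card_fiberwise hmap
  have hB : ∀ t ∈ T, ((S.filter (fun s => (dir_cls m s, Nat.log 2 s.2) = t)).card : ℝ)
      ≤ 4 * (1 + P * Q / m) := by
    intro t _
    apply dir_fiber (k := t.2) hm hP hQ
    · intro s hs
      rw [Finset.mem_filter] at hs
      obtain ⟨h1, h2, h3, h4, h5, h6, h7, h8⟩ := hS s hs.1
      have ht2 : Nat.log 2 s.2 = t.2 := by rw [← hs.2]
      refine ⟨h1, h2, h3, h4, h5, h7, ?_, ?_⟩
      · rw [← ht2]; exact Nat.pow_log_le_self 2 h2.ne'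
      · rw [← ht2]; exact Nat.lt_pow_succ_log_self (by norm_num) _
    · intro s hs s' hs'
      rw [Finset.mem_filter] at hs hs'
      have e1 : dir_cls m s = t.1 := by rw [← hs.2]
      have e2 : dir_cls m s' = t.1 := by rw [← hs'.2]
      rw [e1, e2]
  have h1 : (S.card : ℝ) ≤ (T.card : ℝ) * (4 * (1 + P * Q / m)) := by
    rw [hcard]
    push_cast
    refine (Finset.sum_le_sum hB).trans ?_
    rw [Finset.sum_const, nsmul_eq_mul]
  have h2 : (T.card : ℝ) ≤ (C * (m : ℝ) ^ ε) * (D * Q ^ ε) := by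
    rw [hT, Finset.card_product, Finset.card_range]
    rw [Nat.cast_mul]
    exact mul_le_mul (hC j hj1 hj8 m c hm hcm) (dir_log hε hQ) (by positivity) (by positivity)
  have h3 : (m : ℝ) ^ ε * Q ^ ε ≤ ((m : ℝ) * P * Q) ^ ε := by
    rw [← Real.mul_rpow (by positivity) (by positivity)]
    apply Real.rpow_le_rpow (by positivity) _ hε.le
    have : (m : ℝ) * 1 ≤ m * P := by gcongr
    nlinarith
  have hpos : 0 ≤ 1 + P * Q / m := by positivity
  calc (S.card : ℝ) ≤ (T.card : ℝ) * (4 * (1 + P * Q / m)) := h1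
    _ ≤ ((C * (m : ℝ) ^ ε) * (D * Q ^ ε)) * (4 * (1 + P * Q / m)) := by gcongr
    _ = (C * D * 4) * ((m : ℝ) ^ ε * Q ^ ε) * (1 + P * Q / m) := by ring
    _ ≤ (C * D * 4) * ((m : ℝ) * P * Q) ^ ε * (1 + P * Q / m) := by gcongr

end Pool.Agent.Helper93.AR
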