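import Pool.Agent.Helper93.AR.Defs
import Pool.Agent.Helper94.Abc.Basic
import Pool.Agent.Helper26.Abc2.Rad

set_option autoImplicit false

/-! # Project AR, piece A2: radicals and divisors -/

namespace Pool.Agent.Helper93.AR

open Finset
open Pool.Agent.Helper21.EN (rad pc rest Tri)

private theorem a2_rad_pos (n : ℕ) : 1 ≤ rad n := by
  unfold rad
  exact Finset.prod_pos fun p hp => (Nat.prime_of_mem_primeFactors hp).pos

private theorem a2_rad_le {n : ℕ} (hn : 0 < n) : rad n ≤ n := by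
  unfold rad
  exact Nat.le_of_dvd hn (Nat.prod_primeFactors_dvd n)

private theorem a2_fib {C ε : ℝ} {X : ℕ} (h : ∀ X r : ℕ,
    (((Finset.Icc 1 X).filter (fun d => ∏ p ∈ d.primeFactors, p = r)).card : ℝ) ≤
      C * (X : ℝ) ^ ε) {S : Finset ℕ} (hS : ∀ n ∈ S, 0 < n ∧ n ≤ X) (r : ℕ) :
    ((S.filter (fun n => rad n = r)).card : ℝ) ≤ C * (X : ℝ) ^ ε := by
  classical
  refine le_trans ?_ (h X r)
  have h1 : S.filter (fun n => rad n = r) ⊆
      (Finset.Icc 1 X).filter (fun d => ∏ p ∈ d.primeFactors, p = r) := by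
    intro n hn
    rw [Finset.mem_filter] at hn ⊢
    obtain ⟨h2, h3⟩ := hS n hn.1
    exact ⟨Finset.mem_Icc.2 ⟨h2, h3⟩, hn.2⟩
  exact_mod_cast Finset.card_le_card h1

/-- PIECE AR-A2 (the whole file, 150 lines).  At most `C X^ε R` integers up to `X` have radical
at most `R`.
PROOF.  `Pool.Agent.Helper26.Abc2.card_rad_eq`: for every `r` at most `C X^ε` integers `d ≤ X` have
radical `r`; the radical is an integer `1 ≤ r ≤ ⌊R⌋₊` (so `S = ∅` if `R < 1`): sum over `r`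
(`Finset.card_eq_sum_card_fiberwise`); `⌊R⌋₊ ≤ R`. -/
theorem rad_count (ε : ℝ) (hε : 0 < ε) : ∃ C : ℝ, 1 ≤ C ∧
    ∀ (X : ℕ) (R : ℝ) (S : Finset ℕ), 1 ≤ X → 0 ≤ R →
      (∀ n ∈ S, 0 < n ∧ n ≤ X ∧ (rad n : ℝ) ≤ R) → (S.card : ℝ) ≤ C * (X : ℝ) ^ ε * R := by
  classical
  obtain ⟨C, hC, hrad⟩ := Pool.Agent.Helper26.Abc2.card_rad_eq hε
  refine ⟨max 1 C, le_max_left _ _, ?_⟩
  intro X R S hX hR hS
  have hX1 : (1 : ℝ) ≤ X := by exact_mod_cast hX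
  have hXe : 0 < (X : ℝ) ^ ε := Real.rpow_pos_of_pos (by linarith) _
  have hfib := a2_fib hrad (S := S) (X := X) (fun n hn => ⟨(hS n hn).1, (hS n hn).2.1⟩)
  have hmap : ∀ n ∈ S, rad n ∈ Finset.Icc 1 ⌊R⌋₊ := by
    intro n hn
    exact Finset.mem_Icc.2 ⟨a2_rad_pos n, Nat.le_floor (hS n hn).2.2⟩
  have h1 := Finset.card_eq_sum_card_fiberwise hmap
  have h2 : (S.card : ℝ) = ∑ r ∈ Finset.Icc 1 ⌊R⌋₊,
      ((S.filter (fun n => rad n = r)).card : ℝ) := by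
    rw [h1]
    push_cast
    rfl
  rw [h2]
  calc ∑ r ∈ Finset.Icc 1 ⌊R⌋₊, ((S.filter (fun n => rad n = r)).card : ℝ) ≤
        ∑ _r ∈ Finset.Icc 1 ⌊R⌋₊, C * (X : ℝ) ^ ε := Finset.sum_le_sum fun r _ => hfib r
    _ = (⌊R⌋₊ : ℝ) * (C * (X : ℝ) ^ ε) := by
        rw [Finset.sum_const, Nat.card_Icc, nsmul_eq_mul]
        simp
    _ ≤ R * (C * (X : ℝ) ^ ε) := by
        gcongr
        exact Nat.floor_le hR
    _ ≤ R * (max 1 C * (X : ℝ) ^ ε) := by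
        gcongr
        exact le_max_right _ _
    _ = max 1 C * (X : ℝ) ^ ε * R := by ring

/-- `∑ 1 / rad n ≤ C X^ε` over integers `n ≤ X`.
PROOF.  Group by `r = rad n ∈ [1, X]`: `∑_r (1/r) C X^(ε/2) ≤ C X^(ε/2) (1 + log X)`
(`Pool.Agent.Helper26.Abc2.card_rad_eq`, harmonic sum: `harmonic_le_one_add_log`, see `rp_harm` in
`Helper21/EN/RP.lean`), and `1 + log X ≤ (1 + 2/ε) X^(ε/2)` (`Real.log_le_rpow_div`). -/
theorem sum_inv_rad (ε : ℝ) (hε : 0 < ε) : ∃ C : ℝ, 1 ≤ C ∧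
    ∀ (X : ℕ) (S : Finset ℕ), 1 ≤ X → (∀ n ∈ S, 0 < n ∧ n ≤ X) →
      ∑ n ∈ S, (1 : ℝ) / (rad n : ℝ) ≤ C * (X : ℝ) ^ ε := by
  classical
  obtain ⟨C, hC, hrad⟩ := Pool.Agent.Helper26.Abc2.card_rad_eq (ε := ε / 2) (by positivity)
  refine ⟨max 1 (C * (1 + 2 / ε)), le_max_left _ _, ?_⟩
  intro X S hX hS
  have hX1 : (1 : ℝ) ≤ X := by exact_mod_cast hX
  have hX0 : (0 : ℝ) < X := by linarith
  have hXe : 0 < (X : ℝ) ^ (ε / 2) := Real.rpow_pos_of_pos hX0 _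
  have hXe1 : 1 ≤ (X : ℝ) ^ (ε / 2) := Real.one_le_rpow hX1 (by positivity)
  have hfib := a2_fib hrad (S := S) (X := X) hS
  have hmap : ∀ n ∈ S, rad n ∈ Finset.Icc 1 X := by
    intro n hn
    obtain ⟨h1, h2⟩ := hS n hn
    exact Finset.mem_Icc.2 ⟨a2_rad_pos n, (a2_rad_le h1).trans h2⟩
  have h1 : ∑ n ∈ S, (1 : ℝ) / (rad n : ℝ) = ∑ r ∈ Finset.Icc 1 X,
      ((S.filter (fun n => rad n = r)).card : ℝ) * ((r : ℝ))⁻¹ := by
    rw [← Finset.sum_fiberwise_of_maps_to hmap]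
    refine Finset.sum_congr rfl fun r _ => ?_
    rw [Finset.sum_congr rfl (g := fun _ => ((r : ℝ))⁻¹), Finset.sum_const, nsmul_eq_mul]
    intro n hn
    rw [(Finset.mem_filter.1 hn).2, one_div]
  have hharm : ∑ r ∈ Finset.Icc 1 X, ((r : ℝ))⁻¹ ≤ 1 + Real.log X := by
    have h := harmonic_le_one_add_log X
    rw [harmonic_eq_sum_Icc] at h
    push_cast at h
    exact h
  have hlog : 1 + Real.log X ≤ (1 + 2 / ε) * (X : ℝ) ^ (ε / 2) := by
    have h2 := Real.log_le_rpow_div hX0.le (ε := ε / 2) (by positivity)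
    have h3 : (X : ℝ) ^ (ε / 2) / (ε / 2) = 2 / ε * (X : ℝ) ^ (ε / 2) := by
      field_simp
    rw [h3] at h2
    linarith
  have hee : (X : ℝ) ^ (ε / 2) * (X : ℝ) ^ (ε / 2) = (X : ℝ) ^ ε := by
    rw [← Real.rpow_add hX0]
    congr 1
    ring
  rw [h1]
  calc ∑ r ∈ Finset.Icc 1 X, ((S.filter (fun n => rad n = r)).card : ℝ) * ((r : ℝ))⁻¹ ≤
        ∑ r ∈ Finset.Icc 1 X, (C * (X : ℝ) ^ (ε / 2)) * ((r : ℝ))⁻¹ :=
        Finset.sum_le_sum fun r _ => mul_le_mul_of_nonneg_right (hfib r) (by positivity)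
    _ = (C * (X : ℝ) ^ (ε / 2)) * ∑ r ∈ Finset.Icc 1 X, ((r : ℝ))⁻¹ := by rw [Finset.mul_sum]
    _ ≤ (C * (X : ℝ) ^ (ε / 2)) * ((1 + 2 / ε) * (X : ℝ) ^ (ε / 2)) :=
        mul_le_mul_of_nonneg_left (hharm.trans hlog) (by positivity)
    _ = C * (1 + 2 / ε) * ((X : ℝ) ^ (ε / 2) * (X : ℝ) ^ (ε / 2)) := by ring
    _ = C * (1 + 2 / ε) * (X : ℝ) ^ ε := by rw [hee]
    _ ≤ max 1 (C * (1 + 2 / ε)) * (X : ℝ) ^ ε := by
        refine mul_le_mul_of_nonneg_right (le_max_right _ _) ?_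
        positivity

/-- At most `C n^ε` integers have their square dividing `n > 0`.
PROOF.  They are divisors of `n` (`x ∣ x^2 ∣ n`): `Pool.Agent.Helper94.Abc.divisor_bound`. -/
theorem sq_div (ε : ℝ) (hε : 0 < ε) : ∃ C : ℝ, 1 ≤ C ∧
    ∀ (n : ℕ) (S : Finset ℕ), 0 < n → (∀ x ∈ S, x ^ 2 ∣ n) →
      (S.card : ℝ) ≤ C * (n : ℝ) ^ ε := by
  obtain ⟨C, hC, hdiv⟩ := Pool.Agent.Helper94.Abc.divisor_bound hε
  refine ⟨max 1 C, le_max_left _ _, ?_⟩
  intro n S hn hS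
  have h1 : S ⊆ n.divisors := by
    intro x hx
    exact Nat.mem_divisors.2 ⟨(dvd_pow_self x two_ne_zero).trans (hS x hx), hn.ne'⟩
  have h2 : (S.card : ℝ) ≤ (n.divisors.card : ℝ) := by exact_mod_cast Finset.card_le_card h1
  refine h2.trans ((hdiv n hn.ne').trans ?_)
  exact mul_le_mul_of_nonneg_right (le_max_right _ _) (by positivity)

private theorem a2_mono {k : ℕ} (hk : 2 ≤ k) {d : ℕ} (hd : 0 < d) :
    StrictMono fun y : ℕ => ((y : ℤ) + d) ^ k - (y : ℤ) ^ k := by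
  have h1 : ∀ y : ℕ, ((y : ℤ) + d) ^ k - (y : ℤ) ^ k =
      (∑ i ∈ Finset.range k, ((y : ℤ) + d) ^ i * (y : ℤ) ^ (k - 1 - i)) * d := by
    intro y
    rw [← geom_sum₂_mul]
    ring
  intro y y' hy
  have hy' : (y : ℤ) < y' := by exact_mod_cast hy
  have hd' : (0 : ℤ) < d := by exact_mod_cast hd
  have hy0 : (0 : ℤ) ≤ y := Int.natCast_nonneg y
  change ((y : ℤ) + d) ^ k - (y : ℤ) ^ k < ((y' : ℤ) + d) ^ k - (y' : ℤ) ^ k
  rw [h1, h1]
  refine mul_lt_mul_of_pos_right ?_ hd'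
  refine Finset.sum_lt_sum ?_ ⟨k - 1, Finset.mem_range.2 (by omega), ?_⟩
  · intro i _
    exact mul_le_mul (pow_le_pow_left₀ (by omega) (by omega) _)
      (pow_le_pow_left₀ hy0 hy'.le _) (by positivity) (by positivity)
  · rw [Nat.sub_self, pow_zero, pow_zero, mul_one, mul_one]
    exact pow_lt_pow_left₀ (by omega) (by omega) (by omega)

private theorem a2_inj {k : ℕ} (hk : 2 ≤ k) {h : ℤ} (hh : h ≠ 0) {s t : ℕ × ℕ}
    (hs : (s.1 : ℤ) ^ k - (s.2 : ℤ) ^ k = h) (ht : (t.1 : ℤ) ^ k - (t.2 : ℤ) ^ k = h)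
    (hd : (s.1 : ℤ) - s.2 = (t.1 : ℤ) - t.2) : s = t := by
  obtain ⟨a, b⟩ := s
  obtain ⟨c, e⟩ := t
  simp only at hs ht hd
  have hab : a ≠ b := by
    rintro rfl
    exact hh (by rw [← hs, sub_self])
  rcases lt_or_gt_of_ne hab with hlt | hlt
  · -- `a < b`
    obtain ⟨d, rfl⟩ := Nat.exists_eq_add_of_lt hlt
    have hde : (e : ℤ) = c + (d + 1 : ℕ) := by push_cast at hd ⊢; linarith
    have hs' : ((a : ℤ) + (d + 1 : ℕ)) ^ k - (a : ℤ) ^ k = -h := by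
      rw [← hs]; push_cast; ring
    have ht' : ((c : ℤ) + (d + 1 : ℕ)) ^ k - (c : ℤ) ^ k = -h := by
      rw [← ht, hde]; ring
    have hac := (a2_mono hk (Nat.succ_pos d)).injective (hs'.trans ht'.symm)
    subst hac
    have : (e : ℤ) = ((a + d + 1 : ℕ) : ℤ) := by rw [hde]; push_cast; ring
    rw [Nat.cast_inj] at this
    rw [this]
  · obtain ⟨d, rfl⟩ := Nat.exists_eq_add_of_lt hlt
    have hde : (c : ℤ) = e + (d + 1 : ℕ) := by push_cast at hd ⊢; linarith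
    have hs' : ((b : ℤ) + (d + 1 : ℕ)) ^ k - (b : ℤ) ^ k = h := by
      rw [← hs]; push_cast; ring
    have ht' : ((e : ℤ) + (d + 1 : ℕ)) ^ k - (e : ℤ) ^ k = h := by
      rw [← ht, hde]
    have hac := (a2_mono hk (Nat.succ_pos d)).injective (hs'.trans ht'.symm)
    subst hac
    have : (c : ℤ) = ((b + d + 1 : ℕ) : ℤ) := by rw [hde]; push_cast; ring
    rw [Nat.cast_inj] at this
    rw [this]

/-- The equation `x^k - y^k = h`, `k ≥ 2`, `h ≠ 0`, has at most `C |h|^ε` solutions.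
PROOF.  By symmetry (`(x,y) ↦ (y,x)` changes `h` to `-h`) let `h > 0`, so `x > y` and
`d = x - y > 0` divides `h` (`sub_dvd_pow_sub_pow`).  For a given `d` the solution is unique:
`y ↦ (y+d)^k - y^k` is strictly increasing for `k ≥ 2` (if `y < y'` then
`(y'+d)^k - y'^k > (y+d)^k - y^k`; e.g. `(u+d)^k - u^k = d * ∑_(i<k) (u+d)^i u^(k-1-i)`,
`Commute.geom_sum₂_mul` / `geom_sum₂_mul`, every term is monotone and the term `i = k-1 ≥ 1` is
strictly monotone).  So the map `(x,y) ↦ x - y` into the divisors of `|h|` is injective: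
`Pool.Agent.Helper94.Abc.divisor_bound`. -/
theorem pow_diff (ε : ℝ) (hε : 0 < ε) : ∃ C : ℝ, 1 ≤ C ∧
    ∀ (k : ℕ) (h : ℤ) (S : Finset (ℕ × ℕ)), 2 ≤ k → h ≠ 0 →
      (∀ s ∈ S, (s.1 : ℤ) ^ k - (s.2 : ℤ) ^ k = h) → (S.card : ℝ) ≤ C * (|(h : ℝ)|) ^ ε := by
  classical
  obtain ⟨C, hC, hdiv⟩ := Pool.Agent.Helper94.Abc.divisor_bound hε
  refine ⟨max 1 (2 * C), le_max_left _ _, ?_⟩
  intro k h S hk hh hS
  have hn : 0 < h.natAbs := Int.natAbs_pos.2 hh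
  have habs : ((h.natAbs : ℕ) : ℝ) = |(h : ℝ)| := by
    rw [Nat.cast_natAbs, Int.cast_abs]
  -- the difference determines the solution, it is plus or minus a divisor
  have h1 : S.card ≤ ((h.natAbs.divisors.image fun d : ℕ => (d : ℤ)) ∪
      (h.natAbs.divisors.image fun d : ℕ => -(d : ℤ))).card := by
    refine Finset.card_le_card_of_injOn (fun s => (s.1 : ℤ) - s.2) ?_ ?_
    · intro s hs
      have h2 : ((s.1 : ℤ) - s.2) ∣ h := by
        rw [← hS s hs]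
        exact sub_dvd_pow_sub_pow _ _ _
      have h3 : ((s.1 : ℤ) - s.2).natAbs ∈ h.natAbs.divisors :=
        Nat.mem_divisors.2 ⟨Int.natAbs_dvd_natAbs.2 h2, hn.ne'⟩
      rw [Finset.mem_coe, Finset.mem_union, Finset.mem_image, Finset.mem_image]
      rcases Int.natAbs_eq ((s.1 : ℤ) - s.2) with h4 | h4
      · exact Or.inl ⟨_, h3, h4.symm⟩
      · exact Or.inr ⟨_, h3, h4.symm⟩
    · intro s hs t ht hst
      exact a2_inj hk hh (hS s hs) (hS t ht) hst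
  have h2 : ((h.natAbs.divisors.image fun d : ℕ => (d : ℤ)) ∪
      (h.natAbs.divisors.image fun d : ℕ => -(d : ℤ))).card ≤ 2 * h.natAbs.divisors.card := by
    refine (Finset.card_union_le _ _).trans ?_
    rw [two_mul]
    exact add_le_add Finset.card_image_le Finset.card_image_le
  have h3 : (S.card : ℝ) ≤ 2 * (h.natAbs.divisors.card : ℝ) := by exact_mod_cast h1.trans h2
  have h4 := hdiv h.natAbs hn.ne'
  rw [habs] at h4
  calc (S.card : ℝ) ≤ 2 * (h.natAbs.divisors.card : ℝ) := h3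
    _ ≤ 2 * (C * |(h : ℝ)| ^ ε) := by linarith
    _ = 2 * C * |(h : ℝ)| ^ ε := by ring
    _ ≤ max 1 (2 * C) * |(h : ℝ)| ^ ε :=
        mul_le_mul_of_nonneg_right (le_max_right _ _) (by positivity)

end Pool.Agent.Helper93.AR
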