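import Pool.Agent.Helper93.AR.A1
import Pool.Agent.Helper93.AR.A2

set_option autoImplicit false

/-! # Project AR, piece B1: the mean number of solutions of a congruence modulo squares -/

namespace Pool.Agent.Helper93.AR

open Finset
open Pool.Agent.Helper21.EN (rad pc rest Tri)

/-- A solution of a congruence. -/
private theorem b1_inv {n n' m : ℕ} (hm : 0 < m) (hn : n.Coprime m) (hn' : n'.Coprime m) :
    ∃ c : ℕ, c.Coprime m ∧ n * c ≡ n' [MOD m] := by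
  haveI : NeZero m := ⟨hm.ne'⟩
  refine ⟨((n' : ZMod m) * (n : ZMod m)⁻¹).val, ?_⟩
  have h1 : n * ((n' : ZMod m) * (n : ZMod m)⁻¹).val ≡ n' [MOD m] := by
    rw [← ZMod.natCast_eq_natCast_iff]
    push_cast
    rw [ZMod.natCast_zmod_val]
    have h2 := ZMod.coe_mul_inv_eq_one n hn
    calc (n : ZMod m) * ((n' : ZMod m) * (n : ZMod m)⁻¹) =
        (n' : ZMod m) * ((n : ZMod m) * (n : ZMod m)⁻¹) := by ring
      _ = n' := by rw [h2, mul_one]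
  refine ⟨?_, h1⟩
  have h3 : Nat.Coprime (n * ((n' : ZMod m) * (n : ZMod m)⁻¹).val) m := by
    rw [Nat.Coprime, h1.gcd_eq]
    exact hn'
  exact Nat.Coprime.coprime_mul_left h3

/-- Bound 1 for one `x`. -/
private theorem b1_fib1 {J : ℕ} {ε C1 : ℝ} (hε : 0 < ε) (hC1 : 1 ≤ C1)
    (h1 : ∀ (j m c : ℕ) (P Q : ℝ) (S : Finset (ℕ × ℕ)), 1 ≤ j → j ≤ J → 0 < m → Nat.Coprime c m →
      1 ≤ P → 1 ≤ Q →
      (∀ s ∈ S, 0 < s.1 ∧ 0 < s.2 ∧ (s.1 : ℝ) ≤ P ∧ (s.2 : ℝ) ≤ Q ∧ Nat.Coprime s.1 s.2 ∧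
        Nat.Coprime s.1 m ∧ Nat.Coprime s.2 m ∧ s.1 ^ j ≡ c * s.2 ^ j [MOD m]) →
      (S.card : ℝ) ≤ C1 * ((m : ℝ) * P * Q) ^ (ε / 2) * (1 + P * Q / m))
    {j n n' x : ℕ} {X0 V : ℝ} {T : Finset (ℕ × ℕ)} (hj1 : 1 ≤ j) (hjJ : j ≤ J) (hX0 : 1 ≤ X0)
    (hV : 1 ≤ V) (hx1 : X0 ≤ (x : ℝ)) (hx2 : (x : ℝ) < 2 * X0) (hn : n.Coprime x)
    (hn' : n'.Coprime x)
    (hT : ∀ s ∈ T, 0 < s.1 ∧ (s.1 : ℝ) ≤ V ∧ 0 < s.2 ∧ (s.2 : ℝ) ≤ V ∧ s.1.Coprime s.2 ∧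
      s.1.Coprime x ∧ s.2.Coprime x ∧ n * s.1 ^ j ≡ n' * s.2 ^ j [MOD x ^ 2]) :
    (T.card : ℝ) ≤ C1 * (2 * X0 * V) ^ ε * (1 + V ^ 2 / X0 ^ 2) := by
  have hx0 : 0 < (x : ℝ) := by linarith
  have hxn : 0 < x := by exact_mod_cast hx0
  obtain ⟨c, hc1, hc2⟩ := b1_inv (m := x ^ 2) (by positivity) (hn.pow_right 2) (hn'.pow_right 2)
  have h2 := h1 j (x ^ 2) c V V T hj1 hjJ (by positivity) hc1 hV hV (by
    intro s hs
    obtain ⟨a1, a2, a3, a4, a5, a6, a7, a8⟩ := hT s hs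
    refine ⟨a1, a3, a2, a4, a5, a6.pow_right 2, a7.pow_right 2, ?_⟩
    have a9 : n * s.1 ^ j ≡ n * (c * s.2 ^ j) [MOD x ^ 2] := by
      refine a8.trans ?_
      rw [← mul_assoc]
      exact (hc2.symm).mul_right _
    exact Nat.ModEq.cancel_left_of_coprime (Nat.Coprime.symm (hn.pow_right 2)) a9)
  have h3 : (((x ^ 2 : ℕ) : ℝ) * V * V) ^ (ε / 2) = ((x : ℝ) * V) ^ ε := by
    have h4 : ((x ^ 2 : ℕ) : ℝ) * V * V = ((x : ℝ) * V) ^ (2 : ℝ) := by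
      rw [Real.rpow_two]
      push_cast
      ring
    rw [h4, ← Real.rpow_mul (by positivity)]
    congr 1
    ring
  have h5 : ((x : ℝ) * V) ^ ε ≤ (2 * X0 * V) ^ ε := by
    apply Real.rpow_le_rpow (by positivity) _ hε.le
    have := hx2.le
    gcongr
  have h6 : V * V / ((x ^ 2 : ℕ) : ℝ) ≤ V ^ 2 / X0 ^ 2 := by
    push_cast
    rw [← pow_two]
    gcongr
  refine h2.trans ?_
  rw [h3]
  have h7 : 0 ≤ ((x : ℝ) * V) ^ ε := by positivity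
  have h8 : 0 ≤ V * V / ((x ^ 2 : ℕ) : ℝ) := by positivity
  have hC0 : 0 ≤ C1 := by linarith
  have h9 : C1 * ((x : ℝ) * V) ^ ε ≤ C1 * (2 * X0 * V) ^ ε :=
    mul_le_mul_of_nonneg_left h5 hC0
  exact mul_le_mul h9 (by linarith) (by linarith) (by positivity)

/-- Bound 2 for one pair. -/
private theorem b1_fib2 {J : ℕ} {ε C2 : ℝ} (hε : 0 < ε) (hC2 : 1 ≤ C2)
    (h1 : ∀ (n : ℕ) (S : Finset ℕ), 0 < n → (∀ x ∈ S, x ^ 2 ∣ n) →
      (S.card : ℝ) ≤ C2 * (n : ℝ) ^ (ε / (J + 1)))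
    {j n n' B y y' : ℕ} {V : ℝ} {T : Finset ℕ} (hj1 : 1 ≤ j) (hjJ : j ≤ J)
    (hV : 1 ≤ V) (hB : 1 ≤ B) (hn : n ≤ B) (hn' : n' ≤ B) (hy : (y : ℝ) ≤ V) (hy' : (y' : ℝ) ≤ V)
    (hne : n * y ^ j ≠ n' * y' ^ j)
    (hT : ∀ x ∈ T, n * y ^ j ≡ n' * y' ^ j [MOD x ^ 2]) :
    (T.card : ℝ) ≤ C2 * ((B : ℝ) * V) ^ ε := by
  have hBr : (1 : ℝ) ≤ B := by exact_mod_cast hB
  obtain ⟨D, hD⟩ : ∃ D : ℕ, D = (((n * y ^ j : ℕ) : ℤ) - ((n' * y' ^ j : ℕ) : ℤ)).natAbs :=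
    ⟨_, rfl⟩
  have hD0 : 0 < D := by
    rw [hD, Int.natAbs_pos, sub_ne_zero]
    exact_mod_cast hne
  have h2 := h1 D T hD0 (by
    intro x hx
    rw [hD]
    have h3 := (Nat.modEq_iff_dvd.1 (hT x hx).symm)
    rw [← Int.natCast_dvd]
    exact_mod_cast h3)
  have hz : ∀ (a b : ℕ), a ≤ B → (b : ℝ) ≤ V → ((a * b ^ j : ℕ) : ℝ) ≤ (B : ℝ) * V ^ J := by
    intro a b ha hb
    push_cast
    have ha' : (a : ℝ) ≤ B := by exact_mod_cast ha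
    have hb2 : (b : ℝ) ^ j ≤ V ^ J :=
      (pow_le_pow_left₀ (by positivity) hb j).trans (pow_le_pow_right₀ hV hjJ)
    exact mul_le_mul ha' hb2 (by positivity) (by positivity)
  have hDle : (D : ℝ) ≤ (B : ℝ) * V ^ J := by
    have h4 := hz n y hn hy
    have h5 := hz n' y' hn' hy'
    have h6 : (D : ℝ) = |((n * y ^ j : ℕ) : ℝ) - ((n' * y' ^ j : ℕ) : ℝ)| := by
      rw [hD, Nat.cast_natAbs]
      push_cast
      rfl
    rw [h6, abs_le]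
    have h7 : (0 : ℝ) ≤ ((n * y ^ j : ℕ) : ℝ) := Nat.cast_nonneg _
    have h8 : (0 : ℝ) ≤ ((n' * y' ^ j : ℕ) : ℝ) := Nat.cast_nonneg _
    constructor <;> linarith
  have hDle2 : (D : ℝ) ≤ ((B : ℝ) * V) ^ ((J : ℝ) + 1) := by
    refine hDle.trans ?_
    have e1 : ((B : ℝ) * V) ^ ((J : ℝ) + 1) = ((B : ℝ) * V) ^ (J + 1) := by
      rw [← Real.rpow_natCast]
      push_cast
      rfl
    rw [e1, mul_pow]
    have h3 : (B : ℝ) ≤ (B : ℝ) ^ (J + 1) := by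
      calc (B : ℝ) = (B : ℝ) ^ 1 := (pow_one _).symm
        _ ≤ (B : ℝ) ^ (J + 1) := pow_le_pow_right₀ hBr (by omega)
    have h4 : V ^ J ≤ V ^ (J + 1) := pow_le_pow_right₀ hV (by omega)
    exact mul_le_mul h3 h4 (by positivity) (by positivity)
  refine h2.trans ?_
  have hJ : (0 : ℝ) < (J : ℝ) + 1 := by positivity
  have h9 : (D : ℝ) ^ (ε / (J + 1)) ≤ ((B : ℝ) * V) ^ ε := by
    calc (D : ℝ) ^ (ε / (J + 1)) ≤ (((B : ℝ) * V) ^ ((J : ℝ) + 1)) ^ (ε / (J + 1)) :=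
          Real.rpow_le_rpow (by positivity) hDle2 (by positivity)
      _ = ((B : ℝ) * V) ^ ε := by
          rw [← Real.rpow_mul (by positivity)]
          congr 1
          field_simp
  exact mul_le_mul_of_nonneg_left h9 (by linarith)

/-- PIECE AR-B1 (the whole file, 150 lines).  Triples `(x, y, y')` with `x ∈ [X0, 2 X0)`, coprime
`y, y' ≤ V`, all of `y, y', n, n'` prime to `x`, and `n y^j ≡ n' y'^j (mod x^2)`, not equal.
PROOF.  (Bound 1) Fix `x`, `m = x^2`.  `n` is prime to `m`, so there is a natural number `c` prime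
to `m` with `n c ≡ n' (mod m)` (e.g. `c = ((n : ZMod m)⁻¹ * n').val`, `ZMod.unitOfCoprime`), and the
congruence is `y^j ≡ c y'^j (mod m)`.  `dirj J (ε/2)` (`P = Q = V`) gives at most
`C1 (x^2 V^2)^(ε/2) (1 + V^2/x^2) ≤ C1 (2 X0 V)^ε (1 + V^2/X0^2)` pairs `(y,y')`.  There are at most
`X0 + 1 ≤ 2 X0` integers `x ∈ [X0, 2 X0)`, so in total at most
`2 C1 (2 X0 V)^ε (X0 + V^2/X0)`.
(Bound 2) Fix `(y, y')`, at most `V^2` pairs.  `x^2` divides `|n y^j - n' y'^j|`, a non-zero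
integer of size at most `B V^J` (`V ≥ 1`), so by `sq_div (ε/(J+1))` there are at most
`C2 (B V^J)^(ε/(J+1)) ≤ C2 (B V)^ε` values of `x` (`B ≥ 1`): total `C2 (B V)^ε V^2`.
(Conclusion) If `V^2 ≤ X0` use bound 2: `V^2 ≤ V √X0`.  If `V^2 > X0` use bound 1:
`X0 = √X0 √X0 ≤ V √X0`.  `C = C2 + 2^(ε+1) C1`. -/
theorem energyW (J : ℕ) (ε : ℝ) (hε : 0 < ε) : ∃ C : ℝ, 1 ≤ C ∧
    ∀ (j n n' B : ℕ) (X0 V : ℝ) (S : Finset (ℕ × ℕ × ℕ)), 1 ≤ j → j ≤ J → 1 ≤ X0 → 1 ≤ V →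
      0 < n → n ≤ B → 0 < n' → n' ≤ B →
      (∀ s ∈ S, X0 ≤ (s.1 : ℝ) ∧ (s.1 : ℝ) < 2 * X0 ∧ 0 < s.2.1 ∧ (s.2.1 : ℝ) ≤ V ∧ 0 < s.2.2 ∧
        (s.2.2 : ℝ) ≤ V ∧ s.2.1.Coprime s.2.2 ∧ s.2.1.Coprime s.1 ∧ s.2.2.Coprime s.1 ∧
        n.Coprime s.1 ∧ n'.Coprime s.1 ∧ n * s.2.1 ^ j ≡ n' * s.2.2 ^ j [MOD s.1 ^ 2] ∧
        n * s.2.1 ^ j ≠ n' * s.2.2 ^ j) →
      (S.card : ℝ) ≤ C * ((B : ℝ) * X0 * V) ^ ε * (V ^ 2 / X0 + V * Real.sqrt X0) := by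
  classical
  obtain ⟨C1, hC1, h1⟩ := dirj J (ε / 2) (by positivity)
  obtain ⟨C2, hC2, h2⟩ := sq_div (ε / (J + 1)) (by positivity)
  have h2e : (1 : ℝ) ≤ 2 ^ ε := Real.one_le_rpow (by norm_num) hε.le
  refine ⟨C2 + 2 * 2 ^ ε * C1, by nlinarith, ?_⟩
  intro j n n' B X0 V S hj1 hjJ hX0 hV hn0 hnB hn0' hnB' hS
  have hB : 1 ≤ B := by omega
  have hBr : (1 : ℝ) ≤ B := by exact_mod_cast hB
  have hX0' : (0 : ℝ) < X0 := by linarith
  have hV' : (0 : ℝ) < V := by linarith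
  have hsq : Real.sqrt X0 * Real.sqrt X0 = X0 := Real.mul_self_sqrt hX0'.le
  have hsq0 : 0 ≤ Real.sqrt X0 := Real.sqrt_nonneg _
  have hE0 : 0 ≤ ((B : ℝ) * X0 * V) ^ ε := by positivity
  have hq0 : 0 ≤ V ^ 2 / X0 := by positivity
  rcases le_or_gt (V ^ 2) X0 with hc | hc
  · -- bound 2
    have hmap : ∀ s ∈ S, s.2 ∈ Finset.Icc 1 ⌊V⌋₊ ×ˢ Finset.Icc 1 ⌊V⌋₊ := by
      intro s hs
      obtain ⟨a1, a2, a3, a4, a5, a6, a7⟩ := hS s hs
      rw [Finset.mem_product]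
      exact ⟨Finset.mem_Icc.2 ⟨a3, Nat.le_floor a4⟩, Finset.mem_Icc.2 ⟨a5, Nat.le_floor a6⟩⟩
    have hcard := Finset.card_eq_sum_card_fiberwise hmap
    have hfib : ∀ t ∈ Finset.Icc 1 ⌊V⌋₊ ×ˢ Finset.Icc 1 ⌊V⌋₊,
        ((S.filter (fun s => s.2 = t)).card : ℝ) ≤ C2 * ((B : ℝ) * V) ^ ε := by
      intro t _
      rcases (S.filter (fun s => s.2 = t)).eq_empty_or_nonempty with he | ⟨s0, hs0⟩
      · rw [he, Finset.card_empty, Nat.cast_zero]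
        positivity
      · obtain ⟨hs1, hs2⟩ := Finset.mem_filter.1 hs0
        obtain ⟨a1, a2, a3, a4, a5, a6, a7, a8, a9, a10, a11, a12, a13⟩ := hS s0 hs1
        rw [hs2] at a4 a6 a13
        have hinj : Set.InjOn (fun s : ℕ × ℕ × ℕ => s.1) (S.filter (fun s => s.2 = t)) := by
          intro s hs s' hs' h
          have b1 := (Finset.mem_filter.1 (Finset.mem_coe.1 hs)).2
          have b2 := (Finset.mem_filter.1 (Finset.mem_coe.1 hs')).2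
          exact Prod.ext h (b1.trans b2.symm)
        rw [← Finset.card_image_of_injOn hinj]
        refine b1_fib2 hε hC2 h2 hj1 hjJ hV hB hnB hnB' a4 a6 a13 ?_
        intro x hx
        obtain ⟨s, hs, rfl⟩ := Finset.mem_image.1 hx
        obtain ⟨b1, b2⟩ := Finset.mem_filter.1 hs
        obtain ⟨c1, c2, c3, c4, c5, c6, c7, c8, c9, c10, c11, c12, c13⟩ := hS s b1
        rw [b2] at c12
        exact c12
    have hle : (S.card : ℝ) ≤ V ^ 2 * (C2 * ((B : ℝ) * V) ^ ε) := by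
      rw [hcard]
      push_cast
      refine (Finset.sum_le_sum hfib).trans ?_
      rw [Finset.sum_const, Finset.card_product, Nat.card_Icc, nsmul_eq_mul]
      have hfl : (((⌊V⌋₊ + 1 - 1 : ℕ) : ℝ)) ≤ V := by
        rw [Nat.add_sub_cancel]
        exact Nat.floor_le hV'.le
      push_cast at hfl ⊢
      rw [pow_two]
      gcongr
    have hVs : V ≤ Real.sqrt X0 := Real.le_sqrt_of_sq_le hc
    have hE : ((B : ℝ) * V) ^ ε ≤ ((B : ℝ) * X0 * V) ^ ε := by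
      apply Real.rpow_le_rpow (by positivity) _ hε.le
      have : (B : ℝ) * 1 ≤ B * X0 := by gcongr
      nlinarith
    calc (S.card : ℝ) ≤ V ^ 2 * (C2 * ((B : ℝ) * V) ^ ε) := hle
      _ ≤ (V * Real.sqrt X0) * (C2 * ((B : ℝ) * X0 * V) ^ ε) := by
          have : V ^ 2 ≤ V * Real.sqrt X0 := by
            rw [pow_two]
            gcongr
          gcongr
      _ = C2 * ((B : ℝ) * X0 * V) ^ ε * (V * Real.sqrt X0) := by ring
      _ ≤ (C2 + 2 * 2 ^ ε * C1) * ((B : ℝ) * X0 * V) ^ ε *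
            (V ^ 2 / X0 + V * Real.sqrt X0) := by
          have h3 : 0 ≤ 2 * 2 ^ ε * C1 := by positivity
          have h4 : 0 ≤ V * Real.sqrt X0 := by positivity
          gcongr
          · linarith
          · linarith
  · -- bound 1
    have hmap : ∀ s ∈ S, s.1 ∈ Finset.Icc 1 ⌊2 * X0⌋₊ := by
      intro s hs
      obtain ⟨a1, a2, a3⟩ := hS s hs
      refine Finset.mem_Icc.2 ⟨?_, Nat.le_floor a2.le⟩
      have : (1 : ℝ) ≤ (s.1 : ℝ) := hX0.trans a1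
      exact_mod_cast this
    have hcard := Finset.card_eq_sum_card_fiberwise hmap
    have hfib : ∀ x ∈ Finset.Icc 1 ⌊2 * X0⌋₊,
        ((S.filter (fun s => s.1 = x)).card : ℝ) ≤
          C1 * (2 * X0 * V) ^ ε * (1 + V ^ 2 / X0 ^ 2) := by
      intro x _
      rcases (S.filter (fun s => s.1 = x)).eq_empty_or_nonempty with he | ⟨s0, hs0⟩
      · rw [he, Finset.card_empty, Nat.cast_zero]
        positivity
      · obtain ⟨hs1, hs2⟩ := Finset.mem_filter.1 hs0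
        obtain ⟨a1, a2, a3, a4, a5, a6, a7, a8, a9, a10, a11, a12, a13⟩ := hS s0 hs1
        rw [hs2] at a1 a2 a10 a11
        have hinj : Set.InjOn (fun s : ℕ × ℕ × ℕ => s.2) (S.filter (fun s => s.1 = x)) := by
          intro s hs s' hs' h
          have b1 := (Finset.mem_filter.1 (Finset.mem_coe.1 hs)).2
          have b2 := (Finset.mem_filter.1 (Finset.mem_coe.1 hs')).2
          exact Prod.ext (b1.trans b2.symm) h
        rw [← Finset.card_image_of_injOn hinj]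
        refine b1_fib1 hε hC1 h1 hj1 hjJ hX0 hV a1 a2 a10 a11 ?_
        intro t ht
        obtain ⟨s, hs, rfl⟩ := Finset.mem_image.1 ht
        obtain ⟨b1, b2⟩ := Finset.mem_filter.1 hs
        obtain ⟨c1, c2, c3, c4, c5, c6, c7, c8, c9, c10, c11, c12, c13⟩ := hS s b1
        rw [b2] at c8 c9 c12
        exact ⟨c3, c4, c5, c6, c7, c8, c9, c12⟩
    have hle : (S.card : ℝ) ≤ (2 * X0) * (C1 * (2 * X0 * V) ^ ε * (1 + V ^ 2 / X0 ^ 2)) := by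
      rw [hcard]
      push_cast
      refine (Finset.sum_le_sum hfib).trans ?_
      rw [Finset.sum_const, Nat.card_Icc, nsmul_eq_mul]
      have hfl : (((⌊2 * X0⌋₊ + 1 - 1 : ℕ) : ℝ)) ≤ 2 * X0 := by
        rw [Nat.add_sub_cancel]
        exact Nat.floor_le (by positivity)
      gcongr
    have hVs : Real.sqrt X0 ≤ V := Real.sqrt_le_iff.2 ⟨hV'.le, hc.le⟩
    have hXs : X0 ≤ V * Real.sqrt X0 := by
      calc X0 = Real.sqrt X0 * Real.sqrt X0 := hsq.symm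
        _ ≤ V * Real.sqrt X0 := by gcongr
    have hE : (2 * X0 * V) ^ ε ≤ 2 ^ ε * ((B : ℝ) * X0 * V) ^ ε := by
      rw [← Real.mul_rpow (by norm_num) (by positivity)]
      apply Real.rpow_le_rpow (by positivity) _ hε.le
      have h5 : 1 * (X0 * V) ≤ B * (X0 * V) := by gcongr
      nlinarith
    have hq : (2 * X0) * (1 + V ^ 2 / X0 ^ 2) = 2 * (X0 + V ^ 2 / X0) := by
      field_simp
    calc (S.card : ℝ) ≤ (2 * X0) * (C1 * (2 * X0 * V) ^ ε * (1 + V ^ 2 / X0 ^ 2)) := hle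
      _ = C1 * (2 * X0 * V) ^ ε * ((2 * X0) * (1 + V ^ 2 / X0 ^ 2)) := by ring
      _ = C1 * (2 * X0 * V) ^ ε * (2 * (X0 + V ^ 2 / X0)) := by rw [hq]
      _ ≤ C1 * (2 ^ ε * ((B : ℝ) * X0 * V) ^ ε) * (2 * (V * Real.sqrt X0 + V ^ 2 / X0)) := by
          gcongr
      _ = 2 * 2 ^ ε * C1 * ((B : ℝ) * X0 * V) ^ ε * (V ^ 2 / X0 + V * Real.sqrt X0) := by ring
      _ ≤ (C2 + 2 * 2 ^ ε * C1) * ((B : ℝ) * X0 * V) ^ ε *
            (V ^ 2 / X0 + V * Real.sqrt X0) := by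
          gcongr
          linarith

end Pool.Agent.Helper93.AR
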