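import Pool.Agent.Helper93.AR.B1

set_option autoImplicit false

/-! # Project AR, piece B2: the energy of integers of small radical with a middle atom -/

namespace Pool.Agent.Helper93.AR

open Finset
open Pool.Agent.Helper21.EN (rad pc rest Tri)

private theorem b2_xs {X0 : ℝ} (h : 1 ≤ X0) (s : Finset ℕ)
    (hs : ∀ x ∈ s, X0 ≤ (x : ℝ) ∧ (x : ℝ) < 2 * X0) : (s.card : ℝ) ≤ 2 * X0 := by
  have h1 : s ⊆ Finset.Ico ⌈X0⌉₊ ⌈2 * X0⌉₊ := by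
    intro x hx
    rw [Finset.mem_Ico]
    exact ⟨Nat.ceil_le.2 (hs x hx).1, Nat.lt_ceil.2 (hs x hx).2⟩
  have h2 := Finset.card_le_card h1
  rw [Nat.card_Ico] at h2
  have h3 : ⌈X0⌉₊ ≤ ⌈2 * X0⌉₊ := Nat.ceil_mono (by linarith)
  have h4 : ((⌈2 * X0⌉₊ - ⌈X0⌉₊ : ℕ) : ℝ) = (⌈2 * X0⌉₊ : ℝ) - ⌈X0⌉₊ := Nat.cast_sub h3
  have h5 := Nat.ceil_lt_add_one (show 0 ≤ 2 * X0 by linarith)
  have h6 := Nat.le_ceil X0
  have h7 : (s.card : ℝ) ≤ ((⌈2 * X0⌉₊ - ⌈X0⌉₊ : ℕ) : ℝ) := by exact_mod_cast h2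
  linarith

private theorem b2_harm (X : ℕ) : ∑ r ∈ Finset.Icc 1 X, ((r : ℝ))⁻¹ ≤ 1 + Real.log X := by
  have h := harmonic_le_one_add_log X
  rw [harmonic_eq_sum_Icc] at h
  push_cast at h
  exact h

private theorem b2_fib {J : ℕ} {ε C : ℝ}
    (hC : ∀ (j n n' B : ℕ) (X0 V : ℝ) (S : Finset (ℕ × ℕ × ℕ)), 1 ≤ j → j ≤ J → 1 ≤ X0 → 1 ≤ V →
      0 < n → n ≤ B → 0 < n' → n' ≤ B →
      (∀ s ∈ S, X0 ≤ (s.1 : ℝ) ∧ (s.1 : ℝ) < 2 * X0 ∧ 0 < s.2.1 ∧ (s.2.1 : ℝ) ≤ V ∧ 0 < s.2.2 ∧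
        (s.2.2 : ℝ) ≤ V ∧ s.2.1.Coprime s.2.2 ∧ s.2.1.Coprime s.1 ∧ s.2.2.Coprime s.1 ∧
        n.Coprime s.1 ∧ n'.Coprime s.1 ∧ n * s.2.1 ^ j ≡ n' * s.2.2 ^ j [MOD s.1 ^ 2] ∧
        n * s.2.1 ^ j ≠ n' * s.2.2 ^ j) →
      (S.card : ℝ) ≤ C * ((B : ℝ) * X0 * V) ^ ε * (V ^ 2 / X0 + V * Real.sqrt X0))
    {j X : ℕ} {X0 Y0 : ℝ} (hj : 1 ≤ j) (hjJ : j ≤ J) (hX0 : 1 ≤ X0) {n n' g : ℕ} (hg : 0 < g)
    (hn : 0 < n) (hnX : n ≤ X) (hn' : 0 < n') (hnX' : n' ≤ X) (hgY : (g : ℝ) ≤ 2 * Y0)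
    (O : Finset (ℕ × ℕ × ℕ))
    (hO : ∀ s ∈ O, X0 ≤ (s.1 : ℝ) ∧ (s.1 : ℝ) < 2 * X0 ∧ 0 < s.2.1 ∧ 0 < s.2.2 ∧
        (pc j s.2.1 : ℝ) < 2 * Y0 ∧ (pc j s.2.2 : ℝ) < 2 * Y0 ∧
        s.2.1.Coprime s.1 ∧ s.2.2.Coprime s.1 ∧ s.2.1 ≡ s.2.2 [MOD s.1 ^ 2] ∧ s.2.1 ≠ s.2.2 ∧
        rest {j} s.2.1 = n ∧ rest {j} s.2.2 = n' ∧
        Nat.gcd (pc j s.2.1) (pc j s.2.2) = g) :
    (O.card : ℝ) ≤ C * ((X : ℝ) * X0 * (2 * Y0 / g)) ^ ε *
      ((2 * Y0 / g) ^ 2 / X0 + (2 * Y0 / g) * Real.sqrt X0) := by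
  classical
  have hg' : (0 : ℝ) < g := by exact_mod_cast hg
  have hinj : Set.InjOn (fun s : ℕ × ℕ × ℕ => (s.1, pc j s.2.1 / g, pc j s.2.2 / g)) O := by
    rintro ⟨x, b, b'⟩ hs ⟨y, c, c'⟩ ht h
    obtain ⟨-, -, s1, s2, -, -, -, -, -, -, s3, s4, s5⟩ := hO _ hs
    obtain ⟨-, -, t1, t2, -, -, -, -, -, -, t3, t4, t5⟩ := hO _ ht
    simp only at s1 s2 s3 s4 s5 t1 t2 t3 t4 t5
    simp only [Prod.mk.injEq] at h
    obtain ⟨h1, h2, h3⟩ := h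
    have e1 : pc j b = pc j c := by
      have a1 : g ∣ pc j b := s5 ▸ Nat.gcd_dvd_left _ _
      have a2 : g ∣ pc j c := t5 ▸ Nat.gcd_dvd_left _ _
      rw [← Nat.div_mul_cancel a1, ← Nat.div_mul_cancel a2, h2]
    have e2 : pc j b' = pc j c' := by
      have a1 : g ∣ pc j b' := s5 ▸ Nat.gcd_dvd_right _ _
      have a2 : g ∣ pc j c' := t5 ▸ Nat.gcd_dvd_right _ _
      rw [← Nat.div_mul_cancel a1, ← Nat.div_mul_cancel a2, h3]
    have e3 : b = c := by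
      rw [Pool.Agent.Helper21.EN.rest_mul_one s1 j, Pool.Agent.Helper21.EN.rest_mul_one t1 j, s3,
        t3, e1]
    have e4 : b' = c' := by
      rw [Pool.Agent.Helper21.EN.rest_mul_one s2 j, Pool.Agent.Helper21.EN.rest_mul_one t2 j, s4,
        t4, e2]
    rw [h1, e3, e4]
  have hV : 1 ≤ 2 * Y0 / (g : ℝ) := by
    rw [le_div_iff₀ hg', one_mul]
    exact hgY
  rw [← Finset.card_image_of_injOn hinj]
  refine hC j n n' X X0 (2 * Y0 / g) _ hj hjJ hX0 hV hn hnX hn' hnX' ?_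
  intro t ht
  rw [Finset.mem_image] at ht
  obtain ⟨⟨x, b, b'⟩, hs, rfl⟩ := ht
  obtain ⟨s0, s0', s1, s2, y1, y2, c1, c2, hm, hne, s3, s4, s5⟩ := hO _ hs
  simp only at s0 s0' s1 s2 y1 y2 c1 c2 hm hne s3 s4 s5 ⊢
  have a1 : g ∣ pc j b := s5 ▸ Nat.gcd_dvd_left _ _
  have a2 : g ∣ pc j b' := s5 ▸ Nat.gcd_dvd_right _ _
  have p1 := Pool.Agent.Helper21.EN.pc_pos j b
  have p2 := Pool.Agent.Helper21.EN.pc_pos j b'
  have q1 : pc j b / g * g = pc j b := Nat.div_mul_cancel a1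
  have q2 : pc j b' / g * g = pc j b' := Nat.div_mul_cancel a2
  have d1 := Pool.Agent.Helper21.EN.pc_dvd j b
  have d2 := Pool.Agent.Helper21.EN.pc_dvd j b'
  have e3 : b = n * (pc j b / g) ^ j * g ^ j := by
    rw [mul_assoc, ← mul_pow, q1]
    rw [← s3]
    exact Pool.Agent.Helper21.EN.rest_mul_one s1 j
  have e4 : b' = n' * (pc j b' / g) ^ j * g ^ j := by
    rw [mul_assoc, ← mul_pow, q2]
    rw [← s4]
    exact Pool.Agent.Helper21.EN.rest_mul_one s2 j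
  refine ⟨s0, s0', Nat.div_pos (Nat.le_of_dvd p1 a1) hg, ?_,
    Nat.div_pos (Nat.le_of_dvd p2 a2) hg, ?_, ?_, ?_, ?_, ?_, ?_, ?_, ?_⟩
  · rw [le_div_iff₀ hg']
    have : ((pc j b / g : ℕ) : ℝ) * (g : ℝ) = (pc j b : ℝ) := by exact_mod_cast q1
    rw [this]
    exact y1.le
  · rw [le_div_iff₀ hg']
    have : ((pc j b' / g : ℕ) : ℝ) * (g : ℝ) = (pc j b' : ℝ) := by exact_mod_cast q2
    rw [this]
    exact y2.le
  · rw [← s5]
    exact Nat.coprime_div_gcd_div_gcd (s5 ▸ hg)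
  · exact Nat.Coprime.coprime_dvd_left ((Nat.div_dvd_of_dvd a1).trans d1) c1
  · exact Nat.Coprime.coprime_dvd_left ((Nat.div_dvd_of_dvd a2).trans d2) c2
  · rw [← s3]
    exact Nat.Coprime.coprime_dvd_left (Pool.Agent.Helper21.EN.rest_dvd s1 _) c1
  · rw [← s4]
    exact Nat.Coprime.coprime_dvd_left (Pool.Agent.Helper21.EN.rest_dvd s2 _) c2
  · have hgx : Nat.Coprime g x := Nat.Coprime.coprime_dvd_left (a1.trans d1) c1
    have hgx' : Nat.gcd (x ^ 2) (g ^ j) = 1 := (Nat.Coprime.pow j 2 hgx).symm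
    refine Nat.ModEq.cancel_right_of_coprime hgx' ?_
    rw [← e3, ← e4]
    exact hm
  · intro h
    apply hne
    rw [e3, e4, h]

/-- PIECE AR-B2 (the whole file, 250 lines).  Triples `(x, b, b')`: `x ∈ [X0, 2 X0)`, `b, b' ≤ X`
prime to `x`, of radical at most `R`, `pc j b, pc j b' ∈ [Y0, 2 Y0)`, `b ≡ b' (mod x^2)`.
PROOF.  (Diagonal) `b = b'`: the pair `(x, b)` determines the triple, at most `2 X0` integers `x`,
at most `C1 X^ε' R` integers `b` (`rad_count`).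
(Off the diagonal) Write `b = n y^j`, `n = rest {j} b`, `y = pc j b` (`EN.rest_mul_one`), the same
for `b'`; `rad n * y = rad b ≤ R` (`EN.rad_rest_mul_one`), so `rad n ≤ R / Y0`; `n ≤ b ≤ X`.  Let
`g = gcd y y'`, `y = g y1`, `y' = g y1'`, `y1, y1'` coprime, `g ≤ y < 2 Y0`, `y1, y1' ≤ 2 Y0 / g =: V`
(`V ≥ 1`).  The map `(x,b,b') ↦ (n, n', g, (x, y1, y1'))` is injective.  `g` is prime to `x` (it
divides `b`, as `y ∣ b` (`EN.pc_dvd`)), so `n y1^j ≡ n' y1'^j (mod x^2)`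
(`Nat.ModEq.cancel_right_of_coprime`), and `n y1^j ≠ n' y1'^j` because `b ≠ b'`; `n`, `y1`, .. are
prime to `x` as divisors of `b` or `b'`.  So for given `(n, n', g)` `energyW` (with `B = X`) bounds
the number of `(x, y1, y1')` by `C2 (X X0 2 Y0)^ε' (4 Y0^2/(g^2 X0) + 2 Y0 √X0 / g)`.
The number of `n` is at most `C1 X^ε' R / Y0` (`rad_count`), the same for `n'`; `∑_g 1/g^2 ≤ 2`,
`∑_(g ≤ 2 Y0) 1/g ≤ 1 + log (2 Y0)` (`harmonic_le_one_add_log`), and `Y0 ≤ pc j b ≤ X` if `S` is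
not empty.  Total: `C X^(5ε') X0^ε' log (R/Y0)^2 (Y0^2/X0 + Y0 √X0)`; take `ε' = ε/8`. -/
theorem energyB (J : ℕ) (ε : ℝ) (hε : 0 < ε) : ∃ C : ℝ, 1 ≤ C ∧
    ∀ (j X : ℕ) (X0 Y0 R : ℝ) (S : Finset (ℕ × ℕ × ℕ)), 1 ≤ j → j ≤ J → 1 ≤ X → 1 ≤ X0 →
      1 ≤ Y0 → 1 ≤ R →
      (∀ s ∈ S, X0 ≤ (s.1 : ℝ) ∧ (s.1 : ℝ) < 2 * X0 ∧ 0 < s.2.1 ∧ s.2.1 ≤ X ∧ 0 < s.2.2 ∧
        s.2.2 ≤ X ∧ (rad s.2.1 : ℝ) ≤ R ∧ (rad s.2.2 : ℝ) ≤ R ∧ Y0 ≤ (pc j s.2.1 : ℝ) ∧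
        (pc j s.2.1 : ℝ) < 2 * Y0 ∧ Y0 ≤ (pc j s.2.2 : ℝ) ∧ (pc j s.2.2 : ℝ) < 2 * Y0 ∧
        s.2.1.Coprime s.1 ∧ s.2.2.Coprime s.1 ∧ s.2.1 ≡ s.2.2 [MOD s.1 ^ 2]) →
      (S.card : ℝ) ≤ C * ((X : ℝ) * X0) ^ ε *
        (X0 * R + R ^ 2 / X0 + R ^ 2 * Real.sqrt X0 / Y0) := by
  classical
  obtain ⟨e, he⟩ : ∃ e : ℝ, e = ε / 8 := ⟨_, rfl⟩
  have he0 : 0 < e := by rw [he]; positivity
  obtain ⟨C1, hC1, h1⟩ := rad_count e he0
  obtain ⟨C2, hC2, h2⟩ := energyW J e he0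
  have h2e : (1 : ℝ) ≤ 2 ^ e := Real.one_le_rpow (by norm_num) he0.le
  obtain ⟨K, hK⟩ : ∃ K : ℝ, K = 1 + 2 ^ e / e := ⟨_, rfl⟩
  have hK1 : 1 ≤ K := by
    rw [hK]
    have : 0 ≤ (2 : ℝ) ^ e / e := by positivity
    linarith
  obtain ⟨C3, hC3⟩ : ∃ C3 : ℝ, C3 = C1 ^ 2 * C2 * 2 ^ e * 4 * K := ⟨_, rfl⟩
  have hC30 : 0 ≤ C3 := by rw [hC3]; positivity
  refine ⟨2 * C1 + C3, by linarith, ?_⟩
  intro j X X0 Y0 R S hj hjJ hX hX0 hY0 hR hS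
  have hXr : (1 : ℝ) ≤ X := by exact_mod_cast hX
  have hXle : (X : ℝ) ≤ (X : ℝ) * X0 := le_mul_of_one_le_right (by linarith) hX0
  have hX0le : X0 ≤ (X : ℝ) * X0 := le_mul_of_one_le_left (by linarith) hXr
  have hXX : (1 : ℝ) ≤ (X : ℝ) * X0 := by linarith
  have hsq : 0 ≤ Real.sqrt X0 := Real.sqrt_nonneg _
  obtain ⟨Q, hQ⟩ : ∃ Q : ℝ, Q = ((X : ℝ) * X0) ^ ε := ⟨_, rfl⟩
  have hQ0 : 0 < Q := by rw [hQ]; positivity
  have hXeQ : (X : ℝ) ^ e ≤ Q := by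
    rw [hQ]
    calc (X : ℝ) ^ e ≤ ((X : ℝ) * X0) ^ e :=
          Real.rpow_le_rpow (by linarith) hXle he0.le
      _ ≤ ((X : ℝ) * X0) ^ ε := Real.rpow_le_rpow_of_exponent_le hXX (by rw [he]; linarith)
  -- the diagonal
  obtain ⟨D, hD⟩ : ∃ D, D = S.filter (fun s => s.2.1 = s.2.2) := ⟨_, rfl⟩
  obtain ⟨O, hO⟩ : ∃ O, O = S.filter (fun s => ¬ s.2.1 = s.2.2) := ⟨_, rfl⟩
  have hcard : (S.card : ℝ) = D.card + O.card := by
    rw [hD, hO]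
    exact_mod_cast (Finset.card_filter_add_card_filter_not (s := S) (fun s => s.2.1 = s.2.2)).symm
  have hDS : ∀ s ∈ D, s ∈ S ∧ s.2.1 = s.2.2 := by
    intro s hs
    rw [hD, Finset.mem_filter] at hs
    exact hs
  have hOS : ∀ s ∈ O, s ∈ S ∧ s.2.1 ≠ s.2.2 := by
    intro s hs
    rw [hO, Finset.mem_filter] at hs
    exact hs
  have hDc : (D.card : ℝ) ≤ 2 * C1 * Q * (X0 * R) := by
    have a1 : D.card ≤ ((D.image (fun s => s.1)) ×ˢ (D.image (fun s => s.2.1))).card := by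
      refine Finset.card_le_card_of_injOn (fun s => (s.1, s.2.1)) ?_ ?_
      · intro s hs
        have hs' : s ∈ D := hs
        rw [Finset.mem_coe, Finset.mem_product]
        exact ⟨Finset.mem_image_of_mem (fun s : ℕ × ℕ × ℕ => s.1) hs',
          Finset.mem_image_of_mem (fun s : ℕ × ℕ × ℕ => s.2.1) hs'⟩
      · rintro ⟨x, b, b'⟩ hs ⟨y, c, c'⟩ ht h
        have k1 := (hDS _ hs).2
        have k2 := (hDS _ ht).2
        simp only [Prod.mk.injEq] at h k1 k2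
        obtain ⟨g1, g2⟩ := h
        rw [← k1, ← k2, g1, g2]
    rw [Finset.card_product] at a1
    have a2 : ((D.image (fun s => s.1)).card : ℝ) ≤ 2 * X0 := by
      refine b2_xs hX0 _ ?_
      intro x hx
      rw [Finset.mem_image] at hx
      obtain ⟨s, hs, rfl⟩ := hx
      have := hS s (hDS s hs).1
      exact ⟨this.1, this.2.1⟩
    have a3 : ((D.image (fun s => s.2.1)).card : ℝ) ≤ C1 * (X : ℝ) ^ e * R := by
      refine h1 X R _ hX (by linarith) ?_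
      intro x hx
      rw [Finset.mem_image] at hx
      obtain ⟨s, hs, rfl⟩ := hx
      obtain ⟨-, -, k1, k2, -, -, k3, -⟩ := hS s (hDS s hs).1
      exact ⟨k1, k2, k3⟩
    have a4 : (D.card : ℝ) ≤ ((D.image (fun s => s.1)).card : ℝ) *
        ((D.image (fun s => s.2.1)).card : ℝ) := by exact_mod_cast a1
    calc (D.card : ℝ) ≤ ((D.image (fun s => s.1)).card : ℝ) *
        ((D.image (fun s => s.2.1)).card : ℝ) := a4
      _ ≤ (2 * X0) * (C1 * (X : ℝ) ^ e * R) :=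
          mul_le_mul a2 a3 (Nat.cast_nonneg _) (by linarith)
      _ = 2 * C1 * (X : ℝ) ^ e * (X0 * R) := by ring
      _ ≤ 2 * C1 * Q * (X0 * R) := by
          refine mul_le_mul_of_nonneg_right ?_ (by positivity)
          exact mul_le_mul_of_nonneg_left hXeQ (by positivity)
  -- off the diagonal
  have hOc : (O.card : ℝ) ≤ C3 * Q * (R ^ 2 / X0 + R ^ 2 * Real.sqrt X0 / Y0) := by
    rcases O.eq_empty_or_nonempty with hemp | ⟨s0, hs0⟩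
    · rw [hemp, Finset.card_empty, Nat.cast_zero]
      positivity
    have hYX : Y0 ≤ (X : ℝ) := by
      obtain ⟨-, -, k1, k2, -, -, -, -, k3, -⟩ := hS s0 (hOS s0 hs0).1
      have k4 : (pc j s0.2.1 : ℝ) ≤ (s0.2.1 : ℝ) := by
        exact_mod_cast Pool.Agent.Helper21.EN.pc_le k1
      have k5 : (s0.2.1 : ℝ) ≤ X := by exact_mod_cast k2
      linarith
    obtain ⟨NN, hNN⟩ : ∃ NN : Finset ℕ, NN = (Finset.Icc 1 X).filter
        (fun n => (rad n : ℝ) ≤ R / Y0) := ⟨_, rfl⟩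
    obtain ⟨GG', hGG⟩ : ∃ GG' : Finset ℕ, GG' = Finset.Icc 1 ⌊2 * Y0⌋₊ := ⟨_, rfl⟩
    have hNc : (NN.card : ℝ) ≤ C1 * (X : ℝ) ^ e * (R / Y0) := by
      refine h1 X (R / Y0) _ hX (by positivity) ?_
      intro n hn
      rw [hNN, Finset.mem_filter, Finset.mem_Icc] at hn
      exact ⟨hn.1.1, hn.1.2, hn.2⟩
    have hmemN : ∀ b : ℕ, 0 < b → b ≤ X → (rad b : ℝ) ≤ R → Y0 ≤ (pc j b : ℝ) →
        rest {j} b ∈ NN := by
      intro b hb hbX hbR hbY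
      rw [hNN, Finset.mem_filter, Finset.mem_Icc]
      refine ⟨⟨Pool.Agent.Helper21.EN.rest_pos _ _,
        (Pool.Agent.Helper21.EN.rest_le hb _).trans hbX⟩, ?_⟩
      rw [le_div_iff₀ (by linarith)]
      have k1 := Pool.Agent.Helper21.EN.rad_rest_mul_one j b
      have k2 : (rad b : ℝ) = (rad (rest {j} b) : ℝ) * (pc j b : ℝ) := by exact_mod_cast k1
      have k3 : (0 : ℝ) ≤ (rad (rest {j} b) : ℝ) := Nat.cast_nonneg _
      calc (rad (rest {j} b) : ℝ) * Y0 ≤ (rad (rest {j} b) : ℝ) * (pc j b : ℝ) :=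
            mul_le_mul_of_nonneg_left hbY k3
        _ = (rad b : ℝ) := k2.symm
        _ ≤ R := hbR
    let Φ : ℕ × ℕ × ℕ → ℕ × ℕ × ℕ := fun s => (rest {j} s.2.1, rest {j} s.2.2,
      Nat.gcd (pc j s.2.1) (pc j s.2.2))
    have hmaps : Set.MapsTo Φ O ((NN ×ˢ (NN ×ˢ GG') : Finset (ℕ × ℕ × ℕ)) : Set (ℕ × ℕ × ℕ)) := by
      intro s hs
      obtain ⟨-, -, k1, k2, k3, k4, k5, k6, k7, k8, k9, -⟩ := hS s (hOS s hs).1
      rw [Finset.mem_coe, Finset.mem_product, Finset.mem_product]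
      refine ⟨hmemN _ k1 k2 k5 k7, hmemN _ k3 k4 k6 k9, ?_⟩
      rw [hGG, Finset.mem_Icc]
      have p1 := Pool.Agent.Helper21.EN.pc_pos j s.2.1
      refine ⟨Nat.gcd_pos_of_pos_left _ p1, ?_⟩
      apply Nat.le_floor
      have : Nat.gcd (pc j s.2.1) (pc j s.2.2) ≤ pc j s.2.1 := Nat.gcd_le_left _ p1
      have : (Nat.gcd (pc j s.2.1) (pc j s.2.2) : ℝ) ≤ (pc j s.2.1 : ℝ) := by exact_mod_cast this
      linarith
    have hfib := Finset.card_eq_sum_card_fiberwise hmaps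
    have hbase : ((X : ℝ) * X0 * (2 * X)) ^ e ≤ 2 ^ e * ((X : ℝ) ^ e * (X : ℝ) ^ e * X0 ^ e) := by
      have : (X : ℝ) * X0 * (2 * X) = 2 * ((X : ℝ) * X * X0) := by ring
      rw [this, Real.mul_rpow (by norm_num) (by positivity),
        Real.mul_rpow (by positivity) (by positivity),
        Real.mul_rpow (by positivity) (by positivity)]
    obtain ⟨P, hP⟩ : ∃ P : ℝ, P = 2 ^ e * ((X : ℝ) ^ e * (X : ℝ) ^ e * X0 ^ e) := ⟨_, rfl⟩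
    have hP0 : 0 < P := by rw [hP]; positivity
    obtain ⟨W, hW⟩ : ∃ W : ℝ, W = 4 * (Y0 ^ 2 / X0 + Y0 * Real.sqrt X0) := ⟨_, rfl⟩
    have hW0 : 0 ≤ W := by rw [hW]; positivity
    have hterm : ∀ t ∈ NN ×ˢ (NN ×ˢ GG'),
        ((O.filter (fun s => Φ s = t)).card : ℝ) ≤ C2 * P * W * ((t.2.2 : ℝ))⁻¹ := by
      rintro ⟨n, n', g⟩ ht
      rw [Finset.mem_product, Finset.mem_product, hNN, hGG, Finset.mem_filter, Finset.mem_Icc,
        Finset.mem_filter, Finset.mem_Icc, Finset.mem_Icc] at ht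
      obtain ⟨⟨⟨n1, n2⟩, -⟩, ⟨⟨n3, n4⟩, -⟩, g1, g2⟩ := ht
      simp only at n1 n2 n3 n4 g1 g2 ⊢
      have hg0 : (1 : ℝ) ≤ g := by exact_mod_cast g1
      have hgpos : (0 : ℝ) < g := by linarith
      have hgY : (g : ℝ) ≤ 2 * Y0 := (Nat.le_floor_iff (by linarith)).1 g2
      have k := b2_fib h2 (X := X) hj hjJ hX0 g1 n1 n2 n3 n4 hgY
        (O.filter (fun s => Φ s = (n, n', g))) (by
          intro s hs
          rw [Finset.mem_filter] at hs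
          obtain ⟨hs, hΦ⟩ := hs
          obtain ⟨m1, m2, m3, -, m4, -, -, -, -, m5, -, m6, m7, m8, m9⟩ := hS s (hOS s hs).1
          simp only [Φ, Prod.mk.injEq] at hΦ
          exact ⟨m1, m2, m3, m4, m5, m6, m7, m8, m9, (hOS s hs).2, hΦ.1, hΦ.2.1, hΦ.2.2⟩)
      refine k.trans ?_
      have v1 : 2 * Y0 / (g : ℝ) ≤ 2 * X := by
        rw [div_le_iff₀ hgpos]
        have v5 : 2 * (X : ℝ) ≤ 2 * X * g := le_mul_of_one_le_right (by linarith) hg0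
        linarith
      have v0 : 0 < 2 * Y0 / (g : ℝ) := by positivity
      have v2 : ((X : ℝ) * X0 * (2 * Y0 / g)) ^ e ≤ P := by
        rw [hP]
        refine le_trans (Real.rpow_le_rpow (by positivity) ?_ he0.le) hbase
        exact mul_le_mul_of_nonneg_left v1 (by positivity)
      have v3 : (2 * Y0 / (g : ℝ)) ^ 2 / X0 + (2 * Y0 / g) * Real.sqrt X0 ≤ W * ((g : ℝ))⁻¹ := by
        have w1 : (2 * Y0 / (g : ℝ)) ^ 2 / X0 = 4 * (Y0 ^ 2 / X0) * ((g : ℝ)⁻¹ * (g : ℝ)⁻¹) := by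
          field_simp
          ring
        have w2 : (2 * Y0 / (g : ℝ)) * Real.sqrt X0 = 2 * (Y0 * Real.sqrt X0) * (g : ℝ)⁻¹ := by
          field_simp
        have w3 : (g : ℝ)⁻¹ ≤ 1 := inv_le_one_of_one_le₀ hg0
        have w4 : 0 ≤ (g : ℝ)⁻¹ := by positivity
        have w5 : (g : ℝ)⁻¹ * (g : ℝ)⁻¹ ≤ (g : ℝ)⁻¹ := by nlinarith
        have w6 : 0 ≤ Y0 ^ 2 / X0 := by positivity
        have w7 : 0 ≤ Y0 * Real.sqrt X0 := by positivity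
        rw [w1, w2, hW]
        have w8 : 4 * (Y0 ^ 2 / X0) * ((g : ℝ)⁻¹ * (g : ℝ)⁻¹) ≤
            4 * (Y0 ^ 2 / X0) * (g : ℝ)⁻¹ := mul_le_mul_of_nonneg_left w5 (by positivity)
        have w9 : 2 * (Y0 * Real.sqrt X0) * (g : ℝ)⁻¹ ≤ 4 * (Y0 * Real.sqrt X0) * (g : ℝ)⁻¹ := by
          refine mul_le_mul_of_nonneg_right ?_ w4
          linarith
        linarith
      have v4 : 0 ≤ (2 * Y0 / (g : ℝ)) ^ 2 / X0 + (2 * Y0 / g) * Real.sqrt X0 := by positivity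
      calc C2 * ((X : ℝ) * X0 * (2 * Y0 / g)) ^ e *
            ((2 * Y0 / g) ^ 2 / X0 + (2 * Y0 / g) * Real.sqrt X0) ≤
          C2 * P * (W * ((g : ℝ))⁻¹) := by
            refine mul_le_mul ?_ v3 v4 (by positivity)
            exact mul_le_mul_of_nonneg_left v2 (by linarith)
        _ = C2 * P * W * ((g : ℝ))⁻¹ := by ring
    have hsum : (O.card : ℝ) ≤ C2 * P * W * ((NN.card : ℝ) * NN.card *
        ∑ g ∈ GG', ((g : ℝ))⁻¹) := by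
      calc (O.card : ℝ) = ∑ t ∈ NN ×ˢ (NN ×ˢ GG'),
            ((O.filter (fun s => Φ s = t)).card : ℝ) := by exact_mod_cast hfib
        _ ≤ ∑ t ∈ NN ×ˢ (NN ×ˢ GG'), C2 * P * W * ((t.2.2 : ℝ))⁻¹ := Finset.sum_le_sum hterm
        _ = C2 * P * W * ((NN.card : ℝ) * NN.card * ∑ g ∈ GG', ((g : ℝ))⁻¹) := by
            rw [← Finset.mul_sum, Finset.sum_product]
            simp only [Finset.sum_product, Finset.sum_const, nsmul_eq_mul]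
            ring
    have hlog : ∑ g ∈ GG', ((g : ℝ))⁻¹ ≤ K * (X : ℝ) ^ e := by
      rw [hGG]
      refine (b2_harm _).trans ?_
      have l0 : (1 : ℝ) ≤ (⌊2 * Y0⌋₊ : ℝ) := by
        have : 1 ≤ ⌊2 * Y0⌋₊ := Nat.le_floor (by push_cast; linarith)
        exact_mod_cast this
      have l1 : (⌊2 * Y0⌋₊ : ℝ) ≤ 2 * X := (Nat.floor_le (by linarith)).trans (by linarith)
      have l2 : Real.log (⌊2 * Y0⌋₊ : ℝ) ≤ Real.log (2 * X) := Real.log_le_log (by linarith) l1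
      have l3 : Real.log (2 * (X : ℝ)) ≤ (2 * (X : ℝ)) ^ e / e :=
        Real.log_le_rpow_div (by positivity) he0
      have l4 : (2 * (X : ℝ)) ^ e = 2 ^ e * (X : ℝ) ^ e := Real.mul_rpow (by norm_num) (by positivity)
      have l5 : (1 : ℝ) ≤ (X : ℝ) ^ e := Real.one_le_rpow hXr he0.le
      rw [l4] at l3
      rw [hK]
      have l6 : (1 + 2 ^ e / e) * (X : ℝ) ^ e = (X : ℝ) ^ e + 2 ^ e * (X : ℝ) ^ e / e := by ring
      rw [l6]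
      linarith
    have hNc0 : 0 ≤ C1 * (X : ℝ) ^ e * (R / Y0) := by positivity
    have hN2 : (NN.card : ℝ) * NN.card ≤
        (C1 * (X : ℝ) ^ e * (R / Y0)) * (C1 * (X : ℝ) ^ e * (R / Y0)) :=
      mul_le_mul hNc hNc (Nat.cast_nonneg _) hNc0
    have hfin : (O.card : ℝ) ≤ C2 * P * W * ((C1 * (X : ℝ) ^ e * (R / Y0)) *
        (C1 * (X : ℝ) ^ e * (R / Y0)) * (K * (X : ℝ) ^ e)) := by
      refine hsum.trans ?_
      refine mul_le_mul_of_nonneg_left ?_ (by positivity)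
      refine mul_le_mul hN2 hlog ?_ (by positivity)
      exact Finset.sum_nonneg fun g _ => by positivity
    refine hfin.trans ?_
    have hWR : W * ((R / Y0) * (R / Y0)) = 4 * (R ^ 2 / X0 + R ^ 2 * Real.sqrt X0 / Y0) := by
      rw [hW]
      have : Y0 ≠ 0 := by linarith
      have : X0 ≠ 0 := by linarith
      field_simp
    have hpow : (X : ℝ) ^ e * (X : ℝ) ^ e * (X : ℝ) ^ e * ((X : ℝ) ^ e * (X : ℝ) ^ e * X0 ^ e) ≤ Q := by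
      have u1 : (X : ℝ) ^ e * (X : ℝ) ^ e * (X : ℝ) ^ e * ((X : ℝ) ^ e * (X : ℝ) ^ e * X0 ^ e) ≤
          ((X : ℝ) * X0) ^ e * ((X : ℝ) * X0) ^ e * ((X : ℝ) * X0) ^ e *
            (((X : ℝ) * X0) ^ e * ((X : ℝ) * X0) ^ e * ((X : ℝ) * X0) ^ e) := by
        have u2 : (X : ℝ) ^ e ≤ ((X : ℝ) * X0) ^ e :=
          Real.rpow_le_rpow (by linarith) hXle he0.le
        have u3 : X0 ^ e ≤ ((X : ℝ) * X0) ^ e :=
          Real.rpow_le_rpow (by linarith) hX0le he0.le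
        have u4 : 0 < (X : ℝ) ^ e := by positivity
        have u5 : 0 < X0 ^ e := by positivity
        gcongr
      refine u1.trans ?_
      have u6 : ((X : ℝ) * X0) ^ e * ((X : ℝ) * X0) ^ e * ((X : ℝ) * X0) ^ e *
            (((X : ℝ) * X0) ^ e * ((X : ℝ) * X0) ^ e * ((X : ℝ) * X0) ^ e) =
          ((X : ℝ) * X0) ^ (6 * e) := by
        have : ((X : ℝ) * X0) ^ (6 * e) = (((X : ℝ) * X0) ^ e) ^ (6 : ℕ) := by
          rw [← Real.rpow_natCast, ← Real.rpow_mul (by positivity)]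
          congr 1
          push_cast
          ring
        rw [this]
        ring
      rw [u6, hQ]
      exact Real.rpow_le_rpow_of_exponent_le hXX (by rw [he]; linarith)
    calc C2 * P * W * ((C1 * (X : ℝ) ^ e * (R / Y0)) * (C1 * (X : ℝ) ^ e * (R / Y0)) *
          (K * (X : ℝ) ^ e)) =
        (C1 ^ 2 * C2 * 2 ^ e * K) * ((X : ℝ) ^ e * (X : ℝ) ^ e * (X : ℝ) ^ e *
          ((X : ℝ) ^ e * (X : ℝ) ^ e * X0 ^ e)) * (W * ((R / Y0) * (R / Y0))) := by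
          rw [hP]
          ring
      _ ≤ (C1 ^ 2 * C2 * 2 ^ e * K) * Q * (W * ((R / Y0) * (R / Y0))) := by
          refine mul_le_mul_of_nonneg_right ?_ (by positivity)
          exact mul_le_mul_of_nonneg_left hpow (by positivity)
      _ = C3 * Q * (R ^ 2 / X0 + R ^ 2 * Real.sqrt X0 / Y0) := by
          rw [hWR, hC3]
          ring
  rw [hcard, ← hQ]
  have z1 : 0 ≤ R ^ 2 / X0 + R ^ 2 * Real.sqrt X0 / Y0 := by positivity
  have z2 : 0 ≤ X0 * R := by positivity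
  have z3 : 0 ≤ 2 * C1 * Q * (R ^ 2 / X0 + R ^ 2 * Real.sqrt X0 / Y0) := by positivity
  have z4 : 0 ≤ C3 * Q * (X0 * R) := by positivity
  have z5 : (2 * C1 + C3) * Q * (X0 * R + R ^ 2 / X0 + R ^ 2 * Real.sqrt X0 / Y0) =
      2 * C1 * Q * (X0 * R) + C3 * Q * (R ^ 2 / X0 + R ^ 2 * Real.sqrt X0 / Y0) +
      2 * C1 * Q * (R ^ 2 / X0 + R ^ 2 * Real.sqrt X0 / Y0) + C3 * Q * (X0 * R) := by ring
  rw [z5]
  linarith

end Pool.Agent.Helper93.AR
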