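import Pool.Agent.Helper93.AR.A2

set_option autoImplicit false

/-! # Project AR, piece B3: the trivial energy and a Cauchy-Schwarz inequality -/

namespace Pool.Agent.Helper93.AR

open Finset
open Pool.Agent.Helper21.EN (rad pc rest Tri)

private theorem b3_card_prod {α β γ : Type} [DecidableEq β] [DecidableEq γ] (S : Finset α)
    (f : α → β) (g : α → γ) (A : Finset β) (hA : ∀ s ∈ S, f s ∈ A)
    (hinj : ∀ s ∈ S, ∀ t ∈ S, f s = f t → g s = g t → s = t) :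
    S.card ≤ A.card * (S.image g).card := by
  rw [← Finset.card_product]
  refine Finset.card_le_card_of_injOn (fun s => (f s, g s)) ?_ ?_
  · intro s hs
    exact Finset.mem_coe.2 (Finset.mem_product.2 ⟨hA s hs, Finset.mem_image_of_mem g hs⟩)
  · intro s hs t ht h
    exact hinj s hs t ht (congrArg Prod.fst h) (congrArg Prod.snd h)

/-- PIECE AR-B3 (the whole file, 150 lines).  Triples `(x, c, c')`: `x ∈ [X0, 2 X0)`, `c, c' ≤ X` of
radical at most `R`, `c ≡ c' (mod x^2)`.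
PROOF.  `c = c'`: at most `2 X0` integers `x` and `C1 X^ε R` integers `c` (`rad_count`).
`c ≠ c'`: at most `(C1 X^(ε/3) R)^2` pairs; `x^2` divides `|c - c'|`, `0 < |c - c'| ≤ X`: at most
`C2 X^(ε/3)` values of `x` (`sq_div`). -/
theorem energyC (ε : ℝ) (hε : 0 < ε) : ∃ C : ℝ, 1 ≤ C ∧
    ∀ (X : ℕ) (X0 R : ℝ) (S : Finset (ℕ × ℕ × ℕ)), 1 ≤ X → 1 ≤ X0 → 1 ≤ R →
      (∀ s ∈ S, X0 ≤ (s.1 : ℝ) ∧ (s.1 : ℝ) < 2 * X0 ∧ 0 < s.2.1 ∧ s.2.1 ≤ X ∧ 0 < s.2.2 ∧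
        s.2.2 ≤ X ∧ (rad s.2.1 : ℝ) ≤ R ∧ (rad s.2.2 : ℝ) ≤ R ∧
        s.2.1 ≡ s.2.2 [MOD s.1 ^ 2]) →
      (S.card : ℝ) ≤ C * (X : ℝ) ^ ε * (X0 * R + R ^ 2) := by
  classical
  obtain ⟨C1, hC1, h1⟩ := rad_count ε hε
  obtain ⟨C2, hC2, h2⟩ := rad_count (ε / 3) (by positivity)
  obtain ⟨C3, hC3, h3⟩ := sq_div (ε / 3) (by positivity)
  refine ⟨3 * C1 + C2 ^ 2 * C3, ?_, ?_⟩
  · have : 0 ≤ C2 ^ 2 * C3 := by positivity
    linarith
  intro X X0 R S hX hX0 hR hS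
  have hXr : (1 : ℝ) ≤ (X : ℝ) := by exact_mod_cast hX
  have hXe : 0 ≤ (X : ℝ) ^ ε := by positivity
  -- the diagonal
  have hdiag : ((S.filter fun s => s.2.1 = s.2.2).card : ℝ) ≤
      3 * C1 * (X : ℝ) ^ ε * (X0 * R) := by
    have e1 := b3_card_prod (S.filter fun s => s.2.1 = s.2.2) (fun s => s.1) (fun s => s.2.1)
      (Finset.range (⌊2 * X0⌋₊ + 1)) (by
        intro s hs
        obtain ⟨hs1, hs2⟩ := Finset.mem_filter.1 hs
        obtain ⟨ha, hb, -⟩ := hS s hs1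
        rw [Finset.mem_range]
        have : s.1 ≤ ⌊2 * X0⌋₊ := Nat.le_floor hb.le
        omega) (by
        rintro ⟨x, c, c'⟩ hs ⟨y, d, d'⟩ ht hxy hcd
        have hs2 := (Finset.mem_filter.1 hs).2
        have ht2 := (Finset.mem_filter.1 ht).2
        simp only at hs2 ht2 hxy hcd
        subst hs2 ht2 hxy hcd
        rfl)
    have e2 : (((S.filter fun s => s.2.1 = s.2.2).image fun s => s.2.1).card : ℝ) ≤
        C1 * (X : ℝ) ^ ε * R := by
      refine h1 X R _ hX (by linarith) ?_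
      intro n hn
      obtain ⟨s, hs, rfl⟩ := Finset.mem_image.1 hn
      obtain ⟨-, -, h5, h6, -, -, h7, -⟩ := hS s (Finset.mem_filter.1 hs).1
      exact ⟨h5, h6, h7⟩
    have e3 : ((Finset.range (⌊2 * X0⌋₊ + 1)).card : ℝ) ≤ 3 * X0 := by
      rw [Finset.card_range]
      push_cast
      have := Nat.floor_le (show 0 ≤ 2 * X0 by linarith)
      linarith
    have e4 : ((S.filter fun s => s.2.1 = s.2.2).card : ℝ) ≤
        ((Finset.range (⌊2 * X0⌋₊ + 1)).card : ℝ) *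
          (((S.filter fun s => s.2.1 = s.2.2).image fun s => s.2.1).card : ℝ) := by
      exact_mod_cast e1
    calc ((S.filter fun s => s.2.1 = s.2.2).card : ℝ) ≤ _ := e4
      _ ≤ (3 * X0) * (C1 * (X : ℝ) ^ ε * R) :=
          mul_le_mul e3 e2 (Nat.cast_nonneg _) (by linarith)
      _ = 3 * C1 * (X : ℝ) ^ ε * (X0 * R) := by ring
  -- off the diagonal
  have hoff : ((S.filter fun s => ¬ s.2.1 = s.2.2).card : ℝ) ≤
      C2 ^ 2 * C3 * (X : ℝ) ^ ε * R ^ 2 := by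
    obtain ⟨T, hT⟩ : ∃ T, T = S.filter fun s => ¬ s.2.1 = s.2.2 := ⟨_, rfl⟩
    rw [← hT]
    have hTS : ∀ s ∈ T, s ∈ S ∧ s.2.1 ≠ s.2.2 := by
      intro s hs
      rw [hT] at hs
      exact Finset.mem_filter.1 hs
    have e1 : ((T.image fun s => s.2.1).card : ℝ) ≤ C2 * (X : ℝ) ^ (ε / 3) * R := by
      refine h2 X R _ hX (by linarith) ?_
      intro n hn
      obtain ⟨s, hs, rfl⟩ := Finset.mem_image.1 hn
      obtain ⟨-, -, h5, h6, -, -, h7, -⟩ := hS s (hTS s hs).1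
      exact ⟨h5, h6, h7⟩
    have e2 : ((T.image fun s => s.2.2).card : ℝ) ≤ C2 * (X : ℝ) ^ (ε / 3) * R := by
      refine h2 X R _ hX (by linarith) ?_
      intro n hn
      obtain ⟨s, hs, rfl⟩ := Finset.mem_image.1 hn
      obtain ⟨-, -, -, -, h5, h6, -, h7, -⟩ := hS s (hTS s hs).1
      exact ⟨h5, h6, h7⟩
    have e3 : ((T.image fun s => s.2).card : ℝ) ≤ (C2 * (X : ℝ) ^ (ε / 3) * R) ^ 2 := by
      have h5 : (T.image fun s => s.2) ⊆ (T.image fun s => s.2.1) ×ˢ (T.image fun s => s.2.2) := by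
        intro p hp
        obtain ⟨s, hs, rfl⟩ := Finset.mem_image.1 hp
        exact Finset.mem_product.2 ⟨Finset.mem_image_of_mem (fun s => s.2.1) hs,
          Finset.mem_image_of_mem (fun s => s.2.2) hs⟩
      have h6 := Finset.card_le_card h5
      rw [Finset.card_product] at h6
      have h7 : ((T.image fun s => s.2).card : ℝ) ≤
          ((T.image fun s => s.2.1).card : ℝ) * ((T.image fun s => s.2.2).card : ℝ) := by
        exact_mod_cast h6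
      rw [pow_two]
      exact h7.trans (mul_le_mul e1 e2 (Nat.cast_nonneg _) (by positivity))
    have e4 : ∀ p ∈ T.image fun s => s.2, ((T.filter fun s => s.2 = p).card : ℝ) ≤
        C3 * (X : ℝ) ^ (ε / 3) := by
      intro p hp
      obtain ⟨s0, hs0, rfl⟩ := Finset.mem_image.1 hp
      obtain ⟨hs1, hs2⟩ := hTS s0 hs0
      obtain ⟨-, -, h5, h6, h7, h8, -⟩ := hS s0 hs1
      have hn0 : 0 < ((s0.2.1 : ℤ) - s0.2.2).natAbs := by omega
      have hnX : ((s0.2.1 : ℤ) - s0.2.2).natAbs ≤ X := by omega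
      have h9 : (((T.filter fun s => s.2 = s0.2).image fun s => s.1).card : ℝ) ≤
          C3 * ((((s0.2.1 : ℤ) - s0.2.2).natAbs : ℕ) : ℝ) ^ (ε / 3) := by
        refine h3 _ _ hn0 ?_
        intro x hx
        obtain ⟨s, hs, rfl⟩ := Finset.mem_image.1 hx
        obtain ⟨hs3, hs4⟩ := Finset.mem_filter.1 hs
        obtain ⟨-, -, -, -, -, -, -, -, h10⟩ := hS s (hTS s hs3).1
        rw [hs4] at h10
        have h11 := (Nat.modEq_iff_dvd.1 h10)
        have h12 : ((s.1 ^ 2 : ℕ) : ℤ) ∣ (s0.2.1 : ℤ) - s0.2.2 := by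
          have := dvd_neg.2 h11
          rwa [neg_sub] at this
        exact Int.natCast_dvd.1 h12
      have h10 : (T.filter fun s => s.2 = s0.2).card =
          ((T.filter fun s => s.2 = s0.2).image fun s => s.1).card := by
        rw [Finset.card_image_of_injOn]
        intro s hs t ht hst
        have h11 := (Finset.mem_filter.1 (Finset.mem_coe.1 hs)).2
        have h12 := (Finset.mem_filter.1 (Finset.mem_coe.1 ht)).2
        exact Prod.ext hst (h11.trans h12.symm)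
      rw [h10]
      refine h9.trans (mul_le_mul_of_nonneg_left ?_ (by linarith))
      refine Real.rpow_le_rpow (Nat.cast_nonneg _) ?_ (by positivity)
      exact_mod_cast hnX
    have e5 : (T.card : ℝ) ≤ ((T.image fun s => s.2).card : ℝ) * (C3 * (X : ℝ) ^ (ε / 3)) := by
      rw [Finset.card_eq_sum_card_image (fun s => s.2) T]
      push_cast
      calc ∑ p ∈ T.image (fun s => s.2), ((T.filter fun s => s.2 = p).card : ℝ) ≤
          ∑ _p ∈ T.image (fun s => s.2), C3 * (X : ℝ) ^ (ε / 3) := Finset.sum_le_sum e4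
        _ = _ := by rw [Finset.sum_const, nsmul_eq_mul]
    have e6 : (X : ℝ) ^ (ε / 3) * (X : ℝ) ^ (ε / 3) * (X : ℝ) ^ (ε / 3) = (X : ℝ) ^ ε := by
      rw [← Real.rpow_add (by linarith), ← Real.rpow_add (by linarith)]
      congr 1
      ring
    calc (T.card : ℝ) ≤ _ := e5
      _ ≤ (C2 * (X : ℝ) ^ (ε / 3) * R) ^ 2 * (C3 * (X : ℝ) ^ (ε / 3)) :=
          mul_le_mul_of_nonneg_right e3 (by positivity)
      _ = C2 ^ 2 * C3 * ((X : ℝ) ^ (ε / 3) * (X : ℝ) ^ (ε / 3) * (X : ℝ) ^ (ε / 3)) * R ^ 2 := by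
          ring
      _ = C2 ^ 2 * C3 * (X : ℝ) ^ ε * R ^ 2 := by rw [e6]
  have hsplit : (S.card : ℝ) = ((S.filter fun s => s.2.1 = s.2.2).card : ℝ) +
      ((S.filter fun s => ¬ s.2.1 = s.2.2).card : ℝ) := by
    rw [← Finset.card_filter_add_card_filter_not (fun s => s.2.1 = s.2.2)]
    push_cast
    rfl
  rw [hsplit]
  have f1 : 0 ≤ C2 ^ 2 * C3 * (X : ℝ) ^ ε * (X0 * R) := by positivity
  have f2 : 0 ≤ 3 * C1 * (X : ℝ) ^ ε * R ^ 2 := by positivity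
  calc _ ≤ 3 * C1 * (X : ℝ) ^ ε * (X0 * R) + C2 ^ 2 * C3 * (X : ℝ) ^ ε * R ^ 2 :=
        add_le_add hdiag hoff
    _ ≤ 3 * C1 * (X : ℝ) ^ ε * (X0 * R) + C2 ^ 2 * C3 * (X : ℝ) ^ ε * R ^ 2 +
        (C2 ^ 2 * C3 * (X : ℝ) ^ ε * (X0 * R) + 3 * C1 * (X : ℝ) ^ ε * R ^ 2) := by linarith
    _ = (3 * C1 + C2 ^ 2 * C3) * (X : ℝ) ^ ε * (X0 * R + R ^ 2) := by ring

private theorem b3_fib {α β κ : Type} [DecidableEq α] [DecidableEq β] [DecidableEq κ]
    (A : Finset α) (B : Finset β) (f : α → κ) (g : β → κ) (K : Finset κ)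
    (hK : ∀ a ∈ A, f a ∈ K) :
    ((A ×ˢ B).filter (fun z => f z.1 = g z.2)).card =
      ∑ k ∈ K, (A.filter (fun a => f a = k)).card * (B.filter (fun b => g b = k)).card := by
  rw [Finset.card_eq_sum_card_fiberwise (f := fun z : α × β => f z.1) (t := K)]
  · apply Finset.sum_congr rfl
    intro k _
    rw [← Finset.card_product]
    congr 1
    ext ⟨a, b⟩
    simp only [Finset.mem_filter, Finset.mem_product]
    constructor
    · rintro ⟨⟨⟨ha, hb⟩, h1⟩, h2⟩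
      exact ⟨⟨ha, h2⟩, hb, h1 ▸ h2⟩
    · rintro ⟨⟨ha, h1⟩, hb, h2⟩
      exact ⟨⟨⟨ha, hb⟩, h1.trans h2.symm⟩, h1⟩
  · intro z hz
    simp only [Finset.coe_filter, Finset.mem_product, Set.mem_ofPred_eq] at hz
    exact hK _ hz.1.1

/-- Cauchy-Schwarz: `S` a set of triples `(x, q, r)` with `φ x q = ψ x r`.  `P`, `Q` contain the
pairs `(x, q)`, `(x, r)` of the triples.
PROOF.  For a key `κ = (x, v)` let `P_κ` be the set of the `(x, q) ∈ P` with `φ x q = v`, `Q_κ` the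
set of the `(x, r) ∈ Q` with `ψ x r = v`.  Then `S` injects into `⋃_κ P_κ × Q_κ` (disjoint), so
`|S| ≤ ∑_κ |P_κ| |Q_κ| ≤ (∑ |P_κ|^2)^(1/2) (∑ |Q_κ|^2)^(1/2)` (`Finset.sum_mul_sq_le_sq_mul_sq`) and
`∑ |P_κ|^2` is the cardinality of the first set on the right. -/
theorem cs_card (S : Finset (ℕ × ℕ × ℕ)) (φ ψ : ℕ → ℕ → ℕ) (P Q : Finset (ℕ × ℕ))
    (h : ∀ s ∈ S, φ s.1 s.2.1 = ψ s.1 s.2.2) (hP : ∀ s ∈ S, (s.1, s.2.1) ∈ P)
    (hQ : ∀ s ∈ S, (s.1, s.2.2) ∈ Q) :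
    (S.card : ℝ) ^ 2 ≤
      (((P ×ˢ P).filter (fun z => z.1.1 = z.2.1 ∧ φ z.1.1 z.1.2 = φ z.2.1 z.2.2)).card : ℝ) *
      (((Q ×ˢ Q).filter (fun z => z.1.1 = z.2.1 ∧ ψ z.1.1 z.1.2 = ψ z.2.1 z.2.2)).card : ℝ) := by
  classical
  set kP : ℕ × ℕ → ℕ × ℕ := fun p => (p.1, φ p.1 p.2) with hkP
  set kQ : ℕ × ℕ → ℕ × ℕ := fun p => (p.1, ψ p.1 p.2) with hkQ
  set K : Finset (ℕ × ℕ) := P.image kP ∪ Q.image kQ with hK
  have hKP : ∀ a ∈ P, kP a ∈ K := fun a ha =>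
    Finset.mem_union_left _ (Finset.mem_image_of_mem _ ha)
  have hKQ : ∀ a ∈ Q, kQ a ∈ K := fun a ha =>
    Finset.mem_union_right _ (Finset.mem_image_of_mem _ ha)
  have h1 : S.card ≤ ((P ×ˢ Q).filter (fun z => kP z.1 = kQ z.2)).card := by
    apply Finset.card_le_card_of_injOn (fun s => ((s.1, s.2.1), (s.1, s.2.2)))
    · intro s hs
      have hs' : s ∈ S := hs
      simp only [Finset.coe_filter, Finset.mem_product, Set.mem_ofPred_eq]
      exact ⟨⟨hP s hs', hQ s hs'⟩, Prod.ext rfl (h s hs')⟩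
    · rintro ⟨a, b, c⟩ _ ⟨a', b', c'⟩ _ heq
      simp only [Prod.mk.injEq] at heq ⊢
      exact ⟨heq.1.1, heq.1.2, heq.2.2⟩
  have h2 : ((P ×ˢ P).filter (fun z => z.1.1 = z.2.1 ∧ φ z.1.1 z.1.2 = φ z.2.1 z.2.2)) =
      (P ×ˢ P).filter (fun z => kP z.1 = kP z.2) := by
    apply Finset.filter_congr
    intro z _
    rw [hkP]
    simp only [Prod.mk.injEq]
  have h3 : ((Q ×ˢ Q).filter (fun z => z.1.1 = z.2.1 ∧ ψ z.1.1 z.1.2 = ψ z.2.1 z.2.2)) =
      (Q ×ˢ Q).filter (fun z => kQ z.1 = kQ z.2) := by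
    apply Finset.filter_congr
    intro z _
    rw [hkQ]
    simp only [Prod.mk.injEq]
  rw [h2, h3, b3_fib P P kP kP K hKP, b3_fib Q Q kQ kQ K hKQ]
  have h4 := b3_fib P Q kP kQ K hKP
  rw [h4] at h1
  have h5 : (S.card : ℝ) ≤ ∑ k ∈ K, ((P.filter (fun a => kP a = k)).card : ℝ) *
      ((Q.filter (fun b => kQ b = k)).card : ℝ) := by exact_mod_cast h1
  have h6 : (S.card : ℝ) ^ 2 ≤ (∑ k ∈ K, ((P.filter (fun a => kP a = k)).card : ℝ) *
      ((Q.filter (fun b => kQ b = k)).card : ℝ)) ^ 2 :=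
    pow_le_pow_left₀ (Nat.cast_nonneg _) h5 2
  refine h6.trans ((Finset.sum_mul_sq_le_sq_mul_sq K _ _).trans (le_of_eq ?_))
  push_cast
  congr 1 <;> exact Finset.sum_congr rfl fun k _ => by ring

end Pool.Agent.Helper93.AR
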