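import Pool.Agent.Helper93.AR.B2
import Pool.Agent.Helper93.AR.B3

set_option autoImplicit false

/-! # Project AR, piece B4: the modulus step -/

namespace Pool.Agent.Helper93.AR

open Finset
open Pool.Agent.Helper21.EN (rad pc rest Tri)

/-- Generic step: a set of triples of one additive form. -/
private theorem b4_one (J : ℕ) (ε C1 C2 : ℝ)
    (h1 : ∀ (j X : ℕ) (X0 Y0 R : ℝ) (S : Finset (ℕ × ℕ × ℕ)), 1 ≤ j → j ≤ J → 1 ≤ X → 1 ≤ X0 →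
      1 ≤ Y0 → 1 ≤ R →
      (∀ s ∈ S, X0 ≤ (s.1 : ℝ) ∧ (s.1 : ℝ) < 2 * X0 ∧ 0 < s.2.1 ∧ s.2.1 ≤ X ∧ 0 < s.2.2 ∧
        s.2.2 ≤ X ∧ (rad s.2.1 : ℝ) ≤ R ∧ (rad s.2.2 : ℝ) ≤ R ∧ Y0 ≤ (pc j s.2.1 : ℝ) ∧
        (pc j s.2.1 : ℝ) < 2 * Y0 ∧ Y0 ≤ (pc j s.2.2 : ℝ) ∧ (pc j s.2.2 : ℝ) < 2 * Y0 ∧
        s.2.1.Coprime s.1 ∧ s.2.2.Coprime s.1 ∧ s.2.1 ≡ s.2.2 [MOD s.1 ^ 2]) →
      (S.card : ℝ) ≤ C1 * ((X : ℝ) * X0) ^ ε *
        (X0 * R + R ^ 2 / X0 + R ^ 2 * Real.sqrt X0 / Y0))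
    (h2 : ∀ (X : ℕ) (X0 R : ℝ) (S : Finset (ℕ × ℕ × ℕ)), 1 ≤ X → 1 ≤ X0 → 1 ≤ R →
      (∀ s ∈ S, X0 ≤ (s.1 : ℝ) ∧ (s.1 : ℝ) < 2 * X0 ∧ 0 < s.2.1 ∧ s.2.1 ≤ X ∧ 0 < s.2.2 ∧
        s.2.2 ≤ X ∧ (rad s.2.1 : ℝ) ≤ R ∧ (rad s.2.2 : ℝ) ≤ R ∧
        s.2.1 ≡ s.2.2 [MOD s.1 ^ 2]) →
      (S.card : ℝ) ≤ C2 * (X : ℝ) ^ ε * (X0 * R + R ^ 2))
    (hC1 : 1 ≤ C1)
    (j X : ℕ) (X0 Y0 R : ℝ) (T : Finset (ℕ × ℕ × ℕ)) (ψ : ℕ → ℕ → ℕ)
    (hj1 : 1 ≤ j) (hj : j ≤ J) (hX : 1 ≤ X) (hX0 : 1 ≤ X0) (hY0 : 1 ≤ Y0) (hR : 1 ≤ R)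
    (hψ : ∀ x r r', 0 < x → ψ x r = ψ x r' → r ≡ r' [MOD x ^ 2])
    (hT : ∀ s ∈ T, X0 ≤ (s.1 : ℝ) ∧ (s.1 : ℝ) < 2 * X0 ∧ 0 < s.2.1 ∧ s.2.1 ≤ X ∧ 0 < s.2.2 ∧
        s.2.2 ≤ X ∧ (rad s.2.1 : ℝ) ≤ R ∧ (rad s.2.2 : ℝ) ≤ R ∧ Y0 ≤ (pc j s.2.1 : ℝ) ∧
        (pc j s.2.1 : ℝ) < 2 * Y0 ∧ s.2.1.Coprime s.1 ∧ s.2.1 % s.1 ^ 2 = ψ s.1 s.2.2) :
    (T.card : ℝ) ^ 2 ≤ (C1 * ((X : ℝ) * X0) ^ ε *
        (X0 * R + R ^ 2 / X0 + R ^ 2 * Real.sqrt X0 / Y0)) *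
        (C2 * (X : ℝ) ^ ε * (X0 * R + R ^ 2)) := by
  classical
  have hcs := cs_card T (fun x q => q % x ^ 2) ψ (T.image fun s => (s.1, s.2.1))
    (T.image fun s => (s.1, s.2.2)) (fun s hs => (hT s hs).2.2.2.2.2.2.2.2.2.2.2)
    (fun s hs => Finset.mem_image_of_mem (fun s : ℕ × ℕ × ℕ => (s.1, s.2.1)) hs)
    (fun s hs => Finset.mem_image_of_mem (fun s : ℕ × ℕ × ℕ => (s.1, s.2.2)) hs)
  refine hcs.trans (mul_le_mul ?_ ?_ (Nat.cast_nonneg _) ?_)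
  · -- the first energy
    obtain ⟨A, hA⟩ : ∃ A, A = (((T.image fun s => (s.1, s.2.1)) ×ˢ
      (T.image fun s => (s.1, s.2.1))).filter
      (fun z => z.1.1 = z.2.1 ∧ z.1.2 % z.1.1 ^ 2 = z.2.2 % z.2.1 ^ 2)) := ⟨_, rfl⟩
    rw [← hA]
    have hcard : A.card = (A.image fun z => (z.1.1, z.1.2, z.2.2)).card := by
      rw [Finset.card_image_of_injOn]
      rintro ⟨⟨a, b⟩, c, d⟩ hz ⟨⟨a', b'⟩, c', d'⟩ hz' h
      rw [Finset.mem_coe, hA, Finset.mem_filter] at hz hz'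
      simp only [Prod.mk.injEq] at h hz hz' ⊢
      have g1 := hz.2.1
      have g2 := hz'.2.1
      obtain ⟨k1, k2, k3⟩ := h
      exact ⟨⟨k1, k2⟩, by rw [← g1, ← g2, k1], k3⟩
    rw [hcard]
    refine h1 j X X0 Y0 R _ hj1 hj hX hX0 hY0 hR ?_
    intro s hs
    obtain ⟨z, hz, rfl⟩ := Finset.mem_image.1 hs
    rw [hA, Finset.mem_filter, Finset.mem_product] at hz
    obtain ⟨⟨hz1, hz2⟩, hz3, hz4⟩ := hz
    obtain ⟨s1, hs1, e1⟩ := Finset.mem_image.1 hz1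
    obtain ⟨s2, hs2, e2⟩ := Finset.mem_image.1 hz2
    obtain ⟨a1, a2, a3, a4, a5, a6, a7, a8, a9, a10, a11, -⟩ := hT s1 hs1
    obtain ⟨b1, b2, b3, b4, b5, b6, b7, b8, b9, b10, b11, -⟩ := hT s2 hs2
    rw [← hz3] at hz4
    have e11 : s1.1 = z.1.1 := congrArg Prod.fst e1
    have e12 : s1.2.1 = z.1.2 := congrArg Prod.snd e1
    have e21 : s2.1 = z.2.1 := congrArg Prod.fst e2
    have e22 : s2.2.1 = z.2.2 := congrArg Prod.snd e2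
    rw [← hz3] at e21
    rw [e11] at a1 a2 a11
    rw [e12] at a3 a4 a7 a9 a10 a11
    rw [e22] at b3 b4 b7 b9 b10 b11
    rw [e21] at b11
    exact ⟨a1, a2, a3, a4, b3, b4, a7, b7, a9, a10, b9, b10, a11, b11, hz4⟩
  · -- the second energy
    obtain ⟨A, hA⟩ : ∃ A, A = (((T.image fun s => (s.1, s.2.2)) ×ˢ
      (T.image fun s => (s.1, s.2.2))).filter
      (fun z => z.1.1 = z.2.1 ∧ ψ z.1.1 z.1.2 = ψ z.2.1 z.2.2)) := ⟨_, rfl⟩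
    rw [← hA]
    have hcard : A.card = (A.image fun z => (z.1.1, z.1.2, z.2.2)).card := by
      rw [Finset.card_image_of_injOn]
      rintro ⟨⟨a, b⟩, c, d⟩ hz ⟨⟨a', b'⟩, c', d'⟩ hz' h
      rw [Finset.mem_coe, hA, Finset.mem_filter] at hz hz'
      simp only [Prod.mk.injEq] at h hz hz' ⊢
      have g1 := hz.2.1
      have g2 := hz'.2.1
      obtain ⟨k1, k2, k3⟩ := h
      exact ⟨⟨k1, k2⟩, by rw [← g1, ← g2, k1], k3⟩
    rw [hcard]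
    refine h2 X X0 R _ hX hX0 hR ?_
    intro s hs
    obtain ⟨z, hz, rfl⟩ := Finset.mem_image.1 hs
    rw [hA, Finset.mem_filter, Finset.mem_product] at hz
    obtain ⟨⟨hz1, hz2⟩, hz3, hz4⟩ := hz
    obtain ⟨s1, hs1, e1⟩ := Finset.mem_image.1 hz1
    obtain ⟨s2, hs2, e2⟩ := Finset.mem_image.1 hz2
    obtain ⟨a1, a2, a3, a4, a5, a6, a7, a8, a9, a10, a11, -⟩ := hT s1 hs1
    obtain ⟨b1, b2, b3, b4, b5, b6, b7, b8, b9, b10, b11, -⟩ := hT s2 hs2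
    rw [← hz3] at hz4
    have e11 : s1.1 = z.1.1 := congrArg Prod.fst e1
    have e12 : s1.2.2 = z.1.2 := (Prod.ext_iff.1 e1).2
    have e22 : s2.2.2 = z.2.2 := (Prod.ext_iff.1 e2).2
    rw [e11] at a1 a2
    rw [e12] at a5 a6 a8
    rw [e22] at b5 b6 b8
    have hpos : 0 < z.1.1 := by
      have : (0 : ℝ) < (z.1.1 : ℝ) := by linarith
      exact_mod_cast this
    exact ⟨a1, a2, a5, a6, b5, b6, a8, b8, hψ _ _ _ hpos hz4⟩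
  · have hY : 0 < Y0 := by linarith
    have hXX : 0 < X0 := by linarith
    positivity

/-- PIECE AR-B4 (the whole file, 200 lines).  Triples `(p, q, r)` (one entry is the sum of the two
others) with `x = pc k p ∈ [X0, 2 X0)`, `k ≥ 2`, and `y = pc j q ∈ [Y0, 2 Y0)`.
PROOF.  `x^2 ∣ x^k ∣ p` (`EN.pc_pow_dvd`).  Split `S = S1 ∪ S2`: in `S1` `q + r = p`, in `S2` `p + q = r`
or `p + r = q`.  In `S2` `q ≡ r (mod x^2)`, in `S1` `q + r ≡ 0 (mod x^2)`.  Map `(p,q,r)` to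
`(x, q, r)`: injective on `S1` (`p = q + r`) and on `S2` (`p = |q - r|`).  Apply `cs_card` to the
images with `φ x q = q % x^2` and `ψ x r = r % x^2` (for `S2`), `ψ x r = (x^2 - r % x^2) % x^2` (for
`S1`; here `ψ x r = ψ x r'` iff `r ≡ r' (mod x^2)`), `P`, `Q` the images of `S1` (`S2`) under
`(pc k p, q)`, `(pc k p, r)`.  The first cardinality on the right of `cs_card` is at most the bound
of `energyB` (`(x,q),(x,q') ↦ (x,q,q')`; `q`, `q'` are prime to `x` because `gcd(p, q) = 1` for the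
triple with that `x`), the second one at most the bound of `energyC`.
`|S|^2 ≤ 2 (|S1|^2 + |S2|^2)`.  Use `ε/2` in both and `X^(ε/2) ≤ (X X0)^(ε/2)`. -/
theorem mod_step (J : ℕ) (ε : ℝ) (hε : 0 < ε) : ∃ C : ℝ, 1 ≤ C ∧
    ∀ (j k X : ℕ) (X0 Y0 R : ℝ) (S : Finset (ℕ × ℕ × ℕ)), 1 ≤ j → j ≤ J → 2 ≤ k → 1 ≤ X →
      1 ≤ X0 → 1 ≤ Y0 → 1 ≤ R →
      (∀ s ∈ S, Tri X s.1 s.2.1 s.2.2 ∧ (rad s.2.1 : ℝ) ≤ R ∧ (rad s.2.2 : ℝ) ≤ R ∧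
        X0 ≤ (pc k s.1 : ℝ) ∧ (pc k s.1 : ℝ) < 2 * X0 ∧ Y0 ≤ (pc j s.2.1 : ℝ) ∧
        (pc j s.2.1 : ℝ) < 2 * Y0) →
      (S.card : ℝ) ^ 2 ≤ C * ((X : ℝ) * X0) ^ ε *
        (X0 * R + R ^ 2 / X0 + R ^ 2 * Real.sqrt X0 / Y0) * (X0 * R + R ^ 2) := by
  classical
  obtain ⟨C1, hC1, h1⟩ := energyB J (ε / 2) (by positivity)
  obtain ⟨C2, hC2, h2⟩ := energyC (ε / 2) (by positivity)
  refine ⟨4 * (C1 * C2), ?_, ?_⟩
  · nlinarith [mul_le_mul hC1 hC2 zero_le_one (by linarith : (0 : ℝ) ≤ C1)]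
  intro j k X X0 Y0 R S hj1 hj hk hX hX0 hY0 hR hS
  have hXr : (1 : ℝ) ≤ (X : ℝ) := by exact_mod_cast hX
  -- a part of `S` on which the form is fixed
  have main : ∀ (U : Finset (ℕ × ℕ × ℕ)) (ψ : ℕ → ℕ → ℕ), U ⊆ S →
      (∀ x r r', 0 < x → ψ x r = ψ x r' → r ≡ r' [MOD x ^ 2]) →
      (∀ s ∈ U, s.2.1 % (pc k s.1) ^ 2 = ψ (pc k s.1) s.2.2) →
      (∀ s ∈ U, ∀ t ∈ U, s.2 = t.2 → s.1 = t.1) →
      (U.card : ℝ) ^ 2 ≤ (C1 * ((X : ℝ) * X0) ^ (ε / 2) *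
        (X0 * R + R ^ 2 / X0 + R ^ 2 * Real.sqrt X0 / Y0)) *
        (C2 * (X : ℝ) ^ (ε / 2) * (X0 * R + R ^ 2)) := by
    intro U ψ hU hψ hmod hinj
    have hcard : U.card = (U.image fun s => (pc k s.1, s.2.1, s.2.2)).card := by
      rw [Finset.card_image_of_injOn]
      intro s hs t ht h
      simp only [Prod.mk.injEq] at h
      have h3 : s.2 = t.2 := Prod.ext h.2.1 h.2.2
      exact Prod.ext (hinj s hs t ht h3) h3
    rw [hcard]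
    refine b4_one J (ε / 2) C1 C2 h1 h2 hC1 j X X0 Y0 R _ ψ hj1 hj hX hX0 hY0 hR hψ ?_
    intro s hs
    obtain ⟨t, ht, rfl⟩ := Finset.mem_image.1 hs
    obtain ⟨a1, a2, a3, a4, a5, a6, a7⟩ := hS t (hU ht)
    refine ⟨a4, a5, a1.hq, a1.qX, a1.hr, a1.rX, a2, a3, a6, a7, ?_, hmod t ht⟩
    exact Nat.Coprime.coprime_dvd_right (Pool.Agent.Helper21.EN.pc_dvd k t.1) a1.pq.symm
  have hdvd : ∀ s ∈ S, pc k s.1 ^ 2 ∣ s.1 := by
    intro s hs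
    exact (pow_dvd_pow _ hk).trans
      (Pool.Agent.Helper21.EN.pc_pow_dvd (hS s hs).1.hp k)
  have hB0 : 0 ≤ (X0 * R + R ^ 2 / X0 + R ^ 2 * Real.sqrt X0 / Y0) := by
    have hY : 0 < Y0 := by linarith
    have hXX : 0 < X0 := by linarith
    positivity
  have hC0 : 0 ≤ X0 * R + R ^ 2 := by
    have hXX : 0 < X0 := by linarith
    positivity
  have hbound : (C1 * ((X : ℝ) * X0) ^ (ε / 2) *
        (X0 * R + R ^ 2 / X0 + R ^ 2 * Real.sqrt X0 / Y0)) *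
        (C2 * (X : ℝ) ^ (ε / 2) * (X0 * R + R ^ 2)) ≤
      (C1 * C2) * ((X : ℝ) * X0) ^ ε *
        (X0 * R + R ^ 2 / X0 + R ^ 2 * Real.sqrt X0 / Y0) * (X0 * R + R ^ 2) := by
    have q1 : (X : ℝ) ^ (ε / 2) ≤ ((X : ℝ) * X0) ^ (ε / 2) :=
      Real.rpow_le_rpow (by linarith) (le_mul_of_one_le_right (by linarith) hX0) (by positivity)
    have q2 : ((X : ℝ) * X0) ^ ε = ((X : ℝ) * X0) ^ (ε / 2) * ((X : ℝ) * X0) ^ (ε / 2) := by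
      rw [← Real.rpow_add (by positivity)]
      congr 1
      ring
    rw [q2]
    have q3 : 0 ≤ ((X : ℝ) * X0) ^ (ε / 2) := by positivity
    calc _ = (C1 * C2) * (((X : ℝ) * X0) ^ (ε / 2) * (X : ℝ) ^ (ε / 2)) *
          (X0 * R + R ^ 2 / X0 + R ^ 2 * Real.sqrt X0 / Y0) * (X0 * R + R ^ 2) := by ring
      _ ≤ (C1 * C2) * (((X : ℝ) * X0) ^ (ε / 2) * ((X : ℝ) * X0) ^ (ε / 2)) *
          (X0 * R + R ^ 2 / X0 + R ^ 2 * Real.sqrt X0 / Y0) * (X0 * R + R ^ 2) := by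
        refine mul_le_mul_of_nonneg_right (mul_le_mul_of_nonneg_right
          (mul_le_mul_of_nonneg_left (mul_le_mul_of_nonneg_left q1 q3) (by positivity)) hB0) hC0
  -- the form `q + r = p`
  have hS1 := main (S.filter fun s => s.2.1 + s.2.2 = s.1)
    (fun x r => (x ^ 2 - r % x ^ 2) % x ^ 2) (Finset.filter_subset _ _) (by
      intro x r r' hx h
      have hx2 : 0 < x ^ 2 := by positivity
      have g1 := Nat.mod_lt r hx2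
      have g2 := Nat.mod_lt r' hx2
      have h' : x ^ 2 - r % x ^ 2 ≡ x ^ 2 - r' % x ^ 2 [MOD x ^ 2] := h
      have h3 : r % x ^ 2 + (x ^ 2 - r % x ^ 2) ≡ r' % x ^ 2 + (x ^ 2 - r' % x ^ 2) [MOD x ^ 2] := by
        rw [Nat.add_sub_cancel' g1.le, Nat.add_sub_cancel' g2.le]
      have h4 : r % x ^ 2 ≡ r' % x ^ 2 [MOD x ^ 2] := Nat.ModEq.add_right_cancel h' h3
      exact ((Nat.mod_modEq r (x ^ 2)).symm.trans h4).trans (Nat.mod_modEq r' (x ^ 2))) (by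
      intro s hs
      obtain ⟨hs1, hs2⟩ := Finset.mem_filter.1 hs
      have hd := hdvd s hs1
      have hxp : 0 < pc k s.1 ^ 2 := pow_pos (Pool.Agent.Helper21.EN.pc_pos k s.1) 2
      have g1 := Nat.mod_lt s.2.2 hxp
      change s.2.1 ≡ pc k s.1 ^ 2 - s.2.2 % pc k s.1 ^ 2 [MOD pc k s.1 ^ 2]
      refine Nat.ModEq.add_right_cancel (Nat.mod_modEq s.2.2 (pc k s.1 ^ 2)).symm ?_
      rw [Nat.sub_add_cancel g1.le, hs2]
      exact ((Nat.modEq_zero_iff_dvd.2 hd).trans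
        (Nat.modEq_zero_iff_dvd.2 dvd_rfl).symm)) (by
      intro s hs t ht h
      have e1 := (Finset.mem_filter.1 hs).2
      have e2 := (Finset.mem_filter.1 ht).2
      rw [← e1, ← e2, h])
  have hS2 := main (S.filter fun s => ¬ s.2.1 + s.2.2 = s.1)
    (fun x r => r % x ^ 2) (Finset.filter_subset _ _) (fun x r r' _ h => h) (by
      intro s hs
      obtain ⟨hs1, hs2⟩ := Finset.mem_filter.1 hs
      have hd := hdvd s hs1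
      have hrel := (hS s hs1).1.rel
      change s.2.1 ≡ s.2.2 [MOD pc k s.1 ^ 2]
      have hz : s.1 ≡ 0 [MOD pc k s.1 ^ 2] := Nat.modEq_zero_iff_dvd.2 hd
      rcases hrel with h | h | h
      · rw [← h]
        have := Nat.ModEq.add_right s.2.1 hz
        rw [zero_add] at this
        exact this.symm
      · exact absurd h hs2
      · rw [← h]
        have := Nat.ModEq.add_right s.2.2 hz
        rw [zero_add] at this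
        exact this) (by
      intro s hs t ht h
      obtain ⟨hs1, hs2⟩ := Finset.mem_filter.1 hs
      obtain ⟨ht1, ht2⟩ := Finset.mem_filter.1 ht
      have r1 := (hS s hs1).1.rel
      have r2 := (hS t ht1).1.rel
      have p1 := (hS s hs1).1.hp
      have p2 := (hS t ht1).1.hp
      have e1 : s.2.1 = t.2.1 := congrArg Prod.fst h
      have e2 : s.2.2 = t.2.2 := congrArg Prod.snd h
      omega)
  have hsplit : (S.card : ℝ) = ((S.filter fun s => s.2.1 + s.2.2 = s.1).card : ℝ) +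
      ((S.filter fun s => ¬ s.2.1 + s.2.2 = s.1).card : ℝ) := by
    rw [← Finset.card_filter_add_card_filter_not (fun s => s.2.1 + s.2.2 = s.1)]
    push_cast
    rfl
  have hsq : (S.card : ℝ) ^ 2 ≤ 2 * ((((S.filter fun s => s.2.1 + s.2.2 = s.1).card : ℝ)) ^ 2 +
      (((S.filter fun s => ¬ s.2.1 + s.2.2 = s.1).card : ℝ)) ^ 2) := by
    rw [hsplit]
    nlinarith [sq_nonneg (((S.filter fun s => s.2.1 + s.2.2 = s.1).card : ℝ) -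
      ((S.filter fun s => ¬ s.2.1 + s.2.2 = s.1).card : ℝ))]
  have hf1 := hS1.trans hbound
  have hf2 := hS2.trans hbound
  have hfin : 4 * (C1 * C2) * ((X : ℝ) * X0) ^ ε *
        (X0 * R + R ^ 2 / X0 + R ^ 2 * Real.sqrt X0 / Y0) * (X0 * R + R ^ 2) =
      4 * ((C1 * C2) * ((X : ℝ) * X0) ^ ε *
        (X0 * R + R ^ 2 / X0 + R ^ 2 * Real.sqrt X0 / Y0) * (X0 * R + R ^ 2)) := by ring
  rw [hfin]
  linarith

end Pool.Agent.Helper93.AR
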