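import Pool.Agent.Helper93.AR.B4
import Pool.Agent.Helper21.EN.DIR

set_option autoImplicit false

/-! # Project AR, piece B5: the modulus step without dyadic ranges -/

namespace Pool.Agent.Helper93.AR

open Finset
open Pool.Agent.Helper21.EN (rad pc rest Tri)

/-- The bound of one class. -/
private theorem b5_class {C1 ε : ℝ} (hC1 : 1 ≤ C1) (hε : 0 < ε) {X x0 y0 c : ℕ} {T W R : ℝ}
    (hX : 1 ≤ X) (hT : 1 ≤ T) (hTW : T ≤ W) (hWR : W ≤ R)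
    (hx0 : 1 ≤ x0) (hy0 : 1 ≤ y0) (hxX : x0 ≤ X) (hxW : (x0 : ℝ) ≤ W)
    (hTx : T < 2 * (x0 : ℝ)) (hy : Real.sqrt (T * x0) ≤ 2 * (y0 : ℝ))
    (h : (c : ℝ) ^ 2 ≤ C1 * ((X : ℝ) * x0) ^ (ε / 8) *
        (x0 * R + R ^ 2 / x0 + R ^ 2 * Real.sqrt x0 / y0) * (x0 * R + R ^ 2)) :
    (c : ℝ) ^ 2 ≤ 8 * C1 * (X : ℝ) ^ (ε / 4) * (W * R + R ^ 2 / Real.sqrt T) * R ^ 2 := by
  have hR : 1 ≤ R := by linarith
  have hx0' : (1 : ℝ) ≤ x0 := by exact_mod_cast hx0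
  have hy0' : (1 : ℝ) ≤ y0 := by exact_mod_cast hy0
  have hX' : (1 : ℝ) ≤ X := by exact_mod_cast hX
  have hsT : 1 ≤ Real.sqrt T := by
    rw [Real.one_le_sqrt]
    exact hT
  have hsT0 : 0 < Real.sqrt T := by linarith
  have hsTT : Real.sqrt T ≤ T := by
    have h1 := Real.mul_self_sqrt (show 0 ≤ T by linarith)
    nlinarith
  have h1 : ((X : ℝ) * x0) ^ (ε / 8) ≤ (X : ℝ) ^ (ε / 4) := by
    have e1 : (X : ℝ) ^ (ε / 4) = ((X : ℝ) * X) ^ (ε / 8) := by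
      rw [Real.mul_rpow (by positivity) (by positivity), ← Real.rpow_add (by positivity)]
      congr 1
      ring
    rw [e1]
    apply Real.rpow_le_rpow (by positivity) _ (by positivity)
    have : (x0 : ℝ) ≤ X := by exact_mod_cast hxX
    gcongr
  have h2 : R ^ 2 / x0 ≤ 2 * (R ^ 2 / Real.sqrt T) := by
    rw [div_le_iff₀ (by linarith), mul_div_assoc', div_mul_eq_mul_div, le_div_iff₀ hsT0]
    have : Real.sqrt T ≤ 2 * x0 := by linarith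
    have hR2 : 0 < R ^ 2 := by positivity
    nlinarith
  have h3 : R ^ 2 * Real.sqrt x0 / y0 ≤ 2 * (R ^ 2 / Real.sqrt T) := by
    rw [div_le_iff₀ (by linarith), mul_div_assoc', div_mul_eq_mul_div, le_div_iff₀ hsT0]
    have e1 : Real.sqrt (T * x0) = Real.sqrt T * Real.sqrt x0 :=
      Real.sqrt_mul (by linarith) _
    rw [e1] at hy
    have hR2 : 0 < R ^ 2 := by positivity
    nlinarith
  have h4 : (x0 : ℝ) * R ≤ W * R := by gcongr
  have h5 : (x0 * R + R ^ 2 / x0 + R ^ 2 * Real.sqrt x0 / y0 : ℝ) ≤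
      4 * (W * R + R ^ 2 / Real.sqrt T) := by
    have : 0 ≤ W * R := by
      have : 0 ≤ W := by linarith
      positivity
    linarith
  have h6 : (x0 * R + R ^ 2 : ℝ) ≤ 2 * R ^ 2 := by nlinarith
  have hW0 : 0 ≤ W := by linarith
  have hC0 : 0 ≤ C1 := by linarith
  have h7 : 0 ≤ C1 * (X : ℝ) ^ (ε / 4) * (4 * (W * R + R ^ 2 / Real.sqrt T)) := by positivity
  calc (c : ℝ) ^ 2 ≤ C1 * ((X : ℝ) * x0) ^ (ε / 8) *
        (x0 * R + R ^ 2 / x0 + R ^ 2 * Real.sqrt x0 / y0) * (x0 * R + R ^ 2) := h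
    _ ≤ C1 * (X : ℝ) ^ (ε / 4) * (4 * (W * R + R ^ 2 / Real.sqrt T)) * (2 * R ^ 2) := by
        gcongr
    _ = 8 * C1 * (X : ℝ) ^ (ε / 4) * (W * R + R ^ 2 / Real.sqrt T) * R ^ 2 := by ring

/-- PIECE AR-B5 (the whole file, 150 lines).
PROOF.  Split `S` by `(u, v) = (Nat.log 2 (pc k p), Nat.log 2 (pc j q))`, both `≤ log2 X` (`pc k p ≤ p ≤ X`):
at most `(log2 X + 1)^2 ≤ C X^(ε/4)` classes (`dir_log` in `Helper21/EN/DIR.lean`).  In a class take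
`X0 = 2^u`, `Y0 = 2^v`: `mod_step` (with `ε/8`) applies.  If the class is not empty:
`T/2 < X0 ≤ x ≤ W ≤ R`, `2 Y0 > y ≥ √(T x) ≥ √T √X0`, so `√X0 / Y0 ≤ 2/√T`; `1/X0 ≤ 2/T ≤ 2/√T`
(`T ≥ 1`).  So the first bracket is at most `W R + 4 R^2/√T`, the second at most `2 R^2`, and
`(X X0)^(ε/8) ≤ X^(ε/4)`.  `|S|^2 ≤ (number of classes)^2 max |class|^2`. -/
theorem mod_total (J : ℕ) (ε : ℝ) (hε : 0 < ε) : ∃ C : ℝ, 1 ≤ C ∧
    ∀ (j k X : ℕ) (T W R : ℝ) (S : Finset (ℕ × ℕ × ℕ)), 1 ≤ j → j ≤ J → 2 ≤ k → 1 ≤ X →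
      1 ≤ T → T ≤ W → W ≤ R →
      (∀ s ∈ S, Tri X s.1 s.2.1 s.2.2 ∧ (rad s.2.1 : ℝ) ≤ R ∧ (rad s.2.2 : ℝ) ≤ R ∧
        T ≤ (pc k s.1 : ℝ) ∧ (pc k s.1 : ℝ) ≤ W ∧
        Real.sqrt (T * (pc k s.1 : ℝ)) ≤ (pc j s.2.1 : ℝ)) →
      (S.card : ℝ) ^ 2 ≤ C * (X : ℝ) ^ ε * (W * R + R ^ 2 / Real.sqrt T) * R ^ 2 := by
  obtain ⟨C1, hC1, hM⟩ := mod_step J (ε / 8) (by positivity)
  set D : ℝ := 1 + 1 / ((3 * ε / 16) * Real.log 2) with hD
  have hL : 0 < Real.log 2 := Real.log_pos (by norm_num)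
  have hD1 : 1 ≤ D := by
    rw [hD]
    have : 0 ≤ 1 / ((3 * ε / 16) * Real.log 2) := by positivity
    linarith
  refine ⟨8 * C1 * D ^ 4, ?_, ?_⟩
  · have : 1 ≤ D ^ 4 := one_le_pow₀ hD1
    nlinarith
  intro j k X T W R S hj hjJ hk hX hT hTW hWR hS
  have hX' : (1 : ℝ) ≤ X := by exact_mod_cast hX
  have hR : 1 ≤ R := by linarith
  have hW : 1 ≤ W := by linarith
  set N : ℕ := Nat.log 2 X + 1 with hN
  have hNle : (N : ℝ) ≤ D * (X : ℝ) ^ (3 * ε / 16) := by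
    have h1 := Pool.Agent.Helper21.EN.dir_log (ε := 3 * ε / 16) (by positivity) hX'
    rw [Nat.floor_natCast] at h1
    exact h1
  set f : ℕ × ℕ × ℕ → ℕ × ℕ := fun s => (Nat.log 2 (pc k s.1), Nat.log 2 (pc j s.2.1)) with hf
  set B : ℝ := 8 * C1 * (X : ℝ) ^ (ε / 4) * (W * R + R ^ 2 / Real.sqrt T) * R ^ 2 with hB
  have hB0 : 0 ≤ B := by
    rw [hB]
    positivity
  have hfib : ∀ w ∈ S.image f, ((S.filter (fun a => f a = w)).card : ℝ) ≤ Real.sqrt B := by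
    intro w hw
    obtain ⟨s, hs, hsw⟩ := Finset.mem_image.1 hw
    apply Real.le_sqrt_of_sq_le
    have hcl : ∀ a ∈ S.filter (fun a => f a = w),
        2 ^ w.1 ≤ pc k a.1 ∧ pc k a.1 < 2 * 2 ^ w.1 ∧
        2 ^ w.2 ≤ pc j a.2.1 ∧ pc j a.2.1 < 2 * 2 ^ w.2 := by
      intro a ha
      have ha2 : f a = w := (Finset.mem_filter.1 ha).2
      rw [← ha2]
      have hp1 : pc k a.1 ≠ 0 := (Pool.Agent.Helper21.EN.pc_pos _ _).ne'
      have hp2 : pc j a.2.1 ≠ 0 := (Pool.Agent.Helper21.EN.pc_pos _ _).ne'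
      refine ⟨Nat.pow_log_le_self 2 hp1, ?_, Nat.pow_log_le_self 2 hp2, ?_⟩
      · have := Nat.lt_pow_succ_log_self (b := 2) (by norm_num) (pc k a.1)
        rw [pow_succ, mul_comm] at this
        exact this
      · have := Nat.lt_pow_succ_log_self (b := 2) (by norm_num) (pc j a.2.1)
        rw [pow_succ, mul_comm] at this
        exact this
    have hsf : s ∈ S.filter (fun a => f a = w) := Finset.mem_filter.2 ⟨hs, hsw⟩
    obtain ⟨c1, c2, c3, c4⟩ := hcl s hsf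
    obtain ⟨g1, g2, g3, g4, g5, g6⟩ := hS s hs
    have c1' : ((2 ^ w.1 : ℕ) : ℝ) ≤ pc k s.1 := by exact_mod_cast c1
    have c2' : (pc k s.1 : ℝ) < 2 * ((2 ^ w.1 : ℕ) : ℝ) := by exact_mod_cast c2
    have c4' : (pc j s.2.1 : ℝ) < 2 * ((2 ^ w.2 : ℕ) : ℝ) := by exact_mod_cast c4
    have hx1 : 1 ≤ 2 ^ w.1 := Nat.one_le_two_pow
    have hy1 : 1 ≤ 2 ^ w.2 := Nat.one_le_two_pow
    refine b5_class (x0 := 2 ^ w.1) (y0 := 2 ^ w.2) hC1 hε hX hT hTW hWR hx1 hy1 ?_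
      (by linarith) (by linarith) ?_ ?_
    · refine c1.trans ((Pool.Agent.Helper21.EN.pc_le g1.hp).trans ?_)
      exact g1.pX
    · refine le_trans (Real.sqrt_le_sqrt ?_) (g6.trans c4'.le)
      have : 0 ≤ T := by linarith
      gcongr
    · refine hM j k X _ _ R _ hj hjJ hk hX (by exact_mod_cast hx1) (by exact_mod_cast hy1) hR ?_
      intro a ha
      obtain ⟨d1, d2, d3, d4⟩ := hcl a ha
      obtain ⟨e1, e2, e3, e4, e5, e6⟩ := hS a (Finset.mem_filter.1 ha).1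
      exact ⟨e1, e2, e3, by exact_mod_cast d1, by exact_mod_cast d2, by exact_mod_cast d3,
        by exact_mod_cast d4⟩
  have himg : ((S.image f).card : ℝ) ≤ (N : ℝ) ^ 2 := by
    have h1 : S.image f ⊆ Finset.range N ×ˢ Finset.range N := by
      intro w hw
      obtain ⟨s, hs, rfl⟩ := Finset.mem_image.1 hw
      obtain ⟨g1, -⟩ := hS s hs
      rw [Finset.mem_product, Finset.mem_range, Finset.mem_range]
      constructor
      · have h2 : pc k s.1 ≤ X := (Pool.Agent.Helper21.EN.pc_le g1.hp).trans g1.pX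
        have h3 := Nat.log_mono_right (b := 2) h2
        change Nat.log 2 (pc k s.1) < N
        omega
      · have h2 : pc j s.2.1 ≤ X := (Pool.Agent.Helper21.EN.pc_le g1.hq).trans g1.qX
        have h3 := Nat.log_mono_right (b := 2) h2
        change Nat.log 2 (pc j s.2.1) < N
        omega
    have h2 := Finset.card_le_card h1
    rw [Finset.card_product, Finset.card_range, ← pow_two] at h2
    exact_mod_cast h2
  have hcard : (S.card : ℝ) ≤ (N : ℝ) ^ 2 * Real.sqrt B := by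
    rw [Finset.card_eq_sum_card_image f S]
    push_cast
    calc ∑ w ∈ S.image f, ((S.filter (fun a => f a = w)).card : ℝ)
        ≤ ∑ _w ∈ S.image f, Real.sqrt B := Finset.sum_le_sum hfib
      _ = ((S.image f).card : ℝ) * Real.sqrt B := by rw [Finset.sum_const, nsmul_eq_mul]
      _ ≤ (N : ℝ) ^ 2 * Real.sqrt B := by gcongr
  have h8 : (S.card : ℝ) ^ 2 ≤ ((N : ℝ) ^ 2 * Real.sqrt B) ^ 2 := by gcongr
  have h9 : ((N : ℝ) ^ 2 * Real.sqrt B) ^ 2 = (N : ℝ) ^ 4 * B := by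
    rw [mul_pow, Real.sq_sqrt hB0]
    ring
  have h10 : (N : ℝ) ^ 4 ≤ D ^ 4 * (X : ℝ) ^ (3 * ε / 4) := by
    calc (N : ℝ) ^ 4 ≤ (D * (X : ℝ) ^ (3 * ε / 16)) ^ 4 := by gcongr
      _ = D ^ 4 * (X : ℝ) ^ (3 * ε / 4) := by
        rw [mul_pow, ← Real.rpow_natCast ((X : ℝ) ^ (3 * ε / 16)) 4, ← Real.rpow_mul (by positivity)]
        congr 2
        push_cast
        ring
  have h11 : (X : ℝ) ^ (3 * ε / 4) * (X : ℝ) ^ (ε / 4) = (X : ℝ) ^ ε := by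
    rw [← Real.rpow_add (by positivity)]
    congr 1
    ring
  calc (S.card : ℝ) ^ 2 ≤ (N : ℝ) ^ 4 * B := h8.trans h9.le
    _ ≤ (D ^ 4 * (X : ℝ) ^ (3 * ε / 4)) * B := by gcongr
    _ = 8 * C1 * D ^ 4 * ((X : ℝ) ^ (3 * ε / 4) * (X : ℝ) ^ (ε / 4)) *
          (W * R + R ^ 2 / Real.sqrt T) * R ^ 2 := by
        rw [hB]
        ring
    _ = 8 * C1 * D ^ 4 * (X : ℝ) ^ ε * (W * R + R ^ 2 / Real.sqrt T) * R ^ 2 := by rw [h11]

end Pool.Agent.Helper93.AR
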