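import Pool.Agent.Helper93.AR.A1
import Pool.Agent.Helper93.AR.A2

set_option autoImplicit false

/-! # Project AR, piece C1: triples with small powerful parts -/

namespace Pool.Agent.Helper93.AR

open Finset
open Pool.Agent.Helper21.EN (rad pc rest Tri)

private lemma c1_res (α β γ : ℕ) (hγ : 0 < γ) (h1 : Nat.Coprime α γ) (h2 : Nat.Coprime β γ) :
    ∃ c : ℕ, Nat.Coprime c γ ∧ ∀ x y : ℕ, γ ∣ α * x + β * y → x ≡ c * y [MOD γ] := by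
  have : NeZero γ := ⟨hγ.ne'⟩
  obtain ⟨v, hv⟩ : ∃ v : (ZMod γ)ˣ,
      v = (ZMod.unitOfCoprime α h1)⁻¹ * (-(ZMod.unitOfCoprime β h2)) := ⟨_, rfl⟩
  refine ⟨(v : ZMod γ).val, ZMod.val_coe_unit_coprime v, fun x y h => ?_⟩
  rw [← ZMod.natCast_eq_natCast_iff]
  push_cast
  rw [ZMod.natCast_zmod_val]
  have h3 : ((α * x + β * y : ℕ) : ZMod γ) = 0 := (ZMod.natCast_eq_zero_iff _ _).2 h
  push_cast at h3
  have h4 : ((ZMod.unitOfCoprime α h1 : (ZMod γ)ˣ) : ZMod γ) = α := ZMod.coe_unitOfCoprime α h1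
  have h5 : ((ZMod.unitOfCoprime β h2 : (ZMod γ)ˣ) : ZMod γ) = β := ZMod.coe_unitOfCoprime β h2
  have h6 : (α : ZMod γ) * x = -(β : ZMod γ) * y := by
    rw [neg_mul]; exact eq_neg_of_add_eq_zero_left h3
  rw [hv, Units.val_mul, Units.val_neg, h5, mul_assoc, ← h6, ← h4, Units.inv_mul_cancel_left]

private lemma c1_fiber {η C : ℝ} (hC : 1 ≤ C)
    (hd : ∀ (j m c : ℕ) (P Q : ℝ) (S : Finset (ℕ × ℕ)), 1 ≤ j → j ≤ 1 → 0 < m →
      Nat.Coprime c m → 1 ≤ P → 1 ≤ Q →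
      (∀ s ∈ S, 0 < s.1 ∧ 0 < s.2 ∧ (s.1 : ℝ) ≤ P ∧ (s.2 : ℝ) ≤ Q ∧ Nat.Coprime s.1 s.2 ∧
        Nat.Coprime s.1 m ∧ Nat.Coprime s.2 m ∧ s.1 ^ j ≡ c * s.2 ^ j [MOD m]) →
      (S.card : ℝ) ≤ C * ((m : ℝ) * P * Q) ^ η * (1 + P * Q / m))
    (α β γ : ℕ) (P : ℝ) (F : Finset (ℕ × ℕ)) (hγ : 0 < γ) (hP : 1 ≤ P)
    (hF : ∀ s ∈ F, Cop s ∧ (pc 1 s.1 : ℝ) ≤ P ∧ (pc 1 s.2 : ℝ) ≤ P ∧ rest {1} s.1 = α ∧
      rest {1} s.2 = β ∧ rest {1} (s.1 + s.2) = γ) :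
    (F.card : ℝ) ≤ C * ((γ : ℝ) * P * P) ^ η * (1 + P * P / γ) := by
  classical
  have hγ' : (0 : ℝ) < γ := by exact_mod_cast hγ
  rcases F.eq_empty_or_nonempty with rfl | ⟨s0, hs0⟩
  · rw [card_empty, Nat.cast_zero]
    positivity
  have hdiv : ∀ s ∈ F, s.1 = α * pc 1 s.1 ∧ s.2 = β * pc 1 s.2 ∧
      s.1 + s.2 = γ * pc 1 (s.1 + s.2) := by
    intro s hs
    obtain ⟨⟨h1, h2, -⟩, -, -, h3, h4, h5⟩ := hF s hs
    have e1 := Pool.Agent.Helper21.EN.rest_mul_one h1 1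
    have e2 := Pool.Agent.Helper21.EN.rest_mul_one h2 1
    have e3 := Pool.Agent.Helper21.EN.rest_mul_one (show 0 < s.1 + s.2 by omega) 1
    rw [h3, pow_one] at e1
    rw [h4, pow_one] at e2
    rw [h5, pow_one] at e3
    exact ⟨e1, e2, e3⟩
  have hcop : ∀ s ∈ F, Nat.Coprime s.1 s.2 ∧ Nat.Coprime s.1 (s.1 + s.2) ∧
      Nat.Coprime s.2 (s.1 + s.2) := by
    intro s hs
    obtain ⟨⟨-, -, h1⟩, -⟩ := hF s hs
    exact ⟨h1, by simpa using h1, by simpa using h1.symm⟩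
  have hα : Nat.Coprime α γ := by
    obtain ⟨e1, e2, e3⟩ := hdiv s0 hs0
    exact ((hcop s0 hs0).2.1.coprime_dvd_left ⟨_, e1⟩).coprime_dvd_right ⟨_, e3⟩
  have hβ : Nat.Coprime β γ := by
    obtain ⟨e1, e2, e3⟩ := hdiv s0 hs0
    exact ((hcop s0 hs0).2.2.coprime_dvd_left ⟨_, e2⟩).coprime_dvd_right ⟨_, e3⟩
  obtain ⟨c, hc, hcc⟩ := c1_res α β γ hγ hα hβ
  have hinj : Set.InjOn (fun s : ℕ × ℕ => (pc 1 s.1, pc 1 s.2)) (F : Set (ℕ × ℕ)) := by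
    intro s hs t ht hst
    simp only [Prod.mk.injEq] at hst
    obtain ⟨e1, e2, -⟩ := hdiv s hs
    obtain ⟨f1, f2, -⟩ := hdiv t ht
    refine Prod.ext ?_ ?_
    · rw [e1, f1, hst.1]
    · rw [e2, f2, hst.2]
  rw [← card_image_of_injOn hinj]
  refine hd 1 γ c P P _ le_rfl le_rfl hγ hc hP hP ?_
  intro t ht
  obtain ⟨s, hs, rfl⟩ := mem_image.1 ht
  obtain ⟨h1, h2, h3, h4, h5, h6⟩ := hF s hs
  obtain ⟨e1, e2, e3⟩ := hdiv s hs
  obtain ⟨c1, c2, c3⟩ := hcop s hs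
  have d1 : pc 1 s.1 ∣ s.1 := Pool.Agent.Helper21.EN.pc_dvd 1 s.1
  have d2 : pc 1 s.2 ∣ s.2 := Pool.Agent.Helper21.EN.pc_dvd 1 s.2
  have d3 : γ ∣ s.1 + s.2 := ⟨_, e3⟩
  refine ⟨Pool.Agent.Helper21.EN.pc_pos _ _, Pool.Agent.Helper21.EN.pc_pos _ _, h2, h3, (c1.coprime_dvd_left d1).coprime_dvd_right d2,
    (c2.coprime_dvd_left d1).coprime_dvd_right d3, (c3.coprime_dvd_left d2).coprime_dvd_right d3,
    ?_⟩
  rw [pow_one, pow_one]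
  apply hcc
  rw [← e1, ← e2]
  exact d3

/-- PIECE AR-C1 (the whole file, 180 lines).  All three powerful parts have radical at most `Q`, the
powerful part of `a + b` is at least `G`.
PROOF.  We may assume `P ≤ X` (replace `P` by `min P X ≥ 1`: `pc 1 a ≤ a ≤ X`).  Write
`a = α x`, `b = β y`, `a + b = γ z` with `α = rest {1} a`, `x = pc 1 a`, .. (`EN.rest_mul_one`, power
`1`).  Fix `(α, β, γ)`: each is at most `X` with radical at most `Q`, so there are at most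
`(C1 X^(ε/6) Q)^3` choices (`rad_count`).  For fixed `(α, β, γ)` the pairs `(x, y)` satisfy:
`x, y ≤ P`, coprime (`a, b` are), prime to `γ` (`a, b` are prime to `a + b`), and
`α x + β y ≡ 0 (mod γ)`; `α`, `β` are prime to `γ`, so with a natural number `c` prime to `γ`,
`α c ≡ -β (mod γ)` (e.g. `c = ((α : ZMod γ)⁻¹ * (-β)).val`; `γ = 1`: any `c`), `x ≡ c y (mod γ)`.
`dirj 1 (ε/6)` with `j = 1`, `m = γ`: at most `C2 (γ P^2)^(ε/6) (1 + P^2/γ) ≤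
C2 X^(ε/2) (1 + P^2/G)`; `(α, β, γ, x, y)` determines `(a, b)`. -/
theorem flat_step (ε : ℝ) (hε : 0 < ε) : ∃ C : ℝ, 1 ≤ C ∧
    ∀ (X : ℕ) (P Q G : ℝ) (S : Finset (ℕ × ℕ)), 1 ≤ X → 1 ≤ P → 1 ≤ Q → 1 ≤ G →
      (∀ s ∈ S, Cop s ∧ s.1 + s.2 ≤ X ∧ (pc 1 s.1 : ℝ) ≤ P ∧ (pc 1 s.2 : ℝ) ≤ P ∧
        (rad (rest {1} s.1) : ℝ) ≤ Q ∧ (rad (rest {1} s.2) : ℝ) ≤ Q ∧
        (rad (rest {1} (s.1 + s.2)) : ℝ) ≤ Q ∧ G ≤ (rest {1} (s.1 + s.2) : ℝ)) →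
      (S.card : ℝ) ≤ C * (X : ℝ) ^ ε * Q ^ 3 * (1 + P ^ 2 / G) := by
  classical
  obtain ⟨C1, hC1, h1⟩ := rad_count (ε / 6) (by positivity)
  obtain ⟨C2, hC2, h2⟩ := dirj 1 (ε / 6) (by positivity)
  refine ⟨C1 ^ 3 * C2, ?_, ?_⟩
  · have := one_le_pow₀ (M₀ := ℝ) hC1 (n := 3)
    nlinarith
  intro X P Q G S hX hP hQ hG hS
  have hX1 : (1 : ℝ) ≤ X := by exact_mod_cast hX
  have hX0 : (0 : ℝ) < X := by linarith
  obtain ⟨P', hP'⟩ : ∃ P', P' = min P (X : ℝ) := ⟨_, rfl⟩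
  have hP1 : 1 ≤ P' := by rw [hP']; exact le_min hP hX1
  have hPP : P' ≤ P := by rw [hP']; exact min_le_left _ _
  have hPX : P' ≤ X := by rw [hP']; exact min_le_right _ _
  obtain ⟨A, hA⟩ : ∃ A : Finset ℕ, A = (Icc 1 X).filter (fun n => (rad n : ℝ) ≤ Q) := ⟨_, rfl⟩
  have hAc : (A.card : ℝ) ≤ C1 * (X : ℝ) ^ (ε / 6) * Q := by
    refine h1 X Q A hX (by linarith) fun n hn => ?_
    rw [hA, mem_filter, mem_Icc] at hn
    exact ⟨by omega, hn.1.2, hn.2⟩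
  have hmem : ∀ n, 0 < n → n ≤ X → (rad (rest {1} n) : ℝ) ≤ Q → rest {1} n ∈ A := by
    intro n hn hnX hr
    rw [hA, mem_filter, mem_Icc]
    exact ⟨⟨Pool.Agent.Helper21.EN.rest_pos _ _, (Pool.Agent.Helper21.EN.rest_le hn _).trans hnX⟩, hr⟩
  obtain ⟨f, hf⟩ : ∃ f : ℕ × ℕ → ℕ × ℕ × ℕ,
      f = fun s => (rest {1} s.1, rest {1} s.2, rest {1} (s.1 + s.2)) := ⟨_, rfl⟩
  have hmaps : ∀ s ∈ S, f s ∈ A ×ˢ A ×ˢ A := by
    intro s hs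
    obtain ⟨⟨h3, h4, -⟩, h5, -, -, h6, h7, h8, -⟩ := hS s hs
    rw [hf, mem_product, mem_product]
    exact ⟨hmem _ h3 (by omega) h6, hmem _ h4 (by omega) h7, hmem _ (by omega) h5 h8⟩
  obtain ⟨W, hW⟩ : ∃ W : ℝ, W = C2 * (X : ℝ) ^ (ε / 2) * (1 + P ^ 2 / G) := ⟨_, rfl⟩
  have hW0 : 0 ≤ W := by rw [hW]; positivity
  have hfib : ∀ b ∈ A ×ˢ A ×ˢ A, ((S.filter (fun s => f s = b)).card : ℝ) ≤ W := by
    rintro ⟨α, β, γ⟩ _
    rcases (S.filter (fun s => f s = (α, β, γ))).eq_empty_or_nonempty with h | ⟨s0, hs0⟩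
    · rw [h, card_empty, Nat.cast_zero]
      exact hW0
    have hprop : ∀ s ∈ S.filter (fun s => f s = (α, β, γ)), s ∈ S ∧ rest {1} s.1 = α ∧
        rest {1} s.2 = β ∧ rest {1} (s.1 + s.2) = γ := by
      intro s hs
      rw [mem_filter, hf] at hs
      simp only [Prod.mk.injEq] at hs
      exact hs
    obtain ⟨g1, -, -, g2⟩ := hprop s0 hs0
    obtain ⟨⟨g3, g4, -⟩, g5, -, -, -, -, -, g6⟩ := hS s0 g1
    rw [g2] at g6
    have hγ : 0 < γ := by rw [← g2]; exact Pool.Agent.Helper21.EN.rest_pos _ _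
    have hγX : (γ : ℝ) ≤ X := by
      have : γ ≤ X := by
        rw [← g2]
        exact (Pool.Agent.Helper21.EN.rest_le (by omega) _).trans g5
      exact_mod_cast this
    have hγ0 : (0 : ℝ) < γ := by exact_mod_cast hγ
    have key := c1_fiber hC2 h2 α β γ P' (S.filter (fun s => f s = (α, β, γ))) hγ hP1 (by
      intro s hs
      obtain ⟨k1, k2, k3, k4⟩ := hprop s hs
      obtain ⟨k5, k6, k7, k8, -⟩ := hS s k1
      have k9 : (pc 1 s.1 : ℝ) ≤ X := by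
        have : pc 1 s.1 ≤ X := (Pool.Agent.Helper21.EN.pc_le k5.1).trans (by omega)
        exact_mod_cast this
      have k10 : (pc 1 s.2 : ℝ) ≤ X := by
        have : pc 1 s.2 ≤ X := (Pool.Agent.Helper21.EN.pc_le k5.2.1).trans (by omega)
        exact_mod_cast this
      exact ⟨k5, by rw [hP']; exact le_min k7 k9, by rw [hP']; exact le_min k8 k10, k2, k3, k4⟩)
    refine key.trans ?_
    rw [hW]
    have m1 : ((γ : ℝ) * P' * P') ^ (ε / 6) ≤ (X : ℝ) ^ (ε / 2) := by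
      have m2 : (γ : ℝ) * P' * P' ≤ (X : ℝ) ^ 3 := by
        calc (γ : ℝ) * P' * P' ≤ X * X * X := by gcongr
          _ = (X : ℝ) ^ 3 := by ring
      calc ((γ : ℝ) * P' * P') ^ (ε / 6) ≤ ((X : ℝ) ^ 3) ^ (ε / 6) :=
            Real.rpow_le_rpow (by positivity) m2 (by positivity)
        _ = (X : ℝ) ^ (ε / 2) := by
            rw [← Real.rpow_natCast, ← Real.rpow_mul hX0.le]
            congr 1
            push_cast
            ring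
    have m3 : P' * P' / γ ≤ P ^ 2 / G := by
      have m4 : P' * P' ≤ P ^ 2 := by nlinarith
      exact div_le_div₀ (by positivity) m4 (by linarith) g6
    gcongr
  have hsum : (S.card : ℝ) ≤ (A.card : ℝ) ^ 3 * W := by
    have h3 := card_eq_sum_card_fiberwise (f := f) (s := S) (t := A ×ˢ A ×ˢ A) hmaps
    rw [h3]
    push_cast
    calc ∑ b ∈ A ×ˢ A ×ˢ A, ((S.filter (fun s => f s = b)).card : ℝ)
        ≤ ∑ _b ∈ A ×ˢ A ×ˢ A, W := sum_le_sum hfib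
      _ = (A.card : ℝ) ^ 3 * W := by
          rw [sum_const, card_product, card_product, nsmul_eq_mul]
          push_cast
          ring
  refine hsum.trans ?_
  have h4 : (A.card : ℝ) ^ 3 ≤ (C1 * (X : ℝ) ^ (ε / 6) * Q) ^ 3 := by gcongr
  have h5 : (C1 * (X : ℝ) ^ (ε / 6) * Q) ^ 3 = C1 ^ 3 * (X : ℝ) ^ (ε / 2) * Q ^ 3 := by
    have h6 : ((X : ℝ) ^ (ε / 6)) ^ 3 = (X : ℝ) ^ (ε / 2) := by
      rw [← Real.rpow_natCast, ← Real.rpow_mul hX0.le]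
      congr 1
      push_cast
      ring
    rw [mul_pow, mul_pow, h6]
  calc (A.card : ℝ) ^ 3 * W ≤ (C1 ^ 3 * (X : ℝ) ^ (ε / 2) * Q ^ 3) * W := by
        rw [← h5]
        exact mul_le_mul_of_nonneg_right h4 hW0
    _ = C1 ^ 3 * C2 * ((X : ℝ) ^ (ε / 2) * (X : ℝ) ^ (ε / 2)) * Q ^ 3 * (1 + P ^ 2 / G) := by
        rw [hW]; ring
    _ = C1 ^ 3 * C2 * (X : ℝ) ^ ε * Q ^ 3 * (1 + P ^ 2 / G) := by
        rw [← Real.rpow_add hX0]
        congr 4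
        ring

end Pool.Agent.Helper93.AR
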