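import Pool.Agent.Helper93.AR.A2

set_option autoImplicit false

/-! # Project AR, piece C2: triples whose entries are nearly pure powers -/

namespace Pool.Agent.Helper93.AR

open Finset
open Pool.Agent.Helper21.EN (rad pc rest Tri)

/-- Cauchy-Schwarz for the fibres of a map. -/
private theorem c2_cs (T : Finset (ℕ × ℕ × ℕ)) (I : Finset ℕ) (g : ℕ × ℕ × ℕ → ℕ)
    (hg : ∀ s ∈ T, g s ∈ I) :
    (T.card : ℝ) ^ 2 ≤ (I.card : ℝ) *
      (((T ×ˢ T).filter (fun z => g z.1 = g z.2)).card : ℝ) := by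
  have h1 : T.card = ∑ z ∈ I, (T.filter (fun s => g s = z)).card :=
    Finset.card_eq_sum_card_fiberwise hg
  have h2 : ((T ×ˢ T).filter (fun z => g z.1 = g z.2)).card =
      ∑ z ∈ I, (T.filter (fun s => g s = z)).card ^ 2 := by
    have hm : ∀ z ∈ (T ×ˢ T).filter (fun z => g z.1 = g z.2),
        (fun z : (ℕ × ℕ × ℕ) × (ℕ × ℕ × ℕ) => g z.1) z ∈ I := by
      intro z hz
      exact hg _ (Finset.mem_product.1 (Finset.mem_filter.1 hz).1).1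
    rw [Finset.card_eq_sum_card_fiberwise hm]
    refine Finset.sum_congr rfl (fun z _ => ?_)
    rw [sq, ← Finset.card_product]
    congr 1
    ext ⟨a, b⟩
    simp only [Finset.mem_filter, Finset.mem_product]
    constructor
    · rintro ⟨⟨⟨ha, hb⟩, h⟩, h'⟩
      exact ⟨⟨ha, h'⟩, hb, h.symm.trans h'⟩
    · rintro ⟨⟨ha, h⟩, hb, h'⟩
      exact ⟨⟨⟨ha, hb⟩, h.trans h'.symm⟩, h⟩
  have h3 : (T.card : ℝ) = ∑ z ∈ I, ((T.filter (fun s => g s = z)).card : ℝ) := by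
    exact_mod_cast h1
  have h4 : (((T ×ˢ T).filter (fun z => g z.1 = g z.2)).card : ℝ) =
      ∑ z ∈ I, ((T.filter (fun s => g s = z)).card : ℝ) ^ 2 := by
    exact_mod_cast h2
  rw [h3, h4]
  exact sq_sum_le_card_mul_sum_sq

/-- The triples with given cofactors and given form of the relation. -/
private theorem c2_fib (C2 ε : ℝ) (hC2 : 1 ≤ C2) (hε : 0 < ε)
    (hpd : ∀ (k : ℕ) (h : ℤ) (S : Finset (ℕ × ℕ)), 2 ≤ k → h ≠ 0 →
      (∀ s ∈ S, (s.1 : ℤ) ^ k - (s.2 : ℤ) ^ k = h) → (S.card : ℝ) ≤ C2 * (|(h : ℝ)|) ^ ε)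
    (i j k X m n l : ℕ) (P : ℝ) (α β : ℤ) (hk : 2 ≤ k) (hX : 1 ≤ X) (hP : 1 ≤ P)
    (hα : α ≠ 0) (hβ : β ≠ 0) (T : Finset (ℕ × ℕ × ℕ))
    (hT : ∀ s ∈ T, 0 < s.1 ∧ s.1 ≤ X ∧ s.1 = m * pc k s.1 ^ k ∧ s.2.1 = n * pc j s.2.1 ^ j ∧
      s.2.2 = l * pc i s.2.2 ^ i ∧ (pc k s.1 : ℝ) ≤ P ∧ (pc j s.2.1 : ℝ) ≤ P ∧
      (pc i s.2.2 : ℝ) ≤ P ∧ α * (s.1 : ℤ) + β * (s.2.1 : ℤ) = (s.2.2 : ℤ)) :
    (T.card : ℝ) ^ 2 ≤ P * (P ^ 2 + P ^ 2 * (C2 * (X : ℝ) ^ ε)) := by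
  classical
  set I : Finset ℕ := Finset.Icc 1 ⌊P⌋₊ with hI
  have hP0 : 0 ≤ P := by linarith
  have hIc : (I.card : ℝ) ≤ P := by
    rw [hI, Nat.card_Icc, Nat.add_sub_cancel]
    exact Nat.floor_le hP0
  have hmem : ∀ a b : ℕ, (pc a b : ℝ) ≤ P → pc a b ∈ I := by
    intro a b h
    rw [hI, Finset.mem_Icc]
    exact ⟨Pool.Agent.Helper21.EN.pc_pos _ _, Nat.le_floor h⟩
  have hXR : (1 : ℝ) ≤ (X : ℝ) := by exact_mod_cast hX
  have hXe : (1 : ℝ) ≤ (X : ℝ) ^ ε := Real.one_le_rpow hXR hε.le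
  -- the first two entries are determined by `x` and `y`, and they determine the third
  have hdet : ∀ s ∈ T, ∀ s' ∈ T, pc k s.1 = pc k s'.1 → pc j s.2.1 = pc j s'.2.1 → s = s' := by
    intro s hs s' hs' h1 h2
    obtain ⟨_, _, a3, a4, _, _, _, _, a9⟩ := hT s hs
    obtain ⟨_, _, b3, b4, _, _, _, _, b9⟩ := hT s' hs'
    have e1 : s.1 = s'.1 := by rw [a3, b3, h1]
    have e2 : s.2.1 = s'.2.1 := by rw [a4, b4, h2]
    have e3 : s.2.2 = s'.2.2 := by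
      have : (s.2.2 : ℤ) = (s'.2.2 : ℤ) := by rw [← a9, ← b9, e1, e2]
      exact_mod_cast this
    exact Prod.ext e1 (Prod.ext e2 e3)
  set E := (T ×ˢ T).filter (fun z => pc i z.1.2.2 = pc i z.2.2.2) with hE
  have hcs := c2_cs T I (fun s => pc i s.2.2) (fun s hs => hmem _ _ (hT s hs).2.2.2.2.2.2.2.1)
  -- facts about the pairs
  have hEr : ∀ z ∈ E, z.1 ∈ T ∧ z.2 ∈ T ∧
      α * ((z.1.1 : ℤ) - (z.2.1 : ℤ)) = - (β * ((z.1.2.1 : ℤ) - (z.2.2.1 : ℤ))) := by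
    intro z hz
    rw [hE, Finset.mem_filter, Finset.mem_product] at hz
    obtain ⟨⟨h1, h2⟩, h3⟩ := hz
    obtain ⟨_, _, _, _, a5, _, _, _, a9⟩ := hT _ h1
    obtain ⟨_, _, _, _, b5, _, _, _, b9⟩ := hT _ h2
    refine ⟨h1, h2, ?_⟩
    have h3' : pc i z.1.2.2 = pc i z.2.2.2 := h3
    have e : z.1.2.2 = z.2.2.2 := by rw [a5, b5, h3']
    have e' : (z.1.2.2 : ℤ) = (z.2.2.2 : ℤ) := by exact_mod_cast e
    rw [← a9, ← b9] at e'
    linarith
  have hsplit : E.card = (E.filter (fun z => z.1.2.1 = z.2.2.1)).card +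
      (E.filter (fun z => ¬ z.1.2.1 = z.2.2.1)).card :=
    (Finset.card_filter_add_card_filter_not (s := E) (fun z => z.1.2.1 = z.2.2.1)).symm
  -- the diagonal
  have hE0 : ((E.filter (fun z => z.1.2.1 = z.2.2.1)).card : ℝ) ≤ P ^ 2 := by
    have hdiag : ∀ z ∈ E.filter (fun z => z.1.2.1 = z.2.2.1), z.1 ∈ T ∧ z.2 = z.1 := by
      intro z hz
      rw [Finset.mem_filter] at hz
      obtain ⟨hz1, hz2⟩ := hz
      obtain ⟨h1, h2, h3⟩ := hEr z hz1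
      refine ⟨h1, ?_⟩
      have h4 : (z.1.2.1 : ℤ) = (z.2.2.1 : ℤ) := by exact_mod_cast hz2
      rw [h4, sub_self, mul_zero, neg_zero] at h3
      have h5 : (z.1.1 : ℤ) - (z.2.1 : ℤ) = 0 := by
        rcases mul_eq_zero.1 h3 with h | h
        · exact absurd h hα
        · exact h
      have h6 : z.1.1 = z.2.1 := by
        have : (z.1.1 : ℤ) = (z.2.1 : ℤ) := by linarith
        exact_mod_cast this
      obtain ⟨_, _, _, _, _, _, _, _, a9⟩ := hT _ h1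
      obtain ⟨_, _, _, _, _, _, _, _, b9⟩ := hT _ h2
      have h7 : z.1.2.2 = z.2.2.2 := by
        have : (z.1.2.2 : ℤ) = (z.2.2.2 : ℤ) := by rw [← a9, ← b9, h6, hz2]
        exact_mod_cast this
      exact (Prod.ext h6 (Prod.ext hz2 h7)).symm
    have hle : (E.filter (fun z => z.1.2.1 = z.2.2.1)).card ≤ (I ×ˢ I).card := by
      refine Finset.card_le_card_of_injOn (fun z => (pc k z.1.1, pc j z.1.2.1)) ?_ ?_
      · intro z hz
        have h1 := (hdiag z hz).1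
        obtain ⟨_, _, _, _, _, a6, a7, _, _⟩ := hT _ h1
        exact Finset.mem_coe.2 (Finset.mem_product.2 ⟨hmem _ _ a6, hmem _ _ a7⟩)
      · intro z hz w hw h
        obtain ⟨hz1, hz2⟩ := hdiag z hz
        obtain ⟨hw1, hw2⟩ := hdiag w hw
        have h1 : z.1 = w.1 :=
          hdet _ hz1 _ hw1 (congrArg Prod.fst h) (congrArg Prod.snd h)
        exact Prod.ext h1 (by rw [hz2, hw2, h1])
    calc ((E.filter (fun z => z.1.2.1 = z.2.2.1)).card : ℝ) ≤ ((I ×ˢ I).card : ℝ) := by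
          exact_mod_cast hle
      _ = (I.card : ℝ) ^ 2 := by rw [Finset.card_product]; push_cast; ring
      _ ≤ P ^ 2 := pow_le_pow_left₀ (Nat.cast_nonneg _) hIc 2
  -- off the diagonal
  have hE1 : ((E.filter (fun z => ¬ z.1.2.1 = z.2.2.1)).card : ℝ) ≤
      P ^ 2 * (C2 * (X : ℝ) ^ ε) := by
    set E1 := E.filter (fun z => ¬ z.1.2.1 = z.2.2.1) with hE1d
    have hm : ∀ z ∈ E1, (fun z : (ℕ × ℕ × ℕ) × (ℕ × ℕ × ℕ) =>
        (pc j z.1.2.1, pc j z.2.2.1)) z ∈ I ×ˢ I := by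
      intro z hz
      rw [hE1d, Finset.mem_filter] at hz
      obtain ⟨h1, h2, _⟩ := hEr z hz.1
      obtain ⟨_, _, _, _, _, _, a7, _, _⟩ := hT _ h1
      obtain ⟨_, _, _, _, _, _, b7, _, _⟩ := hT _ h2
      exact Finset.mem_product.2 ⟨hmem _ _ a7, hmem _ _ b7⟩
    have hfib : ∀ y ∈ I ×ˢ I, ((E1.filter (fun z => (pc j z.1.2.1, pc j z.2.2.1) = y)).card : ℝ)
        ≤ C2 * (X : ℝ) ^ ε := by
      intro y _
      set F := E1.filter (fun z => (pc j z.1.2.1, pc j z.2.2.1) = y) with hF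
      rcases F.eq_empty_or_nonempty with h0 | ⟨z0, hz0⟩
      · rw [h0, Finset.card_empty, Nat.cast_zero]
        positivity
      have hFm : ∀ z ∈ F, z.1 ∈ T ∧ z.2 ∈ T ∧ (¬ z.1.2.1 = z.2.2.1) ∧
          α * ((z.1.1 : ℤ) - (z.2.1 : ℤ)) = - (β * ((z.1.2.1 : ℤ) - (z.2.2.1 : ℤ))) ∧
          pc j z.1.2.1 = y.1 ∧ pc j z.2.2.1 = y.2 := by
        intro z hz
        rw [hF, Finset.mem_filter, hE1d, Finset.mem_filter] at hz
        obtain ⟨⟨h1, h2⟩, h3⟩ := hz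
        obtain ⟨h4, h5, h6⟩ := hEr z h1
        exact ⟨h4, h5, h2, h6, congrArg Prod.fst h3, congrArg Prod.snd h3⟩
      set h : ℤ := (pc k z0.1.1 : ℤ) ^ k - (pc k z0.2.1 : ℤ) ^ k with hh
      obtain ⟨c1, c2, c3, c4, c5, c6⟩ := hFm z0 hz0
      obtain ⟨d1, d2, d3, d4, _, _, _, _, _⟩ := hT _ c1
      obtain ⟨d1', d2', d3', d4', _, _, _, _, _⟩ := hT _ c2
      have hm0 : 0 < m := by
        rcases Nat.eq_zero_or_pos m with h | h
        · rw [h, Nat.zero_mul] at d3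
          omega
        · exact h
      have hmZ : (m : ℤ) ≠ 0 := by exact_mod_cast hm0.ne'
      have hmh : (m : ℤ) * h = (z0.1.1 : ℤ) - (z0.2.1 : ℤ) := by
        have e1 : (z0.1.1 : ℤ) = (m : ℤ) * (pc k z0.1.1 : ℤ) ^ k := by exact_mod_cast d3
        have e2 : (z0.2.1 : ℤ) = (m : ℤ) * (pc k z0.2.1 : ℤ) ^ k := by exact_mod_cast d3'
        rw [e1, e2, hh]
        ring
      have hne : h ≠ 0 := by
        intro h0
        rw [h0, mul_zero] at hmh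
        rw [← hmh, mul_zero] at c4
        have c7 : β * ((z0.1.2.1 : ℤ) - (z0.2.2.1 : ℤ)) = 0 := by linarith
        rcases mul_eq_zero.1 c7 with h | h
        · exact hβ h
        · apply c3
          have : (z0.1.2.1 : ℤ) = (z0.2.2.1 : ℤ) := by linarith
          exact_mod_cast this
      have habs : |(h : ℝ)| ≤ (X : ℝ) := by
        have g1 : |(m : ℤ) * h| ≤ (X : ℤ) := by
          rw [hmh, abs_le]
          have d2Z : (z0.1.1 : ℤ) ≤ (X : ℤ) := by exact_mod_cast d2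
          have d2Z' : (z0.2.1 : ℤ) ≤ (X : ℤ) := by exact_mod_cast d2'
          constructor <;> omega
        have g2 : |h| ≤ |(m : ℤ) * h| := by
          rw [abs_mul]
          have : (1 : ℤ) ≤ |(m : ℤ)| := Int.one_le_abs hmZ
          nlinarith [abs_nonneg h]
        have g3 : |h| ≤ (X : ℤ) := g2.trans g1
        have g4 : ((|h| : ℤ) : ℝ) ≤ ((X : ℤ) : ℝ) := by exact_mod_cast g3
        rw [Int.cast_abs] at g4
        exact_mod_cast g4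
      have hinj : Set.InjOn (fun z : (ℕ × ℕ × ℕ) × (ℕ × ℕ × ℕ) => (pc k z.1.1, pc k z.2.1))
          (F : Set ((ℕ × ℕ × ℕ) × (ℕ × ℕ × ℕ))) := by
        intro z hz w hw hzw
        obtain ⟨a1, a2, _, _, a5, a6⟩ := hFm z (Finset.mem_coe.1 hz)
        obtain ⟨b1, b2, _, _, b5, b6⟩ := hFm w (Finset.mem_coe.1 hw)
        have e1 : z.1 = w.1 := hdet _ a1 _ b1 (congrArg Prod.fst hzw) (a5.trans b5.symm)
        have e2 : z.2 = w.2 := hdet _ a2 _ b2 (congrArg Prod.snd hzw) (a6.trans b6.symm)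
        exact Prod.ext e1 e2
      have hcard : F.card = (F.image (fun z : (ℕ × ℕ × ℕ) × (ℕ × ℕ × ℕ) =>
          (pc k z.1.1, pc k z.2.1))).card := (Finset.card_image_of_injOn hinj).symm
      have hb := hpd k h (F.image (fun z : (ℕ × ℕ × ℕ) × (ℕ × ℕ × ℕ) =>
          (pc k z.1.1, pc k z.2.1))) hk hne (by
        intro s hs
        obtain ⟨z, hz, rfl⟩ := Finset.mem_image.1 hs
        obtain ⟨a1, a2, _, a4, a5, a6⟩ := hFm z hz
        obtain ⟨_, _, f3, f4, _, _, _, _, _⟩ := hT _ a1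
        obtain ⟨_, _, f3', f4', _, _, _, _, _⟩ := hT _ a2
        have e1 : z.1.2.1 = z0.1.2.1 := by rw [f4, d4, a5, c5]
        have e2 : z.2.2.1 = z0.2.2.1 := by rw [f4', d4', a6, c6]
        have e3 : α * ((z.1.1 : ℤ) - (z.2.1 : ℤ)) = α * ((z0.1.1 : ℤ) - (z0.2.1 : ℤ)) := by
          rw [a4, c4, e1, e2]
        have e4 := mul_left_cancel₀ hα e3
        have e5 : (z.1.1 : ℤ) = (m : ℤ) * (pc k z.1.1 : ℤ) ^ k := by exact_mod_cast f3
        have e6 : (z.2.1 : ℤ) = (m : ℤ) * (pc k z.2.1 : ℤ) ^ k := by exact_mod_cast f3'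
        have e7 : (m : ℤ) * ((pc k z.1.1 : ℤ) ^ k - (pc k z.2.1 : ℤ) ^ k) = (m : ℤ) * h := by
          rw [hmh, ← e4]
          conv_rhs => rw [e5, e6]
          ring
        exact mul_left_cancel₀ hmZ e7)
      rw [hcard]
      refine hb.trans ?_
      have : |(h : ℝ)| ^ ε ≤ (X : ℝ) ^ ε := Real.rpow_le_rpow (abs_nonneg _) habs hε.le
      exact mul_le_mul_of_nonneg_left this (by linarith)
    have hsum : (E1.card : ℝ) = ∑ y ∈ I ×ˢ I,
        ((E1.filter (fun z => (pc j z.1.2.1, pc j z.2.2.1) = y)).card : ℝ) := by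
      exact_mod_cast Finset.card_eq_sum_card_fiberwise hm
    rw [hsum]
    refine (Finset.sum_le_sum hfib).trans ?_
    rw [Finset.sum_const, nsmul_eq_mul, Finset.card_product]
    have h1 : (((I.card * I.card : ℕ)) : ℝ) ≤ P ^ 2 := by
      push_cast
      nlinarith [hIc, (Nat.cast_nonneg I.card : (0 : ℝ) ≤ (I.card : ℝ))]
    have h2 : 0 ≤ C2 * (X : ℝ) ^ ε := by positivity
    exact mul_le_mul_of_nonneg_right h1 h2
  have hEc : (E.card : ℝ) ≤ P ^ 2 + P ^ 2 * (C2 * (X : ℝ) ^ ε) := by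
    have : (E.card : ℝ) = ((E.filter (fun z => z.1.2.1 = z.2.2.1)).card : ℝ) +
      ((E.filter (fun z => ¬ z.1.2.1 = z.2.2.1)).card : ℝ) := by exact_mod_cast hsplit
    rw [this]
    linarith
  refine hcs.trans ?_
  have h0 : (0 : ℝ) ≤ (E.card : ℝ) := Nat.cast_nonneg _
  calc (I.card : ℝ) * (E.card : ℝ) ≤ P * (E.card : ℝ) := mul_le_mul_of_nonneg_right hIc h0
    _ ≤ P * (P ^ 2 + P ^ 2 * (C2 * (X : ℝ) ^ ε)) := mul_le_mul_of_nonneg_left hEc hP0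

/-- One form of the relation, all cofactors. -/
private theorem c2_type (C2 ε : ℝ) (hC2 : 1 ≤ C2) (hε : 0 < ε)
    (hpd : ∀ (k : ℕ) (h : ℤ) (S : Finset (ℕ × ℕ)), 2 ≤ k → h ≠ 0 →
      (∀ s ∈ S, (s.1 : ℤ) ^ k - (s.2 : ℤ) ^ k = h) → (S.card : ℝ) ≤ C2 * (|(h : ℝ)|) ^ ε)
    (i j k X : ℕ) (P : ℝ) (α β : ℤ) (hk : 2 ≤ k) (hX : 1 ≤ X) (hP : 1 ≤ P)
    (hα : α ≠ 0) (hβ : β ≠ 0) (M : Finset ℕ) (S : Finset (ℕ × ℕ × ℕ))
    (hS : ∀ s ∈ S, 0 < s.1 ∧ 0 < s.2.1 ∧ 0 < s.2.2 ∧ s.1 ≤ X ∧ rest {k} s.1 ∈ M ∧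
      rest {j} s.2.1 ∈ M ∧ rest {i} s.2.2 ∈ M ∧ (pc k s.1 : ℝ) ≤ P ∧ (pc j s.2.1 : ℝ) ≤ P ∧
      (pc i s.2.2 : ℝ) ≤ P ∧ α * (s.1 : ℤ) + β * (s.2.1 : ℤ) = (s.2.2 : ℤ)) :
    (S.card : ℝ) ≤ (M.card : ℝ) ^ 3 *
      (Real.sqrt (2 * C2) * (X : ℝ) ^ (ε / 2) * P ^ (3 / 2 : ℝ)) := by
  classical
  have hP0 : 0 < P := by linarith
  have hXR : (1 : ℝ) ≤ (X : ℝ) := by exact_mod_cast hX
  have hX0 : (0 : ℝ) < (X : ℝ) := by linarith
  have hXe : (1 : ℝ) ≤ (X : ℝ) ^ ε := Real.one_le_rpow hXR hε.le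
  have hm : ∀ s ∈ S, (fun s : ℕ × ℕ × ℕ => (rest {k} s.1, rest {j} s.2.1, rest {i} s.2.2)) s ∈
      M ×ˢ M ×ˢ M := by
    intro s hs
    obtain ⟨_, _, _, _, a5, a6, a7, _⟩ := hS s hs
    exact Finset.mem_product.2 ⟨a5, Finset.mem_product.2 ⟨a6, a7⟩⟩
  have hfib : ∀ y ∈ M ×ˢ M ×ˢ M, ((S.filter (fun s =>
      (rest {k} s.1, rest {j} s.2.1, rest {i} s.2.2) = y)).card : ℝ) ≤
      Real.sqrt (2 * C2) * (X : ℝ) ^ (ε / 2) * P ^ (3 / 2 : ℝ) := by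
    intro y _
    have h1 := c2_fib C2 ε hC2 hε hpd i j k X y.1 y.2.1 y.2.2 P α β hk hX hP hα hβ
      (S.filter (fun s => (rest {k} s.1, rest {j} s.2.1, rest {i} s.2.2) = y)) (by
        intro s hs
        rw [Finset.mem_filter] at hs
        obtain ⟨hs1, hs2⟩ := hs
        obtain ⟨a1, a2, a3, a4, _, _, _, a8, a9, a10, a11⟩ := hS s hs1
        have e1 : rest {k} s.1 = y.1 := congrArg Prod.fst hs2
        have e2 : rest {j} s.2.1 = y.2.1 := congrArg (fun z => z.2.1) hs2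
        have e3 : rest {i} s.2.2 = y.2.2 := congrArg (fun z => z.2.2) hs2
        refine ⟨a1, a4, ?_, ?_, ?_, a8, a9, a10, a11⟩
        · rw [← e1]; exact Pool.Agent.Helper21.EN.rest_mul_one a1 k
        · rw [← e2]; exact Pool.Agent.Helper21.EN.rest_mul_one a2 j
        · rw [← e3]; exact Pool.Agent.Helper21.EN.rest_mul_one a3 i)
    have h2 : P * (P ^ 2 + P ^ 2 * (C2 * (X : ℝ) ^ ε)) ≤
        (Real.sqrt (2 * C2) * (X : ℝ) ^ (ε / 2) * P ^ (3 / 2 : ℝ)) ^ 2 := by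
      have e1 : Real.sqrt (2 * C2) ^ 2 = 2 * C2 := Real.sq_sqrt (by linarith)
      have e2 : ((X : ℝ) ^ (ε / 2)) ^ 2 = (X : ℝ) ^ ε := by
        rw [← Real.rpow_natCast, ← Real.rpow_mul hX0.le]
        congr 1
        push_cast
        ring
      have e3 : (P ^ (3 / 2 : ℝ)) ^ 2 = P ^ 3 := by
        rw [← Real.rpow_natCast, ← Real.rpow_mul hP0.le, ← Real.rpow_natCast P 3]
        congr 1
        push_cast
        ring
      rw [mul_pow, mul_pow, e1, e2, e3]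
      have h3 : 1 ≤ C2 * (X : ℝ) ^ ε := by nlinarith
      have h4 : 0 < P ^ 3 := by positivity
      nlinarith
    have h5 := h1.trans h2
    exact (pow_le_pow_iff_left₀ (Nat.cast_nonneg _) (by positivity) two_ne_zero).1 h5
  have hsum : (S.card : ℝ) = ∑ y ∈ M ×ˢ M ×ˢ M, ((S.filter (fun s =>
      (rest {k} s.1, rest {j} s.2.1, rest {i} s.2.2) = y)).card : ℝ) := by
    exact_mod_cast Finset.card_eq_sum_card_fiberwise hm
  rw [hsum]
  refine (Finset.sum_le_sum hfib).trans ?_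
  rw [Finset.sum_const, nsmul_eq_mul, Finset.card_product, Finset.card_product]
  apply le_of_eq
  push_cast
  ring

/-- PIECE AR-C2 (the whole file, 200 lines).
PROOF.  Write `p = m x^k`, `q = n y^j`, `r = l z^i` (`m = rest {k} p`, `x = pc k p`, .., `EN.rest_mul_one`).
Fix `(m, n, l)`: at most `(C1 X^(ε/6) Q)^3` choices (`rad_count`, all are `≤ X`); fix also which of
the three relations holds.  Let `S'` be the remaining set of triples.  `r` takes at most `P` values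
(`z ≤ P`), so by Cauchy-Schwarz `|S'|^2 ≤ P #{(s, s') ∈ S'^2 : r = r'}` (`sq_sum_le_card_mul_sum_sq`).
In `S'` `r` and `q` determine `p`, `p` and `q` determine `r`, so `|S'| ≤ #(x,y) ≤ P^2`.
Pairs with `r = r'`: the relation gives `p - p' = q - q'` (`p + r = q`), `p - p' = q' - q` (`p + q = r`),
or `p - p' = q - q'` (`q + r = p`).  If `q = q'` then `s = s'`: at most `|S'| ≤ P^2` pairs.  If
`q ≠ q'`: `(y, y')` has at most `P^2` values and determines `h = p - p' ≠ 0`, `|h| ≤ X`;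
`m (x^k - x'^k) = h`, so `m ∣ h` and `x^k - x'^k = h / m ≠ 0`: at most `C2 X^(ε/2)` pairs `(x, x')`
(`pow_diff (ε/2)`), and `(x, x', y, y')` determines the pair `(s, s')` (as `r` is determined).
So `|S'|^2 ≤ P (P^2 + C2 X^(ε/2) P^2) ≤ 2 C2 X^(ε/2) P^3`.  Sum up:
`|S| ≤ 3 (C1 X^(ε/6) Q)^3 (2 C2 X^(ε/2))^(1/2) P^(3/2)`. -/
theorem pure_step (ε : ℝ) (hε : 0 < ε) : ∃ C : ℝ, 1 ≤ C ∧
    ∀ (i j k X : ℕ) (P Q : ℝ) (S : Finset (ℕ × ℕ × ℕ)), 1 ≤ i → 1 ≤ j → 2 ≤ k → 1 ≤ X → 1 ≤ P →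
      1 ≤ Q →
      (∀ s ∈ S, Tri X s.1 s.2.1 s.2.2 ∧ (pc k s.1 : ℝ) ≤ P ∧ (pc j s.2.1 : ℝ) ≤ P ∧
        (pc i s.2.2 : ℝ) ≤ P ∧ (rad (rest {k} s.1) : ℝ) ≤ Q ∧ (rad (rest {j} s.2.1) : ℝ) ≤ Q ∧
        (rad (rest {i} s.2.2) : ℝ) ≤ Q) →
      (S.card : ℝ) ≤ C * (X : ℝ) ^ ε * Q ^ 3 * P ^ (3 / 2 : ℝ) := by
  classical
  obtain ⟨C1, hC1, hrc⟩ := rad_count (ε / 6) (by positivity)
  obtain ⟨C2, hC2, hpd⟩ := pow_diff ε hε
  have hsq : 1 ≤ Real.sqrt (2 * C2) := by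
    rw [Real.one_le_sqrt]
    linarith
  refine ⟨3 * (C1 ^ 3 * Real.sqrt (2 * C2)), ?_, ?_⟩
  · have h1 : 1 ≤ C1 ^ 3 := one_le_pow₀ hC1
    nlinarith
  intro i j k X P Q S hi hj hk hX hP hQ hS
  have hP0 : 0 < P := by linarith
  have hQ0 : 0 < Q := by linarith
  have hXR : (1 : ℝ) ≤ (X : ℝ) := by exact_mod_cast hX
  have hX0 : (0 : ℝ) < (X : ℝ) := by linarith
  set M : Finset ℕ := (Finset.Icc 1 X).filter (fun d => (rad d : ℝ) ≤ Q) with hM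
  have hMc : (M.card : ℝ) ≤ C1 * (X : ℝ) ^ (ε / 6) * Q := by
    refine hrc X Q M hX hQ0.le ?_
    intro d hd
    rw [hM, Finset.mem_filter, Finset.mem_Icc] at hd
    exact ⟨hd.1.1, hd.1.2, hd.2⟩
  have hmemM : ∀ (a b : ℕ), 0 < b → b ≤ X → (rad (rest {a} b) : ℝ) ≤ Q → rest {a} b ∈ M := by
    intro a b hb hbX h
    rw [hM, Finset.mem_filter, Finset.mem_Icc]
    exact ⟨⟨Pool.Agent.Helper21.EN.rest_pos _ _,
      (Pool.Agent.Helper21.EN.rest_le hb _).trans hbX⟩, h⟩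
  set B : ℝ := Real.sqrt (2 * C2) * (X : ℝ) ^ (ε / 2) * P ^ (3 / 2 : ℝ) with hB
  have hB0 : 0 ≤ B := by rw [hB]; positivity
  have hty : ∀ (α β : ℤ), α ≠ 0 → β ≠ 0 → ∀ S' : Finset (ℕ × ℕ × ℕ), S' ⊆ S →
      (∀ s ∈ S', α * (s.1 : ℤ) + β * (s.2.1 : ℤ) = (s.2.2 : ℤ)) →
      (S'.card : ℝ) ≤ (M.card : ℝ) ^ 3 * B := by
    intro α β hα hβ S' hS' hrel
    refine c2_type C2 ε hC2 hε hpd i j k X P α β hk hX hP hα hβ M S' ?_
    intro s hs
    obtain ⟨ht, b1, b2, b3, b4, b5, b6⟩ := hS s (hS' hs)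
    exact ⟨ht.hp, ht.hq, ht.hr, ht.pX, hmemM _ _ ht.hp ht.pX b4, hmemM _ _ ht.hq ht.qX b5,
      hmemM _ _ ht.hr ht.rX b6, b1, b2, b3, hrel s hs⟩
  have h1 := hty 1 1 one_ne_zero one_ne_zero (S.filter (fun s => s.1 + s.2.1 = s.2.2))
    (Finset.filter_subset _ _) (by
      intro s hs
      have := (Finset.mem_filter.1 hs).2
      have h : (s.1 : ℤ) + (s.2.1 : ℤ) = (s.2.2 : ℤ) := by exact_mod_cast this
      linarith)
  have h2 := hty 1 (-1) one_ne_zero (by norm_num) (S.filter (fun s => s.2.1 + s.2.2 = s.1))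
    (Finset.filter_subset _ _) (by
      intro s hs
      have := (Finset.mem_filter.1 hs).2
      have h : (s.2.1 : ℤ) + (s.2.2 : ℤ) = (s.1 : ℤ) := by exact_mod_cast this
      linarith)
  have h3 := hty (-1) 1 (by norm_num) one_ne_zero (S.filter (fun s => s.1 + s.2.2 = s.2.1))
    (Finset.filter_subset _ _) (by
      intro s hs
      have := (Finset.mem_filter.1 hs).2
      have h : (s.1 : ℤ) + (s.2.2 : ℤ) = (s.2.1 : ℤ) := by exact_mod_cast this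
      linarith)
  have hcov : S ⊆ (S.filter (fun s => s.1 + s.2.1 = s.2.2)) ∪
      ((S.filter (fun s => s.2.1 + s.2.2 = s.1)) ∪ (S.filter (fun s => s.1 + s.2.2 = s.2.1))) := by
    intro s hs
    rcases (hS s hs).1.rel with h | h | h
    · exact Finset.mem_union_left _ (Finset.mem_filter.2 ⟨hs, h⟩)
    · exact Finset.mem_union_right _ (Finset.mem_union_left _ (Finset.mem_filter.2 ⟨hs, h⟩))
    · exact Finset.mem_union_right _ (Finset.mem_union_right _ (Finset.mem_filter.2 ⟨hs, h⟩))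
  have hcard : (S.card : ℝ) ≤ ((S.filter (fun s => s.1 + s.2.1 = s.2.2)).card : ℝ) +
      (((S.filter (fun s => s.2.1 + s.2.2 = s.1)).card : ℝ) +
        ((S.filter (fun s => s.1 + s.2.2 = s.2.1)).card : ℝ)) := by
    have g := (Finset.card_le_card hcov).trans ((Finset.card_union_le _ _).trans
      (Nat.add_le_add_left (Finset.card_union_le _ _) _))
    exact_mod_cast g
  have hM3 : (M.card : ℝ) ^ 3 ≤ (C1 * (X : ℝ) ^ (ε / 6) * Q) ^ 3 :=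
    pow_le_pow_left₀ (Nat.cast_nonneg _) hMc 3
  have hfin : (S.card : ℝ) ≤ 3 * ((C1 * (X : ℝ) ^ (ε / 6) * Q) ^ 3 * B) := by
    have := mul_le_mul_of_nonneg_right hM3 hB0
    linarith
  refine hfin.trans (le_of_eq ?_)
  have e1 : ((X : ℝ) ^ (ε / 6)) ^ 3 = (X : ℝ) ^ (ε / 2) := by
    rw [← Real.rpow_natCast, ← Real.rpow_mul hX0.le]
    congr 1
    push_cast
    ring
  have e2 : (X : ℝ) ^ ε = (X : ℝ) ^ (ε / 2) * (X : ℝ) ^ (ε / 2) := by
    rw [← Real.rpow_add hX0]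
    congr 1
    ring
  rw [mul_pow, mul_pow, e1, e2, hB]
  ring

end Pool.Agent.Helper93.AR
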