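import Pool.Agent.Helper93.AR.Defs
import Pool.Agent.Helper21.EN.RP

set_option autoImplicit false

/-! # Project AR, piece D1: atoms, triples with a small entry, selection of the atoms -/

namespace Pool.Agent.Helper93.AR

open Finset
open Pool.Agent.Helper21.EN (rad pc rest Tri)

/-- PIECE AR-D1 (the whole file, 200 lines).
PROOF.  `EN.rad_rest_mul` for `Icc 1 K`: `rad n = rad (rest (Icc 1 K) n) * ∏_(i ∈ Icc 1 K) pc i n`, and
`rad n = rad (rest {1} n) * pc 1 n` (`EN.rad_rest_mul_one`); cancel `pc 1 n > 0`: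
`rad (rest {1} n) = rad (rest (Icc 1 K) n) * ∏_(i ∈ Icc 2 K) pc i n ≤ rad (rest (Icc 1 K) n) T^(K-1)`
(every factor is `< T`, `T ≥ 1`).  Every prime factor of `t = rest (Icc 1 K) n` divides `n` with an
exponent outside `Icc 1 K`, so at least `K + 1` (`EN.primeFactors_rest`), and
`t = ∏_(p ∣ t) p^(v_p n) ≥ ∏_(p ∣ t) p^(K+1) = rad(t)^(K+1)`; `t ≤ n ≤ X` (`EN.rest_le`). -/
theorem atoms (K X n : ℕ) (T : ℝ) (hn : 0 < n) (hX : n ≤ X) (hT : 1 ≤ T) (hK : 1 ≤ K)
    (h : ∀ k, 2 ≤ k → k ≤ K → (pc k n : ℝ) < T) :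
    (rad (rest {1} n) : ℝ) ≤ T ^ K * (X : ℝ) ^ (1 / ((K : ℝ) + 1)) := by
  classical
  set t := rest (Icc 1 K) n with ht
  have e1 : rad n = rad t * ∏ i ∈ Icc 1 K, pc i n := Pool.Agent.Helper21.EN.rad_rest_mul (Icc 1 K) n
  have e2 : rad n = rad (rest {1} n) * pc 1 n := Pool.Agent.Helper21.EN.rad_rest_mul_one 1 n
  have e3 : ∏ i ∈ Icc 1 K, pc i n = pc 1 n * ∏ i ∈ Icc 2 K, pc i n := by
    rw [← Finset.insert_Icc_succ_left_eq_Icc hK, Finset.prod_insert (by simp)]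
    rfl
  have e4 : rad (rest {1} n) = rad t * ∏ i ∈ Icc 2 K, pc i n := by
    have h1 : rad (rest {1} n) * pc 1 n = (rad t * ∏ i ∈ Icc 2 K, pc i n) * pc 1 n := by
      rw [← e2, e1, e3]; ring
    exact Nat.eq_of_mul_eq_mul_right (Pool.Agent.Helper21.EN.pc_pos 1 n) h1
  have e5 : (∏ i ∈ Icc 2 K, (pc i n : ℝ)) ≤ T ^ K := by
    have h1 : (∏ i ∈ Icc 2 K, (pc i n : ℝ)) ≤ ∏ i ∈ Icc 2 K, T := by
      refine Finset.prod_le_prod (fun i _ => Nat.cast_nonneg _) (fun i hi => ?_)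
      rw [Finset.mem_Icc] at hi
      exact (h i hi.1 hi.2).le
    rw [Finset.prod_const, Nat.card_Icc] at h1
    exact h1.trans (pow_le_pow_right₀ hT (by omega))
  have e6 : rad t ^ (K + 1) ≤ X := by
    have h1 : rad t ^ (K + 1) ≤ t := by
      have ht0 : t ≠ 0 := (Pool.Agent.Helper21.EN.rest_pos _ n).ne'
      have h2 : rad t ^ (K + 1) ∣ t := by
        unfold rad
        rw [← Finset.prod_pow]
        conv_rhs => rw [← Nat.prod_factorization_pow_eq_self ht0]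
        show ∏ p ∈ t.primeFactors, p ^ (K + 1) ∣ ∏ p ∈ t.primeFactors, p ^ t.factorization p
        refine Finset.prod_dvd_prod_of_dvd _ _ (fun p hp => ?_)
        apply pow_dvd_pow
        have hp1 : p.Prime := Nat.prime_of_mem_primeFactors hp
        have hp' := hp
        rw [ht, Pool.Agent.Helper21.EN.primeFactors_rest, Finset.mem_filter, Finset.mem_Icc] at hp'
        have hp2 : K + 1 ≤ n.factorization p := by
          have h3 : n.factorization p ≠ 0 := by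
            have := hp1.factorization_pos_of_dvd hn.ne' (Nat.dvd_of_mem_primeFactors hp'.1)
            omega
          omega
        have h4 : p ^ n.factorization p ∣ t := by
          rw [ht]
          unfold rest
          refine Finset.dvd_prod_of_mem (fun q => q ^ n.factorization q) ?_
          rw [Finset.mem_filter, Finset.mem_Icc]
          exact hp'
        exact hp2.trans ((hp1.pow_dvd_iff_le_factorization ht0).1 h4)
      exact Nat.le_of_dvd (Pool.Agent.Helper21.EN.rest_pos _ n) h2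
    exact h1.trans ((Pool.Agent.Helper21.EN.rest_le hn _).trans hX)
  have e7 : (rad t : ℝ) ≤ (X : ℝ) ^ (1 / ((K : ℝ) + 1)) := by
    have hK0 : (0 : ℝ) < (K : ℝ) + 1 := by positivity
    have h1 : ((rad t : ℝ)) ^ (K + 1) ≤ (X : ℝ) := by exact_mod_cast e6
    have h2 : (rad t : ℝ) = (((rad t : ℝ)) ^ (K + 1)) ^ (1 / ((K : ℝ) + 1)) := by
      rw [← Real.rpow_natCast, ← Real.rpow_mul (Nat.cast_nonneg _)]
      push_cast
      rw [mul_one_div_cancel hK0.ne', Real.rpow_one]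
    rw [h2]
    exact Real.rpow_le_rpow (by positivity) h1 (by positivity)
  rw [e4]
  push_cast
  rw [mul_comm]
  exact mul_le_mul e5 e7 (Nat.cast_nonneg _) (by positivity)

/-- Triples with two entries whose radicals have a small product.
PROOF.  Three classes; in each one the pair of the two entries in question determines `(a, b)` and
`Pool.Agent.Helper21.EN.rp_thm` (`RPStmt`) bounds the number of such pairs by `C X^ε Y`. -/
theorem bad_pairs (ε : ℝ) (hε : 0 < ε) : ∃ C : ℝ, 1 ≤ C ∧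
    ∀ (X : ℕ) (Y : ℝ) (S : Finset (ℕ × ℕ)), 1 ≤ X → 1 ≤ Y →
      (∀ s ∈ S, 0 < s.1 ∧ 0 < s.2 ∧ s.1 + s.2 ≤ X ∧ ((rad s.1 : ℝ) * rad s.2 ≤ Y ∨
        (rad s.1 : ℝ) * rad (s.1 + s.2) ≤ Y ∨ (rad s.2 : ℝ) * rad (s.1 + s.2) ≤ Y)) →
      (S.card : ℝ) ≤ C * (X : ℝ) ^ ε * Y := by
  classical
  obtain ⟨C, hC, hrp⟩ := Pool.Agent.Helper21.EN.rp_thm ε hε
  refine ⟨3 * C, by linarith, ?_⟩
  intro X Y S hX hY hS
  set S1 := S.filter (fun s => (rad s.1 : ℝ) * rad s.2 ≤ Y) with hS1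
  set S2 := (S.filter (fun s => (rad s.1 : ℝ) * rad (s.1 + s.2) ≤ Y)).image
    (fun s => (s.1, s.1 + s.2)) with hS2
  set S3 := (S.filter (fun s => (rad s.2 : ℝ) * rad (s.1 + s.2) ≤ Y)).image
    (fun s => (s.2, s.1 + s.2)) with hS3
  have h1 := hrp X Y S1 hX hY (by
    intro s hs
    rw [hS1, Finset.mem_filter] at hs
    obtain ⟨a1, a2, a3, -⟩ := hS s hs.1
    exact ⟨a1, by omega, a2, by omega, hs.2⟩)
  have h2 := hrp X Y S2 hX hY (by
    intro s hs
    rw [hS2, Finset.mem_image] at hs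
    obtain ⟨u, hu, rfl⟩ := hs
    rw [Finset.mem_filter] at hu
    obtain ⟨a1, a2, a3, -⟩ := hS u hu.1
    exact ⟨a1, by omega, by show 0 < u.1 + u.2; omega, a3, hu.2⟩)
  have h3 := hrp X Y S3 hX hY (by
    intro s hs
    rw [hS3, Finset.mem_image] at hs
    obtain ⟨u, hu, rfl⟩ := hs
    rw [Finset.mem_filter] at hu
    obtain ⟨a1, a2, a3, -⟩ := hS u hu.1
    exact ⟨a2, by show u.2 ≤ X; omega, by show 0 < u.1 + u.2; omega, a3, hu.2⟩)
  have c2 : S2.card = (S.filter (fun s => (rad s.1 : ℝ) * rad (s.1 + s.2) ≤ Y)).card := by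
    rw [hS2]
    refine Finset.card_image_of_injective _ ?_
    rintro ⟨a, b⟩ ⟨c, d⟩ h
    simp only [Prod.mk.injEq] at h ⊢
    omega
  have c3 : S3.card = (S.filter (fun s => (rad s.2 : ℝ) * rad (s.1 + s.2) ≤ Y)).card := by
    rw [hS3]
    refine Finset.card_image_of_injective _ ?_
    rintro ⟨a, b⟩ ⟨c, d⟩ h
    simp only [Prod.mk.injEq] at h ⊢
    omega
  have hsub : S ⊆ (S1 ∪ S.filter (fun s => (rad s.1 : ℝ) * rad (s.1 + s.2) ≤ Y)) ∪
      S.filter (fun s => (rad s.2 : ℝ) * rad (s.1 + s.2) ≤ Y) := by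
    intro s hs
    simp only [hS1, Finset.mem_union, Finset.mem_filter]
    rcases (hS s hs).2.2.2 with h | h | h
    · exact Or.inl (Or.inl ⟨hs, h⟩)
    · exact Or.inl (Or.inr ⟨hs, h⟩)
    · exact Or.inr ⟨hs, h⟩
  have h4 : S.card ≤ S1.card + S2.card + S3.card := by
    rw [c2, c3]
    refine (Finset.card_le_card hsub).trans ((Finset.card_union_le _ _).trans ?_)
    exact Nat.add_le_add_right (Finset.card_union_le _ _) _
  have h5 : (S.card : ℝ) ≤ S1.card + S2.card + S3.card := by exact_mod_cast h4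
  linarith

/-- The three entries in any order form a `Tri`. -/
theorem tri_perm6 (X : ℕ) (t : ℕ × ℕ) (ht : Cop t) (hX : t.1 + t.2 ≤ X) (σ : Fin 6) :
    Tri X (perm6 σ t).1 (perm6 σ t).2.1 (perm6 σ t).2.2 := by
  obtain ⟨a, b⟩ := t
  obtain ⟨ha, hb, hab⟩ := ht
  simp only at ha hb hab hX
  have h1 : Nat.Coprime a (a + b) := by rwa [Nat.coprime_self_add_right]
  have h2 : Nat.Coprime b (a + b) := by
    rw [add_comm, Nat.coprime_self_add_right]; exact hab.symm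
  have h3 : 0 < a + b := by omega
  fin_cases σ
  · exact ⟨ha, hb, h3, hab, h1, h2, by simp only [perm6]; omega, by simp only [perm6]; omega,
      hX, Or.inl rfl⟩
  · exact ⟨hb, ha, h3, hab.symm, h2, h1, by simp only [perm6]; omega, by simp only [perm6]; omega,
      hX, Or.inl (add_comm _ _)⟩
  · exact ⟨ha, h3, hb, h1, hab, h2.symm, by simp only [perm6]; omega, hX,
      by simp only [perm6]; omega, Or.inr (Or.inr rfl)⟩
  · exact ⟨hb, h3, ha, h2, hab.symm, h1.symm, by simp only [perm6]; omega, hX,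
      by simp only [perm6]; omega, Or.inr (Or.inr (add_comm _ _))⟩
  · exact ⟨h3, ha, hb, h1.symm, h2.symm, hab, hX, by simp only [perm6]; omega,
      by simp only [perm6]; omega, Or.inr (Or.inl rfl)⟩
  · exact ⟨h3, hb, ha, h2.symm, h1.symm, hab.symm, hX, by simp only [perm6]; omega,
      by simp only [perm6]; omega, Or.inr (Or.inl (add_comm _ _))⟩

theorem perm6_inj (σ : Fin 6) : Function.Injective (perm6 σ) := by
  rintro ⟨a, b⟩ ⟨c, d⟩ h
  fin_cases σ <;> simp only [perm6, Prod.mk.injEq] at h ⊢ <;> omega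

/-- Selection of the atoms.  `M` bounds the three radicals from below, one of the entries has a
powerful part with radical `> Q`.
PROOF.  Call `(e, k)`, `e` one of the three entries, `2 ≤ k ≤ K`, big if `pc k e ≥ T`.  By `atoms` and
`hQ` an entry `e` with `rad (rest {1} e) > Q` has a big pair; so the (finite) set of big pairs is not
empty: choose `(p, k)` big with `pc k p` minimal (`Finset.exists_min_image` over the three entries
times `Icc 2 K`).  Let `q`, `r` be the two other entries.  For `e ∈ {q, r}`: if some `(e, k')` is big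
take `j = k'`: `pc k' e ≥ pc k p` by minimality.  Otherwise `rad (rest {1} e) ≤ Q` by `atoms`, and
`pc 1 e = rad e / rad (rest {1} e) ≥ M / Q`: take `j = 1`. -/
theorem select_atoms (K X : ℕ) (T Q M : ℝ) (t : ℕ × ℕ) (ht : Cop t) (hX : t.1 + t.2 ≤ X)
    (hK : 2 ≤ K) (hT : 1 ≤ T) (hM0 : 0 ≤ M) (hQ : T ^ K * (X : ℝ) ^ (1 / ((K : ℝ) + 1)) ≤ Q)
    (hM : M ≤ (rad t.1 : ℝ) ∧ M ≤ (rad t.2 : ℝ) ∧ M ≤ (rad (t.1 + t.2) : ℝ))
    (hflat : Q < (rad (rest {1} t.1) : ℝ) ∨ Q < (rad (rest {1} t.2) : ℝ) ∨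
      Q < (rad (rest {1} (t.1 + t.2)) : ℝ)) :
    ∃ (σ : Fin 6) (k j i : ℕ), 2 ≤ k ∧ k ≤ K ∧ 1 ≤ j ∧ j ≤ K ∧ 1 ≤ i ∧ i ≤ K ∧
      T ≤ (pc k (perm6 σ t).1 : ℝ) ∧
      min (pc k (perm6 σ t).1 : ℝ) (M / Q) ≤ (pc j (perm6 σ t).2.1 : ℝ) ∧
      min (pc k (perm6 σ t).1 : ℝ) (M / Q) ≤ (pc i (perm6 σ t).2.2 : ℝ) := by
  obtain ⟨h1, h2, -⟩ := ht
  have hX1 : 1 ≤ X := by omega
  have hQ0 : 0 < Q := by
    have hXr : (0 : ℝ) < (X : ℝ) := by exact_mod_cast hX1
    have hTr : (0 : ℝ) < T := by linarith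
    exact lt_of_lt_of_le (mul_pos (pow_pos hTr K) (Real.rpow_pos_of_pos hXr _)) hQ
  -- a big pair of each entry with a large powerful part
  have big : ∀ e : ℕ, 0 < e → e ≤ X → Q < (rad (rest {1} e) : ℝ) →
      ∃ k, 2 ≤ k ∧ k ≤ K ∧ T ≤ (pc k e : ℝ) := by
    intro e he heX hlt
    by_contra hcon
    push Not at hcon
    have h3 := atoms K X e T he heX hT (by omega) (fun k hk hk' => hcon k hk hk')
    linarith
  -- the choice of the class of an entry
  have one : ∀ (m : ℝ) (e : ℕ), 0 < e → e ≤ X → M ≤ (rad e : ℝ) →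
      (∀ k, 2 ≤ k → k ≤ K → T ≤ (pc k e : ℝ) → m ≤ (pc k e : ℝ)) →
      ∃ j, 1 ≤ j ∧ j ≤ K ∧ min m (M / Q) ≤ (pc j e : ℝ) := by
    intro m e he heX hMe hm
    by_cases hb : ∃ k, 2 ≤ k ∧ k ≤ K ∧ T ≤ (pc k e : ℝ)
    · obtain ⟨k, hk, hk', hTk⟩ := hb
      exact ⟨k, by omega, hk', (min_le_left _ _).trans (hm k hk hk' hTk)⟩
    · push Not at hb
      have h3 := atoms K X e T he heX hT (by omega) (fun k hk hk' => hb k hk hk')
      refine ⟨1, le_rfl, by omega, (min_le_right _ _).trans ?_⟩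
      rw [div_le_iff₀ hQ0]
      have h4 : (rad e : ℝ) = (rad (rest {1} e) : ℝ) * (pc 1 e : ℝ) := by
        rw [← Nat.cast_mul, ← Pool.Agent.Helper21.EN.rad_rest_mul_one]
      have h5 : (0 : ℝ) ≤ (pc 1 e : ℝ) := Nat.cast_nonneg _
      have h6 : (rad (rest {1} e) : ℝ) * (pc 1 e : ℝ) ≤ Q * (pc 1 e : ℝ) :=
        mul_le_mul_of_nonneg_right (h3.trans hQ) h5
      linarith [mul_comm Q (pc 1 e : ℝ)]
  -- the minimal big pair
  obtain ⟨ent, hent⟩ : ∃ ent : Fin 3 → ℕ, ent = ![t.1, t.2, t.1 + t.2] := ⟨_, rfl⟩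
  have e0 : ent 0 = t.1 := by rw [hent]; rfl
  have e1 : ent 1 = t.2 := by rw [hent]; rfl
  have e2 : ent 2 = t.1 + t.2 := by rw [hent]; rfl
  have hne : (((Finset.univ : Finset (Fin 3)) ×ˢ Icc 2 K).filter
      (fun x => T ≤ (pc x.2 (ent x.1) : ℝ))).Nonempty := by
    have mk : ∀ (a : Fin 3), (∃ k, 2 ≤ k ∧ k ≤ K ∧ T ≤ (pc k (ent a) : ℝ)) →
        (((Finset.univ : Finset (Fin 3)) ×ˢ Icc 2 K).filter
          (fun x => T ≤ (pc x.2 (ent x.1) : ℝ))).Nonempty := by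
      rintro a ⟨k, hk, hk', hTk⟩
      exact ⟨(a, k), Finset.mem_filter.2 ⟨Finset.mem_product.2
        ⟨Finset.mem_univ _, Finset.mem_Icc.2 ⟨hk, hk'⟩⟩, hTk⟩⟩
    rcases hflat with h | h | h
    · exact mk 0 (by rw [e0]; exact big _ h1 (by omega) h)
    · exact mk 1 (by rw [e1]; exact big _ h2 (by omega) h)
    · exact mk 2 (by rw [e2]; exact big _ (by omega) hX h)
  obtain ⟨⟨a, k⟩, hak, hmin⟩ := Finset.exists_min_image _ (fun x => (pc x.2 (ent x.1) : ℝ)) hne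
  rw [Finset.mem_filter, Finset.mem_product] at hak
  obtain ⟨⟨-, hk⟩, hTk⟩ := hak
  have hk2 := (Finset.mem_Icc.1 hk).1
  have hkK := (Finset.mem_Icc.1 hk).2
  dsimp only at hk2 hkK hTk
  have hall : ∀ b : Fin 3, ∀ k', 2 ≤ k' → k' ≤ K → T ≤ (pc k' (ent b) : ℝ) →
      (pc k (ent a) : ℝ) ≤ (pc k' (ent b) : ℝ) := by
    intro b k' hk' hk'' hT'
    exact hmin (b, k') (Finset.mem_filter.2 ⟨Finset.mem_product.2
      ⟨Finset.mem_univ _, Finset.mem_Icc.2 ⟨hk', hk''⟩⟩, hT'⟩)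
  obtain ⟨j0, hj0, hj0', hm0⟩ := one (pc k (ent a) : ℝ) t.1 h1 (by omega) hM.1
    (fun k' hk' hk'' hT' => by
      have := hall 0 k' hk' hk''
      rw [e0] at this
      exact this hT')
  obtain ⟨j1, hj1, hj1', hm1⟩ := one (pc k (ent a) : ℝ) t.2 h2 (by omega) hM.2.1
    (fun k' hk' hk'' hT' => by
      have := hall 1 k' hk' hk''
      rw [e1] at this
      exact this hT')
  obtain ⟨j2, hj2, hj2', hm2⟩ := one (pc k (ent a) : ℝ) (t.1 + t.2) (by omega) hX hM.2.2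
    (fun k' hk' hk'' hT' => by
      have := hall 2 k' hk' hk''
      rw [e2] at this
      exact this hT')
  have ha : a = 0 ∨ a = 1 ∨ a = 2 := by
    have h3 : ∀ b : Fin 3, b = 0 ∨ b = 1 ∨ b = 2 := by decide
    exact h3 a
  rcases ha with rfl | rfl | rfl
  · rw [e0] at hTk hm1 hm2
    exact ⟨0, k, j1, j2, hk2, hkK, hj1, hj1', hj2, hj2', hTk, hm1, hm2⟩
  · rw [e1] at hTk hm0 hm2
    exact ⟨1, k, j0, j2, hk2, hkK, hj0, hj0', hj2, hj2', hTk, hm0, hm2⟩
  · rw [e2] at hTk hm0 hm1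
    exact ⟨4, k, j0, j1, hk2, hkK, hj0, hj0', hj1, hj1', hTk, hm0, hm1⟩

end Pool.Agent.Helper93.AR
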