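import Pool.Agent.Helper93.AR.B5
import Pool.Agent.Helper93.AR.C1
import Pool.Agent.Helper93.AR.C2
import Pool.Agent.Helper93.AR.D1

set_option autoImplicit false

/-! # Project AR, piece D2: few triples of height above `Z^(1/3+ε0)` -/

namespace Pool.Agent.Helper93.AR

open Finset
open Pool.Agent.Helper21.EN (rad pc rest Tri)

private theorem d2_perm (P : ℕ → Prop) (s : ℕ × ℕ) (h1 : P s.1) (h2 : P s.2) (h3 : P (s.1 + s.2))
    (σ : Fin 6) : P (perm6 σ s).1 ∧ P (perm6 σ s).2.1 ∧ P (perm6 σ s).2.2 := by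
  fin_cases σ <;> simp only [perm6] <;> exact ⟨by assumption, by assumption, by assumption⟩

private theorem d2_rad (k n : ℕ) : (rad n : ℝ) = (rad (rest {k} n) : ℝ) * (pc k n : ℝ) := by
  rw [← Nat.cast_mul, ← Pool.Agent.Helper21.EN.rad_rest_mul_one]

private theorem d2_pc_le (k n : ℕ) : (pc k n : ℝ) ≤ (rad n : ℝ) := by
  rw [d2_rad k n]
  have h1 : (1 : ℝ) ≤ (rad (rest {k} n) : ℝ) := by
    have h2 : 0 < rad n := Nat.pos_of_ne_zero (by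
      unfold rad
      exact Finset.prod_ne_zero_iff.mpr fun p hp => (Nat.prime_of_mem_primeFactors hp).ne_zero)
    have h3 : rad (rest {k} n) ≠ 0 := by
      intro h
      rw [Pool.Agent.Helper21.EN.rad_rest_mul_one k n, h, zero_mul] at h2
      exact lt_irrefl _ h2
    exact_mod_cast Nat.one_le_iff_ne_zero.mpr h3
  have h4 : (0 : ℝ) ≤ (pc k n : ℝ) := Nat.cast_nonneg _
  nlinarith

private theorem d2_rest_le {k n : ℕ} {R W : ℝ} (hW : 0 < W) (hR : (rad n : ℝ) ≤ R)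
    (hp : W ≤ (pc k n : ℝ)) : (rad (rest {k} n) : ℝ) ≤ R / W := by
  rw [le_div_iff₀ hW]
  rw [d2_rad k n] at hR
  have h4 : (0 : ℝ) ≤ (rad (rest {k} n) : ℝ) := Nat.cast_nonneg _
  nlinarith

private theorem d2_sqrt {c C Xe B R : ℝ} (hc : 0 ≤ c) (hC : 1 ≤ C) (hX : 1 ≤ Xe) (hB : 0 ≤ B)
    (hR : 0 ≤ R) (h : c ^ 2 ≤ C * Xe * B * R ^ 2) : c ≤ C * Xe * (R * Real.sqrt B) := by
  have h1 : (1 : ℝ) ≤ C * Xe := by nlinarith
  have h2 : 0 ≤ C * Xe * (R * Real.sqrt B) := by positivity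
  refine abs_le_of_sq_le_sq' ?_ h2 |>.2
  have h3 : (C * Xe * (R * Real.sqrt B)) ^ 2 = (C * Xe) * ((C * Xe) * B * R ^ 2) := by
    rw [mul_pow, mul_pow R, Real.sq_sqrt hB]
    ring
  rw [h3]
  have h4 : 0 ≤ (C * Xe) * B * R ^ 2 := by positivity
  nlinarith

/-- One estimate with free parameters.  `R` bounds the radicals from above, `M` from below (outside
the bad triples), `A ≥ rad · rad` for the bad triples.
PROOF.  Split `S`:
(bad) some two entries have radicals with product `≤ A`: `bad_pairs`, at most `C1 X^ε A`.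
Otherwise all radicals are `≤ R` and `≥ M` (hypotheses `hR`, `hM` below).
(flat) all three powerful parts have radical `≤ Q`: `flat_step` with `P = R` (`pc 1 e ≤ rad e ≤ R`),
`G`: `rest {1} (a+b) = (a+b) / pc 1 (a+b) ≥ H / R ≥ G`: at most `C2 X^ε Q^3 (1 + R^2/G)`.
Otherwise `select_atoms` gives `σ, k, j, i`; there are `6 K^3` choices; fix them.  The image of the
remaining set under `perm6 σ` (injective, `perm6_inj`, `tri_perm6`) splits into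
(modulus) `pc k p ≤ W`: `√(T pc k p) ≤ min (pc k p) (M/Q) ≤ pc j q`
(`T ≤ pc k p`, and `T pc k p ≤ T W ≤ (M/Q)^2` by `hMQ`), so `mod_total` applies:
card `≤ (C3 X^ε (W R + R^2/√T) R^2)^(1/2)`.
(pure) `pc k p > W`: `rad (rest {k} p) = rad p / pc k p ≤ R / W ≤ R Q / M'`, and
`pc j q ≥ min W (M/Q) = W`? see `hWQ`: `W ≤ M / Q`, so `pc j q, pc i r ≥ W` and the cofactors have
radicals `≤ R/W`: `pure_step` with `P = R`, `Q := R/W`: `C4 X^ε (R/W)^3 R^(3/2)`. -/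
theorem regime2_param (K : ℕ) (ε : ℝ) (hε : 0 < ε) (hK : 2 ≤ K) : ∃ C : ℝ, 1 ≤ C ∧
    ∀ (X : ℕ) (R M A Q G T W H : ℝ) (S : Finset (ℕ × ℕ)), 1 ≤ X → 1 ≤ A → 1 ≤ Q → 1 ≤ G →
      1 ≤ T → T ≤ W → W ≤ R → 0 ≤ M → W ≤ M / Q → T * W ≤ (M / Q) ^ 2 →
      T ^ K * (X : ℝ) ^ (1 / ((K : ℝ) + 1)) ≤ Q → G * R ≤ H →
      (∀ s ∈ S, Cop s ∧ s.1 + s.2 ≤ X ∧ H ≤ ((s.1 + s.2 : ℕ) : ℝ) ∧
        (A < (rad s.1 : ℝ) * rad s.2 → A < (rad s.1 : ℝ) * rad (s.1 + s.2) →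
          A < (rad s.2 : ℝ) * rad (s.1 + s.2) →
          (M ≤ (rad s.1 : ℝ) ∧ M ≤ (rad s.2 : ℝ) ∧ M ≤ (rad (s.1 + s.2) : ℝ)) ∧
          ((rad s.1 : ℝ) ≤ R ∧ (rad s.2 : ℝ) ≤ R ∧ (rad (s.1 + s.2) : ℝ) ≤ R))) →
      (S.card : ℝ) ≤ C * (X : ℝ) ^ ε * (A + Q ^ 3 * (1 + R ^ 2 / G) +
        R * Real.sqrt (W * R + R ^ 2 / Real.sqrt T) + (R / W) ^ 3 * R ^ (3 / 2 : ℝ)) := by
  classical
  obtain ⟨Cb, hCb, hb⟩ := bad_pairs ε hε
  obtain ⟨Cf, hCf, hf⟩ := flat_step ε hε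
  obtain ⟨Cm, hCm, hm⟩ := mod_total K ε hε
  obtain ⟨Cp, hCp, hp⟩ := pure_step ε hε
  have hK3 : (0 : ℝ) ≤ 6 * (K : ℝ) ^ 3 := by positivity
  refine ⟨Cb + Cf + 6 * (K : ℝ) ^ 3 * (Cm + Cp), ?_, ?_⟩
  · have : 0 ≤ 6 * (K : ℝ) ^ 3 * (Cm + Cp) := mul_nonneg hK3 (by linarith)
    linarith
  intro X R M A Q G T W H S hX hA hQ hG hT hTW hWR hM hWM hTWM hTK hGR hS
  have hW1 : 1 ≤ W := by linarith
  have hW0 : 0 < W := by linarith
  have hR1 : 1 ≤ R := by linarith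
  have hR0 : 0 ≤ R := by linarith
  have hT0 : 0 < T := by linarith
  have hX1 : (1 : ℝ) ≤ X := by exact_mod_cast hX
  have hXe : (1 : ℝ) ≤ (X : ℝ) ^ ε := Real.one_le_rpow hX1 hε.le
  have hMQ : 0 ≤ M / Q := by linarith
  have hRW : 1 ≤ R / W := by rw [le_div_iff₀ hW0]; linarith
  obtain ⟨bad, hbad⟩ : ∃ bad : ℕ × ℕ → Prop, bad = fun s => (rad s.1 : ℝ) * rad s.2 ≤ A ∨
      (rad s.1 : ℝ) * rad (s.1 + s.2) ≤ A ∨ (rad s.2 : ℝ) * rad (s.1 + s.2) ≤ A := ⟨_, rfl⟩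
  obtain ⟨flat, hflat⟩ : ∃ flat : ℕ × ℕ → Prop, flat = fun s => (rad (rest {1} s.1) : ℝ) ≤ Q ∧
      (rad (rest {1} s.2) : ℝ) ≤ Q ∧ (rad (rest {1} (s.1 + s.2)) : ℝ) ≤ Q := ⟨_, rfl⟩
  obtain ⟨B1, hB1⟩ : ∃ B1, B1 = W * R + R ^ 2 / Real.sqrt T := ⟨_, rfl⟩
  have hB10 : 0 ≤ B1 := by rw [hB1]; positivity
  obtain ⟨B2, hB2⟩ : ∃ B2, B2 = (R / W) ^ 3 * R ^ (3 / 2 : ℝ) := ⟨_, rfl⟩
  have hB20 : 0 ≤ B2 := by
    rw [hB2]
    have : 0 ≤ R / W := by linarith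
    positivity
  -- the triples which are not bad
  have hgood : ∀ s ∈ S, ¬ bad s →
      (M ≤ (rad s.1 : ℝ) ∧ M ≤ (rad s.2 : ℝ) ∧ M ≤ (rad (s.1 + s.2) : ℝ)) ∧
      ((rad s.1 : ℝ) ≤ R ∧ (rad s.2 : ℝ) ≤ R ∧ (rad (s.1 + s.2) : ℝ) ≤ R) := by
    intro s hs hns
    rw [hbad] at hns
    simp only [not_or, not_le] at hns
    exact (hS s hs).2.2.2 hns.1 hns.2.1 hns.2.2
  have h1 : ((S.filter bad).card : ℝ) ≤ Cb * (X : ℝ) ^ ε * A := by
    refine hb X A _ hX hA fun s hs => ?_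
    rw [mem_filter] at hs
    obtain ⟨⟨h1, h2, -⟩, h3, -⟩ := hS s hs.1
    have h4 := hs.2
    rw [hbad] at h4
    exact ⟨h1, h2, h3, h4⟩
  have h2 : ((S.filter (fun s => ¬ bad s ∧ flat s)).card : ℝ) ≤
      Cf * (X : ℝ) ^ ε * Q ^ 3 * (1 + R ^ 2 / G) := by
    refine hf X R Q G _ hX hR1 hQ hG fun s hs => ?_
    rw [mem_filter] at hs
    obtain ⟨hs1, hs2, hs3⟩ := hs
    obtain ⟨hc, h3, hH, -⟩ := hS s hs1
    obtain ⟨-, hr1, hr2, hr3⟩ := hgood s hs1 hs2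
    rw [hflat] at hs3
    obtain ⟨q1, q2, q3⟩ := hs3
    refine ⟨hc, h3, (d2_pc_le _ _).trans hr1, (d2_pc_le _ _).trans hr2, q1, q2, q3, ?_⟩
    have e1 : ((s.1 + s.2 : ℕ) : ℝ) =
        (rest {1} (s.1 + s.2) : ℝ) * (pc 1 (s.1 + s.2) : ℝ) := by
      have := Pool.Agent.Helper21.EN.rest_mul_one (show 0 < s.1 + s.2 by
        have := hc.1; omega) 1
      rw [pow_one] at this
      exact_mod_cast this
    have e2 : (pc 1 (s.1 + s.2) : ℝ) ≤ R := (d2_pc_le _ _).trans hr3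
    have e3 : (0 : ℝ) ≤ (rest {1} (s.1 + s.2) : ℝ) := Nat.cast_nonneg _
    have e4 : G * R ≤ (rest {1} (s.1 + s.2) : ℝ) * R := by
      calc G * R ≤ H := hGR
        _ ≤ ((s.1 + s.2 : ℕ) : ℝ) := hH
        _ = _ := e1
        _ ≤ _ := mul_le_mul_of_nonneg_left e2 e3
    exact le_of_mul_le_mul_right e4 (by linarith)
  -- the classes
  obtain ⟨idx, hidx⟩ : ∃ idx : Finset (Fin 6 × ℕ × ℕ × ℕ),
      idx = Finset.univ ×ˢ (Icc 2 K ×ˢ (Icc 1 K ×ˢ Icc 1 K)) := ⟨_, rfl⟩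
  obtain ⟨cond, hcond⟩ : ∃ cond : Fin 6 × ℕ × ℕ × ℕ → ℕ × ℕ → Prop, cond = fun z s =>
      T ≤ (pc z.2.1 (perm6 z.1 s).1 : ℝ) ∧
      min (pc z.2.1 (perm6 z.1 s).1 : ℝ) (M / Q) ≤ (pc z.2.2.1 (perm6 z.1 s).2.1 : ℝ) ∧
      min (pc z.2.1 (perm6 z.1 s).1 : ℝ) (M / Q) ≤ (pc z.2.2.2 (perm6 z.1 s).2.2 : ℝ) := ⟨_, rfl⟩
  obtain ⟨S3, hS3⟩ : ∃ S3, S3 = S.filter (fun s => ¬ bad s ∧ ¬ flat s) := ⟨_, rfl⟩
  have hcl : ∀ z ∈ idx, ((S3.filter (cond z)).card : ℝ) ≤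
      (Cm + Cp) * ((X : ℝ) ^ ε * (R * Real.sqrt B1 + B2)) := by
    rintro ⟨σ, k, j, i⟩ hz
    rw [hidx] at hz
    simp only [mem_product, mem_univ, true_and, mem_Icc] at hz
    obtain ⟨⟨hk, hkK⟩, ⟨hj, hjK⟩, hi, hiK⟩ := hz
    -- data of the members of the class
    have hmem : ∀ s ∈ S3.filter (cond (σ, k, j, i)),
        Tri X (perm6 σ s).1 (perm6 σ s).2.1 (perm6 σ s).2.2 ∧
        ((rad (perm6 σ s).1 : ℝ) ≤ R ∧ (rad (perm6 σ s).2.1 : ℝ) ≤ R ∧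
          (rad (perm6 σ s).2.2 : ℝ) ≤ R) ∧
        T ≤ (pc k (perm6 σ s).1 : ℝ) ∧
        min (pc k (perm6 σ s).1 : ℝ) (M / Q) ≤ (pc j (perm6 σ s).2.1 : ℝ) ∧
        min (pc k (perm6 σ s).1 : ℝ) (M / Q) ≤ (pc i (perm6 σ s).2.2 : ℝ) := by
      intro s hs
      rw [mem_filter, hS3, mem_filter, hcond] at hs
      obtain ⟨⟨hs1, hs2, -⟩, hs3⟩ := hs
      obtain ⟨hc, h3, -, -⟩ := hS s hs1
      obtain ⟨-, hr1, hr2, hr3⟩ := hgood s hs1 hs2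
      exact ⟨tri_perm6 X s hc h3 σ,
        d2_perm (fun n => (rad n : ℝ) ≤ R) s hr1 hr2 hr3 σ, hs3⟩
    have hsplit : (S3.filter (cond (σ, k, j, i))).card ≤
        ((S3.filter (cond (σ, k, j, i))).filter
          (fun s => (pc k (perm6 σ s).1 : ℝ) ≤ W)).card +
        ((S3.filter (cond (σ, k, j, i))).filter
          (fun s => ¬ (pc k (perm6 σ s).1 : ℝ) ≤ W)).card :=
      (Finset.card_filter_add_card_filter_not _).ge
    have hm1 : ((((S3.filter (cond (σ, k, j, i))).filter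
        (fun s => (pc k (perm6 σ s).1 : ℝ) ≤ W)).card : ℝ)) ≤
        Cm * (X : ℝ) ^ ε * (R * Real.sqrt B1) := by
      refine d2_sqrt (Nat.cast_nonneg _) hCm hXe hB10 hR0 ?_
      rw [← Finset.card_image_of_injective _ (perm6_inj σ), hB1]
      refine hm j k X T W R _ hj hjK hk hX hT hTW hWR ?_
      intro t ht
      rw [mem_image] at ht
      obtain ⟨s, hs, rfl⟩ := ht
      rw [mem_filter] at hs
      obtain ⟨h3, ⟨h4, h5, h6⟩, h7, h8, h9⟩ := hmem s hs.1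
      refine ⟨h3, h5, h6, h7, hs.2, ?_⟩
      refine le_trans ?_ h8
      have hx0 : (0 : ℝ) ≤ (pc k (perm6 σ s).1 : ℝ) := Nat.cast_nonneg _
      rw [le_min_iff, Real.sqrt_le_left hx0, Real.sqrt_le_left hMQ]
      constructor
      · nlinarith
      · calc T * (pc k (perm6 σ s).1 : ℝ) ≤ T * W := mul_le_mul_of_nonneg_left hs.2 hT0.le
          _ ≤ _ := hTWM
    have hp1 : ((((S3.filter (cond (σ, k, j, i))).filter
        (fun s => ¬ (pc k (perm6 σ s).1 : ℝ) ≤ W)).card : ℝ)) ≤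
        Cp * (X : ℝ) ^ ε * B2 := by
      rw [← Finset.card_image_of_injective _ (perm6_inj σ), hB2, ← mul_assoc]
      refine hp i j k X R (R / W) _ hi hj hk hX hR1 hRW ?_
      intro t ht
      rw [mem_image] at ht
      obtain ⟨s, hs, rfl⟩ := ht
      rw [mem_filter, not_le] at hs
      obtain ⟨h3, ⟨h4, h5, h6⟩, h7, h8, h9⟩ := hmem s hs.1
      have hmin : W ≤ min (pc k (perm6 σ s).1 : ℝ) (M / Q) := le_min hs.2.le hWM
      exact ⟨h3, (d2_pc_le _ _).trans h4, (d2_pc_le _ _).trans h5, (d2_pc_le _ _).trans h6,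
        d2_rest_le hW0 h4 hs.2.le, d2_rest_le hW0 h5 (hmin.trans h8),
        d2_rest_le hW0 h6 (hmin.trans h9)⟩
    have hsplit' : ((S3.filter (cond (σ, k, j, i))).card : ℝ) ≤
        ((S3.filter (cond (σ, k, j, i))).filter
          (fun s => (pc k (perm6 σ s).1 : ℝ) ≤ W)).card +
        ((S3.filter (cond (σ, k, j, i))).filter
          (fun s => ¬ (pc k (perm6 σ s).1 : ℝ) ≤ W)).card := by exact_mod_cast hsplit
    have hx1 : 0 ≤ (X : ℝ) ^ ε * (R * Real.sqrt B1) := by positivity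
    have hx2 : 0 ≤ (X : ℝ) ^ ε * B2 := by positivity
    have hx3 : 0 ≤ Cm * ((X : ℝ) ^ ε * B2) := mul_nonneg (by linarith) hx2
    have hx4 : 0 ≤ Cp * ((X : ℝ) ^ ε * (R * Real.sqrt B1)) := mul_nonneg (by linarith) hx1
    linarith
  have hcover : S3 ⊆ idx.biUnion (fun z => S3.filter (cond z)) := by
    intro s hs
    have hs' := hs
    rw [hS3, mem_filter] at hs'
    obtain ⟨hs1, hs2, hs3⟩ := hs'
    obtain ⟨hc, h3, -, -⟩ := hS s hs1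
    obtain ⟨hMs, -⟩ := hgood s hs1 hs2
    have hfl : Q < (rad (rest {1} s.1) : ℝ) ∨ Q < (rad (rest {1} s.2) : ℝ) ∨
        Q < (rad (rest {1} (s.1 + s.2)) : ℝ) := by
      by_contra hcon
      push Not at hcon
      apply hs3
      rw [hflat]
      exact hcon
    obtain ⟨σ, k, j, i, hk, hkK, hj, hjK, hi, hiK, g1, g2, g3⟩ :=
      select_atoms K X T Q M s hc h3 hK hT hM hTK hMs hfl
    rw [mem_biUnion]
    refine ⟨(σ, k, j, i), ?_, ?_⟩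
    · rw [hidx]
      simp only [mem_product, mem_univ, true_and, mem_Icc]
      exact ⟨⟨hk, hkK⟩, ⟨hj, hjK⟩, hi, hiK⟩
    · rw [mem_filter, hcond]
      exact ⟨hs, g1, g2, g3⟩
  have hidxc : (idx.card : ℝ) ≤ 6 * (K : ℝ) ^ 3 := by
    have e1 : idx.card ≤ 6 * K ^ 3 := by
      rw [hidx, card_product, card_product, card_product, Nat.card_Icc, Nat.card_Icc,
        Finset.card_univ, Fintype.card_fin, Nat.add_sub_cancel]
      have : K + 1 - 2 ≤ K := by omega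
      calc 6 * ((K + 1 - 2) * (K * K)) ≤ 6 * (K * (K * K)) := by gcongr
        _ = 6 * K ^ 3 := by ring
    exact_mod_cast e1
  have hZ : 0 ≤ (X : ℝ) ^ ε * (R * Real.sqrt B1 + B2) := by positivity
  have hCC : 0 ≤ Cm + Cp := by linarith
  have h3 : (S3.card : ℝ) ≤
      6 * (K : ℝ) ^ 3 * ((Cm + Cp) * ((X : ℝ) ^ ε * (R * Real.sqrt B1 + B2))) := by
    have e1 : S3.card ≤ ∑ z ∈ idx, (S3.filter (cond z)).card :=
      (Finset.card_le_card hcover).trans Finset.card_biUnion_le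
    have e2 : (S3.card : ℝ) ≤ ∑ z ∈ idx, ((S3.filter (cond z)).card : ℝ) := by
      exact_mod_cast e1
    refine e2.trans ((Finset.sum_le_sum hcl).trans ?_)
    rw [Finset.sum_const, nsmul_eq_mul]
    exact mul_le_mul_of_nonneg_right hidxc (mul_nonneg hCC hZ)
  have h4 : (S.card : ℝ) ≤ (S.filter bad).card +
      (S.filter (fun s => ¬ bad s ∧ flat s)).card + S3.card := by
    have e1 : S ⊆ (S.filter bad ∪ S.filter (fun s => ¬ bad s ∧ flat s)) ∪ S3 := by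
      intro s hs
      rw [mem_union, mem_union, mem_filter, mem_filter, hS3, mem_filter]
      by_cases c1 : bad s
      · exact Or.inl (Or.inl ⟨hs, c1⟩)
      · by_cases c2 : flat s
        · exact Or.inl (Or.inr ⟨hs, c1, c2⟩)
        · exact Or.inr ⟨hs, c1, c2⟩
    have e2 := (Finset.card_le_card e1).trans ((Finset.card_union_le _ _).trans
      (Nat.add_le_add_right (Finset.card_union_le _ _) _))
    exact_mod_cast e2
  rw [← hB1, ← hB2]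
  have hG0 : 0 < G := by linarith
  have hF0 : 0 ≤ Q ^ 3 * (1 + R ^ 2 / G) := by positivity
  have hA0 : 0 ≤ A := by linarith
  have hRB : 0 ≤ R * Real.sqrt B1 := by positivity
  have hXe0 : 0 ≤ (X : ℝ) ^ ε := by linarith
  have hKC : 0 ≤ 6 * (K : ℝ) ^ 3 * (Cm + Cp) := mul_nonneg hK3 hCC
  have t1 : Cb * (X : ℝ) ^ ε * A ≤ Cb * ((X : ℝ) ^ ε *
      (A + Q ^ 3 * (1 + R ^ 2 / G) + R * Real.sqrt B1 + B2)) := by
    rw [mul_assoc]
    refine mul_le_mul_of_nonneg_left (mul_le_mul_of_nonneg_left ?_ hXe0) (by linarith)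
    linarith
  have t2 : Cf * (X : ℝ) ^ ε * Q ^ 3 * (1 + R ^ 2 / G) ≤ Cf * ((X : ℝ) ^ ε *
      (A + Q ^ 3 * (1 + R ^ 2 / G) + R * Real.sqrt B1 + B2)) := by
    rw [mul_assoc, mul_assoc, ← mul_assoc (a := (X : ℝ) ^ ε), mul_assoc ((X : ℝ) ^ ε)]
    refine mul_le_mul_of_nonneg_left (mul_le_mul_of_nonneg_left ?_ hXe0) (by linarith)
    linarith
  have t3 : 6 * (K : ℝ) ^ 3 * ((Cm + Cp) * ((X : ℝ) ^ ε * (R * Real.sqrt B1 + B2))) ≤
      6 * (K : ℝ) ^ 3 * (Cm + Cp) * ((X : ℝ) ^ ε *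
      (A + Q ^ 3 * (1 + R ^ 2 / G) + R * Real.sqrt B1 + B2)) := by
    rw [← mul_assoc (a := 6 * (K : ℝ) ^ 3)]
    refine mul_le_mul_of_nonneg_left (mul_le_mul_of_nonneg_left ?_ hXe0) hKC
    linarith
  calc (S.card : ℝ) ≤ _ := h4
    _ ≤ Cb * (X : ℝ) ^ ε * A + Cf * (X : ℝ) ^ ε * Q ^ 3 * (1 + R ^ 2 / G) +
        6 * (K : ℝ) ^ 3 * ((Cm + Cp) * ((X : ℝ) ^ ε * (R * Real.sqrt B1 + B2))) := by
        rw [hS3] at h3
        rw [hS3]
        linarith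
    _ ≤ _ := by
        have := add_le_add (add_le_add t1 t2) t3
        refine this.trans (le_of_eq ?_)
        ring

end Pool.Agent.Helper93.AR
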