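import Pool.Agent.Helper93.AR.D2

set_option autoImplicit false

/-! # Project AR, piece D3: few triples of height between `Z^(1/3+ε0)` and `Z^lam` -/

namespace Pool.Agent.Helper93.AR

open Finset
open Pool.Agent.Helper21.EN (rad pc rest Tri)

private theorem d3_rad_mul {a b : ℕ} (hab : Nat.Coprime a b) : rad (a * b) = rad a * rad b := by
  unfold rad
  rw [Nat.Coprime.primeFactors_mul hab, Finset.prod_union (Nat.Coprime.disjoint_primeFactors hab)]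

private theorem d3_npow {z : ℝ} (hz : 0 < z) (a : ℝ) (n : ℕ) : (z ^ a) ^ n = z ^ (a * n) := by
  rw [← Real.rpow_natCast, ← Real.rpow_mul hz.le]

private theorem d3_mul {z : ℝ} (hz : 0 < z) (a b : ℝ) : z ^ a * z ^ b = z ^ (a + b) :=
  (Real.rpow_add hz a b).symm

private theorem d3_div {z : ℝ} (hz : 0 < z) (a b : ℝ) : z ^ a / z ^ b = z ^ (a - b) :=
  (Real.rpow_sub hz a b).symm

/-- The main term. -/
private theorem d3_terms {z κ τ d e : ℝ} (hz1 : 1 ≤ z) (hκ : κ = e / 30) (he : e ≤ 1 / 30)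
    (he0 : 0 < e) (hτ : τ ≤ κ / 4) (hτ0 : 0 < τ) (hd : d = τ / 16) :
    z ^ (2 / 3 - d) + (z ^ κ) ^ 3 * (1 + (z ^ (1 / 3 + d)) ^ 2 / z ^ (e - d)) +
      z ^ (1 / 3 + d) * Real.sqrt (z ^ (1 / 3 - 2 * κ) * z ^ (1 / 3 + d) +
        (z ^ (1 / 3 + d)) ^ 2 / Real.sqrt (z ^ τ)) +
      (z ^ (1 / 3 + d) / z ^ (1 / 3 - 2 * κ)) ^ 3 * (z ^ (1 / 3 + d)) ^ (3 / 2 : ℝ) ≤
      6 * z ^ (2 / 3 - d) := by
  have hz : 0 < z := by linarith
  have mono : ∀ a b : ℝ, a ≤ b → z ^ a ≤ z ^ b := fun a b h =>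
    Real.rpow_le_rpow_of_exponent_le hz1 h
  have t2 : (z ^ κ) ^ 3 * (1 + (z ^ (1 / 3 + d)) ^ 2 / z ^ (e - d)) ≤ 2 * z ^ (2 / 3 - d) := by
    rw [mul_add, mul_one, d3_npow hz, d3_npow hz, d3_div hz, d3_mul hz]
    have h1 : z ^ (κ * ((3 : ℕ) : ℝ)) ≤ z ^ (2 / 3 - d) := by
      apply mono
      push_cast
      linarith
    have h2 : z ^ (κ * ((3 : ℕ) : ℝ) + ((1 / 3 + d) * ((2 : ℕ) : ℝ) - (e - d))) ≤
        z ^ (2 / 3 - d) := by
      apply mono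
      push_cast
      linarith
    linarith
  have t3 : z ^ (1 / 3 + d) * Real.sqrt (z ^ (1 / 3 - 2 * κ) * z ^ (1 / 3 + d) +
        (z ^ (1 / 3 + d)) ^ 2 / Real.sqrt (z ^ τ)) ≤ 2 * z ^ (2 / 3 - d) := by
    have h0 : Real.sqrt (z ^ τ) = z ^ (τ / 2) := by
      rw [Real.sqrt_eq_rpow, ← Real.rpow_mul hz.le]
      congr 1
      ring
    rw [h0, d3_npow hz, d3_div hz, d3_mul hz]
    have h1 : z ^ (1 / 3 - 2 * κ + (1 / 3 + d)) +
        z ^ ((1 / 3 + d) * ((2 : ℕ) : ℝ) - τ / 2) ≤ (2 * z ^ (1 / 3 + d - τ / 4)) ^ 2 := by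
      have h2 : (2 * z ^ (1 / 3 + d - τ / 4)) ^ 2 =
          4 * z ^ ((1 / 3 + d) * ((2 : ℕ) : ℝ) - τ / 2) := by
        have h2' : (1 / 3 + d - τ / 4) * ((2 : ℕ) : ℝ) =
            (1 / 3 + d) * ((2 : ℕ) : ℝ) - τ / 2 := by
          push_cast
          ring
        rw [mul_pow, d3_npow hz, h2']
        congr 1
        norm_num
      have h3 : z ^ (1 / 3 - 2 * κ + (1 / 3 + d)) ≤
          z ^ ((1 / 3 + d) * ((2 : ℕ) : ℝ) - τ / 2) := by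
        apply mono
        push_cast
        linarith
      have h4 : 0 < z ^ ((1 / 3 + d) * ((2 : ℕ) : ℝ) - τ / 2) := Real.rpow_pos_of_pos hz _
      rw [h2]
      linarith
    have h5 : Real.sqrt (z ^ (1 / 3 - 2 * κ + (1 / 3 + d)) +
        z ^ ((1 / 3 + d) * ((2 : ℕ) : ℝ) - τ / 2)) ≤ 2 * z ^ (1 / 3 + d - τ / 4) := by
      apply Real.sqrt_le_iff.2
      refine ⟨?_, h1⟩
      have := Real.rpow_pos_of_pos hz (1 / 3 + d - τ / 4)
      linarith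
    have h6 : z ^ (1 / 3 + d) * (2 * z ^ (1 / 3 + d - τ / 4)) ≤ 2 * z ^ (2 / 3 - d) := by
      have h7 : z ^ (1 / 3 + d) * (2 * z ^ (1 / 3 + d - τ / 4)) =
          2 * z ^ (1 / 3 + d + (1 / 3 + d - τ / 4)) := by
        rw [← d3_mul hz (1 / 3 + d) (1 / 3 + d - τ / 4)]
        ring
      rw [h7]
      have h8 : z ^ (1 / 3 + d + (1 / 3 + d - τ / 4)) ≤ z ^ (2 / 3 - d) := by
        apply mono
        linarith
      linarith
    exact (mul_le_mul_of_nonneg_left h5 (Real.rpow_pos_of_pos hz _).le).trans h6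
  have t4 : (z ^ (1 / 3 + d) / z ^ (1 / 3 - 2 * κ)) ^ 3 * (z ^ (1 / 3 + d)) ^ (3 / 2 : ℝ) ≤
      z ^ (2 / 3 - d) := by
    rw [d3_div hz, d3_npow hz, ← Real.rpow_mul hz.le, d3_mul hz]
    apply mono
    push_cast
    linarith
  linarith

/-- PIECE AR-D3 (the whole file, 200 lines): choice of the parameters in `regime2_param`.
PROOF.  The statement for `(lam, ε0)` follows from the one for `(max lam 1, min ε0 (1/30))` (the
hypothesis on `S` gets weaker), so let `lam ≥ 1`, `ε0 ≤ 1/30`.  Put `κ = ε0/30`, `K = ⌈2 lam/κ⌉₊ ≥ 2`,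
`τ = κ/(2K)`, `d = τ/16` (so `d ≤ κ/64`), `X = ⌊Z^lam⌋₊`, and
`R = Z^(1/3+d)`, `M = Z^(1/3-2d)`, `A = Z^(2/3-d)`, `Q = Z^κ`, `G = Z^(ε0-d)`, `T = Z^τ`,
`W = Z^(1/3-2κ)`, `H = Z^(1/3+ε0)`.  Conditions: `T ≤ W ≤ R`; `W ≤ M/Q` as `2κ ≥ 2d + κ`;
`T W ≤ (M/Q)^2` as `τ + 1/3 - 2κ ≤ 2/3 - 4d - 2κ`; `T^K X^(1/(K+1)) ≤ Z^(κ/2) Z^(lam/(K+1)) ≤ Z^κ`;
`G R = H`.  For `s ∈ S`: `rad (ff s) = r1 r2 r3` (coprime factors), so `r1 r2 r3 ≤ Z`; if all three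
products of two are `> A`, then each `ri ≤ Z / A' ≤ Z^(1/3+d) = R` and `ri > A / R = M`.
`regime2_param` with `ε = d/(4 lam)` (so `X^ε ≤ Z^(d/4)`) gives `C Z^(d/4)` times
`Z^(2/3-d) + Z^(3κ) (1 + Z^(2/3+3d-ε0)) + Z^(1/3+d) √(Z^(2/3-2κ+d) + Z^(2/3+2d-τ/2)) +
Z^(3(d+2κ)) Z^(1/2+3d/2)`; exponents: `2/3 - d`; `3κ ≤ 2/3 - d`, `2/3 + 3κ + 3d - ε0 ≤ 2/3 - d`;
third: the root is at most `√2 Z^(1/3+d-τ/4)` (as `-2κ + d ≤ 2d - τ/2`), so `2/3 + 2d - τ/4 = 2/3 - 2d`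
(`τ = 16 d`); fourth: `1/2 + 6κ + 5d ≤ 2/3 - d`.  So `δ = d/2` works. -/
theorem regime2 (lam ε0 : ℝ) (hlam : 0 < lam) (h0 : 0 < ε0) : ∃ δ C : ℝ, 0 < δ ∧ 1 ≤ C ∧
    ∀ (Z : ℕ) (S : Finset (ℕ × ℕ)), 1 ≤ Z →
      (∀ s ∈ S, Cop s ∧ rad (ff s) ≤ Z ∧ (Z : ℝ) ^ (1 / 3 + ε0) ≤ ((s.1 + s.2 : ℕ) : ℝ) ∧
        ((s.1 + s.2 : ℕ) : ℝ) ≤ (Z : ℝ) ^ lam) →
      (S.card : ℝ) ≤ C * (Z : ℝ) ^ (2 / 3 - δ) := by
  obtain ⟨l, hl⟩ : ∃ l : ℝ, l = max lam 1 := ⟨_, rfl⟩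
  obtain ⟨e, he⟩ : ∃ e : ℝ, e = min ε0 (1 / 30) := ⟨_, rfl⟩
  have hl1 : 1 ≤ l := by rw [hl]; exact le_max_right _ _
  have hll : lam ≤ l := by rw [hl]; exact le_max_left _ _
  have he0 : 0 < e := by rw [he]; exact lt_min h0 (by norm_num)
  have he1 : e ≤ 1 / 30 := by rw [he]; exact min_le_right _ _
  have hee : e ≤ ε0 := by rw [he]; exact min_le_left _ _
  clear hl he
  obtain ⟨κ, hκ⟩ : ∃ κ : ℝ, κ = e / 30 := ⟨_, rfl⟩
  have hκ0 : 0 < κ := by rw [hκ]; linarith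
  have hκ1 : κ ≤ 1 / 900 := by rw [hκ]; linarith
  obtain ⟨K, hK⟩ : ∃ K : ℕ, K = ⌈2 * l / κ⌉₊ := ⟨_, rfl⟩
  have hKl : 2 * l / κ ≤ K := by rw [hK]; exact Nat.le_ceil _
  have hK2r : (2 : ℝ) ≤ K := by
    refine le_trans ?_ hKl
    rw [le_div_iff₀ hκ0]
    linarith
  have hK2 : 2 ≤ K := by exact_mod_cast hK2r
  clear hK
  have hK0 : (0 : ℝ) < K := by linarith
  obtain ⟨τ, hτ⟩ : ∃ τ : ℝ, τ = κ / (2 * K) := ⟨_, rfl⟩
  have hτ0 : 0 < τ := by rw [hτ]; positivity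
  have hτK : τ * K = κ / 2 := by
    rw [hτ]
    field_simp
  have hτ1 : τ ≤ κ / 4 := by
    have h1 : τ * 2 ≤ τ * K := mul_le_mul_of_nonneg_left hK2r hτ0.le
    linarith
  obtain ⟨d, hd⟩ : ∃ d : ℝ, d = τ / 16 := ⟨_, rfl⟩
  have hd0 : 0 < d := by rw [hd]; linarith
  obtain ⟨C, hC1, hC⟩ := regime2_param K (d / (4 * l)) (by positivity) hK2
  refine ⟨d / 2, 6 * C, by linarith, by linarith, ?_⟩
  intro Z S hZ hS
  have hz1 : (1 : ℝ) ≤ Z := by exact_mod_cast hZ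
  obtain ⟨z, hzZ⟩ : ∃ z : ℝ, z = (Z : ℝ) := ⟨_, rfl⟩
  rw [← hzZ] at hz1 ⊢
  have hz : 0 < z := by linarith
  have mono : ∀ a b : ℝ, a ≤ b → z ^ a ≤ z ^ b := fun a b h =>
    Real.rpow_le_rpow_of_exponent_le hz1 h
  have one_le : ∀ a : ℝ, 0 ≤ a → 1 ≤ z ^ a := fun a h => Real.one_le_rpow hz1 h
  have pos : ∀ a : ℝ, 0 < z ^ a := fun a => Real.rpow_pos_of_pos hz a
  have hX1 : 1 ≤ ⌊z ^ l⌋₊ := by
    apply Nat.le_floor
    rw [Nat.cast_one]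
    exact one_le l (by linarith)
  have hXl : ((⌊z ^ l⌋₊ : ℕ) : ℝ) ≤ z ^ l := Nat.floor_le (pos l).le
  have hX0 : (0 : ℝ) ≤ ((⌊z ^ l⌋₊ : ℕ) : ℝ) := Nat.cast_nonneg _
  have hmain := hC ⌊z ^ l⌋₊ (z ^ (1 / 3 + d)) (z ^ (1 / 3 - 2 * d)) (z ^ (2 / 3 - d)) (z ^ κ)
    (z ^ (e - d)) (z ^ τ) (z ^ (1 / 3 - 2 * κ)) (z ^ (1 / 3 + e)) S hX1
    (one_le _ (by linarith)) (one_le _ hκ0.le) (one_le _ (by linarith)) (one_le _ hτ0.le)
    (mono _ _ (by linarith)) (mono _ _ (by linarith)) (pos _).le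
    (by rw [d3_div hz]; exact mono _ _ (by linarith))
    (by
      rw [d3_div hz, d3_npow hz, d3_mul hz]
      apply mono
      push_cast
      linarith)
    (by
      rw [d3_npow hz, hτK]
      have hexp : (0 : ℝ) ≤ 1 / ((K : ℝ) + 1) := by positivity
      have h1 : ((⌊z ^ l⌋₊ : ℕ) : ℝ) ^ (1 / ((K : ℝ) + 1)) ≤ z ^ (κ / 2) := by
        refine (Real.rpow_le_rpow hX0 hXl hexp).trans ?_
        rw [← Real.rpow_mul hz.le]
        apply mono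
        rw [mul_one_div, div_le_iff₀ (by linarith)]
        rw [div_le_iff₀ hκ0] at hKl
        linarith
      calc z ^ (κ / 2) * ((⌊z ^ l⌋₊ : ℕ) : ℝ) ^ (1 / ((K : ℝ) + 1))
          ≤ z ^ (κ / 2) * z ^ (κ / 2) := mul_le_mul_of_nonneg_left h1 (pos _).le
        _ = z ^ κ := by rw [d3_mul hz]; congr 1; ring)
    (by
      rw [d3_mul hz]
      apply mono
      linarith)
    (by
      intro s hs
      obtain ⟨hc, hr, hH, hX⟩ := hS s hs
      rw [← hzZ] at hH hX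
      refine ⟨hc, ?_, ?_, ?_⟩
      · apply Nat.le_floor
        exact hX.trans (mono _ _ hll)
      · exact (mono _ _ (by linarith)).trans hH
      · intro h12 h13 h23
        obtain ⟨ha, hb, hab⟩ := hc
        have c13 : Nat.Coprime s.1 (s.1 + s.2) := by
          rw [Nat.coprime_self_add_right]; exact hab
        have c23 : Nat.Coprime s.2 (s.1 + s.2) := by
          rw [Nat.coprime_add_self_right]; exact hab.symm
        have hrad : rad (ff s) = rad s.1 * rad s.2 * rad (s.1 + s.2) := by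
          unfold ff
          rw [d3_rad_mul (Nat.Coprime.mul_left c13 c23), d3_rad_mul hab]
        rw [hrad] at hr
        have hr' : (rad s.1 : ℝ) * rad s.2 * rad (s.1 + s.2) ≤ z := by
          rw [hzZ]
          exact_mod_cast hr
        have p1 : (0 : ℝ) < rad s.1 := by
          exact_mod_cast Pool.Agent.Helper21.EN.rad_pos _
        have p2 : (0 : ℝ) < rad s.2 := by
          exact_mod_cast Pool.Agent.Helper21.EN.rad_pos _
        have p3 : (0 : ℝ) < rad (s.1 + s.2) := by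
          exact_mod_cast Pool.Agent.Helper21.EN.rad_pos _
        have hA : z ^ (2 / 3 - d) * z ^ (1 / 3 + d) = z := by
          rw [d3_mul hz]
          have : 2 / 3 - d + (1 / 3 + d) = (1 : ℝ) := by ring
          rw [this, Real.rpow_one]
        have hM : z ^ (1 / 3 - 2 * d) * z ^ (1 / 3 + d) = z ^ (2 / 3 - d) := by
          rw [d3_mul hz]
          congr 1
          ring
        have hAp := pos (2 / 3 - d)
        have hRp := pos (1 / 3 + d)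
        have key : ∀ x y : ℝ, 0 < y → z ^ (2 / 3 - d) < x → x * y ≤ z → y ≤ z ^ (1 / 3 + d) := by
          intro x y hy hx hxy
          by_contra hcon
          push Not at hcon
          have h1 : z ^ (2 / 3 - d) * z ^ (1 / 3 + d) < x * y :=
            mul_lt_mul'' hx hcon hAp.le hRp.le
          linarith
        have r3 : (rad (s.1 + s.2) : ℝ) ≤ z ^ (1 / 3 + d) := key _ _ p3 h12 hr'
        have r2 : (rad s.2 : ℝ) ≤ z ^ (1 / 3 + d) := key _ _ p2 h13 (by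
          have : (rad s.1 : ℝ) * rad (s.1 + s.2) * rad s.2 =
            rad s.1 * rad s.2 * rad (s.1 + s.2) := by ring
          linarith)
        have r1 : (rad s.1 : ℝ) ≤ z ^ (1 / 3 + d) := key _ _ p1 h23 (by
          have : (rad s.2 : ℝ) * rad (s.1 + s.2) * rad s.1 =
            rad s.1 * rad s.2 * rad (s.1 + s.2) := by ring
          linarith)
        have key2 : ∀ x y : ℝ, 0 < x → y ≤ z ^ (1 / 3 + d) → z ^ (2 / 3 - d) < x * y →
            z ^ (1 / 3 - 2 * d) ≤ x := by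
          intro x y hx hy hxy
          by_contra hcon
          push Not at hcon
          have h1 : x * y ≤ x * z ^ (1 / 3 + d) := mul_le_mul_of_nonneg_left hy hx.le
          have h2 : x * z ^ (1 / 3 + d) < z ^ (1 / 3 - 2 * d) * z ^ (1 / 3 + d) :=
            mul_lt_mul_of_pos_right hcon hRp
          linarith
        refine ⟨⟨key2 _ _ p1 r2 h12, key2 _ _ p2 r1 (by rwa [mul_comm]), key2 _ _ p3 r1
          (by rwa [mul_comm])⟩, r1, r2, r3⟩)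
  refine hmain.trans ?_
  have hterm := d3_terms hz1 hκ he1 he0 hτ1 hτ0 hd
  have hXe : ((⌊z ^ l⌋₊ : ℕ) : ℝ) ^ (d / (4 * l)) ≤ z ^ (d / 4) := by
    refine (Real.rpow_le_rpow hX0 hXl (by positivity)).trans ?_
    rw [← Real.rpow_mul hz.le]
    apply mono
    have : l * (d / (4 * l)) = d / 4 := by
      field_simp
    rw [this]
  have hCn : 0 ≤ C := by linarith
  calc C * ((⌊z ^ l⌋₊ : ℕ) : ℝ) ^ (d / (4 * l)) * (z ^ (2 / 3 - d) + (z ^ κ) ^ 3 *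
        (1 + (z ^ (1 / 3 + d)) ^ 2 / z ^ (e - d)) +
      z ^ (1 / 3 + d) * Real.sqrt (z ^ (1 / 3 - 2 * κ) * z ^ (1 / 3 + d) +
        (z ^ (1 / 3 + d)) ^ 2 / Real.sqrt (z ^ τ)) +
      (z ^ (1 / 3 + d) / z ^ (1 / 3 - 2 * κ)) ^ 3 * (z ^ (1 / 3 + d)) ^ (3 / 2 : ℝ))
      ≤ C * z ^ (d / 4) * (6 * z ^ (2 / 3 - d)) := by
        apply mul_le_mul (mul_le_mul_of_nonneg_left hXe hCn) hterm
        · have h1 : 0 ≤ Real.sqrt (z ^ (1 / 3 - 2 * κ) * z ^ (1 / 3 + d) +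
            (z ^ (1 / 3 + d)) ^ 2 / Real.sqrt (z ^ τ)) := Real.sqrt_nonneg _
          positivity
        · positivity
    _ = 6 * C * z ^ (d / 4 + (2 / 3 - d)) := by
        rw [← d3_mul hz]
        ring
    _ ≤ 6 * C * z ^ (2 / 3 - d / 2) := by
        apply mul_le_mul_of_nonneg_left _ (by linarith)
        apply mono
        linarith

end Pool.Agent.Helper93.AR
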