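import Pool.Agent.Helper21.EN.Stmts
import Pool.Agent.Helper21.EN.Dec

set_option autoImplicit false

/-!
# Project AR (MP_4ab349_nt): abc triples by radical, asymptotic formula. Definitions

THEOREM. There is `C0 > 0` such that for every `lam > 1/3` there are `δ > 0`, `C` with
`|#{(a,b) coprime : rad(ab(a+b)) ≤ Z, a+b ≤ Z^lam} - C0 Z^(2/3)| ≤ C Z^(2/3-δ)` for all `Z ≥ 1`.

`rad n` = radical, `pc i n` = product of the primes with exponent exactly `i` in `n`,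
`rest S n` = part of `n` made of the primes whose exponent is not in `S` (so `rest {1} n` is the
powerful part), `n = rest {i} n * pc i n ^ i` (`rest_mul_one`), `rad n = rad (rest {i} n) * pc i n`
(`rad_rest_mul_one`), all in `Helper21/EN/{Defs,Dec}.lean`.  `Tri X p q r` (same place): pairwise
coprime positive integers `≤ X`, one being the sum of the two others.
-/

namespace Pool.Agent.Helper93.AR

open Finset
open Pool.Agent.Helper21.EN (rad pc rest Tri)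

/-- `ab(a+b)`. -/
def ff (t : ℕ × ℕ) : ℕ := t.1 * t.2 * (t.1 + t.2)

/-- Coprime pairs of positive integers. -/
def Cop (t : ℕ × ℕ) : Prop := 0 < t.1 ∧ 0 < t.2 ∧ t.1.Coprime t.2

open scoped Classical in
/-- All pairs of positive integers with `ab(a+b) ≤ Y`, `a + b ≤ H`. -/
noncomputable def Reg (Y H : ℝ) : Finset (ℕ × ℕ) :=
  ((Icc 1 ⌊H⌋₊) ×ˢ (Icc 1 ⌊H⌋₊)).filter
    (fun t => (ff t : ℝ) ≤ Y ∧ ((t.1 + t.2 : ℕ) : ℝ) ≤ H)

open scoped Classical in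
/-- The coprime pairs with `rad(ab(a+b)) ≤ Z`, `a + b ≤ H`. -/
noncomputable def GG (Z : ℕ) (H : ℝ) : Finset (ℕ × ℕ) :=
  ((Icc 1 ⌊H⌋₊) ×ˢ (Icc 1 ⌊H⌋₊)).filter
    (fun t => t.1.Coprime t.2 ∧ rad (ff t) ≤ Z ∧ ((t.1 + t.2 : ℕ) : ℝ) ≤ H)

/-- The six orders of the three entries. -/
def perm6 (σ : Fin 6) (t : ℕ × ℕ) : ℕ × ℕ × ℕ :=
  match σ with
  | 0 => (t.1, t.2, t.1 + t.2)
  | 1 => (t.2, t.1, t.1 + t.2)
  | 2 => (t.1, t.1 + t.2, t.2)
  | 3 => (t.2, t.1 + t.2, t.1)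
  | 4 => (t.1 + t.2, t.1, t.2)
  | 5 => (t.1 + t.2, t.2, t.1)

/-- Down-sets of pairs of positive integers. -/
def Down (R : Finset (ℕ × ℕ)) : Prop := ∀ s ∈ R, 0 < s.1 ∧ 0 < s.2 ∧
  ∀ t : ℕ × ℕ, 0 < t.1 → 0 < t.2 → t.1 ≤ s.1 → t.2 ≤ s.2 → t ∈ R

/-- The local condition at the primes of `q`. -/
def Loc (q : ℕ) (s : ℕ × ℕ) : Prop :=
  Nat.Coprime (Nat.gcd s.1 s.2) q ∧ q ∣ ff s ∧ ∀ p ∈ q.primeFactors, ¬ (p * q ∣ ff s)

open scoped Classical in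
/-- Density of the pairs with local condition at `q` and `e^2 ∣ ab(a+b)`. -/
noncomputable def rho (q e : ℕ) : ℝ :=
  (((Icc 1 (q ^ 2 * e ^ 2) ×ˢ Icc 1 (q ^ 2 * e ^ 2)).filter
    (fun s => Loc q s ∧ e ^ 2 ∣ ff s)).card : ℝ) / ((q ^ 2 * e ^ 2 : ℕ) : ℝ) ^ 2

/-- Truncated density of the coprime pairs whose product has powerful part `q`. -/
noncomputable def sig (q E : ℕ) : ℝ :=
  ∑ e ∈ (Icc 1 E).filter (fun e => e.Coprime q), (ArithmeticFunction.moebius e : ℝ) * rho q e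

/-- Truncated mean of `(ab(a+b)/rad)^(2/3)`. -/
noncomputable def cD (D : ℕ) : ℝ :=
  ∑ q ∈ (Icc 1 D).filter (fun q => rest {1} q = q),
    sig q (D ^ 6) * ((q : ℝ) / (rad q : ℝ)) ^ (2 / 3 : ℝ)

/-- The area of `xy(x+y) ≤ 1`. -/
noncomputable def A0 : ℝ :=
  (MeasureTheory.volume
    {p : ℝ × ℝ | 0 < p.1 ∧ 0 < p.2 ∧ p.1 * p.2 * (p.1 + p.2) ≤ 1}).toReal

end Pool.Agent.Helper93.AR
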