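import Pool.Agent.Helper93.AR.A2
import Pool.Agent.Helper21.EN.DIR

set_option autoImplicit false

/-! # Project AR, piece E1: coprime pairs in the region `ab(a+b) ≤ Y` on a lattice -/

namespace Pool.Agent.Helper93.AR

open Finset
open Pool.Agent.Helper21.EN (rad pc rest Tri)

private theorem e1_fiber {q k : ℕ} (hq : 0 < q) {Y : ℝ} (hY : 1 ≤ Y) (F : Finset (ℕ × ℕ))
    (hF : ∀ s ∈ F, Cop s ∧ (ff s : ℝ) ≤ Y ∧ s.1 ≤ s.2 ∧ 2 ^ k ≤ s.2 ∧ s.2 < 2 ^ (k + 1))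
    (hd : ∀ s ∈ F, ∀ t ∈ F, (q : ℤ) ∣ (s.1 : ℤ) * t.2 - (t.1 : ℤ) * s.2) :
    (F.card : ℝ) ≤ 4 * (1 + Y ^ (2 / 3 : ℝ) / q) := by
  have hq' : (0 : ℝ) < q := by exact_mod_cast hq
  have hY0 : (0 : ℝ) < Y := by linarith
  obtain ⟨x, hx⟩ : ∃ x : ℝ, x = 2 ^ k := ⟨_, rfl⟩
  have hx0 : 0 < x := by rw [hx]; positivity
  obtain ⟨z, hz⟩ : ∃ z : ℝ, z = Y ^ (1 / 3 : ℝ) := ⟨_, rfl⟩
  have hz0 : 0 < z := by rw [hz]; positivity
  have hz2 : Y ^ (2 / 3 : ℝ) = z ^ 2 := by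
    rw [hz, ← Real.rpow_natCast, ← Real.rpow_mul hY0.le]
    norm_num
  have hz3 : Y = z ^ 3 := by
    rw [hz, ← Real.rpow_natCast, ← Real.rpow_mul hY0.le]
    norm_num
  have hG : (0 : ℝ) < (q : ℝ) / (4 * (x * x)) := by positivity
  have hgap : ∀ s ∈ F, ∀ s' ∈ F, s ≠ s' →
      (q : ℝ) / (4 * (x * x)) ≤ |(s.1 : ℝ) / s.2 - (s'.1 : ℝ) / s'.2| := by
    intro s hs s' hs' hne
    obtain ⟨⟨-, h2, h5⟩, -, -, h7, h8⟩ := hF s hs
    obtain ⟨⟨-, h2', h5'⟩, -, -, h7', h8'⟩ := hF s' hs'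
    have hn : (s.1 : ℤ) * s'.2 - (s'.1 : ℤ) * s.2 ≠ 0 := by
      intro h
      apply Pool.Agent.Helper21.EN.dir_ne h2 h2' h5 h5' hne
      have : (s.1 : ℤ) * s'.2 = (s'.1 : ℤ) * s.2 := by linarith
      exact_mod_cast this
    have hle : (q : ℤ) ≤ |(s.1 : ℤ) * s'.2 - (s'.1 : ℤ) * s.2| :=
      Int.le_of_dvd (abs_pos.2 hn) ((dvd_abs _ _).2 (hd s hs s' hs'))
    have hle' : (q : ℝ) ≤ |(s.1 : ℝ) * s'.2 - (s'.1 : ℝ) * s.2| := by exact_mod_cast hle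
    have p2 : (0 : ℝ) < s.2 := by exact_mod_cast h2
    have p2' : (0 : ℝ) < s'.2 := by exact_mod_cast h2'
    have b2 : (s.2 : ℝ) ≤ 2 * x := by
      have : s.2 ≤ 2 * 2 ^ k := by rw [pow_succ] at h8; omega
      rw [hx]
      exact_mod_cast this
    have b2' : (s'.2 : ℝ) ≤ 2 * x := by
      have : s'.2 ≤ 2 * 2 ^ k := by rw [pow_succ] at h8'; omega
      rw [hx]
      exact_mod_cast this
    have e : (s.1 : ℝ) / s.2 - (s'.1 : ℝ) / s'.2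
        = ((s.1 : ℝ) * s'.2 - (s'.1 : ℝ) * s.2) / (s.2 * s'.2) := by
      field_simp
    rw [e, abs_div, abs_of_pos (mul_pos p2 p2')]
    have hb : (s.2 : ℝ) * s'.2 ≤ 4 * (x * x) := by
      have := mul_le_mul b2 b2' p2'.le (by positivity)
      nlinarith
    exact div_le_div₀ (abs_nonneg _) hle' (mul_pos p2 p2') hb
  have hx2 : ∀ s ∈ F, x ≤ (s.2 : ℝ) := by
    intro s hs
    obtain ⟨-, -, -, h7, -⟩ := hF s hs
    rw [hx]
    exact_mod_cast h7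
  rcases le_total x z with hxz | hxz
  · have := Pool.Agent.Helper94.Abc.gap_card F (fun s => (s.1 : ℝ) / s.2) (u := 0) (v := 1)
      hG (by norm_num) ?_ hgap
    · refine this.trans ?_
      have e : ((1 : ℝ) - 0) / ((q : ℝ) / (4 * (x * x))) = 4 * (x ^ 2 / q) := by
        field_simp
        ring
      rw [e, hz2]
      have : x ^ 2 / q ≤ z ^ 2 / q := by gcongr
      linarith
    · intro s hs
      obtain ⟨⟨h1, h2, h5⟩, -, h6, -, -⟩ := hF s hs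
      refine ⟨by positivity, ?_⟩
      rw [div_le_one (by exact_mod_cast h2)]
      exact_mod_cast h6
  · have := Pool.Agent.Helper94.Abc.gap_card F (fun s => (s.1 : ℝ) / s.2) (u := 0)
      (v := Y / x ^ 3) hG (by positivity) ?_ hgap
    · refine this.trans ?_
      have e : (Y / x ^ 3 - 0) / ((q : ℝ) / (4 * (x * x))) = 4 * (Y / x / q) := by
        field_simp
        ring
      rw [e, hz2]
      have h1 : Y / x ≤ z ^ 2 := by
        rw [div_le_iff₀ hx0, hz3]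
        nlinarith [mul_le_mul_of_nonneg_left hxz (sq_nonneg z)]
      have : Y / x / q ≤ z ^ 2 / q := by gcongr
      linarith
    · intro s hs
      obtain ⟨⟨h1, h2, h5⟩, h3, h6, -, -⟩ := hF s hs
      refine ⟨by positivity, ?_⟩
      have p1 : (0 : ℝ) < s.1 := by exact_mod_cast h1
      have p2 : (0 : ℝ) < s.2 := by exact_mod_cast h2
      have h4 : (s.1 : ℝ) * s.2 * s.2 ≤ Y := by
        refine le_trans ?_ h3
        unfold ff
        push_cast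
        have : (0 : ℝ) ≤ s.1 * s.2 * s.1 := by positivity
        nlinarith
      have h7 : x ^ 3 ≤ (s.2 : ℝ) ^ 3 := by
        have := hx2 s hs
        gcongr
      rw [div_le_div_iff₀ p2 (by positivity)]
      have h8 : (s.1 : ℝ) * x ^ 3 ≤ s.1 * (s.2 : ℝ) ^ 3 := by gcongr
      have h9 : (s.1 : ℝ) * (s.2 : ℝ) ^ 3 = (s.1 : ℝ) * s.2 * s.2 * s.2 := by ring
      rw [h9] at h8
      exact h8.trans (mul_le_mul_of_nonneg_right h4 p2.le)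

private theorem e1_log {H : ℝ} (hH : 1 ≤ H) :
    ((Nat.log 2 ⌊H⌋₊ + 1 : ℕ) : ℝ) ≤ 2 * (1 + Real.log H) := by
  have hQf : ⌊H⌋₊ ≠ 0 := by
    have : 1 ≤ ⌊H⌋₊ := Nat.le_floor (by simpa using hH)
    omega
  have h1 : 2 ^ (Nat.log 2 ⌊H⌋₊) ≤ ⌊H⌋₊ := Nat.pow_log_le_self 2 hQf
  have h2 : ((2 : ℝ)) ^ (Nat.log 2 ⌊H⌋₊) ≤ H := by
    have : ((2 ^ (Nat.log 2 ⌊H⌋₊) : ℕ) : ℝ) ≤ H :=
      le_trans (by exact_mod_cast h1) (Nat.floor_le (by linarith))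
    simpa using this
  have h3 := Real.log_le_log (by positivity) h2
  rw [Real.log_pow] at h3
  have h4 := Real.log_two_gt_d9
  have h5 : (0 : ℝ) ≤ (Nat.log 2 ⌊H⌋₊ : ℝ) := by positivity
  push_cast
  nlinarith

private theorem e1_half {q : ℕ} (hq : 0 < q) {Y H : ℝ} (hY : 1 ≤ Y) (hH : 1 ≤ H)
    (S : Finset (ℕ × ℕ))
    (hS : ∀ s ∈ S, Cop s ∧ (ff s : ℝ) ≤ Y ∧ ((s.1 + s.2 : ℕ) : ℝ) ≤ H ∧ s.1 ≤ s.2)
    (hd : ∀ s ∈ S, ∀ t ∈ S, (q : ℤ) ∣ (s.1 : ℤ) * t.2 - (t.1 : ℤ) * s.2) :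
    (S.card : ℝ) ≤ 8 * (1 + Real.log H) * (1 + Y ^ (2 / 3 : ℝ) / q) := by
  classical
  have h1 : S.card = ∑ k ∈ Finset.range (Nat.log 2 ⌊H⌋₊ + 1),
      (S.filter (fun s => Nat.log 2 s.2 = k)).card := by
    apply Finset.card_eq_sum_card_fiberwise
    intro s hs
    obtain ⟨-, -, h3, -⟩ := hS s hs
    have h4 : s.2 ≤ ⌊H⌋₊ := by
      apply Nat.le_floor
      refine le_trans ?_ h3
      push_cast
      have : (0 : ℝ) ≤ s.1 := by positivity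
      linarith
    simp only [Finset.coe_range, Set.mem_Iio]
    exact Nat.lt_succ_of_le (Nat.log_mono_right h4)
  have h2 : (S.card : ℝ) ≤ ∑ k ∈ Finset.range (Nat.log 2 ⌊H⌋₊ + 1),
      4 * (1 + Y ^ (2 / 3 : ℝ) / q) := by
    rw [h1]
    push_cast
    refine Finset.sum_le_sum fun k _ => ?_
    refine e1_fiber (k := k) hq hY _ ?_ ?_
    · intro s hs
      rw [Finset.mem_filter] at hs
      obtain ⟨g1, g2, g3, g4⟩ := hS s hs.1
      refine ⟨g1, g2, g4, ?_, ?_⟩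
      · rw [← hs.2]
        exact Nat.pow_log_le_self 2 g1.2.1.ne'
      · rw [← hs.2]
        exact Nat.lt_pow_succ_log_self (by norm_num) _
    · intro s hs t ht
      exact hd s (Finset.mem_filter.1 hs).1 t (Finset.mem_filter.1 ht).1
  refine h2.trans ?_
  rw [Finset.sum_const, Finset.card_range, nsmul_eq_mul]
  have h3 := e1_log hH
  have h4 : (0 : ℝ) ≤ 4 * (1 + Y ^ (2 / 3 : ℝ) / q) := by positivity
  calc ((Nat.log 2 ⌊H⌋₊ + 1 : ℕ) : ℝ) * (4 * (1 + Y ^ (2 / 3 : ℝ) / q))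
      ≤ 2 * (1 + Real.log H) * (4 * (1 + Y ^ (2 / 3 : ℝ) / q)) :=
        mul_le_mul_of_nonneg_right h3 h4
    _ = 8 * (1 + Real.log H) * (1 + Y ^ (2 / 3 : ℝ) / q) := by ring

/-- PIECE AR-E1 (the whole file, 150 lines).
PROOF.  By symmetry (swap; the determinant changes its sign) count the pairs with `a ≤ b` and double.
Split them by `k = Nat.log 2 b`, `k ≤ log2 H`, i.e. at most `1 + log H / log 2 ≤ 2 (1 + log H)` values.
In one class `2^k ≤ b < 2^(k+1)`, `a ≤ b`, and `a b^2 ≤ ab(a+b) ≤ Y`, so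
`a ≤ min (2^(k+1)) (Y/4^k)` and `a/b ∈ (0, v]`, `v = min (2^(k+1)) (Y/4^k) / 2^k`.  Two different pairs of
a class have `a b' - a' b ≠ 0` (coprime: `EN.dir_ne`), divisible by `q`, so
`|a/b - a'/b'| ≥ q/(b b') ≥ q/4^(k+1)`; `Pool.Agent.Helper94.Abc.gap_card`: at most
`1 + 4^(k+1) v / q = 1 + 4 · 2^k min (2^(k+1)) (Y/4^k) / q` pairs, and
`2^k min (2^(k+1)) (Y/4^k) = min (2 · 4^k) (Y/2^k) ≤ 2 Y^(2/3)` (if `4^k ≤ Y^(2/3)` the first, otherwise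
`2^k ≥ Y^(1/3)` and the second).  Total `≤ 2 · 2 (1 + log H) (1 + 8 Y^(2/3)/q)`. -/
theorem region (q : ℕ) (Y H : ℝ) (S : Finset (ℕ × ℕ)) (hq : 0 < q) (hY : 1 ≤ Y) (hH : 1 ≤ H)
    (hS : ∀ s ∈ S, Cop s ∧ (ff s : ℝ) ≤ Y ∧ ((s.1 + s.2 : ℕ) : ℝ) ≤ H)
    (hd : ∀ s ∈ S, ∀ t ∈ S, (q : ℤ) ∣ (s.1 : ℤ) * t.2 - (t.1 : ℤ) * s.2) :
    (S.card : ℝ) ≤ 100 * (1 + Real.log H) * (1 + Y ^ (2 / 3 : ℝ) / q) := by
  classical
  have hlog : 0 ≤ Real.log H := Real.log_nonneg hH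
  have hq' : (0 : ℝ) < q := by exact_mod_cast hq
  have hY0 : (0 : ℝ) < Y := by linarith
  have h1 := e1_half hq hY hH (S.filter (fun s => s.1 ≤ s.2)) (by
    intro s hs
    rw [Finset.mem_filter] at hs
    obtain ⟨g1, g2, g3⟩ := hS s hs.1
    exact ⟨g1, g2, g3, hs.2⟩) (fun s hs t ht =>
      hd s (Finset.mem_filter.1 hs).1 t (Finset.mem_filter.1 ht).1)
  have h2 := e1_half hq hY hH ((S.filter (fun s => ¬ s.1 ≤ s.2)).image Prod.swap) (by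
    intro s hs
    rw [Finset.mem_image] at hs
    obtain ⟨t, ht, rfl⟩ := hs
    rw [Finset.mem_filter] at ht
    obtain ⟨⟨k1, k2, k3⟩, g2, g3⟩ := hS t ht.1
    refine ⟨⟨k2, k1, k3.symm⟩, ?_, ?_, ?_⟩
    · have : ff t.swap = ff t := by
        unfold ff
        simp only [Prod.fst_swap, Prod.snd_swap]
        ring
      rw [this]
      exact g2
    · simp only [Prod.fst_swap, Prod.snd_swap]
      rw [add_comm]
      exact g3
    · simp only [Prod.fst_swap, Prod.snd_swap]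
      omega) (by
    intro s hs t ht
    rw [Finset.mem_image] at hs ht
    obtain ⟨s, hs, rfl⟩ := hs
    obtain ⟨t, ht, rfl⟩ := ht
    have h3 := hd s (Finset.mem_filter.1 hs).1 t (Finset.mem_filter.1 ht).1
    simp only [Prod.fst_swap, Prod.snd_swap]
    have h4 : (s.2 : ℤ) * t.1 - (t.2 : ℤ) * s.1 = -((s.1 : ℤ) * t.2 - (t.1 : ℤ) * s.2) := by ring
    rw [h4]
    exact (dvd_neg).2 h3)
  rw [Finset.card_image_of_injective _ Prod.swap_injective] at h2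
  have h3 := Finset.card_filter_add_card_filter_not (s := S) (fun s => s.1 ≤ s.2)
  have h4 : (S.card : ℝ) = ((S.filter (fun s => s.1 ≤ s.2)).card : ℝ) +
      ((S.filter (fun s => ¬ s.1 ≤ s.2)).card : ℝ) := by
    rw [← h3]
    push_cast
    ring
  rw [h4]
  have h5 : (0 : ℝ) ≤ (1 + Real.log H) * (1 + Y ^ (2 / 3 : ℝ) / q) := by positivity
  nlinarith

/-- PROOF.  `u`, `v` divide both products; `w` divides `s.1 (t.1+t.2) - t.1 (s.1+s.2)`, the same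
number.  Pairwise coprime. -/
theorem det_dvd (u v w : ℕ) (huv : u.Coprime v) (huw : u.Coprime w) (hvw : v.Coprime w)
    (s t : ℕ × ℕ) (hs : u ∣ s.1 ∧ v ∣ s.2 ∧ w ∣ s.1 + s.2)
    (ht : u ∣ t.1 ∧ v ∣ t.2 ∧ w ∣ t.1 + t.2) :
    ((u * v * w : ℕ) : ℤ) ∣ (s.1 : ℤ) * t.2 - (t.1 : ℤ) * s.2 := by
  have h1 : ∀ m : ℕ, (m ∣ s.1 ∧ m ∣ t.1) ∨ (m ∣ s.2 ∧ m ∣ t.2) ∨
      (m ∣ s.1 + s.2 ∧ m ∣ t.1 + t.2) → (m : ℤ) ∣ (s.1 : ℤ) * t.2 - (t.1 : ℤ) * s.2 := by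
    intro m hm
    rcases hm with ⟨g1, g2⟩ | ⟨g1, g2⟩ | ⟨g1, g2⟩
    · have k1 : (m : ℤ) ∣ s.1 := by exact_mod_cast g1
      have k2 : (m : ℤ) ∣ t.1 := by exact_mod_cast g2
      exact dvd_sub (k1.mul_right _) (k2.mul_right _)
    · have k1 : (m : ℤ) ∣ s.2 := by exact_mod_cast g1
      have k2 : (m : ℤ) ∣ t.2 := by exact_mod_cast g2
      exact dvd_sub (k2.mul_left _) (k1.mul_left _)
    · have k1 : (m : ℤ) ∣ (s.1 : ℤ) + s.2 := by exact_mod_cast g1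
      have k2 : (m : ℤ) ∣ (t.1 : ℤ) + t.2 := by exact_mod_cast g2
      have k3 : (s.1 : ℤ) * t.2 - (t.1 : ℤ) * s.2 =
          s.1 * (t.1 + t.2) - t.1 * (s.1 + s.2) := by ring
      rw [k3]
      exact dvd_sub (k2.mul_left _) (k1.mul_left _)
  have hu := h1 u (Or.inl ⟨hs.1, ht.1⟩)
  have hv := h1 v (Or.inr (Or.inl ⟨hs.2.1, ht.2.1⟩))
  have hw := h1 w (Or.inr (Or.inr ⟨hs.2.2, ht.2.2⟩))
  push_cast
  have c1 : IsCoprime (u : ℤ) v := Nat.isCoprime_iff_coprime.2 huv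
  have c2 : IsCoprime (u : ℤ) w := Nat.isCoprime_iff_coprime.2 huw
  have c3 : IsCoprime (v : ℤ) w := Nat.isCoprime_iff_coprime.2 hvw
  exact (IsCoprime.mul_left c2 c3).mul_dvd (c1.mul_dvd hu hv) hw

end Pool.Agent.Helper93.AR
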