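import Pool.Agent.Helper93.AR.E1

set_option autoImplicit false

/-! # Project AR, piece E2: pairs with a large square divisor -/

namespace Pool.Agent.Helper93.AR

open Finset
open Pool.Agent.Helper21.EN (rad pc rest Tri)

private lemma e2_uvw {m : ℕ} {s : ℕ × ℕ} (h : Cop s) (hd : m ^ 2 ∣ ff s) :
    Nat.gcd (m ^ 2) s.1 * Nat.gcd (m ^ 2) s.2 * Nat.gcd (m ^ 2) (s.1 + s.2) = m ^ 2 := by
  obtain ⟨-, -, h3⟩ := h
  have h4 : s.1.Coprime (s.1 + s.2) := by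
    rw [Nat.coprime_self_add_right]
    exact h3
  have h5 : s.2.Coprime (s.1 + s.2) := by
    rw [Nat.coprime_add_self_right]
    exact h3.symm
  have h6 : (s.1 * s.2).Coprime (s.1 + s.2) := Nat.Coprime.mul_left h4 h5
  rw [← Nat.Coprime.gcd_mul _ h3, ← Nat.Coprime.gcd_mul _ h6]
  exact Nat.gcd_eq_left hd

private lemma e2_cop {m : ℕ} {s : ℕ × ℕ} (h : Cop s) :
    (Nat.gcd (m ^ 2) s.1).Coprime (Nat.gcd (m ^ 2) s.2) ∧
      (Nat.gcd (m ^ 2) s.1).Coprime (Nat.gcd (m ^ 2) (s.1 + s.2)) ∧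
        (Nat.gcd (m ^ 2) s.2).Coprime (Nat.gcd (m ^ 2) (s.1 + s.2)) := by
  obtain ⟨-, -, h3⟩ := h
  have h4 : s.1.Coprime (s.1 + s.2) := by
    rw [Nat.coprime_self_add_right]
    exact h3
  have h5 : s.2.Coprime (s.1 + s.2) := by
    rw [Nat.coprime_add_self_right]
    exact h3.symm
  have key : ∀ x y : ℕ, x.Coprime y → (Nat.gcd (m ^ 2) x).Coprime (Nat.gcd (m ^ 2) y) :=
    fun x y h => Nat.Coprime.coprime_dvd_left (Nat.gcd_dvd_right _ _)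
      (Nat.Coprime.coprime_dvd_right (Nat.gcd_dvd_right _ _) h)
  exact ⟨key _ _ h3, key _ _ h4, key _ _ h5⟩

/-- The pairs with a given `m`. -/
private lemma e2_one {D Y H : ℝ} {S : Finset (ℕ × ℕ)} (hY : 1 ≤ Y) (hH : 1 ≤ H) {m : ℕ}
    (hm : 0 < m) (hD : ((m ^ 2).divisors.card : ℝ) ≤ D)
    (hS : ∀ s ∈ S, Cop s ∧ (ff s : ℝ) ≤ Y ∧ ((s.1 + s.2 : ℕ) : ℝ) ≤ H ∧ m ^ 2 ∣ ff s) :
    (S.card : ℝ) ≤ D ^ 3 * (100 * (1 + Real.log H) * (1 + Y ^ (2 / 3 : ℝ) / (m : ℝ) ^ 2)) := by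
  classical
  let T : Finset (ℕ × ℕ × ℕ) := (m ^ 2).divisors ×ˢ (m ^ 2).divisors ×ˢ (m ^ 2).divisors
  let φ : ℕ × ℕ → ℕ × ℕ × ℕ := fun s =>
    (Nat.gcd (m ^ 2) s.1, Nat.gcd (m ^ 2) s.2, Nat.gcd (m ^ 2) (s.1 + s.2))
  have hm2 : m ^ 2 ≠ 0 := by positivity
  have hmaps : ∀ s ∈ S, φ s ∈ T := by
    intro s _
    simp only [T, φ, Finset.mem_product, Nat.mem_divisors]
    exact ⟨⟨Nat.gcd_dvd_left _ _, hm2⟩, ⟨Nat.gcd_dvd_left _ _, hm2⟩,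
      ⟨Nat.gcd_dvd_left _ _, hm2⟩⟩
  have hR : 0 ≤ 100 * (1 + Real.log H) * (1 + Y ^ (2 / 3 : ℝ) / (m : ℝ) ^ 2) := by
    have := Real.log_nonneg hH
    positivity
  have hfib : ∀ x ∈ T, ((S.filter fun s => φ s = x).card : ℝ) ≤
      100 * (1 + Real.log H) * (1 + Y ^ (2 / 3 : ℝ) / (m : ℝ) ^ 2) := by
    intro x _
    rcases (S.filter fun s => φ s = x).eq_empty_or_nonempty with h | ⟨t, ht⟩
    · rw [h, Finset.card_empty, Nat.cast_zero]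
      exact hR
    obtain ⟨htS, htx⟩ := Finset.mem_filter.1 ht
    obtain ⟨ht1, -, -, ht4⟩ := hS t htS
    have hx1 : x.1 = Nat.gcd (m ^ 2) t.1 := by rw [← htx]
    have hx2 : x.2.1 = Nat.gcd (m ^ 2) t.2 := by rw [← htx]
    have hx3 : x.2.2 = Nat.gcd (m ^ 2) (t.1 + t.2) := by rw [← htx]
    obtain ⟨c1, c2, c3⟩ := e2_cop (m := m) ht1
    have hprod : x.1 * x.2.1 * x.2.2 = m ^ 2 := by
      rw [hx1, hx2, hx3]
      exact e2_uvw ht1 ht4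
    have hdv : ∀ s ∈ S.filter (fun s => φ s = x),
        x.1 ∣ s.1 ∧ x.2.1 ∣ s.2 ∧ x.2.2 ∣ s.1 + s.2 := by
      intro s hs
      obtain ⟨-, hsx⟩ := Finset.mem_filter.1 hs
      rw [← hsx]
      exact ⟨Nat.gcd_dvd_right _ _, Nat.gcd_dvd_right _ _, Nat.gcd_dvd_right _ _⟩
    have h1 := region (m ^ 2) Y H (S.filter fun s => φ s = x) (Nat.pos_of_ne_zero hm2) hY hH
      (fun s hs => by
        obtain ⟨h2, h3, h4, -⟩ := hS s (Finset.mem_filter.1 hs).1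
        exact ⟨h2, h3, h4⟩)
      (fun s hs t' ht' => by
        have h2 := det_dvd x.1 x.2.1 x.2.2 (by rw [hx1, hx2]; exact c1)
          (by rw [hx1, hx3]; exact c2) (by rw [hx2, hx3]; exact c3) s t' (hdv s hs) (hdv t' ht')
        rw [hprod] at h2
        exact h2)
    rw [Nat.cast_pow] at h1
    exact h1
  rw [Finset.card_eq_sum_card_fiberwise hmaps]
  push_cast
  refine (Finset.sum_le_sum hfib).trans ?_
  rw [Finset.sum_const, nsmul_eq_mul]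
  refine mul_le_mul_of_nonneg_right ?_ hR
  have hT : (T.card : ℝ) = ((m ^ 2).divisors.card : ℝ) ^ 3 := by
    simp only [T, Finset.card_product]
    push_cast
    ring
  rw [hT]
  exact pow_le_pow_left₀ (Nat.cast_nonneg _) hD 3

private lemma e2_sum (E : ℝ) (hE : 1 ≤ E) (n : ℕ) :
    ∑ m ∈ Finset.Ioo (⌈E⌉₊ - 1) n, ((m : ℝ) ^ 2)⁻¹ ≤ 2 / E := by
  have h1 : 0 < ⌈E⌉₊ := Nat.ceil_pos.2 (by linarith)
  have h2 := sum_Ioo_inv_sq_le (α := ℝ) (⌈E⌉₊ - 1) n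
  refine h2.trans ?_
  have h3 : ((⌈E⌉₊ - 1 : ℕ) : ℝ) + 1 = (⌈E⌉₊ : ℝ) := by
    rw [Nat.cast_sub h1, Nat.cast_one]
    ring
  rw [h3]
  exact div_le_div_of_nonneg_left (by norm_num) (by linarith) (Nat.le_ceil E)

/-- PIECE AR-E2 (the whole file, 250 lines).  Coprime pairs.
PROOF.  `m^2 ≤ ff s ≤ Y`, so `m ≤ √Y`.  Choose such an `m` for every `s` and put `u = gcd(m^2, a)`,
`v = gcd(m^2, b)`, `w = gcd(m^2, a+b)`: `u v w = m^2` as `a, b, a+b` are pairwise coprime and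
`m^2 ∣ a b (a+b)` (`Nat.Coprime.gcd_mul`).  For given `m, u, v, w` (`u, v, w` divisors of `m^2 ≤ Y`: at
most `(C1 Y^(ε/6))^3` triples, `divisor_bound`) `region` with `q = m^2` and `det_dvd` give at most
`100 (1 + log H) (1 + Y^(2/3)/m^2)` pairs.  Sum over `E ≤ m ≤ √Y`:
`∑ 1 ≤ √Y`, `∑ 1/m^2 ≤ 2/E` (`E ≥ 1`; telescoping `1/m^2 ≤ 2 (1/m - 1/(m+1))`, first term `≤ 1/E`,
or any constant instead of `2`), `1 + log H ≤ (1 + 2/ε) H^(ε/2)`. -/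
theorem sqtail (ε : ℝ) (hε : 0 < ε) : ∃ C : ℝ, 1 ≤ C ∧ ∀ (Y H E : ℝ) (S : Finset (ℕ × ℕ)),
    1 ≤ Y → 1 ≤ H → 1 ≤ E →
    (∀ s ∈ S, Cop s ∧ (ff s : ℝ) ≤ Y ∧ ((s.1 + s.2 : ℕ) : ℝ) ≤ H ∧
      ∃ m : ℕ, E ≤ (m : ℝ) ∧ m ^ 2 ∣ ff s) →
    (S.card : ℝ) ≤ C * (Y * H) ^ ε * (Real.sqrt Y + Y ^ (2 / 3 : ℝ) / E) := by
  classical
  obtain ⟨C1, hC1, hdiv⟩ := Pool.Agent.Helper94.Abc.divisor_bound (show 0 < ε / 6 by positivity)
  have hC3 : 1 ≤ C1 ^ 3 := one_le_pow₀ hC1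
  have hε2 : 0 < 2 / ε := by positivity
  refine ⟨200 * C1 ^ 3 * (1 + 2 / ε), ?_, ?_⟩
  · nlinarith
  intro Y H E S hY hH hE hS
  have hY0 : 0 < Y := by linarith
  have hH0 : 0 < H := by linarith
  choose! mm hE' hdvd using fun s hs => (hS s hs).2.2.2
  let T : Finset ℕ := Finset.Ioo (⌈E⌉₊ - 1) (⌊Real.sqrt Y⌋₊ + 1)
  have hceil : 0 < ⌈E⌉₊ := Nat.ceil_pos.2 (by linarith)
  have hffpos : ∀ s ∈ S, 0 < ff s := by
    intro s hs
    obtain ⟨⟨h1, h2, -⟩, -⟩ := hS s hs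
    unfold ff
    positivity
  have hmaps : ∀ s ∈ S, mm s ∈ T := by
    intro s hs
    have h1 : ⌈E⌉₊ ≤ mm s := Nat.ceil_le.2 (hE' s hs)
    have h2 : mm s ^ 2 ≤ ff s := Nat.le_of_dvd (hffpos s hs) (hdvd s hs)
    have h3 : ((mm s : ℝ)) ^ 2 ≤ Y := by
      have h4 : ((mm s ^ 2 : ℕ) : ℝ) ≤ ff s := by exact_mod_cast h2
      rw [Nat.cast_pow] at h4
      exact h4.trans (hS s hs).2.1
    have h4 : (mm s : ℝ) ≤ Real.sqrt Y := Real.le_sqrt_of_sq_le h3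
    have h5 : mm s ≤ ⌊Real.sqrt Y⌋₊ := Nat.le_floor h4
    simp only [T, Finset.mem_Ioo]
    omega
  have hlog : 1 + Real.log H ≤ (1 + 2 / ε) * H ^ (ε / 2) := by
    have h1 := Real.log_le_rpow_div hH0.le (show 0 < ε / 2 by positivity)
    have h2 : 1 ≤ H ^ (ε / 2) := Real.one_le_rpow hH (by positivity)
    have h3 : H ^ (ε / 2) / (ε / 2) = 2 / ε * H ^ (ε / 2) := by
      field_simp
    rw [h3] at h1
    linarith
  have hlog0 : 0 ≤ 1 + Real.log H := by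
    have := Real.log_nonneg hH
    linarith
  have hY3 : 0 ≤ Y ^ (2 / 3 : ℝ) := by positivity
  have hfib : ∀ m ∈ T, ((S.filter fun s => mm s = m).card : ℝ) ≤
      (C1 ^ 3 * Y ^ (ε / 2)) * (100 * (1 + Real.log H)) *
        (1 + Y ^ (2 / 3 : ℝ) * ((m : ℝ) ^ 2)⁻¹) := by
    intro m hm
    rw [Finset.mem_Ioo] at hm
    have hm0 : 0 < m := by omega
    have hmY : ((m ^ 2 : ℕ) : ℝ) ≤ Y := by
      have h1 : m ≤ ⌊Real.sqrt Y⌋₊ := by omega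
      have h2 : (m : ℝ) ≤ Real.sqrt Y :=
        (Nat.cast_le.2 h1).trans (Nat.floor_le (Real.sqrt_nonneg Y))
      rw [Nat.cast_pow]
      calc (m : ℝ) ^ 2 ≤ (Real.sqrt Y) ^ 2 := pow_le_pow_left₀ (Nat.cast_nonneg _) h2 2
        _ = Y := Real.sq_sqrt hY0.le
    have hD : ((m ^ 2).divisors.card : ℝ) ≤ C1 * Y ^ (ε / 6) := by
      refine (hdiv (m ^ 2) (by positivity)).trans ?_
      refine mul_le_mul_of_nonneg_left ?_ (by linarith)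
      exact Real.rpow_le_rpow (Nat.cast_nonneg _) hmY (by positivity)
    have h1 := e2_one (S := S.filter fun s => mm s = m) hY hH hm0 hD (fun s hs => by
      obtain ⟨hsS, hsm⟩ := Finset.mem_filter.1 hs
      obtain ⟨h2, h3, h4, -⟩ := hS s hsS
      refine ⟨h2, h3, h4, ?_⟩
      rw [← hsm]
      exact hdvd s hsS)
    refine h1.trans (le_of_eq ?_)
    have h2 : (C1 * Y ^ (ε / 6)) ^ 3 = C1 ^ 3 * Y ^ (ε / 2) := by
      rw [mul_pow]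
      congr 1
      rw [← Real.rpow_natCast, ← Real.rpow_mul hY0.le]
      congr 1
      push_cast
      ring
    rw [h2, div_eq_mul_inv]
    ring
  have hA0 : 0 ≤ (C1 ^ 3 * Y ^ (ε / 2)) * (100 * (1 + Real.log H)) := by positivity
  have hsum : (S.card : ℝ) ≤ (C1 ^ 3 * Y ^ (ε / 2)) * (100 * (1 + Real.log H)) *
      (Real.sqrt Y + Y ^ (2 / 3 : ℝ) * (2 / E)) := by
    rw [Finset.card_eq_sum_card_fiberwise hmaps]
    push_cast
    refine (Finset.sum_le_sum hfib).trans ?_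
    rw [← Finset.mul_sum, Finset.sum_add_distrib, ← Finset.mul_sum]
    refine mul_le_mul_of_nonneg_left (add_le_add ?_ ?_) hA0
    · rw [Finset.sum_const, nsmul_eq_mul, mul_one]
      have h1 : T.card ≤ ⌊Real.sqrt Y⌋₊ := by
        simp only [T, Nat.card_Ioo]
        omega
      exact (Nat.cast_le.2 h1).trans (Nat.floor_le (Real.sqrt_nonneg Y))
    · exact mul_le_mul_of_nonneg_left (e2_sum E hE _) hY3
  refine hsum.trans ?_
  have hsq : 0 ≤ Real.sqrt Y := Real.sqrt_nonneg Y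
  have hYE : 0 ≤ Y ^ (2 / 3 : ℝ) / E := by positivity
  have h1 : Real.sqrt Y + Y ^ (2 / 3 : ℝ) * (2 / E) ≤
      2 * (Real.sqrt Y + Y ^ (2 / 3 : ℝ) / E) := by
    have h2 : Y ^ (2 / 3 : ℝ) * (2 / E) = 2 * (Y ^ (2 / 3 : ℝ) / E) := by ring
    rw [h2]
    linarith
  have h2 : Y ^ (ε / 2) * H ^ (ε / 2) ≤ (Y * H) ^ ε := by
    rw [← Real.mul_rpow hY0.le hH0.le]
    exact Real.rpow_le_rpow_of_exponent_le (by nlinarith) (by linarith)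
  have hX0 : 0 ≤ Real.sqrt Y + Y ^ (2 / 3 : ℝ) / E := add_nonneg hsq hYE
  calc (C1 ^ 3 * Y ^ (ε / 2)) * (100 * (1 + Real.log H)) *
        (Real.sqrt Y + Y ^ (2 / 3 : ℝ) * (2 / E))
      ≤ (C1 ^ 3 * Y ^ (ε / 2)) * (100 * ((1 + 2 / ε) * H ^ (ε / 2))) *
        (2 * (Real.sqrt Y + Y ^ (2 / 3 : ℝ) / E)) := by
        gcongr
    _ = (200 * C1 ^ 3 * (1 + 2 / ε)) * (Y ^ (ε / 2) * H ^ (ε / 2)) *
        (Real.sqrt Y + Y ^ (2 / 3 : ℝ) / E) := by ring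
    _ ≤ (200 * C1 ^ 3 * (1 + 2 / ε)) * (Y * H) ^ ε *
        (Real.sqrt Y + Y ^ (2 / 3 : ℝ) / E) := by
        gcongr

private theorem e2b_log (ε x : ℝ) (hε : 0 < ε) (hx : 1 ≤ x) :
    1 + Real.log x ≤ (1 + 2 / ε) * x ^ (ε / 2) := by
  have h1 : Real.log x ≤ x ^ (ε / 2) / (ε / 2) :=
    Real.log_le_rpow_div (by linarith) (by positivity)
  have h2 : 1 ≤ x ^ (ε / 2) := Real.one_le_rpow hx (by positivity)
  have h3 : x ^ (ε / 2) / (ε / 2) = 2 / ε * x ^ (ε / 2) := by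
    field_simp
  rw [h3] at h1
  rw [add_mul, one_mul]
  linarith

private theorem e2b_div (e g f : ℕ) (hg : 0 < g) (h : e ^ 2 ∣ g ^ 3 * f) :
    ∃ m : ℕ, e ≤ g ^ 2 * m ∧ m ^ 2 ∣ f := by
  have hg2 : 0 < g ^ 2 := by positivity
  have ht : 0 < Nat.gcd e (g ^ 2) := Nat.gcd_pos_of_pos_right _ hg2
  obtain ⟨m, hm⟩ := Nat.gcd_dvd_left e (g ^ 2)
  obtain ⟨s, hs⟩ := Nat.gcd_dvd_right e (g ^ 2)
  have hco : Nat.Coprime m s := by
    have h1 := Nat.coprime_div_gcd_div_gcd ht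
    rw [Nat.div_eq_of_eq_mul_right ht hm, Nat.div_eq_of_eq_mul_right ht hs] at h1
    exact h1
  have htle : Nat.gcd e (g ^ 2) ≤ g ^ 2 := Nat.le_of_dvd hg2 (Nat.gcd_dvd_right _ _)
  generalize Nat.gcd e (g ^ 2) = t at ht hm hs htle
  refine ⟨m, ?_, ?_⟩
  · rw [hm]
    exact Nat.mul_le_mul_right m htle
  · have h1 : e ^ 2 ∣ t ^ 2 * (s ^ 2 * f) := by
      have h2 : t ^ 2 * (s ^ 2 * f) = g * (g ^ 3 * f) := by
        calc t ^ 2 * (s ^ 2 * f) = (t * s) ^ 2 * f := by ring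
          _ = (g ^ 2) ^ 2 * f := by rw [← hs]
          _ = _ := by ring
      rw [h2]
      exact Dvd.dvd.mul_left h g
    have h2 : t ^ 2 * m ^ 2 ∣ t ^ 2 * (s ^ 2 * f) := by
      rw [← mul_pow, ← hm]
      exact h1
    have h3 : m ^ 2 ∣ s ^ 2 * f := Nat.dvd_of_mul_dvd_mul_left (by positivity) h2
    exact (Nat.Coprime.pow 2 2 hco).dvd_of_dvd_mul_left h3

private theorem e2b_pow (Y : ℝ) (hY : 1 ≤ Y) (g : ℕ) (hg : 0 < g) :
    (Y / (g : ℝ) ^ 3) ^ (2 / 3 : ℝ) = Y ^ (2 / 3 : ℝ) / (g : ℝ) ^ 2 := by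
  have hg0 : (0 : ℝ) ≤ g := Nat.cast_nonneg g
  rw [Real.div_rpow (by linarith) (by positivity)]
  congr 1
  rw [← Real.rpow_natCast, ← Real.rpow_mul hg0, ← Real.rpow_natCast]
  norm_num

private theorem e2b_fib (ε C1 : ℝ) (hε : 0 < ε) (hC1 : 1 ≤ C1)
    (hsq : ∀ (Y H E : ℝ) (S : Finset (ℕ × ℕ)), 1 ≤ Y → 1 ≤ H → 1 ≤ E →
      (∀ s ∈ S, Cop s ∧ (ff s : ℝ) ≤ Y ∧ ((s.1 + s.2 : ℕ) : ℝ) ≤ H ∧
        ∃ m : ℕ, E ≤ (m : ℝ) ∧ m ^ 2 ∣ ff s) →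
      (S.card : ℝ) ≤ C1 * (Y * H) ^ (ε / 2) * (Real.sqrt Y + Y ^ (2 / 3 : ℝ) / E))
    (Y H E : ℝ) (S : Finset (ℕ × ℕ)) (hY : 1 ≤ Y) (hH : 1 ≤ H) (hE : 1 ≤ E)
    (hS : ∀ s ∈ S, 0 < s.1 ∧ 0 < s.2 ∧ (ff s : ℝ) ≤ Y ∧ ((s.1 + s.2 : ℕ) : ℝ) ≤ H ∧
      ∃ e : ℕ, E ≤ (e : ℝ) ∧ e ^ 2 ∣ ff s) (g : ℕ) (hg : 0 < g) :
    (({s ∈ S | Nat.gcd s.1 s.2 = g}.card : ℕ) : ℝ) ≤
      (100 * (1 + Real.log H) + C1 * (Y * H) ^ (ε / 2)) *
        (Real.sqrt Y + Y ^ (2 / 3 : ℝ) / E ^ (1 / 3 : ℝ)) * ((g : ℝ))⁻¹ := by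
  classical
  have hlogH : 0 ≤ Real.log H := Real.log_nonneg hH
  have hY0 : (0 : ℝ) ≤ Y := by linarith
  have hE0 : (0 : ℝ) ≤ E := by linarith
  have hx1 : 1 ≤ E ^ (1 / 3 : ℝ) := Real.one_le_rpow hE (by norm_num)
  have hx3 : (E ^ (1 / 3 : ℝ)) ^ 3 = E := by
    rw [← Real.rpow_natCast, ← Real.rpow_mul hE0]
    norm_num
  have hYr : (0 : ℝ) ≤ Y ^ (2 / 3 : ℝ) := Real.rpow_nonneg hY0 _
  have hYH : (0 : ℝ) ≤ (Y * H) ^ (ε / 2) := Real.rpow_nonneg (by positivity) _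
  have hg1 : (1 : ℝ) ≤ g := by exact_mod_cast hg
  have hg0 : (0 : ℝ) < g := by linarith
  set x : ℝ := E ^ (1 / 3 : ℝ) with hx
  have hx0 : 0 < x := by linarith
  rcases Finset.eq_empty_or_nonempty {s ∈ S | Nat.gcd s.1 s.2 = g} with h0 | ⟨s0, hs0⟩
  · rw [h0, Finset.card_empty, Nat.cast_zero]
    positivity
  -- the reduced pairs
  have key : ∀ s ∈ {s ∈ S | Nat.gcd s.1 s.2 = g}, s.1 = g * (s.1 / g) ∧ s.2 = g * (s.2 / g) ∧
      Cop (s.1 / g, s.2 / g) ∧ ff s = g ^ 3 * ff (s.1 / g, s.2 / g) := by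
    intro s hs
    rw [Finset.mem_filter] at hs
    obtain ⟨hsS, hgcd⟩ := hs
    have h1 : g ∣ s.1 := hgcd ▸ Nat.gcd_dvd_left s.1 s.2
    have h2 : g ∣ s.2 := hgcd ▸ Nat.gcd_dvd_right s.1 s.2
    have h3 : s.1 = g * (s.1 / g) := (Nat.mul_div_cancel' h1).symm
    have h4 : s.2 = g * (s.2 / g) := (Nat.mul_div_cancel' h2).symm
    obtain ⟨hp1, hp2, -⟩ := hS s hsS
    refine ⟨h3, h4, ⟨?_, ?_, ?_⟩, ?_⟩
    · exact Nat.div_pos (Nat.le_of_dvd hp1 h1) hg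
    · exact Nat.div_pos (Nat.le_of_dvd hp2 h2) hg
    · have h5 := Nat.coprime_div_gcd_div_gcd (m := s.1) (n := s.2) (by rw [hgcd]; exact hg)
      rw [hgcd] at h5
      exact h5
    · change s.1 * s.2 * (s.1 + s.2) =
        g ^ 3 * ((s.1 / g) * (s.2 / g) * (s.1 / g + s.2 / g))
      calc s.1 * s.2 * (s.1 + s.2) =
          (g * (s.1 / g)) * (g * (s.2 / g)) * (g * (s.1 / g) + g * (s.2 / g)) := by
            rw [← h3, ← h4]
        _ = _ := by ring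
  set T : Finset (ℕ × ℕ) :=
    {s ∈ S | Nat.gcd s.1 s.2 = g}.image (fun s => (s.1 / g, s.2 / g)) with hT
  have hcard : T.card = {s ∈ S | Nat.gcd s.1 s.2 = g}.card := by
    apply Finset.card_image_of_injOn
    intro s hs t ht hst
    obtain ⟨h1, h2, -⟩ := key s hs
    obtain ⟨h3, h4, -⟩ := key t ht
    have h5 := congrArg Prod.fst hst
    have h6 := congrArg Prod.snd hst
    change s.1 / g = t.1 / g at h5
    change s.2 / g = t.2 / g at h6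
    apply Prod.ext
    · rw [h1, h3, h5]
    · rw [h2, h4, h6]
  have hTm : ∀ t ∈ T, Cop t ∧ (ff t : ℝ) ≤ Y / (g : ℝ) ^ 3 ∧ ((t.1 + t.2 : ℕ) : ℝ) ≤ H ∧
      ∃ e : ℕ, E ≤ (e : ℝ) ∧ e ^ 2 ∣ g ^ 3 * ff t := by
    intro t ht
    rw [hT, Finset.mem_image] at ht
    obtain ⟨s, hs, rfl⟩ := ht
    obtain ⟨h1, h2, h3, h4⟩ := key s hs
    rw [Finset.mem_filter] at hs
    obtain ⟨-, -, h5, h6, e, he1, he2⟩ := hS s hs.1
    refine ⟨h3, ?_, ?_, e, he1, ?_⟩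
    · rw [le_div_iff₀ (by positivity)]
      rw [h4] at h5
      push_cast at h5
      linarith
    · refine le_trans ?_ h6
      exact_mod_cast Nat.add_le_add (Nat.div_le_self _ _) (Nat.div_le_self _ _)
    · rw [← h4]
      exact he2
  have hg3 : (g : ℝ) ^ 3 ≤ Y := by
    have h1 : (s0.1 / g, s0.2 / g) ∈ T := by
      rw [hT, Finset.mem_image]
      exact ⟨s0, hs0, rfl⟩
    obtain ⟨⟨h2, h3, -⟩, h4, -⟩ := hTm _ h1
    have h5 : 1 ≤ ff (s0.1 / g, s0.2 / g) := by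
      have : 0 < (s0.1 / g) * (s0.2 / g) * (s0.1 / g + s0.2 / g) := by positivity
      exact this
    have h6 : (1 : ℝ) ≤ Y / (g : ℝ) ^ 3 := by
      refine le_trans ?_ h4
      exact_mod_cast h5
    rw [le_div_iff₀ (by positivity)] at h6
    linarith
  have hY1 : 1 ≤ Y / (g : ℝ) ^ 3 := by
    rw [le_div_iff₀ (by positivity)]
    linarith
  rw [← hcard]
  by_cases hgx : x < g
  · have h1 := region 1 (Y / (g : ℝ) ^ 3) H T Nat.one_pos hY1 hH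
      (fun t ht => ⟨(hTm t ht).1, (hTm t ht).2.1, (hTm t ht).2.2.1⟩)
      (fun s _ t _ => by simp)
    rw [e2b_pow Y hY g hg, Nat.cast_one, div_one] at h1
    have h2 : (1 : ℝ) + Y ^ (2 / 3 : ℝ) / (g : ℝ) ^ 2 ≤
        (Real.sqrt Y + Y ^ (2 / 3 : ℝ) / x) * ((g : ℝ))⁻¹ := by
      rw [add_mul]
      apply add_le_add
      · rw [← div_eq_mul_inv, le_div_iff₀ hg0, one_mul]
        apply Real.le_sqrt_of_sq_le
        refine le_trans ?_ hg3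
        exact pow_le_pow_right₀ hg1 (by norm_num)
      · rw [← div_eq_mul_inv, div_div]
        apply div_le_div_of_nonneg_left hYr (by positivity)
        rw [pow_two]
        exact mul_le_mul_of_nonneg_right hgx.le hg0.le
    calc (T.card : ℝ) ≤ 100 * (1 + Real.log H) * (1 + Y ^ (2 / 3 : ℝ) / (g : ℝ) ^ 2) := h1
      _ ≤ 100 * (1 + Real.log H) * ((Real.sqrt Y + Y ^ (2 / 3 : ℝ) / x) * ((g : ℝ))⁻¹) :=
        mul_le_mul_of_nonneg_left h2 (by positivity)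
      _ = 100 * (1 + Real.log H) * (Real.sqrt Y + Y ^ (2 / 3 : ℝ) / x) * ((g : ℝ))⁻¹ := by ring
      _ ≤ _ := by
        apply mul_le_mul_of_nonneg_right _ (by positivity)
        apply mul_le_mul_of_nonneg_right _ (by positivity)
        have : 0 ≤ C1 * (Y * H) ^ (ε / 2) := by positivity
        linarith
  · have hgx' : (g : ℝ) ≤ x := not_lt.1 hgx
    have h1 := hsq (Y / (g : ℝ) ^ 3) H x T hY1 hH hx1 (fun t ht => by
      obtain ⟨h2, h3, h4, e, he1, he2⟩ := hTm t ht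
      obtain ⟨m, hm1, hm2⟩ := e2b_div e g (ff t) hg he2
      refine ⟨h2, h3, h4, m, ?_, hm2⟩
      have h5 : (e : ℝ) ≤ (g : ℝ) ^ 2 * m := by exact_mod_cast hm1
      have h6 : (g : ℝ) ^ 2 * m ≤ x ^ 2 * m := by
        apply mul_le_mul_of_nonneg_right _ (Nat.cast_nonneg m)
        exact pow_le_pow_left₀ hg0.le hgx' 2
      have h7 : x ^ 2 * x ≤ x ^ 2 * m := by
        calc x ^ 2 * x = x ^ 3 := by ring
          _ = E := hx3
          _ ≤ _ := by linarith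
      exact le_of_mul_le_mul_left h7 (by positivity))
    rw [e2b_pow Y hY g hg] at h1
    have h2 : Real.sqrt (Y / (g : ℝ) ^ 3) + Y ^ (2 / 3 : ℝ) / (g : ℝ) ^ 2 / x ≤
        (Real.sqrt Y + Y ^ (2 / 3 : ℝ) / x) * ((g : ℝ))⁻¹ := by
      rw [add_mul]
      apply add_le_add
      · rw [← div_eq_mul_inv]
        apply Real.sqrt_le_iff.2
        refine ⟨by positivity, ?_⟩
        rw [div_pow, Real.sq_sqrt hY0]
        apply div_le_div_of_nonneg_left hY0 (by positivity)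
        exact pow_le_pow_right₀ hg1 (by norm_num)
      · rw [← div_eq_mul_inv, div_div, div_div]
        apply div_le_div_of_nonneg_left hYr (by positivity)
        rw [mul_comm x]
        apply mul_le_mul_of_nonneg_right _ hx0.le
        nlinarith
    have h3 : (Y / (g : ℝ) ^ 3 * H) ^ (ε / 2) ≤ (Y * H) ^ (ε / 2) := by
      apply Real.rpow_le_rpow (by positivity) _ (by positivity)
      apply mul_le_mul_of_nonneg_right _ (by linarith)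
      apply div_le_self hY0
      exact one_le_pow₀ hg1
    have h4 : (0 : ℝ) ≤ Real.sqrt (Y / (g : ℝ) ^ 3) + Y ^ (2 / 3 : ℝ) / (g : ℝ) ^ 2 / x := by
      positivity
    calc (T.card : ℝ) ≤ C1 * (Y / (g : ℝ) ^ 3 * H) ^ (ε / 2) *
          (Real.sqrt (Y / (g : ℝ) ^ 3) + Y ^ (2 / 3 : ℝ) / (g : ℝ) ^ 2 / x) := h1
      _ ≤ C1 * (Y * H) ^ (ε / 2) *
          (Real.sqrt (Y / (g : ℝ) ^ 3) + Y ^ (2 / 3 : ℝ) / (g : ℝ) ^ 2 / x) := by
        apply mul_le_mul_of_nonneg_right _ h4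
        exact mul_le_mul_of_nonneg_left h3 (by linarith)
      _ ≤ C1 * (Y * H) ^ (ε / 2) * ((Real.sqrt Y + Y ^ (2 / 3 : ℝ) / x) * ((g : ℝ))⁻¹) :=
        mul_le_mul_of_nonneg_left h2 (by positivity)
      _ = C1 * (Y * H) ^ (ε / 2) * (Real.sqrt Y + Y ^ (2 / 3 : ℝ) / x) * ((g : ℝ))⁻¹ := by ring
      _ ≤ _ := by
        apply mul_le_mul_of_nonneg_right _ (by positivity)
        apply mul_le_mul_of_nonneg_right _ (by positivity)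
        have : 0 ≤ 100 * (1 + Real.log H) := by positivity
        linarith

/-- All pairs.
PROOF.  `s = g (a1, b1)`, `g = gcd a b`, `(a1, b1)` coprime, `ff s = g^3 ff(a1, b1)`; `g^3 ≤ Y`.  Let
`G = E^(1/3)`.
(`g > G`) For every `g`: the number of coprime `(a1, b1)` with `ff ≤ Y/g^3`, `a1 + b1 ≤ H` is at most
`100 (1 + log H) (1 + Y^(2/3)/g^2)` (`region`, `q = 1`).  Sum over `G < g ≤ Y^(1/3)`:
`≤ 100 (1 + log H) (Y^(1/3) + 2 Y^(2/3)/G)`.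
(`g ≤ G`) Let `e^2 ∣ g^3 ff1`, `e ≥ E`, `ff1 = ff (a1, b1)`.  With `t = gcd e (g^2)`, `e = t m`,
`g^2 = t s`, `gcd m s = 1`: `t^2 m^2 = e^2 ∣ g^4 ff1 = t^2 s^2 ff1`, so `m^2 ∣ s^2 ff1`, `m^2 ∣ ff1`;
`m = e/t ≥ E/g^2 ≥ E^(1/3)`.  `sqtail (ε/2)` with `Y/g^3`, `E^(1/3)`: at most
`C1 (Y H)^(ε/2) (√(Y/g^3) + Y^(2/3)/(g^2 E^(1/3)))`; sum over `g`: `∑ g^(-3/2) ≤ 3`, `∑ g^(-2) ≤ 2`
(or: `√(Y/g^3) ≤ √Y/g`, and the harmonic sum up to `Y^(1/3)` is `≤ 1 + log Y`).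
(`Y^(1/3) ≤ √Y`.) -/
theorem sqtail_all (ε : ℝ) (hε : 0 < ε) : ∃ C : ℝ, 1 ≤ C ∧
    ∀ (Y H E : ℝ) (S : Finset (ℕ × ℕ)), 1 ≤ Y → 1 ≤ H → 1 ≤ E →
    (∀ s ∈ S, 0 < s.1 ∧ 0 < s.2 ∧ (ff s : ℝ) ≤ Y ∧ ((s.1 + s.2 : ℕ) : ℝ) ≤ H ∧
      ∃ e : ℕ, E ≤ (e : ℝ) ∧ e ^ 2 ∣ ff s) →
    (S.card : ℝ) ≤ C * (Y * H) ^ ε *
      (Real.sqrt Y + Y ^ (2 / 3 : ℝ) / E ^ (1 / 3 : ℝ)) := by
  classical
  obtain ⟨C1, hC1, hsq⟩ := sqtail (ε / 2) (by positivity)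
  refine ⟨(1 + 2 / ε) * (100 * (1 + 2 / ε) + C1), ?_, ?_⟩
  · have h1 : 0 < 2 / ε := by positivity
    nlinarith
  intro Y H E S hY hH hE hS
  have hY0 : (0 : ℝ) ≤ Y := by linarith
  have hH0 : (0 : ℝ) ≤ H := by linarith
  have hYr : (0 : ℝ) ≤ Y ^ (2 / 3 : ℝ) := Real.rpow_nonneg hY0 _
  have hEr : (0 : ℝ) ≤ E ^ (1 / 3 : ℝ) := Real.rpow_nonneg (by linarith) _
  set K : ℝ := Real.sqrt Y + Y ^ (2 / 3 : ℝ) / E ^ (1 / 3 : ℝ) with hK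
  have hK0 : 0 ≤ K := by positivity
  set M : ℝ := 100 * (1 + Real.log H) + C1 * (Y * H) ^ (ε / 2) with hM
  have hYH : Y ≤ Y * H := by nlinarith
  have hHY : H ≤ Y * H := by nlinarith
  have hYH1 : 1 ≤ Y * H := by linarith
  have hP0 : (0 : ℝ) ≤ (Y * H) ^ (ε / 2) := Real.rpow_nonneg (by linarith) _
  have hlH : 1 + Real.log H ≤ (1 + 2 / ε) * (Y * H) ^ (ε / 2) := by
    refine le_trans ?_ (e2b_log ε (Y * H) hε hYH1)
    have := Real.log_le_log (by linarith) hHY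
    linarith
  have hlY : 1 + Real.log Y ≤ (1 + 2 / ε) * (Y * H) ^ (ε / 2) := by
    refine le_trans ?_ (e2b_log ε (Y * H) hε hYH1)
    have := Real.log_le_log (by linarith) hYH
    linarith
  have hM0 : 0 ≤ M := by
    have := Real.log_nonneg hH
    positivity
  have hMle : M ≤ (100 * (1 + 2 / ε) + C1) * (Y * H) ^ (ε / 2) := by
    rw [hM]
    nlinarith
  have hmaps : ∀ s ∈ S, Nat.gcd s.1 s.2 ∈ Icc 1 ⌊Y⌋₊ := by
    intro s hs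
    obtain ⟨h1, h2, h3, -⟩ := hS s hs
    rw [mem_Icc]
    refine ⟨Nat.gcd_pos_of_pos_left _ h1, ?_⟩
    apply Nat.le_floor
    refine le_trans ?_ h3
    have h4 : Nat.gcd s.1 s.2 ≤ s.1 := Nat.gcd_le_left _ h1
    have h5 : s.1 ≤ ff s := by
      change s.1 ≤ s.1 * s.2 * (s.1 + s.2)
      calc s.1 = s.1 * 1 * 1 := by ring
        _ ≤ _ := Nat.mul_le_mul (Nat.mul_le_mul_left _ h2) (by omega)
    exact_mod_cast h4.trans h5
  have hharm : ∑ g ∈ Icc 1 ⌊Y⌋₊, ((g : ℝ))⁻¹ ≤ 1 + Real.log Y := by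
    have h1 := harmonic_le_one_add_log ⌊Y⌋₊
    rw [harmonic_eq_sum_Icc] at h1
    push_cast at h1
    refine h1.trans ?_
    have h2 : (1 : ℝ) ≤ ⌊Y⌋₊ := by
      exact_mod_cast Nat.le_floor (by exact_mod_cast hY)
    have h3 := Real.log_le_log (by linarith) (Nat.floor_le hY0)
    linarith
  have hsum : (S.card : ℝ) ≤ ∑ g ∈ Icc 1 ⌊Y⌋₊, M * K * ((g : ℝ))⁻¹ := by
    have hmaps' : Set.MapsTo (fun s : ℕ × ℕ => Nat.gcd s.1 s.2) (S : Set (ℕ × ℕ))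
        (Icc 1 ⌊Y⌋₊ : Finset ℕ) := fun s hs => hmaps s hs
    rw [Finset.card_eq_sum_card_fiberwise hmaps']
    push_cast
    apply Finset.sum_le_sum
    intro g hg
    rw [mem_Icc] at hg
    exact e2b_fib ε C1 hε hC1 hsq Y H E S hY hH hE hS g (by omega)
  rw [← Finset.mul_sum] at hsum
  have hfin : (Y * H) ^ (ε / 2) * (Y * H) ^ (ε / 2) = (Y * H) ^ ε := by
    rw [← Real.rpow_add (by linarith)]
    congr 1
    ring
  calc (S.card : ℝ) ≤ M * K * ∑ g ∈ Icc 1 ⌊Y⌋₊, ((g : ℝ))⁻¹ := hsum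
    _ ≤ M * K * ((1 + 2 / ε) * (Y * H) ^ (ε / 2)) :=
      mul_le_mul_of_nonneg_left (hharm.trans hlY) (by positivity)
    _ = M * (K * ((1 + 2 / ε) * (Y * H) ^ (ε / 2))) := by ring
    _ ≤ ((100 * (1 + 2 / ε) + C1) * (Y * H) ^ (ε / 2)) *
        (K * ((1 + 2 / ε) * (Y * H) ^ (ε / 2))) :=
      mul_le_mul_of_nonneg_right hMle (by positivity)
    _ = (1 + 2 / ε) * (100 * (1 + 2 / ε) + C1) *
        ((Y * H) ^ (ε / 2) * (Y * H) ^ (ε / 2)) * K := by ring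
    _ = _ := by rw [hfin]

end Pool.Agent.Helper93.AR
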