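import Pool.Agent.Helper93.AR.E1

set_option autoImplicit false

/-! # Project AR, piece E3: coprime pairs of radical `≤ Z` with a large powerful part -/

namespace Pool.Agent.Helper93.AR

open Finset
open Pool.Agent.Helper21.EN (rad pc rest Tri)

private lemma e3_fib {α β : Type*} [DecidableEq β] (S : Finset α) (f : α → β) (B : β → ℝ)
    (h : ∀ b ∈ S.image f, ((S.filter (fun a => f a = b)).card : ℝ) ≤ B b) :
    (S.card : ℝ) ≤ ∑ b ∈ S.image f, B b := by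
  rw [Finset.card_eq_sum_card_image f S]
  push_cast
  exact Finset.sum_le_sum h

private lemma e3_rest_mul {a b : ℕ} (h : a.Coprime b) :
    rest {1} (a * b) = rest {1} a * rest {1} b := by
  classical
  unfold Pool.Agent.Helper21.EN.rest
  rw [h.primeFactors_mul, Finset.filter_union, Finset.prod_union]
  · congr 1
    · have e : a.primeFactors.filter (fun p => (a * b).factorization p ∉ ({1} : Finset ℕ)) =
          a.primeFactors.filter (fun p => a.factorization p ∉ ({1} : Finset ℕ)) := by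
        refine Finset.filter_congr fun p hp => ?_
        rw [Nat.factorization_eq_of_coprime_left h (Nat.mem_primeFactors_iff_mem_primeFactorsList.1 hp)]
      rw [e]
      refine Finset.prod_congr rfl fun p hp => ?_
      rw [Nat.factorization_eq_of_coprime_left h
        (Nat.mem_primeFactors_iff_mem_primeFactorsList.1 (Finset.mem_filter.1 hp).1)]
    · have e : b.primeFactors.filter (fun p => (a * b).factorization p ∉ ({1} : Finset ℕ)) =
          b.primeFactors.filter (fun p => b.factorization p ∉ ({1} : Finset ℕ)) := by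
        refine Finset.filter_congr fun p hp => ?_
        rw [Nat.factorization_eq_of_coprime_right h
          (Nat.mem_primeFactors_iff_mem_primeFactorsList.1 hp)]
      rw [e]
      refine Finset.prod_congr rfl fun p hp => ?_
      rw [Nat.factorization_eq_of_coprime_right h
        (Nat.mem_primeFactors_iff_mem_primeFactorsList.1 (Finset.mem_filter.1 hp).1)]
  · exact Finset.disjoint_filter_filter h.disjoint_primeFactors

private lemma e3_rad_sq (n : ℕ) : rad (rest {1} n) ^ 2 ≤ rest {1} n := by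
  classical
  have e : rad (rest {1} n) = ∏ p ∈ n.primeFactors.filter
      (fun p => n.factorization p ∉ ({1} : Finset ℕ)), p := by
    unfold Pool.Agent.Helper21.EN.rad
    rw [Pool.Agent.Helper21.EN.primeFactors_rest]
  rw [e, ← Finset.prod_pow]
  unfold Pool.Agent.Helper21.EN.rest
  refine Finset.prod_le_prod (fun p _ => Nat.zero_le _) fun p hp => ?_
  obtain ⟨h1, h2⟩ := Finset.mem_filter.1 hp
  have hpp := Nat.prime_of_mem_primeFactors h1
  have h3 : 0 < n.factorization p := by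
    have := Nat.mem_primeFactors.1 h1
    exact hpp.factorization_pos_of_dvd this.2.2 this.2.1
  have h4 : n.factorization p ≠ 1 := by simpa using h2
  exact Nat.pow_le_pow_right hpp.pos (by omega)

private lemma e3_ineq (Z q r D : ℝ) (hZ : 1 ≤ Z) (hq : 1 ≤ q) (hr : 1 ≤ r) (hD : 1 ≤ D)
    (hrq : r ^ 2 ≤ q) (hDq : D ≤ q) :
    (Z * q / r) ^ (2 / 3 : ℝ) / q ≤ Z ^ (2 / 3 : ℝ) / D ^ (1 / 6 : ℝ) * (1 / r) := by
  have hq0 : 0 < q := by linarith
  have hr0 : 0 < r := by linarith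
  have hD0 : 0 < D := by linarith
  have hZ0 : 0 < Z := by linarith
  rw [Real.div_rpow (by positivity) hr0.le, Real.mul_rpow hZ0.le hq0.le]
  have h1 : D ^ (1 / 6 : ℝ) ≤ q ^ (1 / 6 : ℝ) := Real.rpow_le_rpow hD0.le hDq (by norm_num)
  have h2 : r ^ (1 / 3 : ℝ) ≤ q ^ (1 / 6 : ℝ) := by
    have : r ^ (1 / 3 : ℝ) = (r ^ 2) ^ (1 / 6 : ℝ) := by
      rw [← Real.rpow_natCast r 2, ← Real.rpow_mul hr0.le]
      norm_num
    rw [this]
    exact Real.rpow_le_rpow (by positivity) hrq (by norm_num)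
  have h3 : q ^ (1 / 6 : ℝ) * q ^ (1 / 6 : ℝ) = q ^ (1 / 3 : ℝ) := by
    rw [← Real.rpow_add hq0]; norm_num
  have h4 : q ^ (2 / 3 : ℝ) * q ^ (1 / 3 : ℝ) = q := by
    rw [← Real.rpow_add hq0]; norm_num
  have h5 : r ^ (2 / 3 : ℝ) * r ^ (1 / 3 : ℝ) = r := by
    rw [← Real.rpow_add hr0]; norm_num
  have hDp : 0 < D ^ (1 / 6 : ℝ) := by positivity
  have hr3 : 0 < r ^ (1 / 3 : ℝ) := by positivity
  have hr23 : 0 < r ^ (2 / 3 : ℝ) := by positivity
  have hq23 : 0 < q ^ (2 / 3 : ℝ) := by positivity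
  have hZp : 0 < Z ^ (2 / 3 : ℝ) := by positivity
  have h6 : D ^ (1 / 6 : ℝ) * r ^ (1 / 3 : ℝ) ≤ q ^ (1 / 3 : ℝ) := by
    rw [← h3]
    exact mul_le_mul h1 h2 hr3.le (by positivity)
  have e1 : Z ^ (2 / 3 : ℝ) * q ^ (2 / 3 : ℝ) / r ^ (2 / 3 : ℝ) / q =
      Z ^ (2 / 3 : ℝ) * q ^ (2 / 3 : ℝ) / (r ^ (2 / 3 : ℝ) * q) := by
    rw [div_div]
  have e2 : Z ^ (2 / 3 : ℝ) / D ^ (1 / 6 : ℝ) * (1 / r) =
      Z ^ (2 / 3 : ℝ) / (D ^ (1 / 6 : ℝ) * r) := by
    rw [div_mul_div_comm, mul_one]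
  rw [e1, e2, div_le_div_iff₀ (by positivity) (by positivity)]
  have h7 : q ^ (2 / 3 : ℝ) * (D ^ (1 / 6 : ℝ) * r) ≤ r ^ (2 / 3 : ℝ) * q := by
    calc q ^ (2 / 3 : ℝ) * (D ^ (1 / 6 : ℝ) * r)
        = q ^ (2 / 3 : ℝ) * r ^ (2 / 3 : ℝ) * (D ^ (1 / 6 : ℝ) * r ^ (1 / 3 : ℝ)) := by
          nth_rewrite 1 [← h5]; ring
      _ ≤ q ^ (2 / 3 : ℝ) * r ^ (2 / 3 : ℝ) * q ^ (1 / 3 : ℝ) :=
          mul_le_mul_of_nonneg_left h6 (by positivity)
      _ = r ^ (2 / 3 : ℝ) * (q ^ (2 / 3 : ℝ) * q ^ (1 / 3 : ℝ)) := by ring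
      _ = r ^ (2 / 3 : ℝ) * q := by rw [h4]
  calc Z ^ (2 / 3 : ℝ) * q ^ (2 / 3 : ℝ) * (D ^ (1 / 6 : ℝ) * r)
      = Z ^ (2 / 3 : ℝ) * (q ^ (2 / 3 : ℝ) * (D ^ (1 / 6 : ℝ) * r)) := by ring
    _ ≤ Z ^ (2 / 3 : ℝ) * (r ^ (2 / 3 : ℝ) * q) := mul_le_mul_of_nonneg_left h7 hZp.le

/-- PIECE AR-E3 (the whole file, 250 lines).
PROOF.  For `s ∈ S` let `u, v, w` be the powerful parts (`rest {1}`) of `a, b, a+b`; they are pairwise
coprime and `q = u v w = rest {1} (ff s)` (`rest {1}` is multiplicative on coprime numbers: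
`factorization` of a product of coprime numbers).  With `n = ff s`: `n = q * pc 1 n`,
`rad n = rad q * pc 1 n ≤ Z` (`EN.rest_mul_one`, `EN.rad_rest_mul_one`), so
`n ≤ Y_q := Z q / rad q`; also `D ≤ q ≤ n ≤ H^3`, and `rad(q)^2 ≤ q` (every prime of `q` has exponent
at least `2`; `rest {1} q = q`).
Fix `q` and `(u, v, w)` (divisors of `q ≤ H^3`: at most `(C1 H^(ε/6))^3` triples): `det_dvd` and
`region` bound the number of `s` by `100 (1 + log H) (1 + Y_q^(2/3)/q)`.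
Sum over `q`: the number of `q` is at most `C2 H^(ε/6) H^(3/2)` (`rad_count`, `X = ⌊H^3⌋₊`, `rad q ≤ √q ≤
H^(3/2)`).  And `Y_q^(2/3)/q = Z^(2/3) q^(-1/3) rad(q)^(-2/3)`, `q^(-1/3) = q^(-1/6) q^(-1/6) ≤
D^(-1/6) rad(q)^(-1/3)`, so it is at most `Z^(2/3) D^(-1/6) / rad q`, and
`∑_q 1/rad q ≤ C3 H^(ε/6)` (`sum_inv_rad`).  Finally `1 + log H ≤ C4 H^(ε/6)`, `H^ε ≤ (Z H)^ε`. -/
theorem powtail (ε : ℝ) (hε : 0 < ε) : ∃ C : ℝ, 1 ≤ C ∧
    ∀ (Z : ℕ) (H D : ℝ) (S : Finset (ℕ × ℕ)), 1 ≤ Z → 1 ≤ H → 1 ≤ D →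
      (∀ s ∈ S, Cop s ∧ rad (ff s) ≤ Z ∧ ((s.1 + s.2 : ℕ) : ℝ) ≤ H ∧
        D ≤ (rest {1} (ff s) : ℝ)) →
      (S.card : ℝ) ≤ C * ((Z : ℝ) * H) ^ ε *
        (H ^ (3 / 2 : ℝ) + (Z : ℝ) ^ (2 / 3 : ℝ) / D ^ (1 / 6 : ℝ)) := by
  classical
  obtain ⟨δ, hδ⟩ : ∃ δ : ℝ, δ = ε / 13 := ⟨_, rfl⟩
  have hδ0 : 0 < δ := by rw [hδ]; positivity
  obtain ⟨C1, hC1, h1⟩ := Pool.Agent.Helper94.Abc.divisor_bound hδ0
  obtain ⟨C2, hC2, h2⟩ := rad_count δ hδ0
  obtain ⟨C3, hC3, h3⟩ := sum_inv_rad δ hδ0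
  obtain ⟨C4, hC4⟩ : ∃ C4 : ℝ, C4 = 1 + 1 / δ := ⟨_, rfl⟩
  have hC40 : 1 ≤ C4 := by rw [hC4]; have : 0 < 1 / δ := by positivity
                           linarith
  have hC1' : 1 ≤ max C1 1 := le_max_right _ _
  refine ⟨100 * (max C1 1) ^ 3 * C4 * (C2 + C3), ?_, ?_⟩
  · have e1 : (1 : ℝ) ≤ (max C1 1) ^ 3 := one_le_pow₀ hC1'
    have e2 : (1 : ℝ) ≤ C2 + C3 := by linarith
    have e3 : (1 : ℝ) ≤ 100 * (max C1 1) ^ 3 := by linarith
    have e4 : (1 : ℝ) ≤ 100 * (max C1 1) ^ 3 * C4 := one_le_mul_of_one_le_of_one_le e3 hC40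
    exact one_le_mul_of_one_le_of_one_le e4 e2
  intro Z H D S hZ hH hD hS
  have hH0 : 0 < H := by linarith
  have hZr : (1 : ℝ) ≤ Z := by exact_mod_cast hZ
  obtain ⟨K, hK⟩ : ∃ K : ℝ, K = max C1 1 := ⟨_, rfl⟩
  rw [← hK] at hC1' ⊢
  have hK0 : 0 < K := by linarith
  -- the data of one pair
  have hpos : ∀ s ∈ S, 0 < ff s := by
    intro s hs
    obtain ⟨⟨ha, hb, -⟩, -⟩ := hS s hs
    unfold ff
    positivity
  have hcop : ∀ s ∈ S, s.1.Coprime s.2 ∧ s.1.Coprime (s.1 + s.2) ∧ s.2.Coprime (s.1 + s.2) := by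
    intro s hs
    obtain ⟨⟨ha, hb, hc⟩, -⟩ := hS s hs
    refine ⟨hc, ?_, ?_⟩
    · simpa using hc
    · simpa using hc.symm
  have hquv : ∀ s ∈ S, rest {1} (ff s) =
      rest {1} s.1 * rest {1} s.2 * rest {1} (s.1 + s.2) := by
    intro s hs
    obtain ⟨⟨ha, hb, -⟩, -⟩ := hS s hs
    obtain ⟨c1, c2, c3⟩ := hcop s hs
    unfold ff
    rw [e3_rest_mul (Nat.Coprime.mul_left c2 c3),
      e3_rest_mul c1]
  have hffH : ∀ s ∈ S, (ff s : ℝ) ≤ H ^ 3 := by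
    intro s hs
    obtain ⟨⟨ha, hb, -⟩, -, h4, -⟩ := hS s hs
    push_cast at h4
    have e1 : (s.1 : ℝ) ≤ H := by
      have : (0 : ℝ) ≤ s.2 := Nat.cast_nonneg _
      linarith
    have e2 : (s.2 : ℝ) ≤ H := by
      have : (0 : ℝ) ≤ s.1 := Nat.cast_nonneg _
      linarith
    unfold ff
    push_cast
    calc (s.1 : ℝ) * s.2 * (s.1 + s.2) ≤ H * H * H :=
          mul_le_mul (mul_le_mul e1 e2 (Nat.cast_nonneg _) hH0.le) h4 (by positivity)
            (by positivity)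
      _ = H ^ 3 := by ring
  have hqle : ∀ s ∈ S, (rest {1} (ff s) : ℝ) ≤ H ^ 3 := by
    intro s hs
    have : (rest {1} (ff s) : ℝ) ≤ ff s := by
      exact_mod_cast Pool.Agent.Helper21.EN.rest_le (hpos s hs) {1}
    exact this.trans (hffH s hs)
  have hlog : 1 + Real.log H ≤ C4 * H ^ δ := by
    have e1 := Real.log_le_rpow_div hH0.le hδ0
    have e2 : (1 : ℝ) ≤ H ^ δ := Real.one_le_rpow hH hδ0.le
    rw [hC4]
    have e3 : H ^ δ / δ = 1 / δ * H ^ δ := by ring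
    rw [e3] at e1
    linarith
  have hlog0 : 0 ≤ Real.log H := Real.log_nonneg hH
  obtain ⟨X, hX⟩ : ∃ X : ℕ, X = ⌊H ^ 3⌋₊ := ⟨_, rfl⟩
  have hX1 : 1 ≤ X := by
    rw [hX]
    exact Nat.le_floor (by exact_mod_cast one_le_pow₀ hH)
  have hXH : (X : ℝ) ≤ H ^ 3 := by
    rw [hX]
    exact Nat.floor_le (by positivity)
  have hXδ : (X : ℝ) ^ δ ≤ H ^ (3 * δ) := by
    calc (X : ℝ) ^ δ ≤ (H ^ 3) ^ δ := Real.rpow_le_rpow (Nat.cast_nonneg _) hXH hδ0.le
      _ = H ^ (3 * δ) := by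
          rw [← Real.rpow_natCast H 3, ← Real.rpow_mul hH0.le]
          norm_num
  -- the set of the powerful parts
  obtain ⟨Q, hQ⟩ : ∃ Q : Finset ℕ, Q = S.image (fun s => rest {1} (ff s)) := ⟨_, rfl⟩
  have hQs : ∀ q ∈ Q, ∃ s ∈ S, rest {1} (ff s) = q := by
    intro q hq
    rw [hQ] at hq
    simpa using Finset.mem_image.1 hq
  have hQ1 : ∀ q ∈ Q, 0 < q ∧ q ≤ X ∧ (rad q : ℝ) ^ 2 ≤ q ∧ D ≤ (q : ℝ) ∧ 1 ≤ rad q := by
    intro q hq
    obtain ⟨s, hs, rfl⟩ := hQs q hq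
    refine ⟨Pool.Agent.Helper21.EN.rest_pos _ _, ?_, ?_, (hS s hs).2.2.2,
      Pool.Agent.Helper21.EN.rad_pos _⟩
    · rw [hX]
      exact Nat.le_floor (hqle s hs)
    · exact_mod_cast e3_rad_sq (ff s)
  -- the number of the parts
  have hQc : (Q.card : ℝ) ≤ C2 * H ^ (3 * δ) * H ^ (3 / 2 : ℝ) := by
    have e1 := h2 X (H ^ (3 / 2 : ℝ)) Q hX1 (by positivity) (by
      intro q hq
      obtain ⟨g1, g2, g3, -, -⟩ := hQ1 q hq
      refine ⟨g1, g2, ?_⟩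
      have g4 : (q : ℝ) ≤ H ^ 3 := le_trans (by exact_mod_cast g2) hXH
      have g5 : (rad q : ℝ) = ((rad q : ℝ) ^ 2) ^ (1 / 2 : ℝ) := by
        rw [← Real.rpow_natCast (rad q : ℝ) 2, ← Real.rpow_mul (Nat.cast_nonneg _)]
        norm_num
      have g6 : H ^ (3 / 2 : ℝ) = (H ^ 3) ^ (1 / 2 : ℝ) := by
        rw [← Real.rpow_natCast H 3, ← Real.rpow_mul hH0.le]
        norm_num
      rw [g5, g6]
      exact Real.rpow_le_rpow (by positivity) (g3.trans g4) (by norm_num))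
    refine e1.trans ?_
    exact mul_le_mul_of_nonneg_right (mul_le_mul_of_nonneg_left hXδ (by linarith)) (by positivity)
  have hQr : ∑ q ∈ Q, (1 : ℝ) / (rad q : ℝ) ≤ C3 * H ^ (3 * δ) := by
    refine (h3 X Q hX1 (fun q hq => ⟨(hQ1 q hq).1, (hQ1 q hq).2.1⟩)).trans ?_
    exact mul_le_mul_of_nonneg_left hXδ (by linarith)
  -- one triple
  have hfib : ∀ q ∈ Q, ∀ x : ℕ × ℕ × ℕ, x.1 * x.2.1 * x.2.2 = q →
      (((S.filter (fun s => rest {1} (ff s) = q)).filter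
        (fun s => (rest {1} s.1, rest {1} s.2, rest {1} (s.1 + s.2)) = x)).card : ℝ) ≤
      100 * (C4 * H ^ δ) * (1 + (Z : ℝ) ^ (2 / 3 : ℝ) / D ^ (1 / 6 : ℝ) * (1 / (rad q : ℝ))) := by
    rintro q hq ⟨u, v, w⟩ hx
    simp only at hx
    obtain ⟨g1, g2, g3, g4, g5⟩ := hQ1 q hq
    have g5r : (1 : ℝ) ≤ rad q := by exact_mod_cast g5
    have g1r : (1 : ℝ) ≤ q := by exact_mod_cast g1
    have hrq : (rad q : ℝ) ≤ q := by exact_mod_cast Pool.Agent.Helper21.EN.rad_le g1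
    have hmem : ∀ s ∈ (S.filter (fun s => rest {1} (ff s) = q)).filter
        (fun s => (rest {1} s.1, rest {1} s.2, rest {1} (s.1 + s.2)) = (u, v, w)),
        s ∈ S ∧ rest {1} (ff s) = q ∧ rest {1} s.1 = u ∧ rest {1} s.2 = v ∧
        rest {1} (s.1 + s.2) = w := by
      intro s hs
      obtain ⟨a1, a2⟩ := Finset.mem_filter.1 hs
      obtain ⟨a3, a4⟩ := Finset.mem_filter.1 a1
      simp only [Prod.mk.injEq] at a2
      exact ⟨a3, a4, a2.1, a2.2.1, a2.2.2⟩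
    have e1 := region q ((Z : ℝ) * q / rad q) H ((S.filter (fun s => rest {1} (ff s) = q)).filter
        (fun s => (rest {1} s.1, rest {1} s.2, rest {1} (s.1 + s.2)) = (u, v, w))) g1
      (by
        rw [le_div_iff₀ (by linarith)]
        calc 1 * (rad q : ℝ) ≤ 1 * q := by linarith
          _ ≤ Z * q := mul_le_mul_of_nonneg_right hZr (by linarith))
      hH (by
        intro s hs
        obtain ⟨a1, a2, -, -, -⟩ := hmem s hs
        obtain ⟨b1, b2, b3, b4⟩ := hS s a1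
        refine ⟨b1, ?_, b3⟩
        rw [le_div_iff₀ (by linarith)]
        have c1 := Pool.Agent.Helper21.EN.rest_mul_one (hpos s a1) 1
        have c2 := Pool.Agent.Helper21.EN.rad_rest_mul_one 1 (ff s)
        rw [a2, pow_one] at c1
        rw [a2] at c2
        have c3 : ff s * rad q = rad (ff s) * q := by
          rw [c2]
          nth_rewrite 1 [c1]
          ring
        have c4 : ff s * rad q ≤ Z * q := by
          rw [c3]
          exact Nat.mul_le_mul_right _ b2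
        exact_mod_cast c4) (by
        intro s hs t ht
        obtain ⟨a1, a2, a3, a4, a5⟩ := hmem s hs
        obtain ⟨b1, b2, b3, b4, b5⟩ := hmem t ht
        obtain ⟨c1, c2, c3⟩ := hcop s a1
        obtain ⟨⟨p1, p2, -⟩, -⟩ := hS s a1
        obtain ⟨⟨r1, r2, -⟩, -⟩ := hS t b1
        have du : u ∣ s.1 := by rw [← a3]; exact Pool.Agent.Helper21.EN.rest_dvd p1 _
        have dv : v ∣ s.2 := by rw [← a4]; exact Pool.Agent.Helper21.EN.rest_dvd p2 _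
        have dw : w ∣ s.1 + s.2 := by
          rw [← a5]; exact Pool.Agent.Helper21.EN.rest_dvd (by omega) _
        have du' : u ∣ t.1 := by rw [← b3]; exact Pool.Agent.Helper21.EN.rest_dvd r1 _
        have dv' : v ∣ t.2 := by rw [← b4]; exact Pool.Agent.Helper21.EN.rest_dvd r2 _
        have dw' : w ∣ t.1 + t.2 := by
          rw [← b5]; exact Pool.Agent.Helper21.EN.rest_dvd (by omega) _
        rw [← hx]
        exact det_dvd u v w (Nat.Coprime.of_dvd du dv c1) (Nat.Coprime.of_dvd du dw c2)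
          (Nat.Coprime.of_dvd dv dw c3) s t ⟨du, dv, dw⟩ ⟨du', dv', dw'⟩)
    refine e1.trans ?_
    have e2 := e3_ineq (Z : ℝ) q (rad q) D hZr g1r g5r hD g3 g4
    have e3 : 0 ≤ ((Z : ℝ) * q / rad q) ^ (2 / 3 : ℝ) / q := by positivity
    exact mul_le_mul (mul_le_mul_of_nonneg_left hlog (by norm_num)) (by linarith)
      (by linarith) (by positivity)
  -- one part
  have hpart : ∀ q ∈ Q, ((S.filter (fun s => rest {1} (ff s) = q)).card : ℝ) ≤
      K ^ 3 * H ^ (9 * δ) * (100 * (C4 * H ^ δ) *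
        (1 + (Z : ℝ) ^ (2 / 3 : ℝ) / D ^ (1 / 6 : ℝ) * (1 / (rad q : ℝ)))) := by
    intro q hq
    obtain ⟨g1, g2, g3, g4, g5⟩ := hQ1 q hq
    have hdiv : (q.divisors.card : ℝ) ≤ K * H ^ (3 * δ) := by
      refine (h1 q g1.ne').trans ?_
      have e1 : (q : ℝ) ^ δ ≤ (X : ℝ) ^ δ :=
        Real.rpow_le_rpow (Nat.cast_nonneg _) (by exact_mod_cast g2) hδ0.le
      have e2 : C1 ≤ K := by rw [hK]; exact le_max_left _ _
      calc C1 * (q : ℝ) ^ δ ≤ K * (q : ℝ) ^ δ := mul_le_mul_of_nonneg_right e2 (by positivity)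
        _ ≤ K * H ^ (3 * δ) := mul_le_mul_of_nonneg_left (e1.trans hXδ) hK0.le
    have e1 := e3_fib (S.filter (fun s => rest {1} (ff s) = q))
      (fun s => (rest {1} s.1, rest {1} s.2, rest {1} (s.1 + s.2)))
      (fun _ => 100 * (C4 * H ^ δ) *
        (1 + (Z : ℝ) ^ (2 / 3 : ℝ) / D ^ (1 / 6 : ℝ) * (1 / (rad q : ℝ)))) (by
        intro x hx
        obtain ⟨s, hs, rfl⟩ := Finset.mem_image.1 hx
        obtain ⟨a1, a2⟩ := Finset.mem_filter.1 hs
        refine hfib q hq _ ?_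
        simp only
        rw [← hquv s a1, a2])
    refine e1.trans ?_
    rw [Finset.sum_const, nsmul_eq_mul]
    refine mul_le_mul_of_nonneg_right ?_ (by positivity)
    have e2 : (S.filter (fun s => rest {1} (ff s) = q)).image
        (fun s => (rest {1} s.1, rest {1} s.2, rest {1} (s.1 + s.2))) ⊆
        q.divisors ×ˢ (q.divisors ×ˢ q.divisors) := by
      intro x hx
      obtain ⟨s, hs, rfl⟩ := Finset.mem_image.1 hx
      obtain ⟨a1, a2⟩ := Finset.mem_filter.1 hs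
      have a3 := hquv s a1
      rw [a2] at a3
      simp only [Finset.mem_product, Nat.mem_divisors]
      refine ⟨⟨?_, g1.ne'⟩, ⟨?_, g1.ne'⟩, ⟨?_, g1.ne'⟩⟩
      · rw [a3]; exact ⟨rest {1} s.2 * rest {1} (s.1 + s.2), by ring⟩
      · rw [a3]; exact ⟨rest {1} s.1 * rest {1} (s.1 + s.2), by ring⟩
      · rw [a3]; exact ⟨rest {1} s.1 * rest {1} s.2, by ring⟩
    have e3 := Finset.card_le_card e2
    rw [Finset.card_product, Finset.card_product] at e3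
    have e4 : (((S.filter (fun s => rest {1} (ff s) = q)).image
        (fun s => (rest {1} s.1, rest {1} s.2, rest {1} (s.1 + s.2)))).card : ℝ) ≤
        (q.divisors.card : ℝ) * ((q.divisors.card : ℝ) * (q.divisors.card : ℝ)) := by
      exact_mod_cast e3
    refine e4.trans ?_
    have e5 : (0 : ℝ) ≤ (q.divisors.card : ℝ) := Nat.cast_nonneg _
    calc (q.divisors.card : ℝ) * ((q.divisors.card : ℝ) * (q.divisors.card : ℝ)) ≤
          (K * H ^ (3 * δ)) * ((K * H ^ (3 * δ)) * (K * H ^ (3 * δ))) :=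
          mul_le_mul hdiv (mul_le_mul hdiv hdiv e5 (by positivity)) (by positivity)
            (by positivity)
      _ = K ^ 3 * (H ^ (3 * δ) * (H ^ (3 * δ) * H ^ (3 * δ))) := by ring
      _ = K ^ 3 * H ^ (9 * δ) := by
          rw [← Real.rpow_add hH0, ← Real.rpow_add hH0]
          congr 2
          ring
  have htot := e3_fib S (fun s => rest {1} (ff s)) (fun q => K ^ 3 * H ^ (9 * δ) *
    (100 * (C4 * H ^ δ) *
        (1 + (Z : ℝ) ^ (2 / 3 : ℝ) / D ^ (1 / 6 : ℝ) * (1 / (rad q : ℝ))))) (by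
      rw [← hQ]
      exact hpart)
  rw [← hQ] at htot
  refine htot.trans ?_
  obtain ⟨W, hW⟩ : ∃ W : ℝ, W = (Z : ℝ) ^ (2 / 3 : ℝ) / D ^ (1 / 6 : ℝ) := ⟨_, rfl⟩
  have hW0 : 0 ≤ W := by rw [hW]; positivity
  rw [← hW]
  rw [← Finset.mul_sum, ← Finset.mul_sum, Finset.sum_add_distrib, ← Finset.mul_sum,
    Finset.sum_const, nsmul_eq_mul, mul_one]
  have e1 : (Q.card : ℝ) + W * ∑ q ∈ Q, (1 : ℝ) / (rad q : ℝ) ≤
      (C2 + C3) * H ^ (3 * δ) * (H ^ (3 / 2 : ℝ) + W) := by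
    have e2 : W * ∑ q ∈ Q, (1 : ℝ) / (rad q : ℝ) ≤ W * (C3 * H ^ (3 * δ)) :=
      mul_le_mul_of_nonneg_left hQr hW0
    have e3 : 0 ≤ C3 * H ^ (3 * δ) * H ^ (3 / 2 : ℝ) := by positivity
    have e4 : 0 ≤ C2 * H ^ (3 * δ) * W := by positivity
    calc (Q.card : ℝ) + W * ∑ q ∈ Q, (1 : ℝ) / (rad q : ℝ) ≤
          C2 * H ^ (3 * δ) * H ^ (3 / 2 : ℝ) + W * (C3 * H ^ (3 * δ)) := add_le_add hQc e2
      _ ≤ C2 * H ^ (3 * δ) * H ^ (3 / 2 : ℝ) + W * (C3 * H ^ (3 * δ)) +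
          (C3 * H ^ (3 * δ) * H ^ (3 / 2 : ℝ) + C2 * H ^ (3 * δ) * W) := by linarith
      _ = (C2 + C3) * H ^ (3 * δ) * (H ^ (3 / 2 : ℝ) + W) := by ring
  calc K ^ 3 * H ^ (9 * δ) * (100 * (C4 * H ^ δ) *
        ((Q.card : ℝ) + W * ∑ q ∈ Q, (1 : ℝ) / (rad q : ℝ))) ≤
        K ^ 3 * H ^ (9 * δ) * (100 * (C4 * H ^ δ) *
        ((C2 + C3) * H ^ (3 * δ) * (H ^ (3 / 2 : ℝ) + W))) :=
        mul_le_mul_of_nonneg_left (mul_le_mul_of_nonneg_left e1 (by positivity)) (by positivity)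
    _ = 100 * K ^ 3 * C4 * (C2 + C3) * (H ^ (9 * δ) * H ^ δ * H ^ (3 * δ)) *
        (H ^ (3 / 2 : ℝ) + W) := by ring
    _ = 100 * K ^ 3 * C4 * (C2 + C3) * H ^ ε * (H ^ (3 / 2 : ℝ) + W) := by
        rw [← Real.rpow_add hH0, ← Real.rpow_add hH0]
        congr 3
        rw [hδ]
        ring
    _ ≤ 100 * K ^ 3 * C4 * (C2 + C3) * ((Z : ℝ) * H) ^ ε * (H ^ (3 / 2 : ℝ) + W) := by
        refine mul_le_mul_of_nonneg_right (mul_le_mul_of_nonneg_left ?_ (by positivity))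
          (by positivity)
        refine Real.rpow_le_rpow hH0.le ?_ hε.le
        calc H = 1 * H := (one_mul _).symm
          _ ≤ Z * H := mul_le_mul_of_nonneg_right hZr hH0.le

end Pool.Agent.Helper93.AR
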