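import Pool.Agent.Helper93.AR.Defs

set_option autoImplicit false

/-! # Project AR, piece F1: residue classes in a down-set -/

namespace Pool.Agent.Helper93.AR

open Finset

private theorem f1_le {Q a i : ℕ} (ha : 0 < a) (hi : i ≤ Q) (h : a ≡ i [MOD Q]) : i ≤ a := by
  by_contra hlt
  have h1 : Q ∣ i - a := (Nat.modEq_iff_dvd' (by omega)).1 h
  have h2 := Nat.le_of_dvd (by omega) h1
  omega

private theorem f1_modsub {Q a i i' : ℕ} (ha : 0 < a) (hi : i ≤ Q) (hii : i' ≤ i)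
    (h : a ≡ i [MOD Q]) : a - (i - i') ≡ i' [MOD Q] := by
  have h1 := f1_le ha hi h
  have h2 : a - (i - i') + (i - i') ≡ i' + (i - i') [MOD Q] := by
    rw [Nat.sub_add_cancel (by omega), Nat.add_sub_cancel' hii]
    exact h
  exact Nat.ModEq.add_right_cancel' _ h2

open scoped Classical in
private noncomputable def f1_N (R : Finset (ℕ × ℕ)) (Q i j : ℕ) : ℕ :=
  (R.filter (fun s => s.1 ≡ i [MOD Q] ∧ s.2 ≡ j [MOD Q])).card

private theorem f1_shift (R : Finset (ℕ × ℕ)) (hD : Down R) {Q i j i' j' : ℕ}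
    (hi : i ≤ Q) (hj : j ≤ Q) (hii : i' ≤ i) (hjj : j' ≤ j) (hi0 : 0 < i') (hj0 : 0 < j') :
    f1_N R Q i j ≤ f1_N R Q i' j' := by
  classical
  unfold f1_N
  refine Finset.card_le_card_of_injOn (fun s => (s.1 - (i - i'), s.2 - (j - j'))) ?_ ?_
  · intro s hs
    rw [Finset.mem_coe, Finset.mem_filter] at hs
    obtain ⟨hs, h1, h2⟩ := hs
    obtain ⟨p1, p2, hdn⟩ := hD s hs
    have l1 := f1_le p1 hi h1
    have l2 := f1_le p2 hj h2
    rw [Finset.mem_coe, Finset.mem_filter]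
    refine ⟨hdn _ ?_ ?_ ?_ ?_, f1_modsub p1 hi hii h1, f1_modsub p2 hj hjj h2⟩
    · change 0 < s.1 - (i - i')
      omega
    · change 0 < s.2 - (j - j')
      omega
    · exact Nat.sub_le _ _
    · exact Nat.sub_le _ _
  · intro s hs t ht hst
    rw [Finset.mem_coe, Finset.mem_filter] at hs ht
    obtain ⟨hs, h1, h2⟩ := hs
    obtain ⟨ht, h3, h4⟩ := ht
    have l1 := f1_le (hD s hs).1 hi h1
    have l2 := f1_le (hD s hs).2.1 hj h2
    have l3 := f1_le (hD t ht).1 hi h3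
    have l4 := f1_le (hD t ht).2.1 hj h4
    have e1 : s.1 - (i - i') = t.1 - (i - i') := congrArg Prod.fst hst
    have e2 : s.2 - (j - j') = t.2 - (j - j') := congrArg Prod.snd hst
    exact Prod.ext (by omega) (by omega)

private theorem f1_diag (R : Finset (ℕ × ℕ)) (hD : Down R) (H : ℕ)
    (hH : ∀ s ∈ R, s.1 ≤ H ∧ s.2 ≤ H) {Q : ℕ} (hQ : 0 < Q) :
    f1_N R Q 1 1 ≤ f1_N R Q Q Q + 2 * H := by
  classical
  unfold f1_N
  rw [← Finset.card_filter_add_card_filter_not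
    (s := R.filter (fun s => s.1 ≡ 1 [MOD Q] ∧ s.2 ≡ 1 [MOD Q]))
    (fun s => (s.1 + (Q - 1), s.2 + (Q - 1)) ∈ R)]
  refine Nat.add_le_add ?_ ?_
  · refine Finset.card_le_card_of_injOn (fun s => (s.1 + (Q - 1), s.2 + (Q - 1))) ?_ ?_
    · intro s hs
      rw [Finset.mem_coe, Finset.mem_filter, Finset.mem_filter] at hs
      obtain ⟨⟨_, h1, h2⟩, h3⟩ := hs
      rw [Finset.mem_coe, Finset.mem_filter]
      refine ⟨h3, ?_, ?_⟩
      · have h4 := h1.add_right (Q - 1)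
        rwa [Nat.add_sub_cancel' hQ] at h4
      · have h4 := h2.add_right (Q - 1)
        rwa [Nat.add_sub_cancel' hQ] at h4
    · intro s _ t _ hst
      have e1 : s.1 + (Q - 1) = t.1 + (Q - 1) := congrArg Prod.fst hst
      have e2 : s.2 + (Q - 1) = t.2 + (Q - 1) := congrArg Prod.snd hst
      exact Prod.ext (by omega) (by omega)
  · have hr : (Finset.range (2 * H)).card = 2 * H := Finset.card_range _
    rw [← hr]
    have key : ∀ s t : ℕ × ℕ, s ∈ R → s.1 ≡ 1 [MOD Q] → (s.1 + (Q - 1), s.2 + (Q - 1)) ∉ R →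
        t ∈ R → t.1 ≡ 1 [MOD Q] → s.1 + H - s.2 = t.1 + H - t.2 → ¬ s.1 < t.1 := by
      intro s t hs h1 h3 ht h4 hst hlt
      obtain ⟨a1, a2⟩ := hH s hs
      obtain ⟨b1, b2⟩ := hH t ht
      obtain ⟨p1, p2, -⟩ := hD s hs
      obtain ⟨-, -, hdn⟩ := hD t ht
      have h5 : Q ∣ t.1 - s.1 := (Nat.modEq_iff_dvd' hlt.le).1 (h1.trans h4.symm)
      have h6 := Nat.le_of_dvd (by omega) h5
      refine h3 (hdn _ ?_ ?_ ?_ ?_)
      · change 0 < s.1 + (Q - 1)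
        omega
      · change 0 < s.2 + (Q - 1)
        omega
      · change s.1 + (Q - 1) ≤ t.1
        omega
      · change s.2 + (Q - 1) ≤ t.2
        omega
    refine Finset.card_le_card_of_injOn (fun s => s.1 + H - s.2) ?_ ?_
    · intro s hs
      rw [Finset.mem_coe, Finset.mem_filter, Finset.mem_filter] at hs
      obtain ⟨⟨hs, _, _⟩, _⟩ := hs
      obtain ⟨a1, a2⟩ := hH s hs
      obtain ⟨p1, p2, -⟩ := hD s hs
      rw [Finset.mem_coe, Finset.mem_range]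
      change s.1 + H - s.2 < 2 * H
      omega
    · intro s hs t ht hst
      rw [Finset.mem_coe, Finset.mem_filter, Finset.mem_filter] at hs ht
      obtain ⟨⟨hs, h1, h2⟩, h3⟩ := hs
      obtain ⟨⟨ht, h4, h5⟩, h6⟩ := ht
      have e : s.1 + H - s.2 = t.1 + H - t.2 := hst
      obtain ⟨a1, a2⟩ := hH s hs
      obtain ⟨b1, b2⟩ := hH t ht
      have k1 := key s t hs h1 h3 ht h4 e
      have k2 := key t s ht h4 h6 hs h1 e.symm
      exact Prod.ext (by omega) (by omega)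

private def f1_rep (Q a : ℕ) : ℕ := (a - 1) % Q + 1

private theorem f1_rep_mem {Q : ℕ} (hQ : 0 < Q) (a : ℕ) : f1_rep Q a ∈ Icc 1 Q := by
  rw [Finset.mem_Icc, f1_rep]
  have := Nat.mod_lt (a - 1) hQ
  omega

private theorem f1_rep_mod {Q a : ℕ} (ha : 0 < a) : a ≡ f1_rep Q a [MOD Q] := by
  have h1 : a - 1 ≡ (a - 1) % Q [MOD Q] := (Nat.mod_modEq _ _).symm
  have h2 := h1.add_right 1
  rwa [Nat.sub_add_cancel ha] at h2

private theorem f1_uniq {Q i i' : ℕ} (hi : i ∈ Icc 1 Q) (hi' : i' ∈ Icc 1 Q)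
    (h : i ≡ i' [MOD Q]) : i = i' := by
  rw [Finset.mem_Icc] at hi hi'
  have h1 := f1_le hi.1 hi'.2 h
  have h2 := f1_le hi'.1 hi.2 h.symm
  omega

open scoped Classical in
private theorem f1_sum (R : Finset (ℕ × ℕ)) (hD : Down R) {Q : ℕ} (hQ : 0 < Q)
    (P : ℕ × ℕ → Prop)
    (hP : ∀ a b a' b' : ℕ, 0 < a → 0 < b → 0 < a' → 0 < b' → a ≡ a' [MOD Q] → b ≡ b' [MOD Q] →
      (P (a, b) ↔ P (a', b'))) :
    (R.filter P).card = ∑ x ∈ (Icc 1 Q ×ˢ Icc 1 Q).filter P, f1_N R Q x.1 x.2 := by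
  rw [Finset.card_eq_sum_card_fiberwise (f := fun s => (f1_rep Q s.1, f1_rep Q s.2))
    (t := (Icc 1 Q ×ˢ Icc 1 Q).filter P)]
  · refine Finset.sum_congr rfl fun x hx => ?_
    rw [Finset.mem_filter, Finset.mem_product] at hx
    obtain ⟨⟨hx1, hx2⟩, hPx⟩ := hx
    have q1 := (Finset.mem_Icc.1 hx1).1
    have q2 := (Finset.mem_Icc.1 hx2).1
    unfold f1_N
    congr 1
    ext s
    rw [Finset.mem_filter, Finset.mem_filter, Finset.mem_filter]
    constructor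
    · rintro ⟨⟨hs, _⟩, he⟩
      obtain ⟨p1, p2, -⟩ := hD s hs
      have e1 : f1_rep Q s.1 = x.1 := congrArg Prod.fst he
      have e2 : f1_rep Q s.2 = x.2 := congrArg Prod.snd he
      refine ⟨hs, ?_, ?_⟩
      · rw [← e1]
        exact f1_rep_mod p1
      · rw [← e2]
        exact f1_rep_mod p2
    · rintro ⟨hs, h1, h2⟩
      obtain ⟨p1, p2, -⟩ := hD s hs
      refine ⟨⟨hs, ?_⟩, ?_⟩
      · exact (hP s.1 s.2 x.1 x.2 p1 p2 q1 q2 h1 h2).2 hPx
      · refine Prod.ext ?_ ?_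
        · exact f1_uniq (f1_rep_mem hQ _) hx1 ((f1_rep_mod p1).symm.trans h1)
        · exact f1_uniq (f1_rep_mem hQ _) hx2 ((f1_rep_mod p2).symm.trans h2)
  · intro s hs
    rw [Finset.mem_coe, Finset.mem_filter] at hs
    obtain ⟨hs, hPs⟩ := hs
    obtain ⟨p1, p2, -⟩ := hD s hs
    rw [Finset.mem_coe, Finset.mem_filter, Finset.mem_product]
    refine ⟨⟨f1_rep_mem hQ _, f1_rep_mem hQ _⟩, ?_⟩
    have m1 := (Finset.mem_Icc.1 (f1_rep_mem hQ s.1)).1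
    have m2 := (Finset.mem_Icc.1 (f1_rep_mem hQ s.2)).1
    exact (hP s.1 s.2 _ _ p1 p2 m1 m2 (f1_rep_mod p1) (f1_rep_mod p2)).1 hPs

open scoped Classical in
/-- PIECE AR-F1 (the whole file, 180 lines).  All residue classes of pairs contain nearly the same
number of elements of a down-set.
PROOF.  Let `N(i, j)` be the number for the class `(i, j)`, `1 ≤ i, j ≤ Q`.
`N(Q,Q) ≤ N(i,j) ≤ N(1,1)`: the map `(a,b) ↦ (a - (Q-i), b - (Q-j))` sends the class `(Q,Q)` to the class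
`(i,j)`, stays positive (`a ≥ Q` for a positive `a ≡ 0`), is injective and keeps us in the down-set;
the same for `(a,b) ↦ (a - (i-1), b - (j-1))` from the class `(i,j)` to the class `(1,1)` (`a ≥ i`).
`N(1,1) - N(Q,Q) ≤ 2 H`: the map `(a,b) ↦ (a+Q-1, b+Q-1)` sends the elements of the class `(1,1)` whose
image is in `R` injectively into the class `(Q,Q)`; the elements whose image is not in `R` have
different values of `a - b ∈ (-H, H)` (`a + H - b ∈ [1, 2H)`): if `a - b = a' - b'`, `a < a'`, then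
`a' ≥ a + Q`, `b' ≥ b + Q`, and `(a+Q-1, b+Q-1) ≤ (a', b') ∈ R`, a contradiction.
`|R| = ∑ N(i,j)` over the `Q^2` classes (every positive integer is congruent to exactly one element
of `[1, Q]`), so `|R|/Q^2` lies between `N(Q,Q)` and `N(1,1)`, as does `N(i,j)`. -/
theorem classcount (R : Finset (ℕ × ℕ)) (hD : Down R) (H : ℕ) (hH : ∀ s ∈ R, s.1 ≤ H ∧ s.2 ≤ H)
    (Q : ℕ) (hQ : 0 < Q) (i j : ℕ) (hi : i ∈ Icc 1 Q) (hj : j ∈ Icc 1 Q) :
    |((R.filter (fun s => s.1 ≡ i [MOD Q] ∧ s.2 ≡ j [MOD Q])).card : ℝ) -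
      (R.card : ℝ) / (Q : ℝ) ^ 2| ≤ 2 * H := by
  rw [Finset.mem_Icc] at hi hj
  have h1 : f1_N R Q Q Q ≤ f1_N R Q i j := f1_shift R hD le_rfl le_rfl hi.2 hj.2 hi.1 hj.1
  have h2 : f1_N R Q i j ≤ f1_N R Q 1 1 := f1_shift R hD hi.2 hj.2 hi.1 hj.1 one_pos one_pos
  have h3 := f1_diag R hD H hH hQ
  have h4 := f1_sum R hD hQ (fun _ => True) (fun _ _ _ _ _ _ _ _ _ _ => Iff.rfl)
  simp only [Finset.filter_true] at h4
  have hc : ((Icc 1 Q ×ˢ Icc 1 Q).card : ℕ) = Q ^ 2 := by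
    rw [Finset.card_product, Nat.card_Icc, Nat.add_sub_cancel, pow_two]
  have h5 : Q ^ 2 * f1_N R Q Q Q ≤ R.card := by
    rw [h4, ← hc, ← smul_eq_mul]
    refine Finset.card_nsmul_le_sum _ _ _ fun x hx => ?_
    rw [Finset.mem_product, Finset.mem_Icc, Finset.mem_Icc] at hx
    exact f1_shift R hD le_rfl le_rfl hx.1.2 hx.2.2 hx.1.1 hx.2.1
  have h6 : R.card ≤ Q ^ 2 * f1_N R Q 1 1 := by
    rw [h4, ← hc, ← smul_eq_mul]
    refine Finset.sum_le_card_nsmul _ _ _ fun x hx => ?_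
    rw [Finset.mem_product, Finset.mem_Icc, Finset.mem_Icc] at hx
    exact f1_shift R hD hx.1.2 hx.2.2 hx.1.1 hx.2.1 one_pos one_pos
  change |(f1_N R Q i j : ℝ) - (R.card : ℝ) / (Q : ℝ) ^ 2| ≤ 2 * H
  have hQ' : (0 : ℝ) < (Q : ℝ) ^ 2 := by positivity
  have h1' : (f1_N R Q Q Q : ℝ) ≤ f1_N R Q i j := by exact_mod_cast h1
  have h2' : (f1_N R Q i j : ℝ) ≤ f1_N R Q 1 1 := by exact_mod_cast h2
  have h3' : (f1_N R Q 1 1 : ℝ) ≤ f1_N R Q Q Q + 2 * H := by exact_mod_cast h3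
  have h5' : (f1_N R Q Q Q : ℝ) ≤ (R.card : ℝ) / (Q : ℝ) ^ 2 := by
    rw [le_div_iff₀ hQ', mul_comm]
    exact_mod_cast h5
  have h6' : (R.card : ℝ) / (Q : ℝ) ^ 2 ≤ f1_N R Q 1 1 := by
    rw [div_le_iff₀ hQ', mul_comm]
    exact_mod_cast h6
  rw [abs_le]
  constructor <;> linarith

open scoped Classical in
/-- The same for a periodic condition.
PROOF.  `R.filter P` is the disjoint union over the `(i,j) ∈ [1,Q]^2` with `P (i,j)` of the classes;
sum `classcount` over at most `Q^2` classes. -/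
theorem classset (R : Finset (ℕ × ℕ)) (hD : Down R) (H : ℕ) (hH : ∀ s ∈ R, s.1 ≤ H ∧ s.2 ≤ H)
    (Q : ℕ) (hQ : 0 < Q) (P : ℕ × ℕ → Prop)
    (hP : ∀ a b a' b' : ℕ, 0 < a → 0 < b → 0 < a' → 0 < b' → a ≡ a' [MOD Q] → b ≡ b' [MOD Q] →
      (P (a, b) ↔ P (a', b'))) :
    |((R.filter P).card : ℝ) -
      (((Icc 1 Q ×ˢ Icc 1 Q).filter P).card : ℝ) / (Q : ℝ) ^ 2 * (R.card : ℝ)| ≤
      2 * H * (Q : ℝ) ^ 2 := by
  have h1 := f1_sum R hD hQ P hP
  have h2 : ((R.filter P).card : ℝ) -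
      (((Icc 1 Q ×ˢ Icc 1 Q).filter P).card : ℝ) / (Q : ℝ) ^ 2 * (R.card : ℝ) =
      ∑ x ∈ (Icc 1 Q ×ˢ Icc 1 Q).filter P,
        ((f1_N R Q x.1 x.2 : ℝ) - (R.card : ℝ) / (Q : ℝ) ^ 2) := by
    rw [Finset.sum_sub_distrib, Finset.sum_const, nsmul_eq_mul, h1]
    push_cast
    ring
  rw [h2]
  refine (Finset.abs_sum_le_sum_abs _ _).trans ?_
  have h3 : ∀ x ∈ (Icc 1 Q ×ˢ Icc 1 Q).filter P,
      |(f1_N R Q x.1 x.2 : ℝ) - (R.card : ℝ) / (Q : ℝ) ^ 2| ≤ 2 * H := by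
    intro x hx
    rw [Finset.mem_filter, Finset.mem_product] at hx
    exact classcount R hD H hH Q hQ x.1 x.2 hx.1.1 hx.1.2
  refine (Finset.sum_le_card_nsmul _ _ _ h3).trans ?_
  rw [nsmul_eq_mul, mul_comm]
  have h4 : ((Icc 1 Q ×ˢ Icc 1 Q).filter P).card ≤ Q ^ 2 := by
    refine (Finset.card_filter_le _ _).trans (le_of_eq ?_)
    rw [Finset.card_product, Nat.card_Icc, Nat.add_sub_cancel, pow_two]
  have h5 : (((Icc 1 Q ×ˢ Icc 1 Q).filter P).card : ℝ) ≤ (Q : ℝ) ^ 2 := by exact_mod_cast h4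
  exact mul_le_mul_of_nonneg_left h5 (by positivity)

/-- PROOF.  `ff` is monotone. -/
theorem down_reg (Y H : ℝ) : Down (Reg Y H) := by
  classical
  intro s hs
  unfold Reg at hs
  rw [Finset.mem_filter, Finset.mem_product, Finset.mem_Icc, Finset.mem_Icc] at hs
  obtain ⟨⟨⟨h1, h2⟩, h3, h4⟩, h5, h6⟩ := hs
  refine ⟨h1, h3, fun t ht1 ht2 hl1 hl2 => ?_⟩
  unfold Reg
  rw [Finset.mem_filter, Finset.mem_product, Finset.mem_Icc, Finset.mem_Icc]
  refine ⟨⟨⟨ht1, hl1.trans h2⟩, ht2, hl2.trans h4⟩, ?_, ?_⟩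
  · refine le_trans ?_ h5
    have h7 : ff t ≤ ff s := Nat.mul_le_mul (Nat.mul_le_mul hl1 hl2) (Nat.add_le_add hl1 hl2)
    exact_mod_cast h7
  · refine le_trans ?_ h6
    have h7 : t.1 + t.2 ≤ s.1 + s.2 := Nat.add_le_add hl1 hl2
    exact_mod_cast h7

end Pool.Agent.Helper93.AR
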