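import Pool.Agent.Helper93.AR.A2

set_option autoImplicit false

/-! # Project AR, piece F2: Moebius function and squares, local conditions -/

namespace Pool.Agent.Helper93.AR

open Finset
open Pool.Agent.Helper21.EN (rad pc rest Tri)

private theorem f2_split (q : ℕ) : ∀ m : ℕ, 0 < m → ∃ m1 g : ℕ, m = m1 * g ∧ m1.Coprime q ∧
    ∀ p : ℕ, p.Prime → p ∣ g → p ∣ q := by
  intro m
  induction m using Nat.strong_induction_on with
  | _ m ih =>
    intro hm
    by_cases hc : m.Coprime q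
    · refine ⟨m, 1, by rw [mul_one], hc, fun p hp hp1 => ?_⟩
      exact absurd (Nat.dvd_one.1 hp1) hp.one_lt.ne'
    · obtain ⟨p, hp, hpm, hpq⟩ := Nat.Prime.not_coprime_iff_dvd.1 hc
      obtain ⟨k, rfl⟩ := hpm
      have hk : 0 < k := by
        rcases Nat.eq_zero_or_pos k with h0 | h0
        · rw [h0, mul_zero] at hm
          exact absurd hm (lt_irrefl _)
        · exact h0
      have hlt : k < p * k := by
        have h1 := hp.two_le
        nlinarith
      obtain ⟨m1, g, h1, h2, h3⟩ := ih k hlt hk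
      refine ⟨m1, p * g, by rw [h1]; ring, h2, fun r hr hrg => ?_⟩
      rcases (Nat.Prime.dvd_mul hr).1 hrg with h4 | h4
      · rw [(Nat.prime_dvd_prime_iff_eq hr hp).1 h4]
        exact hpq
      · exact h3 r hr h4

private theorem f2_sq_dvd (e m r : ℕ) (hm : 0 < m) (hr : Squarefree r) :
    e ^ 2 ∣ m ^ 2 * r ↔ e ∣ m := by
  constructor
  · intro h
    have hr0 : r ≠ 0 := hr.ne_zero
    have hm0 : m ≠ 0 := hm.ne'
    have hn0 : m ^ 2 * r ≠ 0 := mul_ne_zero (pow_ne_zero _ hm0) hr0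
    have he0 : e ≠ 0 := by
      rintro rfl
      rw [zero_pow two_ne_zero, zero_dvd_iff] at h
      exact hn0 h
    rw [← Nat.factorization_le_iff_dvd he0 hm0]
    intro p
    have h1 := (Nat.factorization_le_iff_dvd (pow_ne_zero 2 he0) hn0).2 h p
    rw [Nat.factorization_mul (pow_ne_zero _ hm0) hr0, Nat.factorization_pow,
      Nat.factorization_pow] at h1
    simp only [Finsupp.coe_add, Finsupp.coe_smul, Pi.add_apply, Pi.smul_apply, smul_eq_mul] at h1
    have h2 := hr.natFactorization_le_one p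
    omega
  · intro h
    exact Dvd.dvd.mul_right (pow_dvd_pow_of_dvd h 2) r

open scoped Classical in
/-- PIECE AR-F2 (the whole file, 200 lines).
PROOF.  Write `n = m^2 r`, `r` squarefree (`Nat.sq_mul_squarefree`).  For `e ≥ 1`: `e^2 ∣ n` iff `e ∣ m`
(valuations: `2 v(e) ≤ 2 v(m) + v(r)`, `v(r) ≤ 1`).  Let `m1` be the largest divisor of `m` prime to
`q` (e.g. the product over the primes `p ∣ m`, `p ∤ q` of `p^(v_p m)`); `e ∣ m` and `e` prime to `q` iff
`e ∣ m1`.  `∑_(e ∣ m1) μ(e) = 1` if `m1 = 1`, else `0` (`ArithmeticFunction.sum_moebius..`,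
`ArithmeticFunction.coe_zeta_mul_moebius`/`moebius_mul_coe_zeta`).  `m1 = 1` iff every prime divisor of
`m` divides `q` iff every prime `p` with `p^2 ∣ n` divides `q`.  (If the sum over `e ≤ n` is
inconvenient: all `e` with `e^2 ∣ n` are `≤ n`.) -/
theorem moebius_sq (n q : ℕ) (hn : 0 < n) (hq : 0 < q) :
    ∑ e ∈ (Icc 1 n).filter (fun e => e ^ 2 ∣ n ∧ e.Coprime q),
      (ArithmeticFunction.moebius e : ℝ) =
    if (∀ p : ℕ, p.Prime → p ^ 2 ∣ n → p ∣ q) then 1 else 0 := by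
  obtain ⟨r, m, hmr, hr⟩ := Nat.sq_mul_squarefree n
  have hm : 0 < m := by
    rcases Nat.eq_zero_or_pos m with h0 | h0
    · rw [h0] at hmr
      simp at hmr
      omega
    · exact h0
  obtain ⟨m1, g, hm1, hcop, hg⟩ := f2_split q m hm
  have hm10 : m1 ≠ 0 := by
    rintro rfl
    rw [zero_mul] at hm1
    omega
  have hdvd : ∀ e : ℕ, e ^ 2 ∣ n ↔ e ∣ m := fun e => by
    rw [← hmr]
    exact f2_sq_dvd e m r hm hr
  have hset : (Icc 1 n).filter (fun e => e ^ 2 ∣ n ∧ e.Coprime q) = m1.divisors := by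
    ext e
    rw [mem_filter, mem_Icc, Nat.mem_divisors, hdvd]
    constructor
    · rintro ⟨-, h1, h2⟩
      refine ⟨?_, hm10⟩
      rw [hm1] at h1
      refine Nat.Coprime.dvd_of_dvd_mul_right ?_ h1
      rw [Nat.coprime_iff_gcd_eq_one]
      by_contra hne
      obtain ⟨p, hp, hpd⟩ := Nat.exists_prime_and_dvd hne
      have h3 : p ∣ e := hpd.trans (Nat.gcd_dvd_left _ _)
      have h4 : p ∣ g := hpd.trans (Nat.gcd_dvd_right _ _)
      exact Nat.not_coprime_of_dvd_of_dvd hp.one_lt h3 (hg p hp h4) h2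
    · rintro ⟨h1, -⟩
      have h2 : e ∣ m := by
        rw [hm1]
        exact Dvd.dvd.mul_right h1 g
      have h3 : e ^ 2 ∣ n := (hdvd e).2 h2
      have h4 : 0 < e := Nat.pos_of_ne_zero (by
        rintro rfl
        rw [zero_dvd_iff] at h1
        exact hm10 h1)
      have h5 : e ≤ n := by
        have h6 := Nat.le_of_dvd hn h3
        nlinarith
      exact ⟨⟨h4, h5⟩, h2, Nat.Coprime.coprime_dvd_left h1 hcop⟩
  have hsum : ∑ e ∈ m1.divisors, (ArithmeticFunction.moebius e : ℝ) =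
      if m1 = 1 then 1 else 0 := by
    have h1 : ∑ e ∈ m1.divisors, ArithmeticFunction.moebius e = if m1 = 1 then 1 else 0 := by
      rw [← ArithmeticFunction.coe_mul_zeta_apply, ArithmeticFunction.moebius_mul_coe_zeta,
        ArithmeticFunction.one_apply]
    have h2 : ((∑ e ∈ m1.divisors, ArithmeticFunction.moebius e : ℤ) : ℝ) =
        ((if m1 = 1 then 1 else 0 : ℤ) : ℝ) := by rw [h1]
    push_cast at h2
    exact h2
  rw [hset, hsum]
  have hiff : m1 = 1 ↔ ∀ p : ℕ, p.Prime → p ^ 2 ∣ n → p ∣ q := by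
    constructor
    · intro h1 p hp hpn
      rw [hdvd, hm1, h1, one_mul] at hpn
      exact hg p hp hpn
    · intro h1
      by_contra hne
      obtain ⟨p, hp, hpd⟩ := Nat.exists_prime_and_dvd hne
      have h2 : p ∣ m := by
        rw [hm1]
        exact Dvd.dvd.mul_right hpd g
      exact Nat.not_coprime_of_dvd_of_dvd hp.one_lt hpd (h1 p hp ((hdvd p).2 h2)) hcop
  by_cases h : m1 = 1
  · rw [if_pos h, if_pos (hiff.1 h)]
  · rw [if_neg h, if_neg (fun h2 => h (hiff.2 h2))]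

open scoped Classical in
/-- The truncated sum.
PROOF.  The difference with `moebius_sq` is the sum over the `e > E` (or minus the sum over the `e ∈
(n, E]`, which is empty as `e^2 ∣ n` implies `e ≤ n`), of size at most the number of `e` with
`e^2 ∣ n` (`sq_div`), and zero if there is no `e > E` with `e^2 ∣ n`. -/
theorem moebius_trunc (ε : ℝ) (hε : 0 < ε) : ∃ C : ℝ, 1 ≤ C ∧ ∀ n q E : ℕ, 0 < n → 0 < q →
    |(if (∀ p : ℕ, p.Prime → p ^ 2 ∣ n → p ∣ q) then (1 : ℝ) else 0) -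
      ∑ e ∈ (Icc 1 E).filter (fun e => e ^ 2 ∣ n ∧ e.Coprime q),
        (ArithmeticFunction.moebius e : ℝ)| ≤
    if (∃ e : ℕ, E < e ∧ e ^ 2 ∣ n) then C * (n : ℝ) ^ ε else 0 := by
  obtain ⟨C, hC, hsq⟩ := sq_div ε hε
  refine ⟨C, hC, fun n q E hn hq => ?_⟩
  rw [← moebius_sq n q hn hq]
  have hsub : (Icc 1 E).filter (fun e => e ^ 2 ∣ n ∧ e.Coprime q) ⊆
      (Icc 1 n).filter (fun e => e ^ 2 ∣ n ∧ e.Coprime q) := by
    intro e he
    rw [mem_filter, mem_Icc] at he ⊢
    refine ⟨⟨he.1.1, ?_⟩, he.2⟩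
    have h6 := Nat.le_of_dvd hn he.2.1
    nlinarith [he.1.1]
  rw [← sum_sdiff hsub, add_sub_cancel_right]
  have hmem : ∀ e ∈ (Icc 1 n).filter (fun e => e ^ 2 ∣ n ∧ e.Coprime q) \
      (Icc 1 E).filter (fun e => e ^ 2 ∣ n ∧ e.Coprime q), e ^ 2 ∣ n ∧ E < e := by
    intro e he
    rw [mem_sdiff, mem_filter, mem_filter, mem_Icc, mem_Icc] at he
    refine ⟨he.1.2.1, ?_⟩
    by_contra hle
    exact he.2 ⟨⟨he.1.1.1, not_lt.1 hle⟩, he.1.2⟩
  split_ifs with hex
  · refine le_trans ?_ (hsq n _ hn (fun e he => (hmem e he).1))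
    refine (abs_sum_le_sum_abs _ _).trans ?_
    rw [card_eq_sum_ones, Nat.cast_sum]
    refine sum_le_sum fun e _ => ?_
    have h1 : |ArithmeticFunction.moebius e| ≤ 1 := ArithmeticFunction.abs_moebius_le_one
    have h2 : ((|ArithmeticFunction.moebius e| : ℤ) : ℝ) ≤ ((1 : ℤ) : ℝ) := by exact_mod_cast h1
    rw [Int.cast_abs] at h2
    simpa using h2
  · rw [sum_eq_zero, abs_zero]
    intro e he
    exact absurd ⟨e, (hmem e he).2, (hmem e he).1⟩ hex

private theorem f2_fac_prod (s : Finset ℕ) (hs : ∀ p ∈ s, p.Prime) (e : ℕ → ℕ) (p : ℕ) :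
    (∏ r ∈ s, r ^ e r).factorization p = if p ∈ s then e p else 0 := by
  classical
  rw [Nat.factorization_prod (fun r hr => pow_ne_zero _ (hs r hr).ne_zero)]
  rw [Finsupp.finsetSum_apply]
  rw [Finset.sum_congr rfl (fun r hr => by rw [(hs r hr).factorization_pow,
    Finsupp.single_apply])]
  simp

private theorem f2_fac_rest (n p : ℕ) :
    (rest {1} n).factorization p = if n.factorization p = 1 then 0 else n.factorization p := by
  classical
  unfold Pool.Agent.Helper21.EN.rest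
  rw [f2_fac_prod _ (fun r hr => Nat.prime_of_mem_primeFactors (mem_filter.1 hr).1)]
  by_cases h1 : n.factorization p = 1
  · rw [if_pos h1, if_neg]
    intro h
    exact (mem_filter.1 h).2 (by rw [h1]; exact mem_singleton_self 1)
  · rw [if_neg h1]
    by_cases h2 : p ∈ n.primeFactors
    · rw [if_pos]
      exact mem_filter.2 ⟨h2, fun h => h1 (mem_singleton.1 h)⟩
    · rw [if_neg (fun h => h2 (mem_filter.1 h).1)]
      rw [← Nat.support_factorization, Finsupp.notMem_support_iff] at h2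
      exact h2.symm

private theorem f2_mul_dvd {p q n : ℕ} (hp : p.Prime) (hq : 0 < q) (hn : 0 < n) (hqn : q ∣ n)
    (h : q.factorization p < n.factorization p) : p * q ∣ n := by
  rw [← Nat.factorization_le_iff_dvd (mul_ne_zero hp.ne_zero hq.ne') hn.ne']
  intro r
  have h1 := (Nat.factorization_le_iff_dvd hq.ne' hn.ne').2 hqn r
  rw [Nat.factorization_mul hp.ne_zero hq.ne', Finsupp.add_apply, hp.factorization,
    Finsupp.single_apply]
  split_ifs with hpr
  · subst hpr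
    omega
  · omega

private theorem f2_ff_pos {s : ℕ × ℕ} (h1 : 0 < s.1) (h2 : 0 < s.2) : 0 < ff s := by
  unfold ff
  positivity

/-- PROOF.  (→) `gcd = 1`; `q = rest {1} (ff s) ∣ ff s`; for `p ∣ q`: `v_p(q) = v_p(ff s)`
(`factorization` of `rest`), so `p q ∤ ff s`; `p^2 ∣ ff s` means exponent `≥ 2`, so `p ∣ q`
(`EN.primeFactors_rest`).  (←) If a prime `p` divides `a` and `b`, then `p^3 ∣ ff s`, so `p^2 ∣ ff s`,
`p ∣ q`, contradiction with the coprimality of `gcd a b` and `q`.  So `Cop s`.  For a prime `p`: if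
`p ∣ q` then `v_p(ff s) ≥ v_p(q)` (`q ∣ ff s`) and not `≥ v_p(q) + 1` (`p q ∤ ff s`; if `v_p(ff s) ≥
v_p(q)+1` and `q ∣ ff s` then `p q ∣ ff s`, e.g. by `Nat.factorization_le_iff_dvd`), and
`v_p(q) ≥ 2` as `rest {1} q = q`; if `p ∤ q` then `v_p(ff s) ≤ 1`.  So `rest {1} (ff s) = q`
(`Nat.eq_of_factorization_eq`). -/
theorem loc_iff (q : ℕ) (hq : 0 < q) (hpow : rest {1} q = q) (s : ℕ × ℕ) (h1 : 0 < s.1)
    (h2 : 0 < s.2) : (Cop s ∧ rest {1} (ff s) = q) ↔
      (Loc q s ∧ ∀ p : ℕ, p.Prime → p ^ 2 ∣ ff s → p ∣ q) := by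
  have hn : 0 < ff s := f2_ff_pos h1 h2
  constructor
  · rintro ⟨⟨-, -, hc⟩, hr⟩
    have hfac : ∀ p : ℕ, q.factorization p =
        if (ff s).factorization p = 1 then 0 else (ff s).factorization p := fun p => by
      rw [← f2_fac_rest, hr]
    refine ⟨⟨?_, ?_, ?_⟩, ?_⟩
    · rw [Nat.coprime_iff_gcd_eq_one.1 hc]
      exact Nat.coprime_one_left q
    · rw [← hr]
      exact Pool.Agent.Helper21.EN.rest_dvd hn _
    · intro p hp hd
      have hpp := Nat.prime_of_mem_primeFactors hp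
      have hpq := Nat.dvd_of_mem_primeFactors hp
      have h3 := (Nat.factorization_le_iff_dvd (mul_ne_zero hpp.ne_zero hq.ne') hn.ne').2 hd p
      rw [Nat.factorization_mul hpp.ne_zero hq.ne', Finsupp.add_apply,
        Nat.Prime.factorization_self hpp] at h3
      have h4 : 0 < q.factorization p := hpp.factorization_pos_of_dvd hq.ne' hpq
      have h5 := hfac p
      split_ifs at h5 with h6
      · omega
      · omega
    · intro p hp hd
      have h3 := (hp.pow_dvd_iff_le_factorization hn.ne').1 hd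
      have h5 := hfac p
      rw [if_neg (by omega)] at h5
      exact Nat.dvd_of_factorization_pos (by omega)
  · rintro ⟨⟨hg, hqn, hnd⟩, hsq⟩
    have hc : s.1.Coprime s.2 := by
      rw [Nat.coprime_iff_gcd_eq_one]
      by_contra hne
      obtain ⟨p, hp, hpd⟩ := Nat.exists_prime_and_dvd hne
      have h3 : p ∣ s.1 := hpd.trans (Nat.gcd_dvd_left _ _)
      have h4 : p ∣ s.2 := hpd.trans (Nat.gcd_dvd_right _ _)
      have h5 : p ^ 2 ∣ ff s := by
        rw [pow_two]
        unfold ff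
        exact Dvd.dvd.mul_right (mul_dvd_mul h3 h4) _
      exact Nat.not_coprime_of_dvd_of_dvd hp.one_lt hpd (hsq p hp h5) hg
    refine ⟨⟨h1, h2, hc⟩, ?_⟩
    refine Nat.eq_of_factorization_eq (Pool.Agent.Helper21.EN.rest_pos _ _).ne' hq.ne' ?_
    intro p
    rw [f2_fac_rest]
    by_cases hp : p.Prime
    · have hle := (Nat.factorization_le_iff_dvd hq.ne' hn.ne').2 hqn p
      by_cases hpq : p ∣ q
      · have h4 : 0 < q.factorization p := hp.factorization_pos_of_dvd hq.ne' hpq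
        have h5 : ¬ (q.factorization p < (ff s).factorization p) := fun h =>
          hnd p (Nat.mem_primeFactors.2 ⟨hp, hpq, hq.ne'⟩) (f2_mul_dvd hp hq hn hqn h)
        have h6 := f2_fac_rest q p
        rw [hpow] at h6
        split_ifs at h6 with h7
        · omega
        · rw [if_neg (by omega)]
          omega
      · have h4 : q.factorization p = 0 := Nat.factorization_eq_zero_of_not_dvd hpq
        have h5 : (ff s).factorization p ≤ 1 := by
          by_contra h6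
          exact hpq (hsq p hp ((hp.pow_dvd_iff_le_factorization hn.ne').2 (by omega)))
        split_ifs with h6
        · exact h4.symm
        · omega
    · rw [Nat.factorization_eq_zero_of_not_prime _ hp, Nat.factorization_eq_zero_of_not_prime _ hp]
      simp

/-- The conditions are periodic.
PROOF.  `ff (a,b) ≡ ff (a',b') (mod q^2 e^2)`; `q`, `p q` (`p ∣ q`) and `e^2` divide `q^2 e^2`;
`gcd (gcd a b) q` depends on `a, b` modulo `q` only. -/
theorem loc_periodic (q e : ℕ) (hq : 0 < q) (he : 0 < e) (a b a' b' : ℕ)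
    (ha : a ≡ a' [MOD q ^ 2 * e ^ 2]) (hb : b ≡ b' [MOD q ^ 2 * e ^ 2]) :
    (Loc q (a, b) ∧ e ^ 2 ∣ ff (a, b)) ↔ (Loc q (a', b') ∧ e ^ 2 ∣ ff (a', b')) := by
  have hff : ff (a, b) ≡ ff (a', b') [MOD q ^ 2 * e ^ 2] := by
    unfold ff
    exact (ha.mul hb).mul (ha.add hb)
  have hd : ∀ d : ℕ, d ∣ q ^ 2 * e ^ 2 → (d ∣ ff (a, b) ↔ d ∣ ff (a', b')) := fun d hd =>
    (hff.of_dvd hd).dvd_iff dvd_rfl
  have hqN : q ∣ q ^ 2 * e ^ 2 := Dvd.dvd.mul_right (dvd_pow_self q two_ne_zero) _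
  have hgcd : Nat.gcd (Nat.gcd a b) q = Nat.gcd (Nat.gcd a' b') q := by
    rw [Nat.gcd_assoc, Nat.gcd_assoc]
    have h1 : Nat.gcd b q = Nat.gcd b' q := (hb.of_dvd hqN).gcd_eq
    rw [h1]
    exact (ha.of_dvd ((Nat.gcd_dvd_right b' q).trans hqN)).gcd_eq
  have hpq : ∀ p ∈ q.primeFactors, (p * q ∣ ff (a, b) ↔ p * q ∣ ff (a', b')) := fun p hp =>
    hd _ (by
      rw [pow_two]
      exact Dvd.dvd.mul_right (mul_dvd_mul (Nat.dvd_of_mem_primeFactors hp) dvd_rfl) _)
  have he2 := hd (e ^ 2) (Dvd.intro_left _ rfl)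
  have hq2 := hd q hqN
  unfold Loc
  simp only [Nat.coprime_iff_gcd_eq_one, hgcd, hq2, he2]
  constructor
  · rintro ⟨⟨h1, h2, h3⟩, h4⟩
    exact ⟨⟨h1, h2, fun p hp h => h3 p hp ((hpq p hp).2 h)⟩, h4⟩
  · rintro ⟨⟨h1, h2, h3⟩, h4⟩
    exact ⟨⟨h1, h2, fun p hp h => h3 p hp ((hpq p hp).1 h)⟩, h4⟩

end Pool.Agent.Helper93.AR
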