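import Pool.Agent.Helper93.AR.E2
import Pool.Agent.Helper93.AR.F1
import Pool.Agent.Helper93.AR.F2

set_option autoImplicit false

/-! # Project AR, piece F3: coprime pairs with a given powerful part -/

namespace Pool.Agent.Helper93.AR

open Finset
open Pool.Agent.Helper21.EN (rad pc rest Tri)

open scoped Classical in
/-- PIECE AR-F3 (the whole file, 150 lines).
PROOF.  By `loc_iff` the set on the left is the set of the `s ∈ Reg Y H` with `Loc q s` and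
`∀ p, p.Prime → p^2 ∣ ff s → p ∣ q`.  By `moebius_trunc (ε/2)` its cardinality differs from
`∑_(s ∈ Reg, Loc q s) ∑_(e ≤ E, e^2 ∣ ff s, (e,q)=1) μ(e) = ∑_(e ≤ E, (e,q)=1) μ(e) #{s ∈ Reg : Loc q s,
e^2 ∣ ff s}` by at most `C1 Y^(ε/2) #{s ∈ Reg : ∃ e > E, e^2 ∣ ff s}`, and `sqtail_all (ε/2)` bounds that
number.  By `classset` (`down_reg`, `loc_periodic`, `Q = q^2 e^2`, height `⌊H⌋₊ ≤ H`) each inner count
is `rho q e |Reg|` up to `2 H (q^2 e^2)^2`; `∑_(e ≤ E) 2 H q^4 e^4 ≤ 2 H q^4 E^5`. -/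
theorem powerful_count (ε : ℝ) (hε : 0 < ε) : ∃ C : ℝ, 1 ≤ C ∧ ∀ (q E : ℕ) (Y H : ℝ), 0 < q →
    rest {1} q = q → 1 ≤ E → 1 ≤ Y → 1 ≤ H →
    |(((Reg Y H).filter (fun s => Cop s ∧ rest {1} (ff s) = q)).card : ℝ) -
      sig q E * ((Reg Y H).card : ℝ)| ≤
    C * (H * (E : ℝ) ^ 5 * (q : ℝ) ^ 4 +
      (Y * H) ^ ε * (Real.sqrt Y + Y ^ (2 / 3 : ℝ) / (E : ℝ) ^ (1 / 3 : ℝ))) := by
  obtain ⟨C1, hC1, h1⟩ := moebius_trunc (ε / 2) (by positivity)
  obtain ⟨C2, hC2, h2⟩ := sqtail_all (ε / 2) (by positivity)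
  refine ⟨2 + C1 * C2, by nlinarith, ?_⟩
  intro q E Y H hq hpow hE hY hH
  obtain ⟨R, hR⟩ : ∃ R, R = Reg Y H := ⟨_, rfl⟩
  rw [← hR]
  have hmem : ∀ s ∈ R, 0 < s.1 ∧ 0 < s.2 ∧ s.1 ≤ ⌊H⌋₊ ∧ s.2 ≤ ⌊H⌋₊ ∧ (ff s : ℝ) ≤ Y ∧
      ((s.1 + s.2 : ℕ) : ℝ) ≤ H := by
    intro s hs
    rw [hR, Reg, mem_filter, mem_product, mem_Icc, mem_Icc] at hs
    exact ⟨hs.1.1.1, hs.1.2.1, hs.1.1.2, hs.1.2.2, hs.2.1, hs.2.2⟩
  have hpos : ∀ s ∈ R, 0 < ff s := by
    intro s hs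
    obtain ⟨g1, g2, -⟩ := hmem s hs
    exact Nat.mul_pos (Nat.mul_pos g1 g2) (by omega)
  have hf0 : ((⌊H⌋₊ : ℕ) : ℝ) ≤ H := Nat.floor_le (by linarith)
  -- the first step
  have e1 : ((R.filter (fun s => Cop s ∧ rest {1} (ff s) = q)).card : ℝ) =
      ∑ s ∈ R.filter (Loc q), (if (∀ p : ℕ, p.Prime → p ^ 2 ∣ ff s → p ∣ q) then (1 : ℝ) else 0) := by
    rw [Finset.sum_boole, Finset.filter_filter]
    congr 2
    refine Finset.filter_congr fun s hs => ?_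
    obtain ⟨g1, g2, -⟩ := hmem s hs
    exact loc_iff q hq hpow s g1 g2
  have e2 : |∑ s ∈ R.filter (Loc q), (if (∀ p : ℕ, p.Prime → p ^ 2 ∣ ff s → p ∣ q) then (1 : ℝ)
        else 0) - ∑ s ∈ R.filter (Loc q),
        ∑ e ∈ (Icc 1 E).filter (fun e => e ^ 2 ∣ ff s ∧ e.Coprime q),
          (ArithmeticFunction.moebius e : ℝ)| ≤
      C1 * Y ^ (ε / 2) * ((R.filter (fun s => ∃ e : ℕ, E < e ∧ e ^ 2 ∣ ff s)).card : ℝ) := by
    rw [← Finset.sum_sub_distrib]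
    refine (Finset.abs_sum_le_sum_abs _ _).trans ?_
    calc ∑ s ∈ R.filter (Loc q), |(if (∀ p : ℕ, p.Prime → p ^ 2 ∣ ff s → p ∣ q) then (1 : ℝ)
          else 0) - ∑ e ∈ (Icc 1 E).filter (fun e => e ^ 2 ∣ ff s ∧ e.Coprime q),
            (ArithmeticFunction.moebius e : ℝ)|
        ≤ ∑ s ∈ R.filter (Loc q), (if (∃ e : ℕ, E < e ∧ e ^ 2 ∣ ff s) then
            C1 * Y ^ (ε / 2) else 0) := by
          refine Finset.sum_le_sum fun s hs => ?_
          have hs' := (Finset.mem_filter.1 hs).1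
          refine (h1 (ff s) q E (hpos s hs') hq).trans ?_
          split_ifs
          · refine mul_le_mul_of_nonneg_left ?_ (by linarith)
            exact Real.rpow_le_rpow (Nat.cast_nonneg _) (hmem s hs').2.2.2.2.1 (by positivity)
          · exact le_refl _
      _ ≤ ∑ s ∈ R, (if (∃ e : ℕ, E < e ∧ e ^ 2 ∣ ff s) then C1 * Y ^ (ε / 2) else 0) := by
          refine Finset.sum_le_sum_of_subset_of_nonneg (Finset.filter_subset _ _) ?_
          intro s _ _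
          split_ifs
          · positivity
          · exact le_refl _
      _ = C1 * Y ^ (ε / 2) *
          ((R.filter (fun s => ∃ e : ℕ, E < e ∧ e ^ 2 ∣ ff s)).card : ℝ) := by
          rw [← Finset.sum_filter, Finset.sum_const, nsmul_eq_mul, mul_comm]
  have e4 : ((R.filter (fun s => ∃ e : ℕ, E < e ∧ e ^ 2 ∣ ff s)).card : ℝ) ≤
      C2 * (Y * H) ^ (ε / 2) *
        (Real.sqrt Y + Y ^ (2 / 3 : ℝ) / (E : ℝ) ^ (1 / 3 : ℝ)) := by
    refine h2 Y H E _ hY hH (by exact_mod_cast hE) ?_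
    intro s hs
    rw [Finset.mem_filter] at hs
    obtain ⟨g1, g2, -, -, g5, g6⟩ := hmem s hs.1
    obtain ⟨e, he, hd⟩ := hs.2
    exact ⟨g1, g2, g5, g6, e, by exact_mod_cast he.le, hd⟩
  have e5 : ∑ s ∈ R.filter (Loc q),
        ∑ e ∈ (Icc 1 E).filter (fun e => e ^ 2 ∣ ff s ∧ e.Coprime q),
          (ArithmeticFunction.moebius e : ℝ) =
      ∑ e ∈ (Icc 1 E).filter (fun e => e.Coprime q), (ArithmeticFunction.moebius e : ℝ) *
        ((R.filter (fun s => Loc q s ∧ e ^ 2 ∣ ff s)).card : ℝ) := by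
    have g1 : ∀ s : ℕ × ℕ, ∑ e ∈ (Icc 1 E).filter (fun e => e ^ 2 ∣ ff s ∧ e.Coprime q),
          (ArithmeticFunction.moebius e : ℝ) =
        ∑ e ∈ (Icc 1 E).filter (fun e => e.Coprime q),
          (if e ^ 2 ∣ ff s then (ArithmeticFunction.moebius e : ℝ) else 0) := by
      intro s
      rw [← Finset.sum_filter, Finset.filter_filter]
      refine Finset.sum_congr (Finset.filter_congr fun e _ => and_comm) fun _ _ => rfl
    rw [Finset.sum_congr rfl fun s _ => g1 s, Finset.sum_comm]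
    refine Finset.sum_congr rfl fun e _ => ?_
    rw [← Finset.sum_filter, Finset.sum_const, nsmul_eq_mul, mul_comm, Finset.filter_filter]
  have e6 : |∑ e ∈ (Icc 1 E).filter (fun e => e.Coprime q), (ArithmeticFunction.moebius e : ℝ) *
        ((R.filter (fun s => Loc q s ∧ e ^ 2 ∣ ff s)).card : ℝ) - sig q E * (R.card : ℝ)| ≤
      2 * (H * (E : ℝ) ^ 5 * (q : ℝ) ^ 4) := by
    rw [sig, Finset.sum_mul, ← Finset.sum_sub_distrib]
    refine (Finset.abs_sum_le_sum_abs _ _).trans ?_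
    have hb : ∀ e ∈ (Icc 1 E).filter (fun e => e.Coprime q),
        |(ArithmeticFunction.moebius e : ℝ) *
          ((R.filter (fun s => Loc q s ∧ e ^ 2 ∣ ff s)).card : ℝ) -
          (ArithmeticFunction.moebius e : ℝ) * rho q e * (R.card : ℝ)| ≤
        2 * (H * (E : ℝ) ^ 4 * (q : ℝ) ^ 4) := by
      intro e he
      rw [Finset.mem_filter, Finset.mem_Icc] at he
      have he0 : 0 < e := he.1.1
      have g1 := classset R (hR ▸ down_reg Y H) ⌊H⌋₊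
        (fun s hs => ⟨(hmem s hs).2.2.1, (hmem s hs).2.2.2.1⟩) (q ^ 2 * e ^ 2) (by positivity)
        (fun s => Loc q s ∧ e ^ 2 ∣ ff s)
        (fun a b a' b' _ _ _ _ ha hb => loc_periodic q e hq he0 a b a' b' ha hb)
      have g2 : |((ArithmeticFunction.moebius e : ℤ) : ℝ)| ≤ 1 := by
        exact_mod_cast ArithmeticFunction.abs_moebius_le_one (n := e)
      rw [mul_assoc, ← mul_sub, abs_mul]
      have g3 : |((R.filter (fun s => Loc q s ∧ e ^ 2 ∣ ff s)).card : ℝ) -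
          rho q e * (R.card : ℝ)| ≤ 2 * (⌊H⌋₊ : ℝ) * ((q ^ 2 * e ^ 2 : ℕ) : ℝ) ^ 2 := by
        rw [rho]
        convert g1
      have g4 : 2 * (⌊H⌋₊ : ℝ) * ((q ^ 2 * e ^ 2 : ℕ) : ℝ) ^ 2 ≤
          2 * (H * (E : ℝ) ^ 4 * (q : ℝ) ^ 4) := by
        have g5 : (e : ℝ) ^ 4 ≤ (E : ℝ) ^ 4 :=
          pow_le_pow_left₀ (Nat.cast_nonneg _) (by exact_mod_cast he.1.2) 4
        have g6 : (⌊H⌋₊ : ℝ) * (e : ℝ) ^ 4 ≤ H * (E : ℝ) ^ 4 :=
          mul_le_mul hf0 g5 (by positivity) (by linarith)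
        have g7 : (⌊H⌋₊ : ℝ) * (e : ℝ) ^ 4 * (q : ℝ) ^ 4 ≤ H * (E : ℝ) ^ 4 * (q : ℝ) ^ 4 :=
          mul_le_mul_of_nonneg_right g6 (by positivity)
        push_cast
        nlinarith [g7]
      calc |((ArithmeticFunction.moebius e : ℤ) : ℝ)| *
            |((R.filter (fun s => Loc q s ∧ e ^ 2 ∣ ff s)).card : ℝ) -
              rho q e * (R.card : ℝ)|
          ≤ 1 * (2 * (⌊H⌋₊ : ℝ) * ((q ^ 2 * e ^ 2 : ℕ) : ℝ) ^ 2) :=
            mul_le_mul g2 g3 (abs_nonneg _) (by norm_num)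
        _ ≤ 2 * (H * (E : ℝ) ^ 4 * (q : ℝ) ^ 4) := by
            rw [one_mul]
            exact g4
    refine (Finset.sum_le_sum hb).trans ?_
    rw [Finset.sum_const, nsmul_eq_mul]
    have hc : (((Icc 1 E).filter (fun e => e.Coprime q)).card : ℝ) ≤ E := by
      have := Finset.card_filter_le (Icc 1 E) (fun e => e.Coprime q)
      rw [Nat.card_Icc, Nat.add_sub_cancel] at this
      exact_mod_cast this
    have hn : 0 ≤ 2 * (H * (E : ℝ) ^ 4 * (q : ℝ) ^ 4) := by positivity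
    calc (((Icc 1 E).filter (fun e => e.Coprime q)).card : ℝ) *
          (2 * (H * (E : ℝ) ^ 4 * (q : ℝ) ^ 4))
        ≤ E * (2 * (H * (E : ℝ) ^ 4 * (q : ℝ) ^ 4)) := mul_le_mul_of_nonneg_right hc hn
      _ = 2 * (H * (E : ℝ) ^ 5 * (q : ℝ) ^ 4) := by ring
  rw [e1]
  rw [e5] at e2
  have hK : 0 ≤ Real.sqrt Y + Y ^ (2 / 3 : ℝ) / (E : ℝ) ^ (1 / 3 : ℝ) := by positivity
  have e7 : C1 * Y ^ (ε / 2) *
      ((R.filter (fun s => ∃ e : ℕ, E < e ∧ e ^ 2 ∣ ff s)).card : ℝ) ≤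
      C1 * C2 * ((Y * H) ^ ε * (Real.sqrt Y + Y ^ (2 / 3 : ℝ) / (E : ℝ) ^ (1 / 3 : ℝ))) := by
    have g1 : Y ^ (ε / 2) ≤ (Y * H) ^ (ε / 2) :=
      Real.rpow_le_rpow (by linarith) (by nlinarith) (by positivity)
    have g2 : (Y * H) ^ (ε / 2) * (Y * H) ^ (ε / 2) = (Y * H) ^ ε := by
      rw [← Real.rpow_add (by positivity)]
      congr 1
      ring
    have g3 : 0 ≤ (Y * H) ^ (ε / 2) := by positivity
    calc C1 * Y ^ (ε / 2) *
          ((R.filter (fun s => ∃ e : ℕ, E < e ∧ e ^ 2 ∣ ff s)).card : ℝ)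
        ≤ C1 * (Y * H) ^ (ε / 2) * (C2 * (Y * H) ^ (ε / 2) *
          (Real.sqrt Y + Y ^ (2 / 3 : ℝ) / (E : ℝ) ^ (1 / 3 : ℝ))) :=
          mul_le_mul (mul_le_mul_of_nonneg_left g1 (by linarith)) e4 (Nat.cast_nonneg _)
            (by positivity)
      _ = C1 * C2 * ((Y * H) ^ (ε / 2) * (Y * H) ^ (ε / 2) *
          (Real.sqrt Y + Y ^ (2 / 3 : ℝ) / (E : ℝ) ^ (1 / 3 : ℝ))) := by ring
      _ = _ := by rw [g2]
  have hX : 0 ≤ H * (E : ℝ) ^ 5 * (q : ℝ) ^ 4 := by positivity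
  have hZ : 0 ≤ (Y * H) ^ ε *
      (Real.sqrt Y + Y ^ (2 / 3 : ℝ) / (E : ℝ) ^ (1 / 3 : ℝ)) :=
    mul_nonneg (by positivity) hK
  have hCC : 0 ≤ C1 * C2 := by positivity
  refine (abs_sub_le _ (∑ e ∈ (Icc 1 E).filter (fun e => e.Coprime q),
    (ArithmeticFunction.moebius e : ℝ) *
      ((R.filter (fun s => Loc q s ∧ e ^ 2 ∣ ff s)).card : ℝ)) _).trans ?_
  have e8 := e2.trans e7
  nlinarith [e8, e6, mul_nonneg hCC hX]

open scoped Classical in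
/-- PROOF.  `rho q e ≤ 1` (the number of pairs in `[1,Q]^2` is `Q^2`), `|μ| ≤ 1`. -/
theorem sig_le (q E : ℕ) : |sig q E| ≤ (E : ℝ) := by
  rw [sig]
  refine (Finset.abs_sum_le_sum_abs _ _).trans ?_
  have hb : ∀ e ∈ (Icc 1 E).filter (fun e => e.Coprime q),
      |(ArithmeticFunction.moebius e : ℝ) * rho q e| ≤ 1 := by
    intro e _
    have g2 : |((ArithmeticFunction.moebius e : ℤ) : ℝ)| ≤ 1 := by
      exact_mod_cast ArithmeticFunction.abs_moebius_le_one (n := e)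
    have g3 : 0 ≤ rho q e := by
      rw [rho]
      positivity
    have g4 : rho q e ≤ 1 := by
      rw [rho]
      refine div_le_one_of_le₀ ?_ (by positivity)
      have g5 := Finset.card_filter_le (Icc 1 (q ^ 2 * e ^ 2) ×ˢ Icc 1 (q ^ 2 * e ^ 2))
        (fun s => Loc q s ∧ e ^ 2 ∣ ff s)
      rw [Finset.card_product, Nat.card_Icc, Nat.add_sub_cancel, ← sq] at g5
      exact_mod_cast g5
    rw [abs_mul, abs_of_nonneg g3]
    calc |((ArithmeticFunction.moebius e : ℤ) : ℝ)| * rho q e ≤ 1 * 1 :=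
          mul_le_mul g2 g4 g3 (by norm_num)
      _ = 1 := one_mul 1
  refine (Finset.sum_le_sum hb).trans ?_
  rw [Finset.sum_const, nsmul_eq_mul, mul_one]
  have := Finset.card_filter_le (Icc 1 E) (fun e => e.Coprime q)
  rw [Nat.card_Icc, Nat.add_sub_cancel] at this
  exact_mod_cast this

end Pool.Agent.Helper93.AR
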