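import Pool.Agent.Helper93.AR.Defs

set_option autoImplicit false

/-! # Project AR, piece G1: the number of pairs with `ab(a+b) ≤ Y` -/

namespace Pool.Agent.Helper93.AR

open Finset MeasureTheory
open scoped Pointwise

/-- The region `xy(x+y) ≤ Y`. -/
private def g1_S (Y : ℝ) : Set (ℝ × ℝ) :=
  {p | 0 < p.1 ∧ 0 < p.2 ∧ p.1 * p.2 * (p.1 + p.2) ≤ Y}

/-- The tail region. -/
private def g1_T (K Y : ℝ) : Set (ℝ × ℝ) :=
  {p | K < p.1 ∧ 0 < p.2 ∧ p.2 * p.1 ^ 2 < 2 * Y}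

/-- The tail has small area. -/
private lemma g1_T_vol (K Y : ℝ) (hK : 0 < K) (hY : 0 ≤ Y) :
    volume (g1_T K Y) = ENNReal.ofReal (2 * Y / K) := by
  have h1 : g1_T K Y = regionBetween (fun _ => (0:ℝ)) (fun x => 2 * Y * x ^ (-2 : ℝ))
      (Set.Ioi K) := by
    ext p
    simp only [g1_T, regionBetween, Set.mem_ofPred_eq, Set.mem_Ioi, Set.mem_Ioo]
    refine and_congr_right (fun hp => and_congr_right (fun hq => ?_))
    have hp0 : 0 < p.1 := hK.trans hp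
    have e : p.1 ^ (-2 : ℝ) = (p.1 ^ 2)⁻¹ := by
      rw [Real.rpow_neg hp0.le]
      norm_num
    rw [e, ← div_eq_mul_inv, lt_div_iff₀ (by positivity)]
  have hint : IntegrableOn (fun x : ℝ => 2 * Y * x ^ (-2 : ℝ)) (Set.Ioi K) :=
    (integrableOn_Ioi_rpow_of_lt (by norm_num) hK).const_mul _
  have hm : Measurable (fun x : ℝ => 2 * Y * x ^ (-2 : ℝ)) := by fun_prop
  rw [h1, Measure.volume_eq_prod,
    volume_regionBetween_eq_lintegral measurable_const.aemeasurable hm.aemeasurable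
      measurableSet_Ioi]
  simp only [Pi.sub_apply, sub_zero]
  rw [← ofReal_integral_eq_lintegral_ofReal hint ?_]
  · congr 1
    rw [integral_const_mul, integral_Ioi_rpow_of_lt (by norm_num) hK]
    have : (-2 : ℝ) + 1 = -1 := by norm_num
    rw [this, Real.rpow_neg_one]
    field_simp
  · filter_upwards [self_mem_ae_restrict (measurableSet_Ioi)] with x hx
    have : 0 < x := hK.trans hx
    positivity

/-- The mirror image of the tail. -/
private lemma g1_T_vol' (K Y : ℝ) (hK : 0 < K) (hY : 0 ≤ Y) :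
    volume (Prod.swap ⁻¹' (g1_T K Y)) = ENNReal.ofReal (2 * Y / K) := by
  have hm : MeasurableSet (g1_T K Y) := by
    have h1 : MeasurableSet {p : ℝ × ℝ | K < p.1} := measurableSet_lt measurable_const measurable_fst
    have h2 : MeasurableSet {p : ℝ × ℝ | 0 < p.2} := measurableSet_lt measurable_const measurable_snd
    have h3 : MeasurableSet {p : ℝ × ℝ | p.2 * p.1 ^ 2 < 2 * Y} :=
      measurableSet_lt (by fun_prop) measurable_const
    exact h1.inter (h2.inter h3)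
  rw [← g1_T_vol K Y hK hY, Measure.volume_eq_prod]
  exact (Measure.measurePreserving_swap (μ := (volume : Measure ℝ))
    (ν := (volume : Measure ℝ))).measure_preimage hm.nullMeasurableSet

/-- Far points of the region lie in a tail. -/
private lemma g1_far (K Y : ℝ) (hY : 0 < Y) (p : ℝ × ℝ) (hp : p ∈ g1_S Y)
    (h : K < p.1 ∨ K < p.2) : p ∈ g1_T K Y ∪ Prod.swap ⁻¹' (g1_T K Y) := by
  obtain ⟨x, y⟩ := p
  simp only [g1_S, g1_T, Set.mem_ofPred_eq, Set.mem_union, Set.mem_preimage, Prod.swap_prod_mk]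
    at hp h ⊢
  obtain ⟨hx, hy, hxy⟩ := hp
  rcases le_total x y with hle | hle
  · right
    refine ⟨?_, hx, ?_⟩
    · rcases h with h | h
      · exact lt_of_lt_of_le h hle
      · exact h
    · nlinarith [mul_pos hx hy, mul_pos (mul_pos hx hy) hx]
  · left
    refine ⟨?_, hy, ?_⟩
    · rcases h with h | h
      · exact h
      · exact lt_of_lt_of_le h hle
    · nlinarith [mul_pos hx hy, mul_pos (mul_pos hx hy) hy]

/-- The area of a box. -/
private lemma g1_box (a b c d : ℝ) (h1 : a ≤ b) :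
    volume ((Set.Ioc a b) ×ˢ (Set.Ioc c d) : Set (ℝ × ℝ)) = ENNReal.ofReal ((b - a) * (d - c)) := by
  rw [Measure.volume_eq_prod, Measure.prod_prod, Real.volume_Ioc, Real.volume_Ioc,
    ENNReal.ofReal_mul (by linarith)]

/-- The region has finite area. -/
private lemma g1_fin : volume (g1_S 1) < ⊤ := by
  have hsub : g1_S 1 ⊆ ((Set.Ioc (0:ℝ) 1) ×ˢ (Set.Ioc (0:ℝ) 1)) ∪
      (g1_T 1 1 ∪ Prod.swap ⁻¹' (g1_T 1 1)) := by
    intro p hp
    by_cases h : 1 < p.1 ∨ 1 < p.2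
    · exact Or.inr (g1_far 1 1 one_pos p hp h)
    · push Not at h
      left
      exact ⟨⟨hp.1, h.1⟩, ⟨hp.2.1, h.2⟩⟩
  refine lt_of_le_of_lt (measure_mono hsub) ?_
  refine lt_of_le_of_lt (measure_union_le _ _) ?_
  refine ENNReal.add_lt_top.mpr ⟨?_, ?_⟩
  · rw [g1_box _ _ _ _ (by norm_num)]
    exact ENNReal.ofReal_lt_top
  · refine lt_of_le_of_lt (measure_union_le _ _) ?_
    rw [g1_T_vol 1 1 one_pos zero_le_one, g1_T_vol' 1 1 one_pos zero_le_one]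
    exact ENNReal.add_lt_top.mpr ⟨ENNReal.ofReal_lt_top, ENNReal.ofReal_lt_top⟩

/-- PIECE AR-G1 (the whole file, 250 lines).  The region has finite positive area.
PROOF.  It contains `(0, 1/2)^2` (`xy(x+y) ≤ 1/4`), so `A0 ≥ 1/4`.  Finite: it is contained in the union
of `{0 < x ≤ 1, 0 < y ≤ 1}`, `{y > 1, 0 < x ≤ 1/y^2}` and the mirror image (`x ≤ y`, `xy(x+y) ≤ 1` give
`x y^2 ≤ 1`; if `y > 1`, then `x < 1`), and `∫_1^∞ dy/y^2 = 1`. -/
theorem A0_pos : 0 < A0 := by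
  have hfin : volume (g1_S 1) < ⊤ := g1_fin
  have hpos : 0 < volume (g1_S 1) := by
    have hsub : ((Set.Ioc (0:ℝ) (1/2)) ×ˢ (Set.Ioc (0:ℝ) (1/2)) : Set (ℝ × ℝ)) ⊆ g1_S 1 := by
      rintro ⟨x, y⟩ ⟨⟨hx, hx'⟩, ⟨hy, hy'⟩⟩
      simp only at hx hx' hy hy'
      refine ⟨hx, hy, ?_⟩
      have h1 : x * y ≤ 1 / 4 := by nlinarith
      have h2 : 0 < x * y := mul_pos hx hy
      change x * y * (x + y) ≤ 1
      nlinarith
    refine lt_of_lt_of_le ?_ (measure_mono hsub)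
    rw [g1_box _ _ _ _ (by norm_num)]
    rw [ENNReal.ofReal_pos]
    norm_num
  exact ENNReal.toReal_pos hpos.ne' hfin.ne

/-- The scaling of the area. -/
private lemma g1_scale (Y : ℝ) (hY : 0 < Y) :
    volume (g1_S Y) = ENNReal.ofReal (Y ^ (2 / 3 : ℝ)) * volume (g1_S 1) := by
  set r : ℝ := Y ^ (1 / 3 : ℝ) with hr
  have hr0 : 0 < r := Real.rpow_pos_of_pos hY _
  have hr3 : r ^ 3 = Y := by
    rw [hr, ← Real.rpow_natCast, ← Real.rpow_mul hY.le]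
    norm_num
  have hr2 : r ^ 2 = Y ^ (2 / 3 : ℝ) := by
    rw [hr, ← Real.rpow_natCast, ← Real.rpow_mul hY.le]
    norm_num
  have hset : g1_S Y = r • g1_S 1 := by
    ext p
    rw [Set.mem_smul_set_iff_inv_smul_mem₀ hr0.ne']
    obtain ⟨x, y⟩ := p
    simp only [g1_S, Set.mem_ofPred_eq, Prod.smul_mk, smul_eq_mul]
    have hri : 0 < r⁻¹ := inv_pos.mpr hr0
    refine and_congr (by rw [mul_pos_iff_of_pos_left hri])
      (and_congr (by rw [mul_pos_iff_of_pos_left hri]) ?_)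
    have e : r⁻¹ * x * (r⁻¹ * y) * (r⁻¹ * x + r⁻¹ * y) = (x * y * (x + y)) / Y := by
      rw [← hr3]
      field_simp
    rw [e, div_le_one hY]
  rw [hset, Measure.addHaar_smul]
  have : Module.finrank ℝ (ℝ × ℝ) = 2 := by
    rw [Module.finrank_prod, Module.finrank_self]
  rw [this, abs_of_nonneg (by positivity), hr2]

/-- The real form of the area. -/
private lemma g1_area (Y : ℝ) (hY : 0 < Y) :
    volume (g1_S Y) = ENNReal.ofReal (A0 * Y ^ (2 / 3 : ℝ)) := by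
  have h1 : volume (g1_S 1) = ENNReal.ofReal A0 := (ENNReal.ofReal_toReal g1_fin.ne).symm
  rw [g1_scale Y hY, h1, mul_comm, ENNReal.ofReal_mul A0_pos.le]

/-- Membership in `Reg`. -/
private lemma g1_mem (Y H : ℝ) (t : ℕ × ℕ) :
    t ∈ Reg Y H ↔ 1 ≤ t.1 ∧ 1 ≤ t.2 ∧ (ff t : ℝ) ≤ Y ∧ ((t.1 + t.2 : ℕ) : ℝ) ≤ H := by
  classical
  unfold Reg
  rw [Finset.mem_filter, Finset.mem_product, Finset.mem_Icc, Finset.mem_Icc]
  constructor
  · rintro ⟨⟨⟨h1, -⟩, ⟨h2, -⟩⟩, h3, h4⟩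
    exact ⟨h1, h2, h3, h4⟩
  · rintro ⟨h1, h2, h3, h4⟩
    have h5 : t.1 + t.2 ≤ ⌊H⌋₊ := Nat.le_floor h4
    exact ⟨⟨⟨h1, by omega⟩, ⟨h2, by omega⟩⟩, h3, h4⟩

/-- Upper bound. -/
private lemma g1_upper (Y H : ℝ) (hY : 1 ≤ Y) :
    ((Reg Y H).card : ℝ) ≤ A0 * Y ^ (2 / 3 : ℝ) := by
  have hdis : Set.PairwiseDisjoint (↑(Reg Y H))
      (fun t : ℕ × ℕ => ((Set.Ioc ((t.1:ℝ) - 1) t.1) ×ˢ (Set.Ioc ((t.2:ℝ) - 1) t.2) :
        Set (ℝ × ℝ))) := by
    intro s _ t _ hst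
    rw [Function.onFun, Set.disjoint_left]
    rintro ⟨x, y⟩ ⟨⟨a1, a2⟩, ⟨a3, a4⟩⟩ ⟨⟨b1, b2⟩, ⟨b3, b4⟩⟩
    simp only at a1 a2 a3 a4 b1 b2 b3 b4
    apply hst
    have e1 : s.1 = t.1 := by
      have c1 : (s.1 : ℝ) < t.1 + 1 := by linarith
      have c2 : (t.1 : ℝ) < s.1 + 1 := by linarith
      have c3 : s.1 < t.1 + 1 := by exact_mod_cast c1
      have c4 : t.1 < s.1 + 1 := by exact_mod_cast c2
      omega
    have e2 : s.2 = t.2 := by
      have c1 : (s.2 : ℝ) < t.2 + 1 := by linarith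
      have c2 : (t.2 : ℝ) < s.2 + 1 := by linarith
      have c3 : s.2 < t.2 + 1 := by exact_mod_cast c1
      have c4 : t.2 < s.2 + 1 := by exact_mod_cast c2
      omega
    exact Prod.ext e1 e2
  have hmeas : ∀ t ∈ Reg Y H, MeasurableSet
      ((Set.Ioc ((t.1:ℝ) - 1) t.1) ×ˢ (Set.Ioc ((t.2:ℝ) - 1) t.2) : Set (ℝ × ℝ)) :=
    fun t _ => measurableSet_Ioc.prod measurableSet_Ioc
  have hU := measure_biUnion_finset (μ := (volume : Measure (ℝ × ℝ))) hdis hmeas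
  have hbox : ∀ t ∈ Reg Y H, volume ((Set.Ioc ((t.1:ℝ) - 1) t.1) ×ˢ
      (Set.Ioc ((t.2:ℝ) - 1) t.2) : Set (ℝ × ℝ)) = 1 := by
    intro t _
    rw [g1_box _ _ _ _ (by linarith)]
    simp
  rw [Finset.sum_congr rfl hbox, Finset.sum_const, nsmul_eq_mul, mul_one] at hU
  have hsub : (⋃ t ∈ Reg Y H, ((Set.Ioc ((t.1:ℝ) - 1) t.1) ×ˢ (Set.Ioc ((t.2:ℝ) - 1) t.2) :
      Set (ℝ × ℝ))) ⊆ g1_S Y := by
    intro p hp
    simp only [Set.mem_iUnion] at hp
    obtain ⟨t, ht, ⟨a1, a2⟩, ⟨a3, a4⟩⟩ := hp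
    rw [g1_mem Y H] at ht
    obtain ⟨h1, h2, h3, h4⟩ := ht
    have h1' : (1:ℝ) ≤ t.1 := by exact_mod_cast h1
    have h2' : (1:ℝ) ≤ t.2 := by exact_mod_cast h2
    have hx : 0 < p.1 := by linarith
    have hy : 0 < p.2 := by linarith
    refine ⟨hx, hy, ?_⟩
    refine le_trans ?_ h3
    unfold ff
    push_cast
    have e1 : p.1 * p.2 ≤ (t.1:ℝ) * t.2 := mul_le_mul a2 a4 hy.le (by positivity)
    exact mul_le_mul e1 (by linarith) (by linarith) (by positivity)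
  have hle := measure_mono (μ := (volume : Measure (ℝ × ℝ))) hsub
  rw [hU, g1_area Y (by linarith)] at hle
  have h0 : 0 ≤ A0 * Y ^ (2 / 3 : ℝ) :=
    mul_nonneg A0_pos.le (Real.rpow_nonneg (by linarith) _)
  have := ENNReal.toReal_mono ENNReal.ofReal_ne_top hle
  rwa [ENNReal.toReal_natCast, ENNReal.toReal_ofReal h0] at this

/-- Lower bound. -/
private lemma g1_lower (Y H : ℝ) (hY : 1 ≤ Y) (hH : 1 ≤ H) :
    A0 * Y ^ (2 / 3 : ℝ) ≤ ((Reg Y H).card : ℝ) + 2 * H + 8 * (Y / H) := by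
  have hsub : g1_S Y ⊆ (⋃ t ∈ Reg Y H, ((Set.Ico (t.1:ℝ) (t.1 + 1)) ×ˢ
      (Set.Ico (t.2:ℝ) (t.2 + 1)) : Set (ℝ × ℝ))) ∪
      ((((Set.Ioc (0:ℝ) 1) ×ˢ (Set.Ioc (0:ℝ) H)) ∪ ((Set.Ioc (0:ℝ) H) ×ˢ (Set.Ioc (0:ℝ) 1))) ∪
        (g1_T (H / 2) Y ∪ Prod.swap ⁻¹' (g1_T (H / 2) Y))) := by
    intro p hp
    by_cases hfar : H / 2 < p.1 ∨ H / 2 < p.2
    · exact Or.inr (Or.inr (g1_far (H / 2) Y (by linarith) p hp hfar))
    push Not at hfar
    obtain ⟨hx, hy, hxy⟩ := hp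
    by_cases h1 : p.1 ≤ 1
    · right; left; left
      exact ⟨⟨hx, h1⟩, ⟨hy, by linarith⟩⟩
    by_cases h2 : p.2 ≤ 1
    · right; left; right
      exact ⟨⟨hx, by linarith⟩, ⟨hy, h2⟩⟩
    push Not at h1 h2
    left
    simp only [Set.mem_iUnion]
    have f1 := Nat.floor_le hx.le
    have f2 := Nat.floor_le hy.le
    have f3 := Nat.lt_floor_add_one p.1
    have f4 := Nat.lt_floor_add_one p.2
    refine ⟨(⌊p.1⌋₊, ⌊p.2⌋₊), ?_, ⟨f1, f3⟩, ⟨f2, f4⟩⟩
    rw [g1_mem Y H]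
    refine ⟨Nat.le_floor (by exact_mod_cast h1.le), Nat.le_floor (by exact_mod_cast h2.le), ?_, ?_⟩
    · unfold ff
      push_cast
      refine le_trans ?_ hxy
      have e1 : (⌊p.1⌋₊:ℝ) * ⌊p.2⌋₊ ≤ p.1 * p.2 := mul_le_mul f1 f2 (by positivity) hx.le
      exact mul_le_mul e1 (by linarith) (by positivity) (by positivity)
    · push_cast
      linarith
  have hle := measure_mono (μ := (volume : Measure (ℝ × ℝ))) hsub
  have hb : volume (⋃ t ∈ Reg Y H, ((Set.Ico (t.1:ℝ) (t.1 + 1)) ×ˢ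
      (Set.Ico (t.2:ℝ) (t.2 + 1)) : Set (ℝ × ℝ))) ≤ ENNReal.ofReal ((Reg Y H).card : ℝ) := by
    refine le_trans (measure_biUnion_finset_le _ _) ?_
    have hbox : ∀ t ∈ Reg Y H, volume ((Set.Ico (t.1:ℝ) (t.1 + 1)) ×ˢ
        (Set.Ico (t.2:ℝ) (t.2 + 1)) : Set (ℝ × ℝ)) = 1 := by
      intro t _
      rw [Measure.volume_eq_prod, Measure.prod_prod, Real.volume_Ico, Real.volume_Ico]
      simp
    rw [Finset.sum_congr rfl hbox, Finset.sum_const, nsmul_eq_mul, mul_one,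
      ENNReal.ofReal_natCast]
  have hs : volume ((((Set.Ioc (0:ℝ) 1) ×ˢ (Set.Ioc (0:ℝ) H)) ∪
      ((Set.Ioc (0:ℝ) H) ×ˢ (Set.Ioc (0:ℝ) 1))) ∪
        (g1_T (H / 2) Y ∪ Prod.swap ⁻¹' (g1_T (H / 2) Y))) ≤
        ENNReal.ofReal (2 * H + 8 * (Y / H)) := by
    refine le_trans (measure_union_le _ _) ?_
    have hYH : 0 ≤ Y / H := by positivity
    rw [ENNReal.ofReal_add (by linarith) (by linarith)]
    refine add_le_add ?_ ?_
    · refine le_trans (measure_union_le _ _) ?_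
      rw [g1_box _ _ _ _ (by norm_num), g1_box _ _ _ _ (by linarith),
        ← ENNReal.ofReal_add (by nlinarith) (by nlinarith)]
      exact ENNReal.ofReal_le_ofReal (by linarith)
    · refine le_trans (measure_union_le _ _) ?_
      rw [g1_T_vol (H / 2) Y (by linarith) (by linarith),
        g1_T_vol' (H / 2) Y (by linarith) (by linarith),
        ← ENNReal.ofReal_add (by positivity) (by positivity)]
      apply ENNReal.ofReal_le_ofReal
      have : 2 * Y / (H / 2) = 4 * (Y / H) := by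
        field_simp
        norm_num
      rw [this]
      linarith
  have hYH : 0 ≤ Y / H := by positivity
  have htot : volume (g1_S Y) ≤
      ENNReal.ofReal (((Reg Y H).card : ℝ) + (2 * H + 8 * (Y / H))) := by
    refine le_trans hle (le_trans (measure_union_le _ _) ?_)
    rw [ENNReal.ofReal_add (by positivity) (by linarith)]
    exact add_le_add hb hs
  rw [g1_area Y (by linarith)] at htot
  have h0 : 0 ≤ ((Reg Y H).card : ℝ) + (2 * H + 8 * (Y / H)) := by positivity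
  have := (ENNReal.ofReal_le_ofReal_iff h0).mp htot
  linarith

/-- The asymptotic formula for the number of all pairs in the region.
PROOF.  Let `S_Y = {x, y > 0, xy(x+y) ≤ Y}`, `S_Y = Y^(1/3) S_1`, so `vol S_Y = A0 Y^(2/3)`
(`MeasureTheory.Measure.addHaar_smul` on `ℝ × ℝ`, finrank `2`; or two one-dimensional scalings).
Upper bound: the unit squares `(a-1, a] × (b-1, b]`, `(a,b) ∈ Reg Y H`, are disjoint and contained in
`S_Y`: `|Reg Y H| ≤ A0 Y^(2/3)`.  Lower bound: a point `(x,y) ∈ S_Y` with `x + y ≤ H` has `x < 1`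
or `y < 1` (area at most `2 H`) or lies in the square `[a, a+1) × [b, b+1)` of
`(a, b) = (⌊x⌋, ⌊y⌋) ∈ Reg Y H`; a point of `S_Y` with `x + y > H` has (case `x ≤ y`) `y > H/2`,
`x ≤ Y/y^2`, area `∫_(H/2)^∞ Y dy/y^2 = 2Y/H`, and the mirror image.  So
`A0 Y^(2/3) ≤ |Reg Y H| + 2 H + 4 Y/H`. -/
theorem reg_card : ∃ C : ℝ, 1 ≤ C ∧ ∀ Y H : ℝ, 1 ≤ Y → 1 ≤ H →
    |((Reg Y H).card : ℝ) - A0 * Y ^ (2 / 3 : ℝ)| ≤ C * (H + Y / H) := by
  refine ⟨8, by norm_num, fun Y H hY hH => ?_⟩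
  have h1 := g1_upper Y H hY
  have h2 := g1_lower Y H hY hH
  have hYH : 0 ≤ Y / H := by positivity
  rw [abs_le]
  constructor <;> linarith

end Pool.Agent.Helper93.AR
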