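import Pool.Agent.Helper93.AR.E3
import Pool.Agent.Helper93.AR.F3
import Pool.Agent.Helper93.AR.G1

set_option autoImplicit false

/-! # Project AR, piece H1: the count in the range of small height -/

namespace Pool.Agent.Helper93.AR

open Finset
open Pool.Agent.Helper21.EN (rad pc rest Tri)

/-- The radical condition for a fixed powerful part. -/
private lemma h1a_iff (Z q n : ℕ) (hn : 0 < n) (hq : 0 < q) (h : rest {1} n = q) :
    rad n ≤ Z ↔ (n : ℝ) ≤ (Z : ℝ) * ((q : ℝ) / (rad q : ℝ)) := by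
  have h1 := Pool.Agent.Helper21.EN.rest_mul_one hn 1
  have h2 := Pool.Agent.Helper21.EN.rad_rest_mul_one 1 n
  rw [h, pow_one] at h1
  rw [h] at h2
  have hr : (0 : ℝ) < (rad q : ℝ) := by exact_mod_cast Pool.Agent.Helper21.EN.rad_pos q
  have hq' : (0 : ℝ) < (q : ℝ) := by exact_mod_cast hq
  have e1 : (n : ℝ) = (q : ℝ) * (pc 1 n : ℝ) := by exact_mod_cast h1
  have e2 : (rad n : ℝ) = (rad q : ℝ) * (pc 1 n : ℝ) := by exact_mod_cast h2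
  rw [← @Nat.cast_le ℝ, e2, e1, mul_div_assoc', le_div_iff₀ hr]
  constructor
  · intro h3
    nlinarith
  · intro h3
    have h4 : (q : ℝ) * ((rad q : ℝ) * (pc 1 n : ℝ)) ≤ (q : ℝ) * (Z : ℝ) := by nlinarith
    exact le_of_mul_le_mul_left h4 hq'

open scoped Classical in
/-- PIECE AR-H1a (80 lines).  The pairs of `GG Z H` with powerful part `q` are those of the region
`ab(a+b) ≤ Z q / rad q`.
PROOF.  With `n = ff s`: `n = rest {1} n * pc 1 n = q * pc 1 n`, `rad n = rad q * pc 1 n`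
(`EN.rest_mul_one`, `EN.rad_rest_mul_one`), so `rad n ≤ Z` iff `n * rad q ≤ Z * q`. -/
theorem gg_filter (Z q : ℕ) (H : ℝ) (hq : 0 < q) :
    (GG Z H).filter (fun s => rest {1} (ff s) = q) =
      (Reg ((Z : ℝ) * ((q : ℝ) / (rad q : ℝ))) H).filter
        (fun s => Cop s ∧ rest {1} (ff s) = q) := by
  ext s
  unfold GG Reg
  rw [Finset.mem_filter, Finset.mem_filter, Finset.mem_filter, Finset.mem_filter,
    Finset.mem_product, Finset.mem_Icc, Finset.mem_Icc]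
  constructor
  · rintro ⟨⟨⟨ha, hb⟩, hc, hr, hH⟩, hs⟩
    have hn : 0 < ff s := by
      unfold ff
      exact Nat.mul_pos (Nat.mul_pos ha.1 hb.1) (Nat.add_pos_left ha.1 _)
    exact ⟨⟨⟨ha, hb⟩, (h1a_iff Z q (ff s) hn hq hs).1 hr, hH⟩, ⟨ha.1, hb.1, hc⟩, hs⟩
  · rintro ⟨⟨⟨ha, hb⟩, hr, hH⟩, ⟨_, _, hc⟩, hs⟩
    have hn : 0 < ff s := by
      unfold ff
      exact Nat.mul_pos (Nat.mul_pos ha.1 hb.1) (Nat.add_pos_left ha.1 _)
    exact ⟨⟨⟨ha, hb⟩, hc, (h1a_iff Z q (ff s) hn hq hs).2 hr, hH⟩, hs⟩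

lemma h1b_fact (S : Finset ℕ) (n p : ℕ)
    (hp : p ∈ n.primeFactors.filter (fun p => n.factorization p ∉ S)) :
    (rest S n).factorization p = n.factorization p := by
  classical
  have hpp := Nat.prime_of_mem_primeFactors (Finset.mem_filter.1 hp).1
  unfold rest
  rw [Nat.factorization_prod (fun r hr => pow_ne_zero _
    (Nat.prime_of_mem_primeFactors (Finset.mem_filter.1 hr).1).ne_zero)]
  rw [Finsupp.finsetSum_apply, Finset.sum_eq_single p]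
  · rw [Nat.Prime.factorization_pow hpp]; simp
  · intro r hr hne
    have hrp := Nat.prime_of_mem_primeFactors (Finset.mem_filter.1 hr).1
    rw [Nat.Prime.factorization_pow hrp]; simp [hne]
  · intro h; exact absurd hp h

/-- `rest S` is idempotent. -/
lemma h1b_idem (S : Finset ℕ) (n : ℕ) : rest S (rest S n) = rest S n := by
  classical
  have h : ∀ p ∈ (rest S n).primeFactors, (rest S n).factorization p = n.factorization p := by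
    intro p hp
    rw [Pool.Agent.Helper21.EN.primeFactors_rest] at hp
    exact h1b_fact S n p hp
  have hf : (rest S n).primeFactors.filter (fun p => (rest S n).factorization p ∉ S) =
      n.primeFactors.filter (fun p => n.factorization p ∉ S) := by
    rw [← Pool.Agent.Helper21.EN.primeFactors_rest S n]
    apply Finset.filter_true_of_mem
    intro p hp
    rw [h p hp]
    rw [Pool.Agent.Helper21.EN.primeFactors_rest] at hp
    exact (Finset.mem_filter.1 hp).2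
  conv_lhs => unfold rest
  rw [show (∏ p ∈ n.primeFactors.filter (fun p => n.factorization p ∉ S),
    p ^ n.factorization p) = rest S n from rfl, hf]
  conv_rhs => unfold rest
  apply Finset.prod_congr rfl
  intro p hp
  rw [h1b_fact S n p hp]

open scoped Classical in
/-- Splitting by the powerful part. -/
lemma h1b_split (Z D : ℕ) (H : ℝ) : (GG Z H).card =
    (∑ q ∈ (Icc 1 D).filter (fun q => rest {1} q = q),
      ((GG Z H).filter (fun s => rest {1} (ff s) = q)).card) +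
      ((GG Z H).filter (fun s => ¬ rest {1} (ff s) ≤ D)).card := by
  rw [← Finset.card_filter_add_card_filter_not (s := GG Z H) (fun s => rest {1} (ff s) ≤ D)]
  congr 1
  rw [Finset.card_eq_sum_card_fiberwise (f := fun s => rest {1} (ff s))
    (t := (Icc 1 D).filter (fun q => rest {1} q = q))]
  · apply Finset.sum_congr rfl
    intro q hq
    rw [Finset.filter_filter]
    congr 1
    apply Finset.filter_congr
    intro s _
    constructor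
    · exact fun h => h.2
    · intro h
      refine ⟨?_, h⟩
      rw [h]
      exact (Finset.mem_Icc.1 (Finset.mem_filter.1 hq).1).2
  · intro s hs
    have hs' := (Finset.mem_filter.1 (Finset.mem_coe.1 hs)).2
    apply Finset.mem_coe.2
    rw [Finset.mem_filter, Finset.mem_Icc]
    exact ⟨⟨Pool.Agent.Helper21.EN.rest_pos _ _, hs'⟩, h1b_idem _ _⟩

/-- The powers of `D` in the error terms. -/
lemma h1b_pow (Z D : ℕ) (hD : 1 ≤ D) :
    (D : ℝ) * Real.sqrt ((Z : ℝ) * D) ≤ (D : ℝ) ^ 2 * Real.sqrt Z ∧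
    (D : ℝ) * (((Z : ℝ) * D) ^ (2 / 3 : ℝ) / (D : ℝ) ^ 2) ≤
      (Z : ℝ) ^ (2 / 3 : ℝ) / (D : ℝ) ^ (1 / 6 : ℝ) := by
  have hD1 : (1 : ℝ) ≤ (D : ℝ) := by exact_mod_cast hD
  have hD0 : (0 : ℝ) < (D : ℝ) := by linarith
  have hZ0 : (0 : ℝ) ≤ (Z : ℝ) := Nat.cast_nonneg _
  constructor
  · rw [Real.sqrt_mul hZ0]
    have h1 : Real.sqrt (D : ℝ) ≤ (D : ℝ) := by
      rw [Real.sqrt_le_left (by linarith)]
      nlinarith
    have h2 : 0 ≤ Real.sqrt (Z : ℝ) := Real.sqrt_nonneg _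
    have h3 : (D : ℝ) * (Real.sqrt Z * Real.sqrt D) ≤ (D : ℝ) * (Real.sqrt Z * D) :=
      mul_le_mul_of_nonneg_left (mul_le_mul_of_nonneg_left h1 h2) (by linarith)
    calc (D : ℝ) * (Real.sqrt Z * Real.sqrt D) ≤ (D : ℝ) * (Real.sqrt Z * D) := h3
      _ = (D : ℝ) ^ 2 * Real.sqrt Z := by ring
  · rw [Real.mul_rpow hZ0 hD0.le]
    have h6 : 0 < (D : ℝ) ^ (1 / 6 : ℝ) := Real.rpow_pos_of_pos hD0 _
    have hz : 0 ≤ (Z : ℝ) ^ (2 / 3 : ℝ) := Real.rpow_nonneg hZ0 _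
    have h5 : (D : ℝ) ^ (2 / 3 : ℝ) * (D : ℝ) ^ (1 / 6 : ℝ) ≤ (D : ℝ) := by
      rw [← Real.rpow_add hD0]
      calc (D : ℝ) ^ ((2 / 3 : ℝ) + (1 / 6 : ℝ)) ≤ (D : ℝ) ^ (1 : ℝ) :=
            Real.rpow_le_rpow_of_exponent_le hD1 (by norm_num)
        _ = (D : ℝ) := Real.rpow_one _
    rw [le_div_iff₀ h6]
    have h7 : (D : ℝ) * ((Z : ℝ) ^ (2 / 3 : ℝ) * (D : ℝ) ^ (2 / 3 : ℝ) / (D : ℝ) ^ 2) *
        (D : ℝ) ^ (1 / 6 : ℝ) =
        (Z : ℝ) ^ (2 / 3 : ℝ) * ((D : ℝ) ^ (2 / 3 : ℝ) * (D : ℝ) ^ (1 / 6 : ℝ)) / (D : ℝ) := by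
      field_simp
    rw [h7, div_le_iff₀ hD0]
    exact mul_le_mul_of_nonneg_left h5 hz

/-- One class. -/
lemma h1b_class (ε C2 C3 : ℝ) (hε : 0 < ε) (hC2 : 1 ≤ C2) (hC3 : 1 ≤ C3) (Z D q : ℕ) (H N R : ℝ)
    (hZ : 1 ≤ Z) (hH : 1 ≤ H) (hq1 : 1 ≤ q) (hqD : q ≤ D)
    (h2 : |N - sig q (D ^ 6) * R| ≤
      C2 * (H * ((D ^ 6 : ℕ) : ℝ) ^ 5 * (q : ℝ) ^ 4 +
      ((Z : ℝ) * ((q : ℝ) / (rad q : ℝ)) * H) ^ ε *
        (Real.sqrt ((Z : ℝ) * ((q : ℝ) / (rad q : ℝ))) +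
        ((Z : ℝ) * ((q : ℝ) / (rad q : ℝ))) ^ (2 / 3 : ℝ) / ((D ^ 6 : ℕ) : ℝ) ^ (1 / 3 : ℝ))))
    (h3 : |R - A0 * ((Z : ℝ) * ((q : ℝ) / (rad q : ℝ))) ^ (2 / 3 : ℝ)| ≤
      C3 * (H + (Z : ℝ) * ((q : ℝ) / (rad q : ℝ)) / H)) :
    |N - A0 * (sig q (D ^ 6) * ((q : ℝ) / (rad q : ℝ)) ^ (2 / 3 : ℝ)) * (Z : ℝ) ^ (2 / 3 : ℝ)| ≤
      C2 * (H * (D : ℝ) ^ 34 + ((Z : ℝ) * D * H) ^ ε *
        (Real.sqrt ((Z : ℝ) * D) + ((Z : ℝ) * D) ^ (2 / 3 : ℝ) / (D : ℝ) ^ 2)) +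
      C3 * ((D : ℝ) ^ 6 * (H + (Z : ℝ) * D / H)) := by
  have hD : 1 ≤ D := hq1.trans hqD
  have hD1 : (1 : ℝ) ≤ (D : ℝ) := by exact_mod_cast hD
  have hD0 : (0 : ℝ) < (D : ℝ) := by linarith
  have hZ1 : (1 : ℝ) ≤ (Z : ℝ) := by exact_mod_cast hZ
  have hZ0 : (0 : ℝ) ≤ (Z : ℝ) := by linarith
  have hH0 : (0 : ℝ) < H := by linarith
  have hr0 : (1 : ℝ) ≤ (rad q : ℝ) := by exact_mod_cast Pool.Agent.Helper21.EN.rad_pos q
  have hq0 : (1 : ℝ) ≤ (q : ℝ) := by exact_mod_cast hq1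
  have hqD' : (q : ℝ) ≤ (D : ℝ) := by exact_mod_cast hqD
  set x : ℝ := (q : ℝ) / (rad q : ℝ) with hx
  have hx0 : 0 ≤ x := by positivity
  have hxD : x ≤ (D : ℝ) := by
    rw [hx, div_le_iff₀ (by linarith)]
    nlinarith
  have hY : (Z : ℝ) * x ≤ (Z : ℝ) * D := mul_le_mul_of_nonneg_left hxD hZ0
  have hY0 : 0 ≤ (Z : ℝ) * x := mul_nonneg hZ0 hx0
  have e1 : ((D ^ 6 : ℕ) : ℝ) ^ (1 / 3 : ℝ) = (D : ℝ) ^ 2 := by
    push_cast
    rw [← Real.rpow_natCast, ← Real.rpow_mul hD0.le]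
    norm_num
  rw [e1] at h2
  have e2 : ((Z : ℝ) * x) ^ (2 / 3 : ℝ) = (Z : ℝ) ^ (2 / 3 : ℝ) * x ^ (2 / 3 : ℝ) :=
    Real.mul_rpow hZ0 hx0
  have t1 : H * ((D ^ 6 : ℕ) : ℝ) ^ 5 * (q : ℝ) ^ 4 ≤ H * (D : ℝ) ^ 34 := by
    have : (q : ℝ) ^ 4 ≤ (D : ℝ) ^ 4 := pow_le_pow_left₀ (by linarith) hqD' 4
    calc H * ((D ^ 6 : ℕ) : ℝ) ^ 5 * (q : ℝ) ^ 4 ≤ H * ((D ^ 6 : ℕ) : ℝ) ^ 5 * (D : ℝ) ^ 4 := by
          apply mul_le_mul_of_nonneg_left this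
          positivity
      _ = H * (D : ℝ) ^ 34 := by push_cast; ring
  have t2 : ((Z : ℝ) * x * H) ^ ε ≤ ((Z : ℝ) * D * H) ^ ε :=
    Real.rpow_le_rpow (by positivity) (mul_le_mul_of_nonneg_right hY hH0.le) hε.le
  have t3 : Real.sqrt ((Z : ℝ) * x) ≤ Real.sqrt ((Z : ℝ) * D) := Real.sqrt_le_sqrt hY
  have t4 : ((Z : ℝ) * x) ^ (2 / 3 : ℝ) ≤ ((Z : ℝ) * D) ^ (2 / 3 : ℝ) :=
    Real.rpow_le_rpow hY0 hY (by norm_num)
  have t5 : ((Z : ℝ) * x * H) ^ ε * (Real.sqrt ((Z : ℝ) * x) +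
      ((Z : ℝ) * x) ^ (2 / 3 : ℝ) / (D : ℝ) ^ 2) ≤ ((Z : ℝ) * D * H) ^ ε *
        (Real.sqrt ((Z : ℝ) * D) + ((Z : ℝ) * D) ^ (2 / 3 : ℝ) / (D : ℝ) ^ 2) := by
    apply mul_le_mul t2 _ (by positivity) (by positivity)
    apply add_le_add t3
    exact div_le_div_of_nonneg_right t4 (by positivity)
  have t6 : C2 * (H * ((D ^ 6 : ℕ) : ℝ) ^ 5 * (q : ℝ) ^ 4 + ((Z : ℝ) * x * H) ^ ε *
      (Real.sqrt ((Z : ℝ) * x) + ((Z : ℝ) * x) ^ (2 / 3 : ℝ) / (D : ℝ) ^ 2)) ≤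
      C2 * (H * (D : ℝ) ^ 34 + ((Z : ℝ) * D * H) ^ ε *
        (Real.sqrt ((Z : ℝ) * D) + ((Z : ℝ) * D) ^ (2 / 3 : ℝ) / (D : ℝ) ^ 2)) :=
    mul_le_mul_of_nonneg_left (add_le_add t1 t5) (by linarith)
  have hs : |sig q (D ^ 6)| ≤ (D : ℝ) ^ 6 := by
    have := sig_le q (D ^ 6)
    push_cast at this
    exact this
  have t7 : |sig q (D ^ 6) * (R - A0 * ((Z : ℝ) * x) ^ (2 / 3 : ℝ))| ≤
      C3 * ((D : ℝ) ^ 6 * (H + (Z : ℝ) * D / H)) := by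
    rw [abs_mul]
    have u1 : C3 * (H + (Z : ℝ) * x / H) ≤ C3 * (H + (Z : ℝ) * D / H) := by
      apply mul_le_mul_of_nonneg_left _ (by linarith)
      have := div_le_div_of_nonneg_right hY hH0.le
      linarith
    calc |sig q (D ^ 6)| * |R - A0 * ((Z : ℝ) * x) ^ (2 / 3 : ℝ)| ≤
        (D : ℝ) ^ 6 * (C3 * (H + (Z : ℝ) * D / H)) :=
          mul_le_mul hs (h3.trans u1) (abs_nonneg _) (by positivity)
      _ = _ := by ring
  have e3 : N - A0 * (sig q (D ^ 6) * x ^ (2 / 3 : ℝ)) * (Z : ℝ) ^ (2 / 3 : ℝ) =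
      (N - sig q (D ^ 6) * R) + sig q (D ^ 6) * (R - A0 * ((Z : ℝ) * x) ^ (2 / 3 : ℝ)) := by
    rw [e2]; ring
  rw [e3]
  calc _ ≤ |N - sig q (D ^ 6) * R| + |sig q (D ^ 6) * (R - A0 * ((Z : ℝ) * x) ^ (2 / 3 : ℝ))| :=
        abs_add_le _ _
    _ ≤ _ := add_le_add (h2.trans t6) t7

/-- PIECE AR-H1b (150 lines).  The main estimate with a free parameter `D`.
PROOF.  `rest {1} (ff s) =: q` satisfies `rest {1} q = q`.  Split `GG Z H` into `q > D` and the classes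
`q ≤ D`.  Tail: `powtail ε` with threshold `D`: `C1 (Z H)^ε (H^(3/2) + Z^(2/3)/D^(1/6))`.
For `q ≤ D`, `rest {1} q = q`, `Y = Z q/rad q ∈ [Z, Z D]`, `E = D^6`: `gg_filter` and `powerful_count ε`:
the class has `sig q E |Reg Y H|` elements up to
`C2 (H D^30 D^4 + (Z D H)^ε (√(Z D) + (Z D)^(2/3)/D^2))`, and by `reg_card`, `sig_le`:
`sig q E |Reg Y H| = sig q E A0 Z^(2/3) (q/rad q)^(2/3)` up to `D^6 C3 (H + Z D/H)`.  Sum over at most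
`D` values of `q`: total error `≤ C (Z D H)^ε (H^(3/2) + Z^(2/3)/D^(1/6) + D^35 H + D^2 √Z +
Z^(2/3) D^(-1/3) + D^7 H + D^8 Z/H)`. -/
theorem main_est (ε : ℝ) (hε : 0 < ε) : ∃ C : ℝ, 1 ≤ C ∧ ∀ (Z D : ℕ) (H : ℝ), 1 ≤ Z → 1 ≤ D →
    1 ≤ H →
    |((GG Z H).card : ℝ) - A0 * cD D * (Z : ℝ) ^ (2 / 3 : ℝ)| ≤
      C * ((Z : ℝ) * D * H) ^ ε * (H ^ (3 / 2 : ℝ) + (Z : ℝ) ^ (2 / 3 : ℝ) / (D : ℝ) ^ (1 / 6 : ℝ) +
        (D : ℝ) ^ 35 * H + (D : ℝ) ^ 2 * Real.sqrt Z + (D : ℝ) ^ 8 * Z / H) := by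
  obtain ⟨C1, hC1, h1⟩ := powtail ε hε
  obtain ⟨C2, hC2, h2⟩ := powerful_count ε hε
  obtain ⟨C3, hC3, h3⟩ := reg_card
  refine ⟨C1 + C2 + C3, by linarith, ?_⟩
  intro Z D H hZ hD hH
  classical
  have hD1 : (1 : ℝ) ≤ (D : ℝ) := by exact_mod_cast hD
  have hD0 : (0 : ℝ) < (D : ℝ) := by linarith
  have hZ1 : (1 : ℝ) ≤ (Z : ℝ) := by exact_mod_cast hZ
  have hZ0 : (0 : ℝ) ≤ (Z : ℝ) := by linarith
  have hH0 : (0 : ℝ) < H := by linarith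
  -- the tail
  have htail : (((GG Z H).filter (fun s => ¬ rest {1} (ff s) ≤ D)).card : ℝ) ≤
      C1 * ((Z : ℝ) * H) ^ ε *
        (H ^ (3 / 2 : ℝ) + (Z : ℝ) ^ (2 / 3 : ℝ) / (D : ℝ) ^ (1 / 6 : ℝ)) := by
    apply h1 Z H D _ hZ hH hD1
    intro s hs
    rw [Finset.mem_filter] at hs
    obtain ⟨hs1, hs2⟩ := hs
    unfold GG at hs1
    rw [Finset.mem_filter, Finset.mem_product, Finset.mem_Icc, Finset.mem_Icc] at hs1
    obtain ⟨⟨ha, hb⟩, hcop, hrad, hH'⟩ := hs1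
    refine ⟨⟨ha.1, hb.1, hcop⟩, hrad, hH', ?_⟩
    push Not at hs2
    exact_mod_cast hs2.le
  -- the classes
  set P := (Icc 1 D).filter (fun q => rest {1} q = q) with hP
  set B : ℝ := C2 * (H * (D : ℝ) ^ 34 + ((Z : ℝ) * D * H) ^ ε *
        (Real.sqrt ((Z : ℝ) * D) + ((Z : ℝ) * D) ^ (2 / 3 : ℝ) / (D : ℝ) ^ 2)) +
      C3 * ((D : ℝ) ^ 6 * (H + (Z : ℝ) * D / H)) with hB
  have hclass : ∀ q ∈ P, |(((GG Z H).filter (fun s => rest {1} (ff s) = q)).card : ℝ) -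
      A0 * (sig q (D ^ 6) * ((q : ℝ) / (rad q : ℝ)) ^ (2 / 3 : ℝ)) * (Z : ℝ) ^ (2 / 3 : ℝ)| ≤
      B := by
    intro q hq
    rw [hP, Finset.mem_filter, Finset.mem_Icc] at hq
    obtain ⟨⟨hq1, hqD⟩, hqp⟩ := hq
    have hr0 : (1 : ℝ) ≤ (rad q : ℝ) := by exact_mod_cast Pool.Agent.Helper21.EN.rad_pos q
    have hrq : (rad q : ℝ) ≤ (q : ℝ) := by exact_mod_cast Pool.Agent.Helper21.EN.rad_le hq1
    have hx1 : (1 : ℝ) ≤ (q : ℝ) / (rad q : ℝ) := by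
      rw [le_div_iff₀ (by linarith)]; linarith
    have hY1 : (1 : ℝ) ≤ (Z : ℝ) * ((q : ℝ) / (rad q : ℝ)) := by nlinarith
    have hE : 1 ≤ D ^ 6 := Nat.one_le_pow _ _ hD
    rw [gg_filter Z q H hq1]
    exact h1b_class ε C2 C3 hε hC2 hC3 Z D q H _ _ hZ hH hq1 hqD
      (h2 q (D ^ 6) _ H hq1 hqp hE hY1 hH) (h3 _ H hY1 hH)
  have hsum : |(∑ q ∈ P, (((GG Z H).filter (fun s => rest {1} (ff s) = q)).card : ℝ)) -
      A0 * cD D * (Z : ℝ) ^ (2 / 3 : ℝ)| ≤ (D : ℝ) * B := by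
    have e1 : A0 * cD D * (Z : ℝ) ^ (2 / 3 : ℝ) = ∑ q ∈ P,
        A0 * (sig q (D ^ 6) * ((q : ℝ) / (rad q : ℝ)) ^ (2 / 3 : ℝ)) *
          (Z : ℝ) ^ (2 / 3 : ℝ) := by
      unfold cD
      rw [← hP, Finset.mul_sum, Finset.sum_mul]
    rw [e1, ← Finset.sum_sub_distrib]
    calc _ ≤ ∑ q ∈ P, |(((GG Z H).filter (fun s => rest {1} (ff s) = q)).card : ℝ) -
          A0 * (sig q (D ^ 6) * ((q : ℝ) / (rad q : ℝ)) ^ (2 / 3 : ℝ)) *
            (Z : ℝ) ^ (2 / 3 : ℝ)| := Finset.abs_sum_le_sum_abs _ _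
      _ ≤ ∑ _q ∈ P, B := Finset.sum_le_sum hclass
      _ = (P.card : ℝ) * B := by rw [Finset.sum_const, nsmul_eq_mul]
      _ ≤ (D : ℝ) * B := by
          apply mul_le_mul_of_nonneg_right
          · have : P.card ≤ D := by
              calc P.card ≤ (Icc 1 D).card := Finset.card_filter_le _ _
                _ = D := by simp
            exact_mod_cast this
          · rw [hB]; positivity
  -- the total
  have hsplit : ((GG Z H).card : ℝ) =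
      (∑ q ∈ P, (((GG Z H).filter (fun s => rest {1} (ff s) = q)).card : ℝ)) +
      (((GG Z H).filter (fun s => ¬ rest {1} (ff s) ≤ D)).card : ℝ) := by
    rw [h1b_split Z D H]
    push_cast
    rfl
  obtain ⟨p1, p2⟩ := h1b_pow Z D hD
  set W : ℝ := ((Z : ℝ) * D * H) ^ ε with hW
  have hW1 : 1 ≤ W := by
    rw [hW]
    apply Real.one_le_rpow _ hε.le
    have : (1 : ℝ) ≤ (Z : ℝ) * D := by nlinarith
    nlinarith
  have hWW : ((Z : ℝ) * H) ^ ε ≤ W := by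
    rw [hW]
    apply Real.rpow_le_rpow (by positivity) _ hε.le
    have : (Z : ℝ) * 1 ≤ (Z : ℝ) * D := mul_le_mul_of_nonneg_left hD1 hZ0
    rw [mul_one] at this
    exact mul_le_mul_of_nonneg_right this hH0.le
  set a : ℝ := H ^ (3 / 2 : ℝ) with ha
  set b : ℝ := (Z : ℝ) ^ (2 / 3 : ℝ) / (D : ℝ) ^ (1 / 6 : ℝ) with hb
  have ha0 : 0 ≤ a := by rw [ha]; positivity
  have hb0 : 0 ≤ b := by rw [hb]; positivity
  set c : ℝ := (D : ℝ) ^ 35 * H with hc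
  set d : ℝ := (D : ℝ) ^ 2 * Real.sqrt Z with hd
  set e : ℝ := (D : ℝ) ^ 8 * Z / H with he
  have hc0 : 0 ≤ c := by rw [hc]; positivity
  have hd0 : 0 ≤ d := by rw [hd]; positivity
  have he0 : 0 ≤ e := by rw [he]; positivity
  have hDB : (D : ℝ) * B ≤ C2 * (c + W * (d + b)) + C3 * (c + e) := by
    have u1 : (D : ℝ) * B = C2 * (c + W * ((D : ℝ) * Real.sqrt ((Z : ℝ) * D) +
        (D : ℝ) * (((Z : ℝ) * D) ^ (2 / 3 : ℝ) / (D : ℝ) ^ 2))) +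
        C3 * ((D : ℝ) ^ 7 * H + e) := by
      rw [hB, hc, he]; ring
    rw [u1]
    have u2 : (D : ℝ) ^ 7 * H ≤ c := by
      rw [hc]
      exact mul_le_mul_of_nonneg_right (pow_le_pow_right₀ hD1 (by norm_num)) hH0.le
    have u3 : W * ((D : ℝ) * Real.sqrt ((Z : ℝ) * D) +
        (D : ℝ) * (((Z : ℝ) * D) ^ (2 / 3 : ℝ) / (D : ℝ) ^ 2)) ≤ W * (d + b) :=
      mul_le_mul_of_nonneg_left (add_le_add p1 p2) (by linarith)
    have u4 := mul_le_mul_of_nonneg_left (add_le_add_right u3 c) (by linarith : (0 : ℝ) ≤ C2)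
    have u5 := mul_le_mul_of_nonneg_left (add_le_add_left u2 e) (by linarith : (0 : ℝ) ≤ C3)
    linarith
  have hT : C1 * ((Z : ℝ) * H) ^ ε * (a + b) ≤ C1 * W * (a + b) := by
    apply mul_le_mul_of_nonneg_right _ (by linarith)
    exact mul_le_mul_of_nonneg_left hWW (by linarith)
  have hfin : C1 * W * (a + b) + (C2 * (c + W * (d + b)) + C3 * (c + e)) ≤
      (C1 + C2 + C3) * W * (a + b + c + d + e) := by
    have v1 : C2 * c ≤ C2 * (W * c) := by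
      apply mul_le_mul_of_nonneg_left _ (by linarith)
      nlinarith
    have v2 : C3 * (c + e) ≤ C3 * (W * (c + e)) := by
      apply mul_le_mul_of_nonneg_left _ (by linarith)
      nlinarith
    have w1 : 0 ≤ C1 * W * (c + d + e) := by positivity
    have w2 : 0 ≤ C2 * W * (a + e) := by positivity
    have w3 : 0 ≤ C3 * W * (a + b + d) := by positivity
    nlinarith
  have hN := abs_nonneg (((GG Z H).card : ℝ) - A0 * cD D * (Z : ℝ) ^ (2 / 3 : ℝ))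
  have htri : |((GG Z H).card : ℝ) - A0 * cD D * (Z : ℝ) ^ (2 / 3 : ℝ)| ≤ (D : ℝ) * B +
      (((GG Z H).filter (fun s => ¬ rest {1} (ff s) ≤ D)).card : ℝ) := by
    rw [hsplit]
    have : (∑ q ∈ P, (((GG Z H).filter (fun s => rest {1} (ff s) = q)).card : ℝ)) +
      (((GG Z H).filter (fun s => ¬ rest {1} (ff s) ≤ D)).card : ℝ) -
      A0 * cD D * (Z : ℝ) ^ (2 / 3 : ℝ) =
      ((∑ q ∈ P, (((GG Z H).filter (fun s => rest {1} (ff s) = q)).card : ℝ)) -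
      A0 * cD D * (Z : ℝ) ^ (2 / 3 : ℝ)) +
      (((GG Z H).filter (fun s => ¬ rest {1} (ff s) ≤ D)).card : ℝ) := by ring
    rw [this]
    refine (abs_add_le _ _).trans (add_le_add hsum ?_)
    rw [abs_of_nonneg (Nat.cast_nonneg _)]
  linarith

end Pool.Agent.Helper93.AR
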