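import Pool.Agent.Helper93.AR.H1

set_option autoImplicit false

/-! # Project AR, piece H2: the asymptotic formula in the range of small height -/

namespace Pool.Agent.Helper93.AR

open Finset

private theorem h2a_rpow {x : ℝ} (hx : 1 ≤ x) (n m : ℕ) (a : ℝ) (h : (n : ℝ) * a = m) :
    (x ^ n) ^ a = x ^ m := by
  have h0 : (0 : ℝ) ≤ x := by linarith
  rw [← Real.rpow_natCast x n, ← Real.rpow_mul h0, h, Real.rpow_natCast]

private theorem h2a_brak {x y d : ℝ} (hy : 1 ≤ y) (hyd : y ≤ d) (hdx : d ≤ x) :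
    x ^ 264 + x ^ 320 / d ^ (1 / 6 : ℝ) + d ^ 35 * x ^ 176 + d ^ 2 * x ^ 240 + d ^ 8 * x ^ 304 ≤
      5 * (x ^ 320 / y ^ (1 / 6 : ℝ)) := by
  have hd : 1 ≤ d := hy.trans hyd
  have hx : 1 ≤ x := hd.trans hdx
  have hd0 : 0 ≤ d := by linarith
  have hx0 : 0 ≤ x := by linarith
  have hy6 : (0 : ℝ) < y ^ (1 / 6 : ℝ) := Real.rpow_pos_of_pos (by linarith) _
  have h1 : x ^ 320 / d ^ (1 / 6 : ℝ) ≤ x ^ 320 / y ^ (1 / 6 : ℝ) :=
    div_le_div_of_nonneg_left (by positivity) hy6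
      (Real.rpow_le_rpow (by linarith) hyd (by norm_num))
  have h2 : x ^ 312 ≤ x ^ 320 / y ^ (1 / 6 : ℝ) := by
    rw [le_div_iff₀ hy6]
    have h3 : y ^ (1 / 6 : ℝ) ≤ x ^ 8 := by
      calc y ^ (1 / 6 : ℝ) ≤ y ^ (1 : ℝ) := Real.rpow_le_rpow_of_exponent_le hy (by norm_num)
        _ = y := Real.rpow_one y
        _ ≤ x := hyd.trans hdx
        _ ≤ x ^ 8 := le_self_pow₀ hx (by norm_num)
    calc x ^ 312 * y ^ (1 / 6 : ℝ) ≤ x ^ 312 * x ^ 8 :=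
          mul_le_mul_of_nonneg_left h3 (by positivity)
      _ = x ^ 320 := by ring
  have h4 : x ^ 264 ≤ x ^ 312 := pow_le_pow_right₀ hx (by norm_num)
  have h5 : d ^ 35 * x ^ 176 ≤ x ^ 312 := by
    calc d ^ 35 * x ^ 176 ≤ x ^ 35 * x ^ 176 :=
          mul_le_mul_of_nonneg_right (pow_le_pow_left₀ hd0 hdx _) (by positivity)
      _ = x ^ 211 := by ring
      _ ≤ x ^ 312 := pow_le_pow_right₀ hx (by norm_num)
  have h6 : d ^ 2 * x ^ 240 ≤ x ^ 312 := by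
    calc d ^ 2 * x ^ 240 ≤ x ^ 2 * x ^ 240 :=
          mul_le_mul_of_nonneg_right (pow_le_pow_left₀ hd0 hdx _) (by positivity)
      _ = x ^ 242 := by ring
      _ ≤ x ^ 312 := pow_le_pow_right₀ hx (by norm_num)
  have h7 : d ^ 8 * x ^ 304 ≤ x ^ 312 := by
    calc d ^ 8 * x ^ 304 ≤ x ^ 8 * x ^ 304 :=
          mul_le_mul_of_nonneg_right (pow_le_pow_left₀ hd0 hdx _) (by positivity)
      _ = x ^ 312 := by ring
  linarith

private theorem h2a_nn1 {x e : ℝ} (hx : 0 ≤ x) (he : 0 ≤ e) : 0 ≤ x ^ 480 * e * x ^ 176 := by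
  positivity

private theorem h2a_nn2 {x e : ℝ} (hx : 0 ≤ x) (he : 0 ≤ e) :
    0 ≤ x ^ 264 + x ^ 320 / e ^ (1 / 6 : ℝ) + e ^ 35 * x ^ 176 + e ^ 2 * x ^ 240 +
        e ^ 8 * x ^ 304 := by
  positivity

private theorem h2a_step : ∃ K : ℝ, 0 ≤ K ∧ ∀ D D' : ℕ, 1 ≤ D → D ≤ D' → D' ≤ D ^ 2 →
    |cD D - cD D'| ≤ K / (D : ℝ) ^ (1 / 12 : ℝ) := by
  obtain ⟨C, hC, h⟩ := main_est (1 / 15768) (by norm_num)
  have hA := A0_pos
  refine ⟨10 * C / A0, by positivity, ?_⟩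
  intro D D' h1 h2 h3
  obtain ⟨y, hy⟩ : ∃ y : ℝ, y = D := ⟨_, rfl⟩
  obtain ⟨x, hx⟩ : ∃ x : ℝ, x = D' := ⟨_, rfl⟩
  have hy1 : 1 ≤ y := by rw [hy]; exact_mod_cast h1
  have hyx : y ≤ x := by rw [hy, hx]; exact_mod_cast h2
  have hxy : x ≤ y ^ 2 := by rw [hy, hx]; exact_mod_cast h3
  have hx1 : 1 ≤ x := hy1.trans hyx
  have hy12 : (0 : ℝ) < y ^ (1 / 12 : ℝ) := Real.rpow_pos_of_pos (by linarith) _
  have hy6 : y ^ (1 / 6 : ℝ) = y ^ (1 / 12 : ℝ) * y ^ (1 / 12 : ℝ) := by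
    rw [← Real.rpow_add (by linarith)]
    norm_num
  have key : ∀ d : ℕ, D ≤ d → d ≤ D' →
      |((GG (D' ^ 480) (x ^ 176)).card : ℝ) - A0 * cD d * x ^ 320| ≤
        5 * C * x ^ 320 / y ^ (1 / 12 : ℝ) := by
    intro d hd1 hd2
    obtain ⟨e, he⟩ : ∃ e : ℝ, e = d := ⟨_, rfl⟩
    have he1 : y ≤ e := by rw [he, hy]; exact_mod_cast hd1
    have he2 : e ≤ x := by rw [he, hx]; exact_mod_cast hd2
    have h4 := h (D' ^ 480) d (x ^ 176) (Nat.one_le_pow _ _ (by omega)) (h1.trans hd1)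
      (one_le_pow₀ hx1)
    have hz : (((D' ^ 480 : ℕ)) : ℝ) = x ^ 480 := by rw [hx]; push_cast; rfl
    rw [hz, ← he, h2a_rpow hx1 480 320 (2 / 3) (by norm_num),
      h2a_rpow hx1 176 264 (3 / 2) (by norm_num), Real.sqrt_eq_rpow,
      h2a_rpow hx1 480 240 (1 / 2) (by norm_num)] at h4
    have h5 : e ^ 8 * x ^ 480 / x ^ 176 = e ^ 8 * x ^ 304 := by
      have h6 : x ^ 176 ≠ 0 := by positivity
      rw [div_eq_iff h6, mul_assoc, ← pow_add]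
    rw [h5] at h4
    have h6 : (x ^ 480 * e * x ^ 176) ^ (1 / 15768 : ℝ) ≤ y ^ (1 / 12 : ℝ) := by
      have h7 : x ^ 480 * e * x ^ 176 ≤ y ^ (1314 : ℝ) := by
        have g1 : x ^ 480 * e * x ^ 176 ≤ x ^ 480 * x * x ^ 176 :=
          mul_le_mul_of_nonneg_right (mul_le_mul_of_nonneg_left he2 (by positivity))
            (by positivity)
        have g2 : x ^ 480 * x * x ^ 176 = x ^ (657 : ℝ) := by
          rw [← Real.rpow_natCast x 480, ← Real.rpow_natCast x 176]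
          nth_rewrite 2 [← Real.rpow_one x]
          rw [← Real.rpow_add (by linarith), ← Real.rpow_add (by linarith)]
          norm_num
        have g3 : x ^ (657 : ℝ) ≤ (y ^ 2) ^ (657 : ℝ) :=
          Real.rpow_le_rpow (by linarith) hxy (by norm_num)
        have g4 : (y ^ 2) ^ (657 : ℝ) = y ^ (1314 : ℝ) := by
          rw [← Real.rpow_natCast y 2, ← Real.rpow_mul (by linarith)]
          norm_num
        rw [g2] at g1
        rw [← g4]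
        exact g1.trans g3
      calc (x ^ 480 * e * x ^ 176) ^ (1 / 15768 : ℝ) ≤ (y ^ (1314 : ℝ)) ^ (1 / 15768 : ℝ) := by
            exact Real.rpow_le_rpow (h2a_nn1 (by linarith) (by linarith)) h7 (by norm_num)
        _ = y ^ (1 / 12 : ℝ) := by
            rw [← Real.rpow_mul (by linarith)]
            norm_num
    have h8 := h2a_brak hy1 he1 he2
    have h9 : 0 ≤ x ^ 264 + x ^ 320 / e ^ (1 / 6 : ℝ) + e ^ 35 * x ^ 176 + e ^ 2 * x ^ 240 +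
        e ^ 8 * x ^ 304 := h2a_nn2 (by linarith) (by linarith)
    calc |((GG (D' ^ 480) (x ^ 176)).card : ℝ) - A0 * cD d * x ^ 320|
        ≤ C * (x ^ 480 * e * x ^ 176) ^ (1 / 15768 : ℝ) *
          (x ^ 264 + x ^ 320 / e ^ (1 / 6 : ℝ) + e ^ 35 * x ^ 176 + e ^ 2 * x ^ 240 +
            e ^ 8 * x ^ 304) := h4
      _ ≤ C * y ^ (1 / 12 : ℝ) * (5 * (x ^ 320 / y ^ (1 / 6 : ℝ))) := by
          refine mul_le_mul (mul_le_mul_of_nonneg_left h6 (by linarith)) h8 h9 (by positivity)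
      _ = 5 * C * x ^ 320 / y ^ (1 / 12 : ℝ) := by
          rw [hy6]
          field_simp
  have k1 := key D le_rfl h2
  have k2 := key D' h2 le_rfl
  have h10 : A0 * x ^ 320 * |cD D - cD D'| ≤ 10 * C * x ^ 320 / y ^ (1 / 12 : ℝ) := by
    have h11 : A0 * x ^ 320 * |cD D - cD D'| = |(((GG (D' ^ 480) (x ^ 176)).card : ℝ) -
        A0 * cD D' * x ^ 320) - (((GG (D' ^ 480) (x ^ 176)).card : ℝ) -
        A0 * cD D * x ^ 320)| := by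
      have hp : 0 < A0 * x ^ 320 := by positivity
      rw [show (((GG (D' ^ 480) (x ^ 176)).card : ℝ) - A0 * cD D' * x ^ 320) -
        (((GG (D' ^ 480) (x ^ 176)).card : ℝ) - A0 * cD D * x ^ 320) =
        (A0 * x ^ 320) * (cD D - cD D') by ring, abs_mul, abs_of_pos hp]
    rw [h11]
    refine (abs_sub _ _).trans ?_
    have h12 : 10 * C * x ^ 320 / y ^ (1 / 12 : ℝ) =
      5 * C * x ^ 320 / y ^ (1 / 12 : ℝ) + 5 * C * x ^ 320 / y ^ (1 / 12 : ℝ) := by ring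
    rw [h12]
    exact add_le_add k2 k1
  rw [← hy]
  have h13 : 10 * C / A0 / y ^ (1 / 12 : ℝ) =
      (10 * C * x ^ 320 / y ^ (1 / 12 : ℝ)) / (A0 * x ^ 320) := by
    have : x ^ 320 ≠ 0 := by positivity
    field_simp
  rw [h13, le_div_iff₀ (by positivity)]
  linarith

private theorem h2a_abs (f : ℕ → ℝ) (K : ℝ) (hK : 0 ≤ K)
    (hf : ∀ D D' : ℕ, 1 ≤ D → D ≤ D' → D' ≤ D ^ 2 →
      |f D - f D'| ≤ K / (D : ℝ) ^ (1 / 12 : ℝ)) :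
    ∃ c C : ℝ, 1 ≤ C ∧ ∀ D : ℕ, 1 ≤ D → |f D - c| ≤ C / (D : ℝ) ^ (1 / 12 : ℝ) := by
  obtain ⟨r, hr⟩ : ∃ r : ℝ, r = (2 : ℝ) ^ (-(1 / 12) : ℝ) := ⟨_, rfl⟩
  have hr0 : 0 < r := by rw [hr]; positivity
  have hr1 : r < 1 := by
    rw [hr]
    exact Real.rpow_lt_one_of_one_lt_of_neg (by norm_num) (by norm_num)
  have hpow : ∀ n : ℕ, 1 / (((2 ^ n : ℕ)) : ℝ) ^ (1 / 12 : ℝ) = r ^ n := by
    intro n
    rw [hr, ← Real.rpow_natCast, ← Real.rpow_mul (by norm_num)]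
    push_cast
    rw [← Real.rpow_natCast, ← Real.rpow_mul (by norm_num), one_div,
      ← Real.rpow_neg (by norm_num)]
    congr 1
    ring
  have hu : ∀ n : ℕ, dist (f (2 ^ (n + 1))) (f (2 ^ (n + 1 + 1))) ≤ (K * r) * r ^ n := by
    intro n
    rw [Real.dist_eq]
    refine (hf _ _ Nat.one_le_two_pow (Nat.pow_le_pow_right (by norm_num) (by omega)) ?_).trans ?_
    · rw [← pow_mul]
      exact Nat.pow_le_pow_right (by norm_num) (by omega)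
    · rw [div_eq_mul_one_div, hpow (n + 1), pow_succ]
      apply le_of_eq
      ring
  obtain ⟨c, hc⟩ := cauchySeq_tendsto_of_complete
    (cauchySeq_of_le_geometric r (K * r) hr1 (f := fun n => f (2 ^ (n + 1))) hu)
  have hlim : ∀ n : ℕ, |f (2 ^ (n + 1)) - c| ≤ K * r ^ (n + 1) / (1 - r) := by
    intro n
    have h1 := dist_le_of_le_geometric_of_tendsto r (K * r) hr1
      (f := fun n => f (2 ^ (n + 1))) hu hc n
    rw [Real.dist_eq] at h1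
    refine h1.trans (le_of_eq ?_)
    rw [pow_succ]
    ring
  have h1r : 0 < 1 - r := by linarith
  refine ⟨c, 1 + |f 1 - c| + K * (1 + 1 / (1 - r)) / r, ?_, ?_⟩
  · have h1 := abs_nonneg (f 1 - c)
    have h2 : 0 ≤ K * (1 + 1 / (1 - r)) / r := by positivity
    linarith
  intro D hD
  rcases hD.eq_or_lt with h1 | h1
  · rw [← h1, Nat.cast_one, Real.one_rpow, div_one]
    have h2 : 0 ≤ K * (1 + 1 / (1 - r)) / r := by positivity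
    linarith
  · obtain ⟨k, hk⟩ : ∃ k, Nat.log 2 D = k + 1 := by
      have h2 : 0 < Nat.log 2 D := Nat.log_pos (by norm_num) h1
      exact ⟨Nat.log 2 D - 1, by omega⟩
    have h2 : 2 ^ (k + 1) ≤ D := by
      rw [← hk]
      exact Nat.pow_log_le_self 2 (by omega)
    have h3 : D < 2 ^ (k + 1 + 1) := by
      rw [← hk]
      exact Nat.lt_pow_succ_log_self (by norm_num) D
    have h4 := hf (2 ^ (k + 1)) D Nat.one_le_two_pow h2 (by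
      rw [← pow_mul]
      exact h3.le.trans (Nat.pow_le_pow_right (by norm_num) (by omega)))
    rw [div_eq_mul_one_div, hpow (k + 1), abs_sub_comm] at h4
    have h5 := hlim k
    have h6 : |f D - c| ≤ K * (1 + 1 / (1 - r)) * r ^ (k + 1) := by
      have h7 : f D - c = (f D - f (2 ^ (k + 1))) + (f (2 ^ (k + 1)) - c) := by ring
      rw [h7]
      refine (abs_add_le _ _).trans ((add_le_add h4 h5).trans (le_of_eq ?_))
      ring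
    have hD0 : (0 : ℝ) < D := by exact_mod_cast (by omega : 0 < D)
    have hD12 : (0 : ℝ) < (D : ℝ) ^ (1 / 12 : ℝ) := Real.rpow_pos_of_pos hD0 _
    have h8 : r ^ (k + 1) * r ≤ 1 / (D : ℝ) ^ (1 / 12 : ℝ) := by
      rw [← pow_succ, ← hpow]
      refine one_div_le_one_div_of_le hD12 (Real.rpow_le_rpow hD0.le ?_ (by norm_num))
      exact_mod_cast h3.le
    have h9 : r ^ (k + 1) ≤ 1 / (D : ℝ) ^ (1 / 12 : ℝ) / r := by
      rw [le_div_iff₀ hr0]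
      exact h8
    have h10 : 0 ≤ K * (1 + 1 / (1 - r)) := by positivity
    calc |f D - c| ≤ K * (1 + 1 / (1 - r)) * r ^ (k + 1) := h6
      _ ≤ K * (1 + 1 / (1 - r)) * (1 / (D : ℝ) ^ (1 / 12 : ℝ) / r) :=
          mul_le_mul_of_nonneg_left h9 h10
      _ = (K * (1 + 1 / (1 - r)) / r) / (D : ℝ) ^ (1 / 12 : ℝ) := by ring
      _ ≤ (1 + |f 1 - c| + K * (1 + 1 / (1 - r)) / r) / (D : ℝ) ^ (1 / 12 : ℝ) := by
          refine div_le_div_of_nonneg_right ?_ hD12.le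
          have := abs_nonneg (f 1 - c)
          linarith

/-- PIECE AR-H2 (the whole file, 250 lines).
PROOF.  (a) Let `1 ≤ D ≤ D' ≤ D^2`.  Put `Z = D'^480`, `H = Z^(1/3+1/30)`.  `main_est ε` for `D` and for
`D'` (both are `≤ Z^(1/480)`): with `D, D' ≤ Z^(1/480)` the brackets are at most
`Z^(.55) + Z^(2/3)/D^(1/6) + Z^(35/480+11/30) + Z^(2/480+1/2) + Z^(8/480+2/3-1/30)
≤ Z^(2/3)/D^(1/6) + 4 Z^(2/3-1/60)` and `Z^(-1/60) = D'^(-8) ≤ D^(-1/6)`.  `(Z D H)^ε ≤ Z^(3ε) = D'^(1440 ε) ≤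
D^(2880 ε) = D^(1/12)` for `ε = 1/34560`.  Divide by `A0 Z^(2/3) > 0`: `|cD D - cD D'| ≤ C D^(-1/12)`.
(b) So `n ↦ cD (2^n)` is a Cauchy sequence with geometric steps
(`|cD (2^n) - cD (2^(n+1))| ≤ C 2^(-n/12)` for `n ≥ 1`): limit `c`,
`|cD (2^n) - c| ≤ C' 2^(-n/12)` (`cauchySeq_of_le_geometric`, `dist_le_of_le_geometric_of_tendsto`), and
for `2^n ≤ D < 2^(n+1)`, `n ≥ 1`: `|cD D - cD (2^n)| ≤ C 2^(-n/12)`; so `|cD D - c| ≤ C'' D^(-1/12)` for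
all `D ≥ 1`. -/
theorem cD_lim : ∃ c C : ℝ, 1 ≤ C ∧ ∀ D : ℕ, 1 ≤ D → |cD D - c| ≤ C / (D : ℝ) ^ (1 / 12 : ℝ) := by
  obtain ⟨K, hK, h⟩ := h2a_step
  exact h2a_abs cD K hK h

private theorem regime1_aux {z e d : ℝ} (hz : 1 ≤ z) (he : 0 < e) (he' : e ≤ 1 / 30)
    (hd1 : 1 ≤ d) (hd : d ≤ z ^ (e / 16)) (hd' : z ^ (e / 16) ≤ 2 * d) :
    (z ^ (1 / 3 + e)) ^ (3 / 2 : ℝ) + z ^ (2 / 3 : ℝ) / d ^ (1 / 6 : ℝ) +
        d ^ 35 * z ^ (1 / 3 + e) + d ^ 2 * Real.sqrt z + d ^ 8 * z / z ^ (1 / 3 + e) ≤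
      6 * z ^ (2 / 3 - e / 96) := by
  have hz0 : (0 : ℝ) < z := by linarith
  have hd0 : (0 : ℝ) < d := by linarith
  have hmono : ∀ a : ℝ, a ≤ 2 / 3 - e / 96 → z ^ a ≤ z ^ (2 / 3 - e / 96) := fun a ha =>
    Real.rpow_le_rpow_of_exponent_le hz ha
  have hdn : ∀ n : ℕ, d ^ n ≤ z ^ (e / 16 * n) := by
    intro n
    rw [Real.rpow_mul hz0.le, Real.rpow_natCast]
    exact pow_le_pow_left₀ hd0.le hd n
  have t1 : (z ^ (1 / 3 + e)) ^ (3 / 2 : ℝ) ≤ z ^ (2 / 3 - e / 96) := by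
    rw [← Real.rpow_mul hz0.le]
    exact hmono _ (by linarith)
  have t2 : z ^ (2 / 3 : ℝ) / d ^ (1 / 6 : ℝ) ≤ 2 * z ^ (2 / 3 - e / 96) := by
    have h1 : z ^ (e / 96) ≤ 2 * d ^ (1 / 6 : ℝ) := by
      have h2 : (z ^ (e / 16)) ^ (1 / 6 : ℝ) ≤ (2 * d) ^ (1 / 6 : ℝ) :=
        Real.rpow_le_rpow (by positivity) hd' (by norm_num)
      rw [← Real.rpow_mul hz0.le, Real.mul_rpow (by norm_num) hd0.le] at h2
      have h3 : (2 : ℝ) ^ (1 / 6 : ℝ) ≤ 2 := by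
        calc (2 : ℝ) ^ (1 / 6 : ℝ) ≤ 2 ^ (1 : ℝ) :=
              Real.rpow_le_rpow_of_exponent_le (by norm_num) (by norm_num)
          _ = 2 := Real.rpow_one 2
      have h4 : e / 16 * (1 / 6) = e / 96 := by ring
      rw [h4] at h2
      have h5 : (0 : ℝ) ≤ d ^ (1 / 6 : ℝ) := by positivity
      nlinarith
    have h6 : (0 : ℝ) < d ^ (1 / 6 : ℝ) := Real.rpow_pos_of_pos hd0 _
    rw [div_le_iff₀ h6]
    have h7 : z ^ (2 / 3 : ℝ) = z ^ (2 / 3 - e / 96) * z ^ (e / 96) := by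
      rw [← Real.rpow_add hz0]
      congr 1
      ring
    rw [h7]
    have h8 : (0 : ℝ) ≤ z ^ (2 / 3 - e / 96) := by positivity
    nlinarith
  have t3 : d ^ 35 * z ^ (1 / 3 + e) ≤ z ^ (2 / 3 - e / 96) := by
    calc d ^ 35 * z ^ (1 / 3 + e) ≤ z ^ (e / 16 * (35 : ℕ)) * z ^ (1 / 3 + e) :=
          mul_le_mul_of_nonneg_right (hdn 35) (by positivity)
      _ = z ^ (e / 16 * (35 : ℕ) + (1 / 3 + e)) := (Real.rpow_add hz0 _ _).symm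
      _ ≤ z ^ (2 / 3 - e / 96) := hmono _ (by push_cast; linarith)
  have t4 : d ^ 2 * Real.sqrt z ≤ z ^ (2 / 3 - e / 96) := by
    rw [Real.sqrt_eq_rpow]
    calc d ^ 2 * z ^ (1 / 2 : ℝ) ≤ z ^ (e / 16 * (2 : ℕ)) * z ^ (1 / 2 : ℝ) :=
          mul_le_mul_of_nonneg_right (hdn 2) (by positivity)
      _ = z ^ (e / 16 * (2 : ℕ) + 1 / 2) := (Real.rpow_add hz0 _ _).symm
      _ ≤ z ^ (2 / 3 - e / 96) := hmono _ (by push_cast; linarith)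
  have t5 : d ^ 8 * z / z ^ (1 / 3 + e) ≤ z ^ (2 / 3 - e / 96) := by
    have h1 : (0 : ℝ) < z ^ (1 / 3 + e) := Real.rpow_pos_of_pos hz0 _
    rw [div_le_iff₀ h1, ← Real.rpow_add hz0]
    calc d ^ 8 * z ≤ z ^ (e / 16 * (8 : ℕ)) * z :=
          mul_le_mul_of_nonneg_right (hdn 8) hz0.le
      _ = z ^ (e / 16 * (8 : ℕ) + 1) := by rw [Real.rpow_add hz0, Real.rpow_one]
      _ ≤ z ^ (2 / 3 - e / 96 + (1 / 3 + e)) :=
          Real.rpow_le_rpow_of_exponent_le hz (by push_cast; linarith)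
  linarith

private theorem regime1_abs {G A x y w E F : ℝ} (hA : 0 ≤ A) (hw : 0 ≤ w)
    (h1 : |G - A * x * w| ≤ E) (h2 : |x - y| * w ≤ F) : |G - A * y * w| ≤ E + A * F := by
  have h3 : G - A * y * w = (G - A * x * w) + A * ((x - y) * w) := by ring
  rw [h3]
  refine (abs_add_le _ _).trans (add_le_add h1 ?_)
  rw [abs_mul, abs_of_nonneg hA, abs_mul, abs_of_nonneg hw]
  exact mul_le_mul_of_nonneg_left h2 hA

/-- PROOF.  Let `0 < ε0 ≤ 1/30`, `H = Z^(1/3+ε0)`, `D = ⌊Z^(ε0/16)⌋₊ ≥ 1`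
(`≥ Z^(ε0/16)/2`).  In `main_est ε`, the bracket is at most `Z^(1/2+3ε0/2) + 2 Z^(2/3-ε0/96) +
Z^(35ε0/16+1/3+ε0) + Z^(ε0/8+1/2) + Z^(ε0/2+2/3-ε0)`; all exponents are `≤ 2/3 - ε0/96`
(`1/2 + 3/60 = .55`, `1/3 + (51/16)/30 < .44`, ..), and
`(Z D H)^ε ≤ Z^(3ε) = Z^(ε0/400)` for `ε = ε0/1200`.  `|A0 (cD D - c)| Z^(2/3) ≤ C Z^(2/3-ε0/192)`. -/
theorem regime1_of (c C0 : ℝ) (hC0 : 1 ≤ C0)
    (hc : ∀ D : ℕ, 1 ≤ D → |cD D - c| ≤ C0 / (D : ℝ) ^ (1 / 12 : ℝ)) :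
    ∀ ε0 : ℝ, 0 < ε0 → ε0 ≤ 1 / 30 → ∃ δ C : ℝ, 0 < δ ∧ 1 ≤ C ∧
    ∀ Z : ℕ, 1 ≤ Z →
      |((GG Z ((Z : ℝ) ^ (1 / 3 + ε0))).card : ℝ) - A0 * c * (Z : ℝ) ^ (2 / 3 : ℝ)| ≤
        C * (Z : ℝ) ^ (2 / 3 - δ) := by
  have hA := A0_pos
  intro ε0 h0 h1
  obtain ⟨C, hC, h⟩ := main_est (ε0 / 1200) (by positivity)
  refine ⟨ε0 / 192, 6 * C + A0 * (2 * C0), by positivity, by
    have : 0 ≤ A0 * (2 * C0) := by positivity
    linarith, ?_⟩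
  intro Z hZ
  obtain ⟨z, hz⟩ : ∃ z : ℝ, z = Z := ⟨_, rfl⟩
  have hz1 : 1 ≤ z := by rw [hz]; exact_mod_cast hZ
  have hz0 : 0 < z := by linarith
  obtain ⟨D, hD⟩ : ∃ D : ℕ, D = ⌊z ^ (ε0 / 16)⌋₊ := ⟨_, rfl⟩
  have hzD : 1 ≤ z ^ (ε0 / 16) := Real.one_le_rpow hz1 (by positivity)
  have hD1 : 1 ≤ D := by
    rw [hD]
    exact (Nat.one_le_floor_iff _).2 hzD
  obtain ⟨d, hd⟩ : ∃ d : ℝ, d = D := ⟨_, rfl⟩
  have hd1 : 1 ≤ d := by rw [hd]; exact_mod_cast hD1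
  have hd0 : 0 < d := by linarith
  have hdle : d ≤ z ^ (ε0 / 16) := by
    rw [hd, hD]
    exact Nat.floor_le (by positivity)
  have hdge : z ^ (ε0 / 16) ≤ 2 * d := by
    have h2 := Nat.lt_floor_add_one (z ^ (ε0 / 16))
    rw [← hD, ← hd] at h2
    linarith
  have hH1 : 1 ≤ z ^ (1 / 3 + ε0) := Real.one_le_rpow hz1 (by positivity)
  have h3 := h Z D (z ^ (1 / 3 + ε0)) hZ hD1 hH1
  rw [← hz, ← hd] at h3
  rw [← hz]
  have h4 := regime1_aux hz1 h0 h1 hd1 hdle hdge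
  have h5 : (z * d * z ^ (1 / 3 + ε0)) ^ (ε0 / 1200) ≤ z ^ (ε0 / 400) := by
    have h6 : z * d * z ^ (1 / 3 + ε0) ≤ z ^ (3 : ℝ) := by
      calc z * d * z ^ (1 / 3 + ε0) ≤ z * z ^ (ε0 / 16) * z ^ (1 / 3 + ε0) :=
            mul_le_mul_of_nonneg_right (mul_le_mul_of_nonneg_left hdle hz0.le) (by positivity)
        _ = z ^ (1 + ε0 / 16 + (1 / 3 + ε0)) := by
            rw [Real.rpow_add hz0 (1 + ε0 / 16), Real.rpow_add hz0 1, Real.rpow_one]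
        _ ≤ z ^ (3 : ℝ) := Real.rpow_le_rpow_of_exponent_le hz1 (by linarith)
    calc (z * d * z ^ (1 / 3 + ε0)) ^ (ε0 / 1200) ≤ (z ^ (3 : ℝ)) ^ (ε0 / 1200) :=
          Real.rpow_le_rpow (by positivity) h6 (by positivity)
      _ = z ^ (ε0 / 400) := by
          rw [← Real.rpow_mul hz0.le]
          congr 1
          ring
  have h7 : |((GG Z (z ^ (1 / 3 + ε0))).card : ℝ) - A0 * cD D * z ^ (2 / 3 : ℝ)| ≤
      6 * C * z ^ (2 / 3 - ε0 / 192) := by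
    have h8 : z ^ (ε0 / 400) * (6 * z ^ (2 / 3 - ε0 / 96)) ≤ 6 * z ^ (2 / 3 - ε0 / 192) := by
      have h9 : z ^ (ε0 / 400) * z ^ (2 / 3 - ε0 / 96) ≤ z ^ (2 / 3 - ε0 / 192) := by
        rw [← Real.rpow_add hz0]
        exact Real.rpow_le_rpow_of_exponent_le hz1 (by linarith)
      linarith
    refine h3.trans ?_
    have h10 : (z * d * z ^ (1 / 3 + ε0)) ^ (ε0 / 1200) *
        ((z ^ (1 / 3 + ε0)) ^ (3 / 2 : ℝ) + z ^ (2 / 3 : ℝ) / d ^ (1 / 6 : ℝ) +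
          d ^ 35 * z ^ (1 / 3 + ε0) + d ^ 2 * Real.sqrt z + d ^ 8 * z / z ^ (1 / 3 + ε0)) ≤
        z ^ (ε0 / 400) * (6 * z ^ (2 / 3 - ε0 / 96)) :=
      mul_le_mul h5 h4 (by positivity) (by positivity)
    calc C * (z * d * z ^ (1 / 3 + ε0)) ^ (ε0 / 1200) *
        ((z ^ (1 / 3 + ε0)) ^ (3 / 2 : ℝ) + z ^ (2 / 3 : ℝ) / d ^ (1 / 6 : ℝ) +
          d ^ 35 * z ^ (1 / 3 + ε0) + d ^ 2 * Real.sqrt z + d ^ 8 * z / z ^ (1 / 3 + ε0))
        = C * ((z * d * z ^ (1 / 3 + ε0)) ^ (ε0 / 1200) *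
        ((z ^ (1 / 3 + ε0)) ^ (3 / 2 : ℝ) + z ^ (2 / 3 : ℝ) / d ^ (1 / 6 : ℝ) +
          d ^ 35 * z ^ (1 / 3 + ε0) + d ^ 2 * Real.sqrt z + d ^ 8 * z / z ^ (1 / 3 + ε0))) := by
          ring
      _ ≤ C * (6 * z ^ (2 / 3 - ε0 / 192)) :=
          mul_le_mul_of_nonneg_left (h10.trans h8) (by linarith)
      _ = 6 * C * z ^ (2 / 3 - ε0 / 192) := by ring
  have h11 : |cD D - c| * z ^ (2 / 3 : ℝ) ≤ 2 * C0 * z ^ (2 / 3 - ε0 / 192) := by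
    have h12 := hc D hD1
    rw [← hd] at h12
    have h13 : z ^ (ε0 / 192) ≤ 2 * d ^ (1 / 12 : ℝ) := by
      have h14 : (z ^ (ε0 / 16)) ^ (1 / 12 : ℝ) ≤ (2 * d) ^ (1 / 12 : ℝ) :=
        Real.rpow_le_rpow (by positivity) hdge (by norm_num)
      rw [← Real.rpow_mul hz0.le, Real.mul_rpow (by norm_num) hd0.le] at h14
      have h15 : (2 : ℝ) ^ (1 / 12 : ℝ) ≤ 2 := by
        calc (2 : ℝ) ^ (1 / 12 : ℝ) ≤ 2 ^ (1 : ℝ) :=
              Real.rpow_le_rpow_of_exponent_le (by norm_num) (by norm_num)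
          _ = 2 := Real.rpow_one 2
      have h16 : ε0 / 16 * (1 / 12) = ε0 / 192 := by ring
      rw [h16] at h14
      have h17 : (0 : ℝ) ≤ d ^ (1 / 12 : ℝ) := by positivity
      nlinarith
    have h18 : (0 : ℝ) < d ^ (1 / 12 : ℝ) := Real.rpow_pos_of_pos hd0 _
    have h19 : z ^ (2 / 3 : ℝ) = z ^ (2 / 3 - ε0 / 192) * z ^ (ε0 / 192) := by
      rw [← Real.rpow_add hz0]
      congr 1
      ring
    have h20 : (0 : ℝ) ≤ z ^ (2 / 3 - ε0 / 192) := by positivity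
    calc |cD D - c| * z ^ (2 / 3 : ℝ) ≤ C0 / d ^ (1 / 12 : ℝ) * z ^ (2 / 3 : ℝ) :=
          mul_le_mul_of_nonneg_right h12 (by positivity)
      _ = C0 * z ^ (2 / 3 - ε0 / 192) * (z ^ (ε0 / 192) / d ^ (1 / 12 : ℝ)) := by
          rw [h19]
          ring
      _ ≤ C0 * z ^ (2 / 3 - ε0 / 192) * 2 := by
          refine mul_le_mul_of_nonneg_left ?_ (by positivity)
          rw [div_le_iff₀ h18]
          exact h13
      _ = 2 * C0 * z ^ (2 / 3 - ε0 / 192) := by ring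
  have h21 := regime1_abs hA.le (by positivity : (0 : ℝ) ≤ z ^ (2 / 3 : ℝ)) h7 h11
  refine h21.trans (le_of_eq ?_)
  ring

theorem regime1 : ∃ c : ℝ, ∀ ε0 : ℝ, 0 < ε0 → ε0 ≤ 1 / 30 → ∃ δ C : ℝ, 0 < δ ∧ 1 ≤ C ∧
    ∀ Z : ℕ, 1 ≤ Z →
      |((GG Z ((Z : ℝ) ^ (1 / 3 + ε0))).card : ℝ) - A0 * c * (Z : ℝ) ^ (2 / 3 : ℝ)| ≤
        C * (Z : ℝ) ^ (2 / 3 - δ) := by
  obtain ⟨c, C0, hC0, hc⟩ := cD_lim
  exact ⟨c, regime1_of c C0 hC0 hc⟩

end Pool.Agent.Helper93.AR
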