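import Pool.Agent.Helper93.AR.H2
import Pool.Agent.Helper93.AR.D3

set_option autoImplicit false

/-! # Project AR, piece H3: the asymptotic formula -/

namespace Pool.Agent.Helper93.AR

open Finset

theorem gg_mem (Z : ℕ) (H : ℝ) (t : ℕ × ℕ) : t ∈ GG Z H ↔
    0 < t.1 ∧ 0 < t.2 ∧ t.1.Coprime t.2 ∧ Pool.Agent.Helper21.EN.rad (ff t) ≤ Z ∧
      ((t.1 + t.2 : ℕ) : ℝ) ≤ H := by
  classical
  unfold GG
  simp only [mem_filter, mem_product, mem_Icc]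
  constructor
  · rintro ⟨⟨⟨h1, _⟩, h2, _⟩, h3, h4, h5⟩
    exact ⟨by omega, by omega, h3, h4, h5⟩
  · rintro ⟨h1, h2, h3, h4, h5⟩
    refine ⟨⟨⟨by omega, ?_⟩, by omega, ?_⟩, h3, h4, h5⟩
    · apply Nat.le_floor
      refine le_trans ?_ h5
      exact_mod_cast (by omega : t.1 ≤ t.1 + t.2)
    · apply Nat.le_floor
      refine le_trans ?_ h5
      exact_mod_cast (by omega : t.2 ≤ t.1 + t.2)

/-- PROOF.  Given `lam > 1/3` let `ε0 = min (lam - 1/3) (1/30)`: `regime1` counts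
the elements with `a + b ≤ Z^(1/3+ε0) ≤ Z^lam`, `regime2 lam ε0` bounds the number of the others.  Take
the smaller `δ` and the sum of the constants. -/
theorem asym_of (c : ℝ) (hc : ∀ ε0 : ℝ, 0 < ε0 → ε0 ≤ 1 / 30 → ∃ δ C : ℝ, 0 < δ ∧ 1 ≤ C ∧
    ∀ Z : ℕ, 1 ≤ Z →
      |((GG Z ((Z : ℝ) ^ (1 / 3 + ε0))).card : ℝ) - A0 * c * (Z : ℝ) ^ (2 / 3 : ℝ)| ≤
        C * (Z : ℝ) ^ (2 / 3 - δ)) :
    ∀ lam : ℝ, 1 / 3 < lam → ∃ δ C : ℝ, 0 < δ ∧ 1 ≤ C ∧ ∀ Z : ℕ, 1 ≤ Z →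
    |((GG Z ((Z : ℝ) ^ lam)).card : ℝ) - A0 * c * (Z : ℝ) ^ (2 / 3 : ℝ)| ≤
      C * (Z : ℝ) ^ (2 / 3 - δ) := by
  classical
  intro lam hlam
  obtain ⟨ε0, he0⟩ : ∃ e : ℝ, e = min (lam - 1 / 3) (1 / 30) := ⟨_, rfl⟩
  have h0 : 0 < ε0 := by
    rw [he0]; exact lt_min (by linarith) (by norm_num)
  have h30 : ε0 ≤ 1 / 30 := by rw [he0]; exact min_le_right _ _
  have hlam' : 1 / 3 + ε0 ≤ lam := by
    have : ε0 ≤ lam - 1 / 3 := by rw [he0]; exact min_le_left _ _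
    linarith
  obtain ⟨δ1, C1, hd1, hC1, h1⟩ := hc ε0 h0 h30
  obtain ⟨δ2, C2, hd2, hC2, h2⟩ := regime2 lam ε0 (by linarith) h0
  refine ⟨min δ1 δ2, C1 + C2, lt_min hd1 hd2, by linarith, fun Z hZ => ?_⟩
  have hZ1 : (1 : ℝ) ≤ (Z : ℝ) := by exact_mod_cast hZ
  have hle : (Z : ℝ) ^ (1 / 3 + ε0) ≤ (Z : ℝ) ^ lam :=
    Real.rpow_le_rpow_of_exponent_le hZ1 hlam'
  have hA : (GG Z ((Z : ℝ) ^ lam)).filter
      (fun t => ((t.1 + t.2 : ℕ) : ℝ) ≤ (Z : ℝ) ^ (1 / 3 + ε0)) =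
      GG Z ((Z : ℝ) ^ (1 / 3 + ε0)) := by
    ext t
    rw [mem_filter, gg_mem, gg_mem]
    constructor
    · rintro ⟨⟨a, b, d, e, _⟩, g⟩
      exact ⟨a, b, d, e, g⟩
    · rintro ⟨a, b, d, e, g⟩
      exact ⟨⟨a, b, d, e, g.trans hle⟩, g⟩
  have hsplit := Finset.card_filter_add_card_filter_not (s := GG Z ((Z : ℝ) ^ lam))
    (fun t : ℕ × ℕ => ((t.1 + t.2 : ℕ) : ℝ) ≤ (Z : ℝ) ^ (1 / 3 + ε0))
  rw [hA] at hsplit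
  have hB := h2 Z ((GG Z ((Z : ℝ) ^ lam)).filter
      (fun t => ¬ ((t.1 + t.2 : ℕ) : ℝ) ≤ (Z : ℝ) ^ (1 / 3 + ε0))) hZ (by
    intro s hs
    rw [mem_filter, gg_mem] at hs
    obtain ⟨⟨a, b, d, e, f⟩, g⟩ := hs
    exact ⟨⟨a, b, d⟩, e, (not_le.mp g).le, f⟩)
  have hA1 := h1 Z hZ
  have e1 : (Z : ℝ) ^ (2 / 3 - δ1) ≤ (Z : ℝ) ^ (2 / 3 - min δ1 δ2) :=
    Real.rpow_le_rpow_of_exponent_le hZ1 (by linarith [min_le_left δ1 δ2])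
  have e2 : (Z : ℝ) ^ (2 / 3 - δ2) ≤ (Z : ℝ) ^ (2 / 3 - min δ1 δ2) :=
    Real.rpow_le_rpow_of_exponent_le hZ1 (by linarith [min_le_right δ1 δ2])
  have hcard : ((GG Z ((Z : ℝ) ^ lam)).card : ℝ) =
      ((GG Z ((Z : ℝ) ^ (1 / 3 + ε0))).card : ℝ) +
      (((GG Z ((Z : ℝ) ^ lam)).filter
      (fun t => ¬ ((t.1 + t.2 : ℕ) : ℝ) ≤ (Z : ℝ) ^ (1 / 3 + ε0))).card : ℝ) := by
    exact_mod_cast hsplit.symm
  rw [hcard]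
  have f1 : C1 * (Z : ℝ) ^ (2 / 3 - δ1) ≤ C1 * (Z : ℝ) ^ (2 / 3 - min δ1 δ2) :=
    mul_le_mul_of_nonneg_left e1 (by linarith)
  have f2 : C2 * (Z : ℝ) ^ (2 / 3 - δ2) ≤ C2 * (Z : ℝ) ^ (2 / 3 - min δ1 δ2) :=
    mul_le_mul_of_nonneg_left e2 (by linarith)
  have hnn : (0 : ℝ) ≤ (((GG Z ((Z : ℝ) ^ lam)).filter
      (fun t => ¬ ((t.1 + t.2 : ℕ) : ℝ) ≤ (Z : ℝ) ^ (1 / 3 + ε0))).card : ℝ) := Nat.cast_nonneg _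
  rw [abs_le] at hA1 ⊢
  rw [add_mul]
  constructor
  · linarith [hA1.1]
  · linarith [hA1.2]

end Pool.Agent.Helper93.AR
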