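import Pool.Agent.Helper93.AR.F2

set_option autoImplicit false

/-! # Project AR, piece X1: densities of periodic conditions -/

namespace Pool.Agent.Helper93.AR

open Finset
open Pool.Agent.Helper21.EN (rad pc rest Tri)

/-- Periodic conditions on pairs. -/
def Per (Q : ℕ) (P : ℕ × ℕ → Prop) : Prop :=
  ∀ a b a' b' : ℕ, a ≡ a' [MOD Q] → b ≡ b' [MOD Q] → (P (a, b) ↔ P (a', b'))

open scoped Classical in
/-- Density in `[1, Q]^2`. -/
noncomputable def dens (Q : ℕ) (P : ℕ × ℕ → Prop) : ℝ :=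
  (((Icc 1 Q ×ˢ Icc 1 Q).filter P).card : ℝ) / (Q : ℝ) ^ 2

/-- Density of `e^2 ∣ ab(a+b)`. -/
noncomputable def kap2 (e : ℕ) : ℝ := dens (e ^ 2) (fun s => e ^ 2 ∣ ff s)

/-- Density of the local condition at `q`. -/
noncomputable def kap1 (q : ℕ) : ℝ := dens (q ^ 2) (Loc q)

/-- The residue in `[1, Q]`. -/
private def x1_r (Q a : ℕ) : ℕ := if a % Q = 0 then Q else a % Q

private theorem x1_r_mem {Q : ℕ} (hQ : 0 < Q) (a : ℕ) : 1 ≤ x1_r Q a ∧ x1_r Q a ≤ Q := by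
  unfold x1_r
  have h := Nat.mod_lt a hQ
  split_ifs with h1
  · exact ⟨hQ, le_rfl⟩
  · exact ⟨Nat.pos_of_ne_zero h1, h.le⟩

private theorem x1_r_mod (Q a : ℕ) : x1_r Q a ≡ a [MOD Q] := by
  unfold x1_r
  split_ifs with h1
  · change Q % Q = a % Q
    rw [Nat.mod_self, h1]
  · exact Nat.mod_modEq a Q

private theorem x1_uniq {Q a a' : ℕ} (h1 : 1 ≤ a) (h2 : a ≤ Q) (h3 : 1 ≤ a') (h4 : a' ≤ Q)
    (h : a ≡ a' [MOD Q]) : a = a' := by
  refine h.eq_of_abs_lt ?_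
  rw [abs_lt]
  constructor <;> omega

/-- PIECE AR-X1 (the whole file, 180 lines).  Chinese remainder theorem.
PROOF.  The map `(a, b) ↦ ((a mod Q1, b mod Q1), (a mod Q2, b mod Q2))` (residues taken in `[1, Q]`) is a
bijection of `[1, Q1 Q2]^2` with `[1,Q1]^2 × [1,Q2]^2` (`Nat.chineseRemainder`, or injectivity by
`Nat.modEq_and_modEq_iff_modEq_mul` and equal cardinalities), and it respects the conditions. -/
theorem dens_mul (Q1 Q2 : ℕ) (h1 : 0 < Q1) (h2 : 0 < Q2) (h : Q1.Coprime Q2)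
    (P1 P2 : ℕ × ℕ → Prop) (hP1 : Per Q1 P1) (hP2 : Per Q2 P2) :
    dens (Q1 * Q2) (fun s => P1 s ∧ P2 s) = dens Q1 P1 * dens Q2 P2 := by
  classical
  have h12 : 0 < Q1 * Q2 := Nat.mul_pos h1 h2
  have key : ((Icc 1 (Q1 * Q2) ×ˢ Icc 1 (Q1 * Q2)).filter (fun s => P1 s ∧ P2 s)).card =
      (((Icc 1 Q1 ×ˢ Icc 1 Q1).filter P1) ×ˢ ((Icc 1 Q2 ×ˢ Icc 1 Q2).filter P2)).card := by
    refine Finset.card_bij (fun s _ => ((x1_r Q1 s.1, x1_r Q1 s.2), (x1_r Q2 s.1, x1_r Q2 s.2)))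
      ?_ ?_ ?_
    · rintro ⟨a, b⟩ hs
      rw [Finset.mem_filter] at hs
      rw [Finset.mem_product, Finset.mem_filter, Finset.mem_filter, Finset.mem_product,
        Finset.mem_product, Finset.mem_Icc, Finset.mem_Icc, Finset.mem_Icc, Finset.mem_Icc]
      exact ⟨⟨⟨x1_r_mem h1 a, x1_r_mem h1 b⟩,
        (hP1 _ _ _ _ (x1_r_mod Q1 a) (x1_r_mod Q1 b)).2 hs.2.1⟩,
        ⟨⟨x1_r_mem h2 a, x1_r_mem h2 b⟩,
        (hP2 _ _ _ _ (x1_r_mod Q2 a) (x1_r_mod Q2 b)).2 hs.2.2⟩⟩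
    · rintro ⟨a, b⟩ hs ⟨a', b'⟩ ht he
      rw [Finset.mem_filter, Finset.mem_product, Finset.mem_Icc, Finset.mem_Icc] at hs ht
      simp only [Prod.mk.injEq] at he
      obtain ⟨⟨e1, e2⟩, e3, e4⟩ := he
      have m1 : a ≡ a' [MOD Q1] :=
        (x1_r_mod Q1 a).symm.trans (by rw [e1]; exact x1_r_mod Q1 a')
      have m2 : a ≡ a' [MOD Q2] :=
        (x1_r_mod Q2 a).symm.trans (by rw [e3]; exact x1_r_mod Q2 a')
      have m3 : b ≡ b' [MOD Q1] :=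
        (x1_r_mod Q1 b).symm.trans (by rw [e2]; exact x1_r_mod Q1 b')
      have m4 : b ≡ b' [MOD Q2] :=
        (x1_r_mod Q2 b).symm.trans (by rw [e4]; exact x1_r_mod Q2 b')
      have m5 := (Nat.modEq_and_modEq_iff_modEq_mul h).1 ⟨m1, m2⟩
      have m6 := (Nat.modEq_and_modEq_iff_modEq_mul h).1 ⟨m3, m4⟩
      have g1 := x1_uniq hs.1.1.1 hs.1.1.2 ht.1.1.1 ht.1.1.2 m5
      have g2 := x1_uniq hs.1.2.1 hs.1.2.2 ht.1.2.1 ht.1.2.2 m6
      exact Prod.ext g1 g2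
    · rintro ⟨⟨x, y⟩, x', y'⟩ hs
      rw [Finset.mem_product, Finset.mem_filter, Finset.mem_filter, Finset.mem_product,
        Finset.mem_product, Finset.mem_Icc, Finset.mem_Icc, Finset.mem_Icc, Finset.mem_Icc] at hs
      obtain ⟨⟨⟨hx, hy⟩, p1⟩, ⟨hx', hy'⟩, p2⟩ := hs
      simp only at hx hy p1 hx' hy' p2
      obtain ⟨c, c1, c2⟩ := Nat.chineseRemainder h x x'
      obtain ⟨c', c1', c2'⟩ := Nat.chineseRemainder h y y'
      have a0 := x1_r_mod (Q1 * Q2) c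
      have b0 := x1_r_mod (Q1 * Q2) c'
      have a1 : x1_r (Q1 * Q2) c ≡ x [MOD Q1] := (a0.of_mul_right Q2).trans c1
      have a2 : x1_r (Q1 * Q2) c ≡ x' [MOD Q2] := (a0.of_mul_left Q1).trans c2
      have b1 : x1_r (Q1 * Q2) c' ≡ y [MOD Q1] := (b0.of_mul_right Q2).trans c1'
      have b2 : x1_r (Q1 * Q2) c' ≡ y' [MOD Q2] := (b0.of_mul_left Q1).trans c2'
      have r1 := x1_uniq (x1_r_mem h1 _).1 (x1_r_mem h1 _).2 hx.1 hx.2 ((x1_r_mod Q1 _).trans a1)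
      have r2 := x1_uniq (x1_r_mem h2 _).1 (x1_r_mem h2 _).2 hx'.1 hx'.2
        ((x1_r_mod Q2 _).trans a2)
      have r3 := x1_uniq (x1_r_mem h1 _).1 (x1_r_mem h1 _).2 hy.1 hy.2 ((x1_r_mod Q1 _).trans b1)
      have r4 := x1_uniq (x1_r_mem h2 _).1 (x1_r_mem h2 _).2 hy'.1 hy'.2
        ((x1_r_mod Q2 _).trans b2)
      refine ⟨(x1_r (Q1 * Q2) c, x1_r (Q1 * Q2) c'), ?_, ?_⟩
      · rw [Finset.mem_filter, Finset.mem_product, Finset.mem_Icc, Finset.mem_Icc]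
        exact ⟨⟨x1_r_mem h12 c, x1_r_mem h12 c'⟩, (hP1 _ _ _ _ a1 b1).2 p1,
          (hP2 _ _ _ _ a2 b2).2 p2⟩
      · simp only
        rw [r1, r2, r3, r4]
  have h1' : (Q1 : ℝ) ≠ 0 := by exact_mod_cast h1.ne'
  have h2' : (Q2 : ℝ) ≠ 0 := by exact_mod_cast h2.ne'
  have e : ((((Icc 1 (Q1 * Q2) ×ˢ Icc 1 (Q1 * Q2)).filter (fun s => P1 s ∧ P2 s)).card : ℕ) : ℝ) /
      ((Q1 * Q2 : ℕ) : ℝ) ^ 2 = dens Q1 P1 * dens Q2 P2 := by
    unfold dens
    rw [key, Finset.card_product]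
    push_cast
    rw [div_mul_div_comm, mul_pow]
  rw [← e]
  unfold dens
  congr!

/-- PROOF.  Every class modulo `Q` contains `m^2` classes modulo `Q m`. -/
theorem dens_scale (Q m : ℕ) (h1 : 0 < Q) (h2 : 0 < m) (P : ℕ × ℕ → Prop) (hP : Per Q P) :
    dens (Q * m) P = dens Q P := by
  classical
  have hQm : ∀ x i : ℕ, 1 ≤ x → x ≤ Q → i < m → 1 ≤ x + Q * i ∧ x + Q * i ≤ Q * m := by
    intro x i hx hx' hi
    refine ⟨by omega, ?_⟩
    calc x + Q * i ≤ Q + Q * i := by omega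
      _ = Q * (i + 1) := by ring
      _ ≤ Q * m := Nat.mul_le_mul_left _ hi
  have key : (((Icc 1 Q ×ˢ Icc 1 Q).filter P) ×ˢ (Finset.range m ×ˢ Finset.range m)).card =
      ((Icc 1 (Q * m) ×ˢ Icc 1 (Q * m)).filter P).card := by
    refine Finset.card_bij (fun s _ => (s.1.1 + Q * s.2.1, s.1.2 + Q * s.2.2)) ?_ ?_ ?_
    · rintro ⟨⟨x, y⟩, i, j⟩ hs
      rw [Finset.mem_product, Finset.mem_filter, Finset.mem_product, Finset.mem_product,
        Finset.mem_Icc, Finset.mem_Icc, Finset.mem_range, Finset.mem_range] at hs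
      obtain ⟨⟨⟨hx, hy⟩, p⟩, hi, hj⟩ := hs
      simp only at hx hy p hi hj
      rw [Finset.mem_filter, Finset.mem_product, Finset.mem_Icc, Finset.mem_Icc]
      refine ⟨⟨hQm x i hx.1 hx.2 hi, hQm y j hy.1 hy.2 hj⟩, ?_⟩
      refine (hP _ _ _ _ ?_ ?_).2 p
      · change (x + Q * i) % Q = x % Q
        exact Nat.add_mul_mod_self_left x Q i
      · change (y + Q * j) % Q = y % Q
        exact Nat.add_mul_mod_self_left y Q j
    · rintro ⟨⟨x, y⟩, i, j⟩ hs ⟨⟨x', y'⟩, i', j'⟩ ht he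
      rw [Finset.mem_product, Finset.mem_filter, Finset.mem_product, Finset.mem_product,
        Finset.mem_Icc, Finset.mem_Icc, Finset.mem_range, Finset.mem_range] at hs ht
      obtain ⟨⟨⟨hx, hy⟩, -⟩, -⟩ := hs
      obtain ⟨⟨⟨hx', hy'⟩, -⟩, -⟩ := ht
      simp only [Prod.mk.injEq] at he hx hy hx' hy'
      obtain ⟨e1, e2⟩ := he
      have aux : ∀ x x' i i' : ℕ, 1 ≤ x → x ≤ Q → 1 ≤ x' → x' ≤ Q → x + Q * i = x' + Q * i' →
          x = x' ∧ i = i' := by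
        intro x x' i i' a1 a2 a3 a4 e
        have m1 : x ≡ x' [MOD Q] := by
          change x % Q = x' % Q
          rw [← Nat.add_mul_mod_self_left x Q i, ← Nat.add_mul_mod_self_left x' Q i', e]
        have m2 := x1_uniq a1 a2 a3 a4 m1
        refine ⟨m2, ?_⟩
        rw [m2] at e
        exact Nat.eq_of_mul_eq_mul_left h1 (Nat.add_left_cancel e)
      obtain ⟨g1, g2⟩ := aux x x' i i' hx.1 hx.2 hx'.1 hx'.2 e1
      obtain ⟨g3, g4⟩ := aux y y' j j' hy.1 hy.2 hy'.1 hy'.2 e2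
      rw [g1, g2, g3, g4]
    · rintro ⟨a, b⟩ hs
      rw [Finset.mem_filter, Finset.mem_product, Finset.mem_Icc, Finset.mem_Icc] at hs
      obtain ⟨⟨ha, hb⟩, p⟩ := hs
      simp only at ha hb
      have aux : ∀ a : ℕ, 1 ≤ a → a ≤ Q * m → (a - 1) % Q + 1 ≤ Q ∧ (a - 1) / Q < m ∧
          ((a - 1) % Q + 1) + Q * ((a - 1) / Q) = a := by
        intro a a1 a2
        have k1 := Nat.mod_lt (a - 1) h1
        have k2 := Nat.mod_add_div (a - 1) Q
        refine ⟨k1, ?_, by omega⟩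
        rw [Nat.div_lt_iff_lt_mul h1, mul_comm m Q]
        omega
      obtain ⟨a1, a2, a3⟩ := aux a ha.1 ha.2
      obtain ⟨b1, b2, b3⟩ := aux b hb.1 hb.2
      refine ⟨(((a - 1) % Q + 1, (b - 1) % Q + 1), ((a - 1) / Q, (b - 1) / Q)), ?_, ?_⟩
      · rw [Finset.mem_product, Finset.mem_filter, Finset.mem_product, Finset.mem_product,
          Finset.mem_Icc, Finset.mem_Icc, Finset.mem_range, Finset.mem_range]
        refine ⟨⟨⟨⟨by simp, a1⟩, by simp, b1⟩, ?_⟩, a2, b2⟩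
        refine (hP _ _ _ _ ?_ ?_).2 p
        · change ((a - 1) % Q + 1) % Q = a % Q
          conv_rhs => rw [← a3, Nat.add_mul_mod_self_left]
        · change ((b - 1) % Q + 1) % Q = b % Q
          conv_rhs => rw [← b3, Nat.add_mul_mod_self_left]
      · simp only
        rw [a3, b3]
  have h1' : (Q : ℝ) ≠ 0 := by exact_mod_cast h1.ne'
  have h2' : (m : ℝ) ≠ 0 := by exact_mod_cast h2.ne'
  rw [Finset.card_product, Finset.card_product, Finset.card_range] at key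
  unfold dens
  rw [← key]
  push_cast
  field_simp

/-- PROOF.  `0 ≤ card ≤ Q^2`. -/
theorem dens_le_one (Q : ℕ) (P : ℕ × ℕ → Prop) : 0 ≤ dens Q P ∧ dens Q P ≤ 1 := by
  classical
  unfold dens
  refine ⟨by positivity, div_le_one_of_le₀ ?_ (by positivity)⟩
  have h1 := Finset.card_filter_le (Icc 1 Q ×ˢ Icc 1 Q) P
  rw [Finset.card_product, Nat.card_Icc, Nat.add_sub_cancel, ← pow_two] at h1
  refine le_trans (le_of_eq ?_) (show ((_ : ℕ) : ℝ) ≤ ((Q ^ 2 : ℕ) : ℝ) from Nat.cast_le.2 h1)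
    |>.trans (le_of_eq (by push_cast; rfl))
  congr!

/-- PROOF.  `loc_periodic` with `e = 1`. -/
theorem per_loc (q : ℕ) (hq : 0 < q) : Per (q ^ 2) (Loc q) := by
  intro a b a' b' ha hb
  have h1 := loc_periodic q 1 hq one_pos a b a' b'
    (by rw [one_pow, mul_one]; exact ha) (by rw [one_pow, mul_one]; exact hb)
  simpa only [one_pow, one_dvd, and_true] using h1

/-- PROOF.  `ff (a,b) ≡ ff (a',b')`. -/
theorem per_sq (e : ℕ) : Per (e ^ 2) (fun s => e ^ 2 ∣ ff s) := by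
  intro a b a' b' ha hb
  have h1 : ff (a, b) ≡ ff (a', b') [MOD e ^ 2] := (ha.mul hb).mul (ha.add hb)
  exact h1.dvd_iff (dvd_refl _)

/-- PROOF.  `rho q e = dens (q^2 e^2) (Loc q ∧ e^2 ∣ ff)` by definition; `dens_mul`. -/
theorem rho_eq (q e : ℕ) (hq : 0 < q) (he : 0 < e) (h : e.Coprime q) :
    rho q e = kap1 q * kap2 e := by
  have h1 := dens_mul (q ^ 2) (e ^ 2) (by positivity) (by positivity)
    (Nat.Coprime.pow 2 2 h.symm) (Loc q) (fun s => e ^ 2 ∣ ff s) (per_loc q hq) (per_sq e)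
  unfold kap1 kap2
  rw [← h1]
  unfold rho dens
  congr!

end Pool.Agent.Helper93.AR
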