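import Pool.Agent.Helper93.AR.X1

set_option autoImplicit false

/-! # Project AR, piece X2: the values of the densities -/

namespace Pool.Agent.Helper93.AR

open Finset
open Pool.Agent.Helper21.EN (rad pc rest Tri)

/-- PIECE AR-X2a (`kap2_mul`, `kap2_prime`, `kap2_one`; 120 lines).
PROOF.  `(m n)^2 ∣ ff s` iff `m^2 ∣ ff s` and `n^2 ∣ ff s` (coprime); `dens_mul`, `per_sq`. -/
theorem kap2_mul (m n : ℕ) (hm : 0 < m) (hn : 0 < n) (h : m.Coprime n) :
    kap2 (m * n) = kap2 m * kap2 n := by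
  have hc : (m ^ 2).Coprime (n ^ 2) := Nat.Coprime.pow 2 2 h
  have hP : (fun s : ℕ × ℕ => (m * n) ^ 2 ∣ ff s) =
      (fun s : ℕ × ℕ => m ^ 2 ∣ ff s ∧ n ^ 2 ∣ ff s) := by
    funext s
    rw [mul_pow]
    apply propext
    exact ⟨fun h1 => ⟨dvd_trans (dvd_mul_right _ _) h1, dvd_trans (dvd_mul_left _ _) h1⟩,
      fun h1 => hc.mul_dvd_of_dvd_of_dvd h1.1 h1.2⟩
  unfold kap2
  rw [hP, mul_pow]
  exact dens_mul (m ^ 2) (n ^ 2) (by positivity) (by positivity) hc _ _ (per_sq m) (per_sq n)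

theorem kap2_one : kap2 1 = 1 := by
  unfold kap2 dens
  simp

/-- Rows whose first entry is prime to `p`. -/
private lemma x2a_row1 (p a : ℕ) (hp : p.Prime) (ha : 1 ≤ a) (haN : a ≤ p ^ 2) (hpa : ¬ p ∣ a)
    [DecidablePred (fun b => p ^ 2 ∣ ff (a, b))] :
    ((Icc 1 (p ^ 2)).filter (fun b => p ^ 2 ∣ ff (a, b))).card = 2 := by
  have hne : a ≠ p ^ 2 := fun h => hpa (h ▸ dvd_pow_self p two_ne_zero)
  have hlt : a < p ^ 2 := lt_of_le_of_ne haN hne
  have hset : (Icc 1 (p ^ 2)).filter (fun b => p ^ 2 ∣ ff (a, b)) = {p ^ 2, p ^ 2 - a} := by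
    ext b
    rw [mem_filter, mem_Icc, mem_insert, mem_singleton]
    constructor
    · rintro ⟨⟨h1, h2⟩, h3⟩
      have hco : Nat.Coprime (p ^ 2) a :=
        Nat.Coprime.pow_left 2 ((Nat.Prime.coprime_iff_not_dvd hp).mpr hpa)
      have h4 : p ^ 2 ∣ b * (a + b) := by
        have : ff (a, b) = a * (b * (a + b)) := by
          unfold ff
          ring
        rw [this] at h3
        exact hco.dvd_of_dvd_mul_left h3
      by_cases hb : p ∣ b
      · have hab : ¬ p ∣ a + b := fun h => hpa ((Nat.dvd_add_left hb).mp h)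
        have hco2 : Nat.Coprime (p ^ 2) (a + b) :=
          Nat.Coprime.pow_left 2 ((Nat.Prime.coprime_iff_not_dvd hp).mpr hab)
        have h5 : p ^ 2 ∣ b := hco2.dvd_of_dvd_mul_right h4
        left
        exact le_antisymm h2 (Nat.le_of_dvd (by omega) h5)
      · have hco2 : Nat.Coprime (p ^ 2) b :=
          Nat.Coprime.pow_left 2 ((Nat.Prime.coprime_iff_not_dvd hp).mpr hb)
        obtain ⟨c, hc⟩ : p ^ 2 ∣ a + b := hco2.dvd_of_dvd_mul_left h4
        right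
        have h6 : c < 2 := by
          by_contra hcon
          push Not at hcon
          have := Nat.mul_le_mul_left (p ^ 2) hcon
          omega
        have h7 : c ≠ 0 := by
          rintro rfl
          omega
        have h8 : c = 1 := by omega
        subst h8
        omega
    · rintro (rfl | rfl)
      · refine ⟨⟨by omega, le_rfl⟩, ?_⟩
        unfold ff
        exact dvd_mul_of_dvd_left (dvd_mul_left _ _) _
      · refine ⟨⟨by omega, by omega⟩, ?_⟩
        unfold ff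
        have : a + (p ^ 2 - a) = p ^ 2 := by omega
        simp only [this]
        exact dvd_mul_left _ _
  rw [hset, card_pair (by omega)]

/-- Rows whose first entry is divisible by `p` exactly once. -/
private lemma x2a_row2 (p a : ℕ) (hp : p.Prime) (hpa : p ∣ a) (hpa2 : ¬ p ^ 2 ∣ a)
    [DecidablePred (fun b => p ^ 2 ∣ ff (a, b))] :
    ((Icc 1 (p ^ 2)).filter (fun b => p ^ 2 ∣ ff (a, b))).card = p := by
  obtain ⟨c, rfl⟩ := hpa
  have hc : ¬ p ∣ c := fun h => hpa2 (by rw [sq]; exact Nat.mul_dvd_mul_left p h)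
  have hset : (Icc 1 (p ^ 2)).filter (fun b => p ^ 2 ∣ ff (p * c, b)) =
      (Ioc 0 (p ^ 2)).filter (fun b => p ∣ b) := by
    ext b
    rw [mem_filter, mem_filter, mem_Icc, mem_Ioc]
    have hI : (1 ≤ b ∧ b ≤ p ^ 2) ↔ (0 < b ∧ b ≤ p ^ 2) := Iff.rfl
    rw [hI]
    refine and_congr_right (fun _ => ?_)
    have e : ff (p * c, b) = p * (c * b * (p * c + b)) := by
      unfold ff
      ring
    rw [e, sq, Nat.mul_dvd_mul_iff_left hp.pos]
    constructor
    · intro h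
      rcases (Nat.Prime.dvd_mul hp).mp h with h | h
      · rcases (Nat.Prime.dvd_mul hp).mp h with h | h
        · exact absurd h hc
        · exact h
      · exact (Nat.dvd_add_right (dvd_mul_right p c)).mp h
    · intro h
      exact dvd_mul_of_dvd_left (dvd_mul_of_dvd_right h _) _
  rw [hset, Nat.Ioc_filter_dvd_card_eq_div, sq, Nat.mul_div_cancel _ hp.pos]

/-- PROOF.  Count the pairs in `[1, p^2]^2` with `p^2 ∣ ab(a+b)`: `p ∣ a`, `p ∣ b`: `p^2` pairs (then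
even `p^3 ∣ ff`).  Otherwise `p` divides exactly one of `a, b, a+b` (two of them would give the third
and both `a`, `b`), and `p^2` divides it: `p^2 ∣ a` (`a = p^2`), `p ∤ b`: `p^2 - p` pairs; the same for
`b`; `p^2 ∣ a + b`, `p ∤ a`: for each of the `p^2 - p` values of `a` exactly one `b ∈ [1, p^2]`.  Total
`p^2 + 3 (p^2 - p) = 4 p^2 - 3 p`; divide by `p^4`. -/
theorem kap2_prime (p : ℕ) (hp : p.Prime) : kap2 p = (4 * (p : ℝ) - 3) / (p : ℝ) ^ 3 := by
  classical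
  have hN : 0 < p ^ 2 := pow_pos hp.pos 2
  have hrow : ∀ a ∈ Icc 1 (p ^ 2),
      (∑ b ∈ Icc 1 (p ^ 2), if p ^ 2 ∣ ff (a, b) then (1:ℕ) else 0) =
        2 + (if p ∣ a then p - 2 else 0) + (if a = p ^ 2 then p ^ 2 - p else 0) := by
    intro a ha
    rw [mem_Icc] at ha
    rw [← card_filter]
    have h2 := hp.two_le
    by_cases hpa : p ∣ a
    · by_cases hpa2 : p ^ 2 ∣ a
      · have haN : a = p ^ 2 := le_antisymm ha.2 (Nat.le_of_dvd (by omega) hpa2)
        have hall : (Icc 1 (p ^ 2)).filter (fun b => p ^ 2 ∣ ff (a, b)) = Icc 1 (p ^ 2) := by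
          apply filter_true_of_mem
          intro b _
          unfold ff
          exact dvd_mul_of_dvd_left (dvd_mul_of_dvd_left hpa2 _) _
        rw [hall, Nat.card_Icc, if_pos hpa, if_pos haN]
        have : p ≤ p ^ 2 := by nlinarith
        omega
      · have haN : a ≠ p ^ 2 := fun h => hpa2 (h ▸ dvd_rfl)
        rw [x2a_row2 p a hp hpa hpa2, if_pos hpa, if_neg haN]
        omega
    · have haN : a ≠ p ^ 2 := fun h => hpa (h ▸ dvd_pow_self p two_ne_zero)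
      rw [x2a_row1 p a hp ha.1 ha.2 hpa, if_neg hpa, if_neg haN]
  have hsum : (∑ a ∈ Icc 1 (p ^ 2),
      (2 + (if p ∣ a then p - 2 else 0) + (if a = p ^ 2 then p ^ 2 - p else 0))) + 3 * p
        = 4 * p ^ 2 := by
    rw [sum_add_distrib, sum_add_distrib, sum_const, Nat.card_Icc, sum_ite_eq' ,
      if_pos (mem_Icc.mpr ⟨hN, le_rfl⟩), ← sum_filter, sum_const]
    have hI : Icc 1 (p ^ 2) = Ioc 0 (p ^ 2) := rfl
    rw [hI, Nat.Ioc_filter_dvd_card_eq_div, sq, Nat.mul_div_cancel _ hp.pos]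
    have h2 := hp.two_le
    obtain ⟨k, hk⟩ := Nat.exists_eq_add_of_le h2
    have e1 : p - 2 = k := by omega
    have e2 : p * p - p = p * (k + 1) := by
      rw [hk]
      have : (2 + k) * (2 + k) = (2 + k) * (k + 1) + (2 + k) := by ring
      omega
    rw [e1, e2, hk]
    simp only [smul_eq_mul]
    have e3 : (2 + k) * (2 + k) + 1 - 1 = (2 + k) * (2 + k) := by omega
    rw [e3]
    ring
  have hcard : (((Icc 1 (p ^ 2) ×ˢ Icc 1 (p ^ 2)).filter (fun s => p ^ 2 ∣ ff s)).card : ℝ)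
      = 4 * (p : ℝ) ^ 2 - 3 * p := by
    have : ((Icc 1 (p ^ 2) ×ˢ Icc 1 (p ^ 2)).filter (fun s => p ^ 2 ∣ ff s)).card + 3 * p
        = 4 * p ^ 2 := by
      rw [← hsum, card_filter, sum_product]
      congr 1
      exact sum_congr rfl hrow
    have h3 : ((((Icc 1 (p ^ 2) ×ˢ Icc 1 (p ^ 2)).filter (fun s => p ^ 2 ∣ ff s)).card + 3 * p :
      ℕ) : ℝ) = ((4 * p ^ 2 : ℕ) : ℝ) := by rw [this]
    push_cast at h3
    linarith
  have hp0 : (p : ℝ) ≠ 0 := Nat.cast_ne_zero.mpr hp.ne_zero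
  have hd : kap2 p = (((Icc 1 (p ^ 2) ×ˢ Icc 1 (p ^ 2)).filter (fun s => p ^ 2 ∣ ff s)).card : ℝ) /
      (((p ^ 2 : ℕ) : ℝ)) ^ 2 := by
    unfold kap2 dens
    congr!
  rw [hd, hcard]
  push_cast
  field_simp

private lemma x2b_loc {m n : ℕ} (hm : 0 < m) (hn : 0 < n) (h : m.Coprime n) (s : ℕ × ℕ) :
    Loc (m * n) s ↔ Loc m s ∧ Loc n s := by
  have hu : (m * n).primeFactors = m.primeFactors ∪ n.primeFactors :=
    Nat.primeFactors_mul hm.ne' hn.ne'
  unfold Loc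
  constructor
  · rintro ⟨h1, h2, h3⟩
    have hm2 : m ∣ ff s := (dvd_mul_right m n).trans h2
    have hn2 : n ∣ ff s := (dvd_mul_left n m).trans h2
    refine ⟨⟨Nat.Coprime.coprime_mul_right_right h1, hm2, fun p hp hd => h3 p ?_ ?_⟩,
      ⟨Nat.Coprime.coprime_mul_left_right h1, hn2, fun p hp hd => h3 p ?_ ?_⟩⟩
    · rw [hu]
      exact Finset.mem_union_left _ hp
    · rw [← mul_assoc]
      have h4 : p.Coprime n := Nat.Coprime.coprime_dvd_left (Nat.dvd_of_mem_primeFactors hp) h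
      exact Nat.Coprime.mul_dvd_of_dvd_of_dvd (Nat.Coprime.mul_left h4 h) hd hn2
    · rw [hu]
      exact Finset.mem_union_right _ hp
    · have h4 : p.Coprime m :=
        Nat.Coprime.coprime_dvd_left (Nat.dvd_of_mem_primeFactors hp) h.symm
      have h5 : p * (m * n) = m * (p * n) := by ring
      rw [h5]
      exact Nat.Coprime.mul_dvd_of_dvd_of_dvd (Nat.Coprime.mul_right h4.symm h) hm2 hd
  · rintro ⟨⟨h1, h2, h3⟩, ⟨h1', h2', h3'⟩⟩
    refine ⟨Nat.Coprime.mul_right h1 h1', Nat.Coprime.mul_dvd_of_dvd_of_dvd h h2 h2',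
      fun p hp hd => ?_⟩
    rw [hu, Finset.mem_union] at hp
    rcases hp with hp | hp
    · exact h3 p hp ((mul_dvd_mul_left p (dvd_mul_right m n)).trans hd)
    · exact h3' p hp ((mul_dvd_mul_left p (dvd_mul_left n m)).trans hd)

/-- Divisible by `p^k`, not by `p^(k+1)`. -/
private def x2b_Ex (p k x : ℕ) : Prop := p ^ k ∣ x ∧ ¬ p ^ (k + 1) ∣ x

private lemma x2b_dvd {p : ℕ} (hp : p.Prime) {j x y : ℕ} (h : ¬ p ∣ y) :
    p ^ j ∣ x * y ↔ p ^ j ∣ x := by
  have h1 : (p ^ j).Coprime y := Nat.Coprime.pow_left j ((Nat.Prime.coprime_iff_not_dvd hp).2 h)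
  exact ⟨fun h2 => Nat.Coprime.dvd_of_dvd_mul_right h1 h2, fun h2 => h2.mul_right y⟩

private lemma x2b_Ex_mul {p : ℕ} (hp : p.Prime) {k x y : ℕ} (h : ¬ p ∣ y) :
    x2b_Ex p k (x * y) ↔ x2b_Ex p k x := by
  unfold x2b_Ex
  rw [x2b_dvd hp h, x2b_dvd hp h]

private lemma x2b_Ex_dvd {p k x : ℕ} (hk : 1 ≤ k) (h : x2b_Ex p k x) : p ∣ x :=
  (dvd_pow_self p (by omega)).trans h.1

private lemma x2b_iff {p k : ℕ} (hp : p.Prime) (hk : 1 ≤ k) (a b : ℕ) :
    Loc (p ^ k) (a, b) ↔ (x2b_Ex p k a ∧ ¬ p ∣ b) ∨ (¬ p ∣ a ∧ x2b_Ex p k b) ∨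
      (¬ p ∣ a ∧ x2b_Ex p k (a + b)) := by
  have h0 : Loc (p ^ k) (a, b) ↔ ¬ (p ∣ a ∧ p ∣ b) ∧ x2b_Ex p k (a * b * (a + b)) := by
    unfold Loc x2b_Ex ff
    have h1 : (Nat.gcd a b).Coprime (p ^ k) ↔ ¬ (p ∣ a ∧ p ∣ b) := by
      rw [Nat.coprime_pow_right_iff (by omega), Nat.coprime_comm,
        Nat.Prime.coprime_iff_not_dvd hp, Nat.dvd_gcd_iff]
    have h2 : (p ^ k).primeFactors = {p} := Nat.primeFactors_prime_pow (by omega) hp
    rw [h2]
    simp only [Finset.mem_singleton, forall_eq]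
    rw [h1, pow_succ']
  rw [h0]
  by_cases ha : p ∣ a
  · by_cases hb : p ∣ b
    · constructor
      · rintro ⟨h1, -⟩
        exact absurd ⟨ha, hb⟩ h1
      · rintro (⟨-, h2⟩ | ⟨h2, -⟩ | ⟨h2, -⟩)
        · exact absurd hb h2
        · exact absurd ha h2
        · exact absurd ha h2
    · have hab : ¬ p ∣ a + b := fun h => hb ((Nat.dvd_add_right ha).1 h)
      rw [x2b_Ex_mul hp hab, x2b_Ex_mul hp hb]
      constructor
      · rintro ⟨-, h2⟩
        exact Or.inl ⟨h2, hb⟩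
      · rintro (⟨h2, -⟩ | ⟨h2, -⟩ | ⟨h2, -⟩)
        · exact ⟨fun h => hb h.2, h2⟩
        · exact absurd ha h2
        · exact absurd ha h2
  · by_cases hb : p ∣ b
    · have hab : ¬ p ∣ a + b := fun h => ha ((Nat.dvd_add_left hb).1 h)
      rw [x2b_Ex_mul hp hab, mul_comm a b, x2b_Ex_mul hp ha]
      constructor
      · rintro ⟨-, h2⟩
        exact Or.inr (Or.inl ⟨ha, h2⟩)
      · rintro (⟨-, h2⟩ | ⟨-, h2⟩ | ⟨-, h2⟩)
        · exact absurd hb h2
        · exact ⟨fun h => ha h.1, h2⟩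
        · exact absurd (x2b_Ex_dvd hk h2) hab
    · have hab : ¬ p ∣ a * b := fun h => by
        rcases (Nat.Prime.dvd_mul hp).1 h with h | h
        · exact ha h
        · exact hb h
      rw [mul_comm (a * b) (a + b), x2b_Ex_mul hp hab]
      constructor
      · rintro ⟨-, h2⟩
        exact Or.inr (Or.inr ⟨ha, h2⟩)
      · rintro (⟨h2, -⟩ | ⟨-, h2⟩ | ⟨-, h2⟩)
        · exact absurd (x2b_Ex_dvd hk h2) ha
        · exact absurd (x2b_Ex_dvd hk h2) hb
        · exact ⟨fun h => ha h.1, h2⟩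

private lemma x2b_cardA {p k : ℕ} (hp : p.Prime) (hk : 1 ≤ k) [DecidablePred (x2b_Ex p k)] :
    (((Icc 1 (p ^ (2 * k))).filter (x2b_Ex p k)).card : ℝ) = (p : ℝ) ^ k - (p : ℝ) ^ (k - 1) := by
  have hI : Icc 1 (p ^ (2 * k)) = Ioc 0 (p ^ (2 * k)) := by
    ext x
    simp only [Finset.mem_Icc, Finset.mem_Ioc]
    omega
  have h1 : ((Icc 1 (p ^ (2 * k))).filter (x2b_Ex p k)).card +
      ((Ioc 0 (p ^ (2 * k))).filter (fun x => p ^ (k + 1) ∣ x)).card =
        ((Ioc 0 (p ^ (2 * k))).filter (fun x => p ^ k ∣ x)).card := by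
    rw [hI, ← Finset.card_union_of_disjoint]
    · congr 1
      ext x
      simp only [Finset.mem_union, Finset.mem_filter, x2b_Ex]
      constructor
      · rintro (⟨h1, h2, -⟩ | ⟨h1, h2⟩)
        · exact ⟨h1, h2⟩
        · exact ⟨h1, (pow_dvd_pow p (Nat.le_succ k)).trans h2⟩
      · rintro ⟨h1, h2⟩
        by_cases h3 : p ^ (k + 1) ∣ x
        · exact Or.inr ⟨h1, h3⟩
        · exact Or.inl ⟨h1, h2, h3⟩
    · rw [Finset.disjoint_left]
      intro x hx hx'
      exact (Finset.mem_filter.1 hx).2.2 (Finset.mem_filter.1 hx').2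
  rw [Nat.Ioc_filter_dvd_card_eq_div, Nat.Ioc_filter_dvd_card_eq_div] at h1
  have h2 : p ^ (2 * k) / p ^ (k + 1) = p ^ (k - 1) := by
    rw [Nat.pow_div (by omega) hp.pos]
    congr 1
    omega
  have h3 : p ^ (2 * k) / p ^ k = p ^ k := by
    rw [Nat.pow_div (by omega) hp.pos]
    congr 1
    omega
  rw [h2, h3] at h1
  have h4 : ((((Icc 1 (p ^ (2 * k))).filter (x2b_Ex p k)).card + p ^ (k - 1) : ℕ) : ℝ) =
      ((p ^ k : ℕ) : ℝ) := by rw [h1]
  push_cast at h4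
  linarith

private lemma x2b_cardU {p k : ℕ} (hp : p.Prime) (hk : 1 ≤ k)
    [DecidablePred (fun x : ℕ => ¬ p ∣ x)] :
    (((Icc 1 (p ^ (2 * k))).filter (fun x => ¬ p ∣ x)).card : ℝ) =
      (p : ℝ) ^ (2 * k) - (p : ℝ) ^ (2 * k - 1) := by
  have hI : Icc 1 (p ^ (2 * k)) = Ioc 0 (p ^ (2 * k)) := by
    ext x
    simp only [Finset.mem_Icc, Finset.mem_Ioc]
    omega
  have h1 : ((Ioc 0 (p ^ (2 * k))).filter (fun x => p ∣ x)).card +
      ((Icc 1 (p ^ (2 * k))).filter (fun x => ¬ p ∣ x)).card = p ^ (2 * k) := by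
    rw [hI, ← Finset.card_union_of_disjoint]
    · have h2 : (Ioc 0 (p ^ (2 * k))).filter (fun x => p ∣ x) ∪
          (Ioc 0 (p ^ (2 * k))).filter (fun x => ¬ p ∣ x) = Ioc 0 (p ^ (2 * k)) := by
        ext x
        simp only [Finset.mem_union, Finset.mem_filter]
        tauto
      rw [h2, Nat.card_Ioc]
      omega
    · rw [Finset.disjoint_left]
      intro x hx hx'
      exact (Finset.mem_filter.1 hx').2 (Finset.mem_filter.1 hx).2
  rw [Nat.Ioc_filter_dvd_card_eq_div] at h1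
  have h2 : p ^ (2 * k) / p = p ^ (2 * k - 1) := by
    conv_lhs => rw [← pow_one p, ← pow_mul, one_mul]
    rw [Nat.pow_div (by omega) hp.pos]
  rw [h2] at h1
  have h4 : ((p ^ (2 * k - 1) +
      ((Icc 1 (p ^ (2 * k))).filter (fun x => ¬ p ∣ x)).card : ℕ) : ℝ) =
      ((p ^ (2 * k) : ℕ) : ℝ) := by rw [h1]
  push_cast at h4
  linarith

private lemma x2b_per {p k : ℕ} (hk : 1 ≤ k) :
    Function.Periodic (x2b_Ex p k) (p ^ (2 * k)) := by
  intro x
  have h1 : p ^ k ∣ p ^ (2 * k) := pow_dvd_pow p (by omega)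
  have h2 : p ^ (k + 1) ∣ p ^ (2 * k) := pow_dvd_pow p (by omega)
  unfold x2b_Ex
  rw [Nat.dvd_add_left h1, Nat.dvd_add_left h2]

private lemma x2b_shift {p k : ℕ} (hk : 1 ≤ k) [DecidablePred (x2b_Ex p k)] (a : ℕ) :
    ((Icc 1 (p ^ (2 * k))).filter (fun b => x2b_Ex p k (a + b))).card =
      ((Icc 1 (p ^ (2 * k))).filter (x2b_Ex p k)).card := by
  set Q := p ^ (2 * k) with hQ
  have h0 : ∀ n : ℕ, ((Ico n (n + Q)).filter (x2b_Ex p k)).card = Q.count (x2b_Ex p k) :=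
    fun n => Nat.filter_Ico_card_eq_of_periodic n Q _ (x2b_per hk)
  have h1 : Icc 1 Q = Ico 1 (1 + Q) := by
    ext x
    simp only [Finset.mem_Icc, Finset.mem_Ico]
    omega
  rw [h1, h0 1, ← h0 (a + 1)]
  refine Finset.card_nbij' (fun b => a + b) (fun c => c - a) ?_ ?_ ?_ ?_
  · intro b hb
    simp only [Finset.coe_filter, Finset.mem_Ico, Set.mem_setOf_eq] at hb ⊢
    exact ⟨by omega, hb.2⟩
  · intro c hc
    simp only [Finset.coe_filter, Finset.mem_Ico, Set.mem_setOf_eq] at hc ⊢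
    refine ⟨by omega, ?_⟩
    have h2 : a + (c - a) = c := by omega
    rw [h2]
    exact hc.2
  · intro b _
    simp only
    omega
  · intro c hc
    simp only [Finset.coe_filter, Finset.mem_Ico, Set.mem_setOf_eq] at hc ⊢
    omega

private lemma x2b_card {p k : ℕ} (hp : p.Prime) (hk : 1 ≤ k) [DecidablePred (Loc (p ^ k))] :
    (((Icc 1 (p ^ (2 * k)) ×ˢ Icc 1 (p ^ (2 * k))).filter (Loc (p ^ k))).card : ℝ) =
      3 * (((p : ℝ) ^ k - (p : ℝ) ^ (k - 1)) * ((p : ℝ) ^ (2 * k) - (p : ℝ) ^ (2 * k - 1))) := by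
  classical
  let I := Icc 1 (p ^ (2 * k))
  let A := I.filter (x2b_Ex p k)
  let U := I.filter (fun x => ¬ p ∣ x)
  let T := (I ×ˢ I).filter (fun s => ¬ p ∣ s.1 ∧ x2b_Ex p k (s.1 + s.2))
  have h1 : (I ×ˢ I).filter (Loc (p ^ k)) = (A ×ˢ U) ∪ ((U ×ˢ A) ∪ T) := by
    ext ⟨a, b⟩
    simp only [A, U, T, Finset.mem_union, Finset.mem_filter, Finset.mem_product, x2b_iff hp hk]
    tauto
  have hT : T.card = U.card * A.card := by
    have h2 : ∀ s ∈ T, s.1 ∈ U := by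
      intro s hs
      obtain ⟨hs1, hs2, -⟩ := Finset.mem_filter.1 hs
      exact Finset.mem_filter.2 ⟨(Finset.mem_product.1 hs1).1, hs2⟩
    rw [Finset.card_eq_sum_card_fiberwise h2, Finset.sum_const_nat (m := A.card)]
    intro a ha
    obtain ⟨ha1, ha2⟩ := Finset.mem_filter.1 ha
    rw [← x2b_shift hk a]
    refine Finset.card_nbij' (fun s => s.2) (fun b => (a, b)) ?_ ?_ ?_ ?_
    · rintro ⟨a', b⟩ hs
      simp only [T, Finset.coe_filter, Finset.mem_filter, Finset.mem_product,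
        Set.mem_setOf_eq] at hs ⊢
      obtain ⟨⟨⟨h3, h4⟩, h5, h6⟩, h7⟩ := hs
      subst h7
      exact ⟨h4, h6⟩
    · intro b hb
      simp only [T, Finset.coe_filter, Finset.mem_filter, Finset.mem_product,
        Set.mem_setOf_eq] at hb ⊢
      exact ⟨⟨⟨ha1, hb.1⟩, ha2, hb.2⟩, trivial⟩
    · rintro ⟨a', b⟩ hs
      simp only [T, Finset.coe_filter, Finset.mem_filter, Finset.mem_product,
        Set.mem_setOf_eq] at hs ⊢
      rw [hs.2]
    · intro b _
      rfl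
  have hd1 : Disjoint (A ×ˢ U) ((U ×ˢ A) ∪ T) := by
    rw [Finset.disjoint_left]
    rintro ⟨a, b⟩ h3 h4
    have h5 : p ∣ a := x2b_Ex_dvd hk (Finset.mem_filter.1 (Finset.mem_product.1 h3).1).2
    rcases Finset.mem_union.1 h4 with h6 | h6
    · exact (Finset.mem_filter.1 (Finset.mem_product.1 h6).1).2 h5
    · exact (Finset.mem_filter.1 h6).2.1 h5
  have hd2 : Disjoint (U ×ˢ A) T := by
    rw [Finset.disjoint_left]
    rintro ⟨a, b⟩ h3 h4
    have h5 : p ∣ b := x2b_Ex_dvd hk (Finset.mem_filter.1 (Finset.mem_product.1 h3).2).2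
    obtain ⟨-, h6, h7⟩ := Finset.mem_filter.1 h4
    exact h6 ((Nat.dvd_add_left h5).1 (x2b_Ex_dvd hk h7))
  have hA : (A.card : ℝ) = (p : ℝ) ^ k - (p : ℝ) ^ (k - 1) := x2b_cardA hp hk
  have hU : (U.card : ℝ) = (p : ℝ) ^ (2 * k) - (p : ℝ) ^ (2 * k - 1) := x2b_cardU hp hk
  change (((I ×ˢ I).filter (Loc (p ^ k))).card : ℝ) = _
  rw [h1, Finset.card_union_of_disjoint hd1, Finset.card_union_of_disjoint hd2, hT,
    Finset.card_product, Finset.card_product]
  push_cast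
  rw [hA, hU]
  ring

/-- PIECE AR-X2b (`kap1_mul`, `kap1_prime_pow`, `kap1_one`; 180 lines).
PROOF.  `Loc (m n) s` iff `Loc m s` and `Loc n s` for coprime `m, n`: the first two conditions are
clear; for `p ∣ m`: given `m ∣ ff s`, `n ∣ ff s`: `p m n ∣ ff s` iff `p m ∣ ff s` (`p m` and `n` are
coprime).  `dens_mul`, `per_loc`. -/
theorem kap1_mul (m n : ℕ) (hm : 0 < m) (hn : 0 < n) (h : m.Coprime n) :
    kap1 (m * n) = kap1 m * kap1 n := by
  have h1 : Loc (m * n) = fun s => Loc m s ∧ Loc n s :=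
    funext fun s => propext (x2b_loc hm hn h s)
  unfold kap1
  rw [mul_pow, h1]
  exact dens_mul (m ^ 2) (n ^ 2) (by positivity) (by positivity) (Nat.Coprime.pow 2 2 h) _ _
    (per_loc m hm) (per_loc n hn)

theorem kap1_one : kap1 1 = 1 := by
  classical
  have h1 : ∀ s, Loc 1 s := by
    intro s
    unfold Loc
    simp
  unfold kap1 dens
  rw [Finset.filter_true_of_mem fun s _ => h1 s]
  simp

/-- PROOF.  `Loc (p^k) (a,b)`: `p` does not divide both `a` and `b`, `p^k` divides `ff` and `p^(k+1)`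
does not.  So exactly one of `a, b, a+b` is divisible by `p` (`k ≥ 1`), by `p^k` and not by `p^(k+1)`.
In `[1, p^(2k)]` there are `p^k - p^(k-1)` multiples of `p^k` which are not multiples of `p^(k+1)`
(`k + 1 ≤ 2k`) and `p^(2k) - p^(2k-1)` integers prime to `p`.  Each of the three cases has
`(p^k - p^(k-1)) (p^(2k) - p^(2k-1)) = (p-1)^2 p^(3k-2)` pairs (third case: `(a, b) ↦ (a, a+b mod
p^(2k))` is a bijection).  Divide by `p^(4k)`. -/
theorem kap1_prime_pow (p k : ℕ) (hp : p.Prime) (hk : 1 ≤ k) :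
    kap1 (p ^ k) = 3 * (1 - 1 / (p : ℝ)) ^ 2 / (p : ℝ) ^ k := by
  classical
  have hp0 : (p : ℝ) ≠ 0 := by exact_mod_cast hp.ne_zero
  obtain ⟨j, rfl⟩ : ∃ j, k = j + 1 := ⟨k - 1, by omega⟩
  have e1 : (p ^ (j + 1)) ^ 2 = p ^ (2 * (j + 1)) := by
    rw [← pow_mul, mul_comm]
  unfold kap1 dens
  rw [e1, x2b_card hp hk]
  have e2 : j + 1 - 1 = j := by omega
  have e3 : 2 * (j + 1) - 1 = 2 * j + 1 := by omega
  rw [e2, e3]
  push_cast
  field_simp
  ring

end Pool.Agent.Helper93.AR
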