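import Pool.Agent.Helper93.AR.X2

set_option autoImplicit false

/-! # Project AR, piece X3: summability -/

namespace Pool.Agent.Helper93.AR

open Finset
open Pool.Agent.Helper21.EN (rad pc rest Tri)

/-- PIECE AR-X3a (80 lines).  Summability of a nonnegative multiplicative function.
PROOF.  A finite set `u` of positive integers lies in the `N`-smooth numbers for some `N`, so
`∑_(n ∈ u) f n ≤ ∏_(p < N) ∑'_k f (p^k) ≤ ∏ (1 + t p) ≤ exp (∑' t p)`
(`EulerProduct.summable_and_hasSum_smoothNumbers_prod_primesBelow_tsum`); then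
`summable_of_sum_le`. -/
theorem summable_mult (f : ℕ → ℝ) (h0 : f 0 = 0) (h1 : f 1 = 1)
    (hmul : ∀ m n : ℕ, m.Coprime n → f (m * n) = f m * f n) (hnn : ∀ n, 0 ≤ f n)
    (t : ℕ → ℝ) (ht : Summable (fun p : Nat.Primes => t p))
    (hs : ∀ p : ℕ, p.Prime → Summable (fun k : ℕ => f (p ^ k)))
    (hp : ∀ p : ℕ, p.Prime → ∑' k : ℕ, f (p ^ (k + 1)) ≤ t p) : Summable f := by
  classical
  have hsn : ∀ {p : ℕ}, p.Prime → Summable (fun n : ℕ => ‖f (p ^ n)‖) := by
    intro p hpp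
    have : (fun n : ℕ => ‖f (p ^ n)‖) = fun n : ℕ => f (p ^ n) := by
      funext n
      exact Real.norm_of_nonneg (hnn _)
    rw [this]
    exact hs p hpp
  have ht0 : ∀ p : ℕ, p.Prime → 0 ≤ t p := fun p hpp =>
    (tsum_nonneg (fun k => hnn _)).trans (hp p hpp)
  have hti : Summable (Set.indicator {p : ℕ | p.Prime} t) :=
    summable_subtype_iff_indicator.1 ht
  refine summable_of_sum_le (c := Real.exp (∑' p, Set.indicator {p : ℕ | p.Prime} t p)) hnn ?_
  intro u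
  obtain ⟨-, h2⟩ := EulerProduct.summable_and_hasSum_smoothNumbers_prod_primesBelow_tsum
    (f := f) h1 (fun {m n} h => hmul m n h) hsn (u.sup id + 1)
  have h3 : HasSum (Set.indicator (Nat.smoothNumbers (u.sup id + 1)) f)
      (∏ p ∈ (u.sup id + 1).primesBelow, ∑' n : ℕ, f (p ^ n)) :=
    hasSum_subtype_iff_indicator.1 h2
  have h4 : ∑ n ∈ u, f n = ∑ n ∈ u, Set.indicator (Nat.smoothNumbers (u.sup id + 1)) f n := by
    apply Finset.sum_congr rfl
    intro n hn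
    rcases Nat.eq_zero_or_pos n with h | h
    · subst h
      rw [h0]
      symm
      by_cases hm : (0 : ℕ) ∈ Nat.smoothNumbers (u.sup id + 1)
      · rw [Set.indicator_of_mem hm, h0]
      · exact Set.indicator_of_notMem hm _
    · have hle : n ≤ u.sup id := Finset.le_sup (f := id) hn
      rw [Set.indicator_of_mem (Nat.mem_smoothNumbers_of_lt h (by omega))]
  have hexp : ∀ p ∈ (u.sup id + 1).primesBelow, ∑' n : ℕ, f (p ^ n) ≤ Real.exp (t p) := by
    intro p hpp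
    have hp' : p.Prime := (Nat.mem_primesBelow.1 hpp).2
    rw [(hs p hp').tsum_eq_zero_add, pow_zero, h1]
    have := hp p hp'
    have h5 := Real.add_one_le_exp (t p)
    linarith
  have hsub : ∑ p ∈ (u.sup id + 1).primesBelow, t p ≤
      ∑' p, Set.indicator {p : ℕ | p.Prime} t p := by
    have h6 : ∑ p ∈ (u.sup id + 1).primesBelow, t p =
        ∑ p ∈ (u.sup id + 1).primesBelow, Set.indicator {p : ℕ | p.Prime} t p := by
      apply Finset.sum_congr rfl
      intro p hpp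
      rw [Set.indicator_of_mem]
      exact (Nat.mem_primesBelow.1 hpp).2
    rw [h6]
    apply hti.sum_le_tsum
    intro p _
    exact Set.indicator_nonneg (fun q hq => ht0 q hq) p
  calc ∑ n ∈ u, f n = ∑ n ∈ u, Set.indicator (Nat.smoothNumbers (u.sup id + 1)) f n := h4
    _ ≤ ∏ p ∈ (u.sup id + 1).primesBelow, ∑' n : ℕ, f (p ^ n) :=
        sum_le_hasSum _ (fun n _ => Set.indicator_nonneg (fun m _ => hnn m) n) h3
    _ ≤ ∏ p ∈ (u.sup id + 1).primesBelow, Real.exp (t p) :=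
        Finset.prod_le_prod (fun p _ => tsum_nonneg (fun k => hnn _)) hexp
    _ = Real.exp (∑ p ∈ (u.sup id + 1).primesBelow, t p) := (Real.exp_sum _ _).symm
    _ ≤ _ := Real.exp_le_exp.2 hsub

/-- Factor at `p` of the density of the squarefree part. -/
noncomputable def uu (p : ℕ) : ℝ := 1 - kap2 p

/-- The signed density. -/
noncomputable def KK (e : ℕ) : ℝ := (ArithmeticFunction.moebius e : ℝ) * kap2 e

open scoped Classical in
/-- The weight of a powerful number. -/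
noncomputable def Gq (q : ℕ) : ℝ :=
  if 0 < q ∧ rest {1} q = q then kap1 q * ((q : ℝ) / (rad q : ℝ)) ^ (2 / 3 : ℝ) else 0

/-- The weight divided by the factors `uu p`, `p ∣ q`. -/
noncomputable def Gu (q : ℕ) : ℝ := Gq q * ∏ p ∈ q.primeFactors, (uu p)⁻¹

/-- PIECE AR-X3b (the rest of the file, 250 lines).
PROOF.  `uu p = 1 - (4p-3)/p^3 = (p-1)(p^2+p-3)/p^3`, `≥ 3/8` for `p ≥ 2`; `≤ 1`. -/
theorem uu_bounds (p : ℕ) (hp : p.Prime) : 3 / 8 ≤ uu p ∧ uu p ≤ 1 := by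
  have h2 : (2 : ℝ) ≤ (p : ℝ) := by exact_mod_cast hp.two_le
  have h3 : (0 : ℝ) < (p : ℝ) ^ 3 := by positivity
  unfold uu
  rw [kap2_prime p hp]
  constructor
  · have h4 : (4 * (p : ℝ) - 3) / (p : ℝ) ^ 3 ≤ 5 / 8 := by
      rw [div_le_iff₀ h3]
      nlinarith [mul_nonneg (sub_nonneg.mpr h2) (sub_nonneg.mpr h2),
        mul_nonneg (mul_nonneg (sub_nonneg.mpr h2) (sub_nonneg.mpr h2)) (sub_nonneg.mpr h2)]
    linarith
  · have h4 : 0 ≤ (4 * (p : ℝ) - 3) / (p : ℝ) ^ 3 := div_nonneg (by linarith) h3.le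
    linarith

private theorem x3b_KK_zero : KK 0 = 0 := by
  simp [KK]

private theorem x3b_KK_one : KK 1 = 1 := by
  simp [KK, kap2_one]

/-- PROOF.  `moebius` and `kap2` (`kap2_mul`) are multiplicative (if `m = 0` or `n = 0` both sides are
`0`, or the other factor is `1`: `KK 0 = 0`, `KK 1 = 1`). -/
theorem KK_mul (m n : ℕ) (h : m.Coprime n) : KK (m * n) = KK m * KK n := by
  rcases Nat.eq_zero_or_pos m with hm | hm
  · rw [hm, zero_mul, x3b_KK_zero, zero_mul]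
  rcases Nat.eq_zero_or_pos n with hn | hn
  · rw [hn, mul_zero, x3b_KK_zero, mul_zero]
  unfold KK
  rw [kap2_mul m n hm hn h,
    ArithmeticFunction.isMultiplicative_moebius.map_mul_of_coprime h]
  push_cast
  ring

private theorem x3b_KK_high (p k : ℕ) (hp : p.Prime) (hk : 2 ≤ k) : KK (p ^ k) = 0 := by
  have h1 : ArithmeticFunction.moebius (p ^ k) = 0 := by
    rw [ArithmeticFunction.moebius_apply_prime_pow hp (by omega), if_neg (by omega)]
  simp [KK, h1]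

private theorem x3b_KK_prime (p : ℕ) (hp : p.Prime) : |KK p| ≤ 4 / (p : ℝ) ^ 2 := by
  have h2 : (2 : ℝ) ≤ (p : ℝ) := by exact_mod_cast hp.two_le
  have h3 : (0 : ℝ) < (p : ℝ) ^ 3 := by positivity
  have h4 : 0 ≤ (4 * (p : ℝ) - 3) / (p : ℝ) ^ 3 := div_nonneg (by linarith) h3.le
  have h5 : KK p = -((4 * (p : ℝ) - 3) / (p : ℝ) ^ 3) := by
    unfold KK
    rw [ArithmeticFunction.moebius_apply_prime hp, kap2_prime p hp]
    push_cast
    ring
  rw [h5, abs_neg, abs_of_nonneg h4, div_le_div_iff₀ h3 (by positivity)]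
  nlinarith [pow_pos (show (0 : ℝ) < p by linarith) 2]

/-- PROOF.  `summable_mult` for `|KK|`, `|KK p| = kap2 p ≤ 4/p^2`, `KK (p^k) = 0` for `k ≥ 2`. -/
theorem KK_summable : Summable (fun e => |KK e|) := by
  refine summable_mult (fun e => |KK e|) ?_ ?_ ?_ (fun n => abs_nonneg _)
    (fun p => 4 / (p : ℝ) ^ 2) ?_ ?_ ?_
  · simp [x3b_KK_zero]
  · simp [x3b_KK_one]
  · intro m n h
    show |KK (m * n)| = |KK m| * |KK n|
    rw [KK_mul m n h, abs_mul]
  · have h1 : Summable (fun n : ℕ => 4 / (n : ℝ) ^ 2) := by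
      have h2 : Summable (fun n : ℕ => 1 / (n : ℝ) ^ 2) :=
        Real.summable_one_div_nat_pow.mpr (by norm_num)
      refine (h2.mul_left 4).congr fun n => ?_
      ring
    exact h1.comp_injective (i := fun p : Nat.Primes => (p : ℕ)) Nat.Primes.coe_nat_injective
  · intro p hp
    refine summable_of_ne_finset_zero (s := Finset.range 2) fun k hk => ?_
    have hk2 : 2 ≤ k := by
      rw [Finset.mem_range, not_lt] at hk
      exact hk
    show |KK (p ^ k)| = 0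
    rw [x3b_KK_high p k hp hk2, abs_zero]
  · intro p hp
    have h1 : ∑' k : ℕ, |KK (p ^ (k + 1))| = |KK (p ^ (0 + 1))| := by
      refine tsum_eq_single 0 fun k hk => ?_
      rw [x3b_KK_high p (k + 1) hp (by omega), abs_zero]
    show ∑' k : ℕ, |KK (p ^ (k + 1))| ≤ 4 / (p : ℝ) ^ 2
    rw [h1, zero_add, pow_one]
    exact x3b_KK_prime p hp

private theorem x3c_rest_mul (S : Finset ℕ) (m n : ℕ) (h : m.Coprime n) : rest S (m * n) = rest S m * rest S n := by
  classical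
  unfold rest
  rw [h.primeFactors_mul, Finset.filter_union, Finset.prod_union]
  · congr 1
    · have h1 : ∀ p ∈ m.primeFactors, (m * n).factorization p = m.factorization p :=
        fun p hp => Nat.factorization_eq_of_coprime_left h (List.mem_toFinset.1 hp)
      have h2 : m.primeFactors.filter (fun p => (m * n).factorization p ∉ S) =
          m.primeFactors.filter (fun p => m.factorization p ∉ S) :=
        Finset.filter_congr (fun p hp => by rw [h1 p hp])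
      rw [h2]
      exact Finset.prod_congr rfl (fun p hp => by rw [h1 p (Finset.mem_filter.1 hp).1])
    · have h1 : ∀ p ∈ n.primeFactors, (m * n).factorization p = n.factorization p :=
        fun p hp => Nat.factorization_eq_of_coprime_right h (List.mem_toFinset.1 hp)
      have h2 : n.primeFactors.filter (fun p => (m * n).factorization p ∉ S) =
          n.primeFactors.filter (fun p => n.factorization p ∉ S) :=
        Finset.filter_congr (fun p hp => by rw [h1 p hp])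
      rw [h2]
      exact Finset.prod_congr rfl (fun p hp => by rw [h1 p (Finset.mem_filter.1 hp).1])
  · exact Finset.disjoint_filter_filter h.disjoint_primeFactors

private theorem x3c_rad_mul (m n : ℕ) (h : m.Coprime n) : rad (m * n) = rad m * rad n := by
  unfold rad
  rw [h.primeFactors_mul, Finset.prod_union h.disjoint_primeFactors]

private theorem x3c_zero : Gq 0 = 0 := by
  unfold Gq
  rw [if_neg (fun h => absurd h.1 (lt_irrefl _))]

/-- PROOF.  `rest {1} (m n) = rest {1} m * rest {1} n` for coprime `m, n`, so `m n` is powerful iff both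
are (compare prime by prime: `EN.primeFactors_rest`, `EN.rest_dvd`); `rad` and `kap1` are
multiplicative. -/
theorem Gq_mul (m n : ℕ) (h : m.Coprime n) : Gq (m * n) = Gq m * Gq n := by
  rcases Nat.eq_zero_or_pos m with hm | hm
  · subst hm
    rw [zero_mul, x3c_zero, zero_mul]
  rcases Nat.eq_zero_or_pos n with hn | hn
  · subst hn
    rw [mul_zero, x3c_zero, mul_zero]
  have hr := x3c_rest_mul {1} m n h
  by_cases h1 : rest {1} m = m
  · by_cases h2 : rest {1} n = n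
    · unfold Gq
      rw [if_pos ⟨Nat.mul_pos hm hn, by rw [hr, h1, h2]⟩, if_pos ⟨hm, h1⟩, if_pos ⟨hn, h2⟩,
        kap1_mul m n hm hn h, x3c_rad_mul m n h]
      push_cast
      rw [mul_div_mul_comm, Real.mul_rpow (by positivity) (by positivity)]
      ring
    · have e2 : Gq n = 0 := by
        unfold Gq
        rw [if_neg (fun h3 => h2 h3.2)]
      rw [e2, mul_zero]
      unfold Gq
      rw [if_neg]
      rintro ⟨_, h3⟩
      rw [hr, h1] at h3
      exact h2 (Nat.eq_of_mul_eq_mul_left hm h3)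
  · have e1 : Gq m = 0 := by
      unfold Gq
      rw [if_neg (fun h3 => h1 h3.2)]
    rw [e1, zero_mul]
    unfold Gq
    rw [if_neg]
    rintro ⟨_, h3⟩
    rw [hr] at h3
    have h4 := Pool.Agent.Helper21.EN.rest_le hm {1}
    have h5 := Pool.Agent.Helper21.EN.rest_le hn {1}
    have h6 : rest {1} m < m := lt_of_le_of_ne h4 h1
    have h7 : rest {1} m * rest {1} n < m * n :=
      Nat.mul_lt_mul_of_lt_of_le h6 h5 hn
    omega

/-- PROOF.  `p^k`, `k ≥ 2`, is powerful, `rad = p`, so by `kap1_prime_pow`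
`Gq (p^k) = 3 (1-1/p)^2 p^(-k) p^(2(k-1)/3)`; `p^1` is not powerful. -/
theorem Gq_prime_pow (p k : ℕ) (hp : p.Prime) : Gq (p ^ k) =
    if k = 0 then 1 else if k = 1 then 0 else
      3 * (1 - 1 / (p : ℝ)) ^ 2 * (p : ℝ) ^ (-(2 / 3 : ℝ)) * ((p : ℝ) ^ (-(1 / 3 : ℝ))) ^ k := by
  have hp0 : (0 : ℝ) < p := by exact_mod_cast hp.pos
  by_cases h0 : k = 0
  · subst h0
    rw [if_pos rfl, pow_zero]
    unfold Gq
    rw [if_pos ⟨one_pos, by simp [rest]⟩, kap1_one]
    simp [rad]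
  rw [if_neg h0]
  by_cases h1 : k = 1
  · subst h1
    rw [if_pos rfl, pow_one]
    unfold Gq
    rw [if_neg]
    rintro ⟨_, h2⟩
    unfold rest at h2
    rw [hp.primeFactors, Finset.filter_singleton, hp.factorization] at h2
    simp at h2
    exact hp.one_lt.ne h2
  rw [if_neg h1]
  have hk : 2 ≤ k := by omega
  have hpf : (p ^ k).primeFactors = {p} := Nat.primeFactors_prime_pow h0 hp
  have hfac : (p ^ k).factorization p = k := by
    rw [hp.factorization_pow]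
    simp
  have hrest : rest {1} (p ^ k) = p ^ k := by
    unfold rest
    rw [hpf, Finset.filter_singleton, if_pos, Finset.prod_singleton, hfac]
    rw [hfac, Finset.mem_singleton]
    exact h1
  have hrad : rad (p ^ k) = p := by
    unfold rad
    rw [hpf, Finset.prod_singleton]
  unfold Gq
  rw [if_pos ⟨pow_pos hp.pos k, hrest⟩, kap1_prime_pow p k hp (by omega), hrad]
  have e1 : (((p ^ k : ℕ) : ℝ) / (p : ℝ)) = (p : ℝ) ^ ((k : ℝ) - 1) := by
    rw [Real.rpow_sub hp0, Real.rpow_natCast, Real.rpow_one]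
    push_cast
    rfl
  have e2 : (p : ℝ) ^ k = (p : ℝ) ^ (k : ℝ) := (Real.rpow_natCast _ _).symm
  rw [e1, ← Real.rpow_mul hp0.le, ← Real.rpow_natCast ((p : ℝ) ^ (-(1 / 3 : ℝ))) k,
    ← Real.rpow_mul hp0.le, e2, div_eq_mul_inv, ← Real.rpow_neg hp0.le, mul_assoc, mul_assoc,
    mul_assoc, ← Real.rpow_add hp0, ← Real.rpow_add hp0]
  rw [mul_assoc]
  congr 3
  ring

private theorem x3d_Gq_nonneg (q : ℕ) : 0 ≤ Gq q := by
  unfold Gq
  split_ifs with h
  · exact mul_nonneg (dens_le_one _ _).1 (Real.rpow_nonneg (by positivity) _)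
  · exact le_rfl

private theorem x3d_uu_pos (p : ℕ) (hp : p.Prime) : 0 < uu p :=
  lt_of_lt_of_le (by norm_num) (uu_bounds p hp).1

private theorem x3d_prod_ge (q : ℕ) : 1 ≤ ∏ p ∈ q.primeFactors, (uu p)⁻¹ := by
  have h : ∀ p ∈ q.primeFactors, (1 : ℝ) ≤ (uu p)⁻¹ := by
    intro p hp
    have hp' := Nat.prime_of_mem_primeFactors hp
    exact (one_le_inv₀ (x3d_uu_pos p hp')).2 (uu_bounds p hp').2
  calc (1 : ℝ) = ∏ p ∈ q.primeFactors, (1 : ℝ) := by rw [Finset.prod_const_one]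
    _ ≤ _ := Finset.prod_le_prod (fun _ _ => zero_le_one) h

private theorem x3d_Gq_zero : Gq 0 = 0 := by
  simp [Gq]

private theorem x3d_Gu_zero : Gu 0 = 0 := by
  unfold Gu
  rw [x3d_Gq_zero, zero_mul]

private theorem x3d_Gq_one : Gq 1 = 1 := by
  have h := Gq_prime_pow 2 0 Nat.prime_two
  rwa [pow_zero, if_pos rfl] at h

private theorem x3d_Gu_one : Gu 1 = 1 := by
  unfold Gu
  rw [x3d_Gq_one, Nat.primeFactors_one, Finset.prod_empty, mul_one]

private theorem x3d_Gu_mul (m n : ℕ) (h : m.Coprime n) : Gu (m * n) = Gu m * Gu n := by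
  rcases Nat.eq_zero_or_pos m with hm | hm
  · rw [hm, zero_mul, x3d_Gu_zero, zero_mul]
  rcases Nat.eq_zero_or_pos n with hn | hn
  · rw [hn, mul_zero, x3d_Gu_zero, mul_zero]
  unfold Gu
  rw [Gq_mul m n h, Nat.primeFactors_mul hm.ne' hn.ne',
    Finset.prod_union h.disjoint_primeFactors]
  ring

private theorem x3d_x (p : ℕ) (hp : p.Prime) :
    0 < (p : ℝ) ^ (-(1 / 3 : ℝ)) ∧ (p : ℝ) ^ (-(1 / 3 : ℝ)) ≤ 4 / 5 := by
  have h2 : (2 : ℝ) ≤ (p : ℝ) := by exact_mod_cast hp.two_le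
  have hp0 : (0 : ℝ) < p := by linarith
  have hx : 0 < (p : ℝ) ^ (-(1 / 3 : ℝ)) := Real.rpow_pos_of_pos hp0 _
  refine ⟨hx, ?_⟩
  have h3 : ((p : ℝ) ^ (-(1 / 3 : ℝ))) ^ 3 = (p : ℝ)⁻¹ := by
    rw [← Real.rpow_natCast, ← Real.rpow_mul hp0.le]
    norm_num
    rw [Real.rpow_neg_one]
  have h4 : (p : ℝ)⁻¹ ≤ (4 / 5 : ℝ) ^ 3 := by
    have h5 : (p : ℝ)⁻¹ ≤ 2⁻¹ := inv_anti₀ (by norm_num) h2
    refine h5.trans (by norm_num)
  rw [← h3] at h4
  exact le_of_pow_le_pow_left₀ (by norm_num) (by norm_num) h4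

private theorem x3d_Gu_pow (p k : ℕ) (hp : p.Prime) : Gu (p ^ (k + 2)) =
    (3 * (1 - 1 / (p : ℝ)) ^ 2 * (p : ℝ) ^ (-(2 / 3 : ℝ)) * (uu p)⁻¹) *
      ((p : ℝ) ^ (-(1 / 3 : ℝ))) ^ (k + 2) := by
  unfold Gu
  rw [Gq_prime_pow p (k + 2) hp, if_neg (by omega), if_neg (by omega),
    Nat.primeFactors_prime_pow (by omega) hp, Finset.prod_singleton]
  ring

private theorem x3d_Gu_prime (p : ℕ) (hp : p.Prime) : Gu (p ^ 1) = 0 := by
  unfold Gu
  rw [Gq_prime_pow p 1 hp, if_neg (by omega), if_pos rfl, zero_mul]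

private theorem x3d_geo (p : ℕ) (hp : p.Prime) :
    HasSum (fun k : ℕ => Gu (p ^ (k + 2)))
      ((3 * (1 - 1 / (p : ℝ)) ^ 2 * (p : ℝ) ^ (-(2 / 3 : ℝ)) * (uu p)⁻¹) *
      ((p : ℝ) ^ (-(1 / 3 : ℝ))) ^ 2 * (1 - (p : ℝ) ^ (-(1 / 3 : ℝ)))⁻¹) := by
  obtain ⟨hx0, hx1⟩ := x3d_x p hp
  have h1 := (hasSum_geometric_of_lt_one hx0.le (by linarith : (p : ℝ) ^ (-(1 / 3 : ℝ)) < 1)).mul_left
    ((3 * (1 - 1 / (p : ℝ)) ^ 2 * (p : ℝ) ^ (-(2 / 3 : ℝ)) * (uu p)⁻¹) *
      ((p : ℝ) ^ (-(1 / 3 : ℝ))) ^ 2)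
  have h2 : (fun k : ℕ => Gu (p ^ (k + 2))) = fun k : ℕ =>
      ((3 * (1 - 1 / (p : ℝ)) ^ 2 * (p : ℝ) ^ (-(2 / 3 : ℝ)) * (uu p)⁻¹) *
      ((p : ℝ) ^ (-(1 / 3 : ℝ))) ^ 2) * ((p : ℝ) ^ (-(1 / 3 : ℝ))) ^ k := by
    funext k
    rw [x3d_Gu_pow p k hp, pow_add]
    ring
  rw [h2]
  exact h1

/-- PROOF.  `summable_mult`: `∑_(k ≥ 2) Gq (p^k) = 3 (1-1/p)^2 p^(-2/3) p^(-2/3)/(1 - p^(-1/3))
≤ 15 p^(-4/3)` (`p^(-1/3) ≤ 2^(-1/3) < 4/5`), times `1/uu p ≤ 8/3`.  `Gu` is multiplicative. -/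
theorem Gu_summable : Summable Gu := by
  refine summable_mult Gu x3d_Gu_zero x3d_Gu_one x3d_Gu_mul ?_
    (fun p => 40 * (p : ℝ) ^ (-(4 / 3 : ℝ))) ?_ ?_ ?_
  · intro q
    exact mul_nonneg (x3d_Gq_nonneg q) (zero_le_one.trans (x3d_prod_ge q))
  · have h1 : Summable (fun n : ℕ => (n : ℝ) ^ (-(4 / 3 : ℝ))) :=
      Real.summable_nat_rpow.2 (by norm_num)
    exact (h1.mul_left 40).comp_injective (i := fun p : Nat.Primes => (p : ℕ))
      Nat.Primes.coe_nat_injective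
  · intro p hp
    exact (summable_nat_add_iff (f := fun k : ℕ => Gu (p ^ k)) 2).1 (x3d_geo p hp).summable
  · intro p hp
    obtain ⟨hx0, hx1⟩ := x3d_x p hp
    have h2 : (2 : ℝ) ≤ (p : ℝ) := by exact_mod_cast hp.two_le
    have hp0 : (0 : ℝ) < p := by linarith
    have hs : Summable (fun k : ℕ => Gu (p ^ (k + 1))) := by
      have h3 := (x3d_geo p hp).summable
      exact (summable_nat_add_iff (f := fun k : ℕ => Gu (p ^ (k + 1))) 1).1 h3
    rw [hs.tsum_eq_zero_add]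
    have h3 : ∑' k : ℕ, Gu (p ^ (k + 1 + 1)) = _ := (x3d_geo p hp).tsum_eq
    rw [h3, zero_add, x3d_Gu_prime p hp, zero_add]
    have hy : (p : ℝ) ^ (-(2 / 3 : ℝ)) * ((p : ℝ) ^ (-(1 / 3 : ℝ))) ^ 2 =
        (p : ℝ) ^ (-(4 / 3 : ℝ)) := by
      rw [← Real.rpow_natCast, ← Real.rpow_mul hp0.le, ← Real.rpow_add hp0]
      norm_num
    have hy0 : 0 < (p : ℝ) ^ (-(4 / 3 : ℝ)) := Real.rpow_pos_of_pos hp0 _
    have hA : (1 - 1 / (p : ℝ)) ^ 2 ≤ 1 := by
      have h5 : 0 < 1 / (p : ℝ) := by positivity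
      have h6 : 1 / (p : ℝ) ≤ 1 := by
        rw [div_le_one hp0]
        linarith
      exact pow_le_one₀ (by linarith) (by linarith)
    have hA0 : 0 ≤ (1 - 1 / (p : ℝ)) ^ 2 := sq_nonneg _
    have hU : (uu p)⁻¹ ≤ 8 / 3 := by
      have h5 := inv_anti₀ (by norm_num : (0 : ℝ) < 3 / 8) (uu_bounds p hp).1
      refine h5.trans (by norm_num)
    have hU0 : 0 < (uu p)⁻¹ := inv_pos.2 (x3d_uu_pos p hp)
    have hG : (1 - (p : ℝ) ^ (-(1 / 3 : ℝ)))⁻¹ ≤ 5 := by
      have h5 := inv_anti₀ (by norm_num : (0 : ℝ) < 1 / 5)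
        (by linarith : (1 : ℝ) / 5 ≤ 1 - (p : ℝ) ^ (-(1 / 3 : ℝ)))
      refine h5.trans (by norm_num)
    have hG0 : 0 < (1 - (p : ℝ) ^ (-(1 / 3 : ℝ)))⁻¹ := inv_pos.2 (by linarith)
    calc (3 * (1 - 1 / (p : ℝ)) ^ 2 * (p : ℝ) ^ (-(2 / 3 : ℝ)) * (uu p)⁻¹) *
        ((p : ℝ) ^ (-(1 / 3 : ℝ))) ^ 2 * (1 - (p : ℝ) ^ (-(1 / 3 : ℝ)))⁻¹
        = (3 * (p : ℝ) ^ (-(4 / 3 : ℝ))) * ((1 - 1 / (p : ℝ)) ^ 2 *
          ((uu p)⁻¹ * (1 - (p : ℝ) ^ (-(1 / 3 : ℝ)))⁻¹)) := by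
          rw [← hy]
          ring
      _ ≤ (3 * (p : ℝ) ^ (-(4 / 3 : ℝ))) * (1 * (8 / 3 * 5)) := by
          apply mul_le_mul_of_nonneg_left _ (by positivity)
          apply mul_le_mul hA _ (by positivity) (by norm_num)
          exact mul_le_mul hU hG hG0.le (by norm_num)
      _ = 40 * (p : ℝ) ^ (-(4 / 3 : ℝ)) := by ring

/-- PROOF.  `0 ≤ Gq ≤ Gu` (`uu p ≤ 1`). -/
theorem Gq_summable : Summable Gq := by
  refine Summable.of_nonneg_of_le x3d_Gq_nonneg (fun q => ?_) Gu_summable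
  unfold Gu
  exact le_mul_of_one_le_right (x3d_Gq_nonneg q) (x3d_prod_ge q)

end Pool.Agent.Helper93.AR
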